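import Mathlib

/-!
Finite combinatorial core for the 2-density problem.
-/

open Finset

namespace Pool.Agent.TwoDens

variable {V : Type*} [DecidableEq V] (G : SimpleGraph V) [DecidableRel G.Adj]

/-- twice the number of edges inside `X` -/
def e2 (X : Finset V) : ℕ := ∑ x ∈ X, (X.filter (G.Adj x)).card

/-- number of ordered pairs of distinct non-adjacent vertices in `X` -/
def m2 (X : Finset V) : ℕ := ∑ x ∈ X, (X.filter (fun y => y ≠ x ∧ ¬ G.Adj x y)).card

theorem e2_add_m2 (X : Finset V) : e2 G X + m2 G X + X.card = X.card * X.card := by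
  unfold e2 m2
  rw [← Finset.sum_add_distrib]
  have h : ∀ x ∈ X, (X.filter (G.Adj x)).card + (X.filter (fun y => y ≠ x ∧ ¬ G.Adj x y)).card
      = X.card - 1 := by
    intro x hx
    rw [← Finset.card_erase_of_mem hx, ← Finset.card_union_of_disjoint]
    · congr 1
      ext y
      simp only [mem_union, mem_filter, mem_erase]
      constructor
      · rintro (⟨h1, h2⟩ | ⟨h1, h2, h3⟩)
        · exact ⟨fun h => G.loopless.irrefl x (by rw [h] at h2; exact h2), h1⟩
        · exact ⟨h2, h1⟩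
      · rintro ⟨h1, h2⟩
        by_cases h : G.Adj x y
        · exact Or.inl ⟨h2, h⟩
        · exact Or.inr ⟨h2, h1, h⟩
    · rw [Finset.disjoint_left]
      intro y h1 h2
      exact (mem_filter.1 h2).2.2 (mem_filter.1 h1).2
  rw [Finset.sum_congr rfl h, Finset.sum_const, smul_eq_mul]
  rcases Nat.eq_zero_or_pos X.card with h0 | h0
  · simp [h0]
  · obtain ⟨n, hn⟩ : ∃ n, X.card = n + 1 := ⟨X.card - 1, by omega⟩
    rw [hn]; simp; ring

/-- the sparsity condition equivalent to `m_2 < (k+1)/2` -/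
def Sk (k : ℕ) (X : Finset V) : Prop :=
  ∀ Y ⊆ X, 3 ≤ Y.card → e2 G Y + 2 * k + 1 ≤ (k + 1) * Y.card

theorem Sk.mono {k : ℕ} {X Y : Finset V} (h : Sk G k X) (hY : Y ⊆ X) : Sk G k Y :=
  fun Z hZ h3 => h Z (hZ.trans hY) h3

/-- no clique of size `k` -/
theorem Sk.clique_lt {k : ℕ} (hk : 3 ≤ k) {X Y : Finset V} (h : Sk G k X) (hY : Y ⊆ X)
    (hc : m2 G Y = 0) : Y.card < k := by
  by_contra hcon
  push Not at hcon
  obtain ⟨Z, hZ, hZc⟩ := Finset.exists_subset_card_eq hcon
  have h0 : m2 G Z = 0 := by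
    unfold m2 at hc ⊢
    rw [Finset.sum_eq_zero_iff] at hc ⊢
    intro x hx
    have := hc x (hZ hx)
    rw [Finset.card_eq_zero] at this ⊢
    rw [← Finset.subset_empty, ← this]
    exact Finset.filter_subset_filter _ hZ
  have h1 := h Z (hZ.trans hY) (by omega)
  have h2 := e2_add_m2 G Z
  rw [h0, hZc] at h2
  rw [hZc] at h1
  nlinarith

/-- every independent subset of X has at most a elements -/
def Al (a : ℕ) (X : Finset V) : Prop :=
  ∀ I ⊆ X, G.IsIndepSet (I : Set V) → I.card ≤ a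

end Pool.Agent.TwoDens
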