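import Pool.Agent.TwoDens.Defs
import Pool.Agent.TwoDens.Core

open Finset

namespace Pool.Agent.TwoDens

section
variable {V : Type*} [Fintype V] [DecidableEq V] {G : SimpleGraph V} [DecidableRel G.Adj]

omit [DecidableEq V] [DecidableRel G.Adj] in
theorem two_mul_edges (F : G.Subgraph) [DecidableRel F.Adj] :
    2 * F.edgeSet.ncard = ∑ v : V, (univ.filter (fun u => F.Adj v u)).card := by
  classical
  have h1 := F.spanningCoe.sum_degrees_eq_twice_card_edges
  have h2 : F.edgeSet.ncard = F.spanningCoe.edgeFinset.card := by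
    rw [← F.edgeSet_spanningCoe, ← SimpleGraph.coe_edgeFinset, Set.ncard_coe_finset]
  rw [h2, ← h1]
  refine Finset.sum_congr rfl ?_
  intro v _
  rw [← SimpleGraph.card_neighborFinset_eq_degree]
  congr 1
  ext u
  simp

theorem two_mul_edges_le (F : G.Subgraph) (Y : Finset V) (hY : F.verts = (Y : Set V)) :
    2 * F.edgeSet.ncard ≤ e2 G Y := by
  classical
  rw [two_mul_edges, e2, ← Finset.sum_subset (Finset.subset_univ Y)]
  · refine Finset.sum_le_sum ?_
    intro v _
    refine Finset.card_le_card ?_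
    intro u hu
    rw [mem_filter] at hu ⊢
    have h1 : u ∈ F.verts := F.edge_vert hu.2.symm
    rw [hY] at h1
    exact ⟨by exact_mod_cast h1, F.adj_sub hu.2⟩
  · intro v _ hv
    rw [Finset.card_eq_zero, Finset.filter_eq_empty_iff]
    intro u _ h
    have h1 : v ∈ F.verts := F.edge_vert h
    rw [hY] at h1
    exact hv (by exact_mod_cast h1)

theorem exists_sub (G : SimpleGraph V) [DecidableRel G.Adj] (Y : Finset V) :
    ∃ F : G.Subgraph, F.verts = (Y : Set V) ∧ 2 * F.edgeSet.ncard = e2 G Y := by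
  classical
  refine ⟨(⊤ : G.Subgraph).induce (Y : Set V), rfl, ?_⟩
  rw [two_mul_edges, e2, ← Finset.sum_subset (Finset.subset_univ Y)]
  · refine Finset.sum_congr rfl ?_
    intro v hv
    congr 1
    ext u
    simp only [mem_filter, mem_univ, true_and, SimpleGraph.Subgraph.induce_adj,
      SimpleGraph.Subgraph.top_adj, Finset.mem_coe]
    tauto
  · intro v _ hv
    rw [Finset.card_eq_zero, Finset.filter_eq_empty_iff]
    intro u _ h
    rw [SimpleGraph.Subgraph.induce_adj] at h
    exact hv (by exact_mod_cast h.1)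

theorem twoDensity_le {c : ℝ} (hc : 0 ≤ c)
    (h : ∀ Y : Finset V, 3 ≤ Y.card → (e2 G Y : ℝ) ≤ 2 + 2 * c * ((Y.card : ℝ) - 2)) :
    twoDensity G ≤ c := by
  classical
  refine Real.sSup_le ?_ hc
  rintro d ⟨F, hF, rfl⟩
  have h1 : F.verts = ((F.verts.toFinset : Finset V) : Set V) := by simp
  set Y := F.verts.toFinset
  have h2 : F.verts.ncard = Y.card := by rw [h1, Set.ncard_coe_finset]
  rw [h2] at hF ⊢
  have h3 := h Y hF
  have h4 := two_mul_edges_le F Y h1
  have h5 : (2 : ℝ) * F.edgeSet.ncard ≤ e2 G Y := by exact_mod_cast h4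
  have h6 : (3 : ℝ) ≤ Y.card := by exact_mod_cast hF
  rw [div_le_iff₀ (by linarith)]
  linarith

theorem le_twoDensity (G : SimpleGraph V) [DecidableRel G.Adj] {c : ℝ} (Y : Finset V)
    (hY : 3 ≤ Y.card) (h : 2 + 2 * c * ((Y.card : ℝ) - 2) ≤ (e2 G Y : ℝ)) :
    c ≤ twoDensity G := by
  classical
  obtain ⟨F, hF, hFe⟩ := exists_sub G Y
  have hb : BddAbove {d : ℝ | ∃ F : G.Subgraph, 3 ≤ F.verts.ncard ∧
      d = ((F.edgeSet.ncard : ℝ) - 1) / ((F.verts.ncard : ℝ) - 2)} := by
    refine Set.Finite.bddAbove ?_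
    refine (Set.finite_range (fun F : G.Subgraph =>
      ((F.edgeSet.ncard : ℝ) - 1) / ((F.verts.ncard : ℝ) - 2))).subset ?_
    rintro d ⟨F, _, rfl⟩
    exact ⟨F, rfl⟩
  have h2 : F.verts.ncard = Y.card := by rw [hF, Set.ncard_coe_finset]
  refine le_trans ?_ (le_csSup hb ⟨F, by rw [h2]; exact hY, rfl⟩)
  rw [h2]
  have h5 : (2 : ℝ) * F.edgeSet.ncard = e2 G Y := by exact_mod_cast hFe
  have h6 : (3 : ℝ) ≤ Y.card := by exact_mod_cast hY
  rw [le_div_iff₀ (by linarith)]
  linarith

end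

theorem indepNum_lt_iff {V : Type*} [Fintype V] (G : SimpleGraph V) {r : ℕ} :
    G.indepNum < r ↔ ∀ I : Finset V, G.IsIndepSet (I : Set V) → I.card < r := by
  constructor
  · intro h I hI
    exact lt_of_le_of_lt hI.card_le_indepNum h
  · intro h
    obtain ⟨I, hI⟩ := G.exists_isNIndepSet_indepNum
    have := h I hI.isIndepSet
    rw [hI.card_eq] at this
    exact this

/-- upper bounds for `M(m,r)` -/
theorem minTwoDensity_le {m r : ℕ} {c : ℝ} (hc : 0 ≤ c) {V : Type*} [Fintype V] [DecidableEq V]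
    (G : SimpleGraph V) [DecidableRel G.Adj] (hcard : m ≤ Fintype.card V)
    (hα : ∀ I : Finset V, G.IsIndepSet (I : Set V) → I.card < r)
    (hd : ∀ Y : Finset V, 3 ≤ Y.card → (e2 G Y : ℝ) ≤ 2 + 2 * c * ((Y.card : ℝ) - 2)) :
    minTwoDensity m r ≤ c := by
  classical
  obtain ⟨f⟩ : Nonempty (Fin m ↪ V) :=
    Function.Embedding.nonempty_of_card_le (by simpa using hcard)
  let G' : SimpleGraph (Fin m) := G.comap f
  have h1 : G'.indepNum < r := by
    rw [indepNum_lt_iff]
    intro I hI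
    have h2 := hα (I.map f) (by
      intro x hx y hy hxy
      rw [Finset.mem_coe, mem_map] at hx hy
      obtain ⟨x', hx', rfl⟩ := hx
      obtain ⟨y', hy', rfl⟩ := hy
      exact hI hx' hy' (fun h => hxy (by rw [h])))
    rwa [Finset.card_map] at h2
  have h2 : twoDensity G' ≤ c := by
    refine twoDensity_le hc ?_
    intro Y hY
    have h3 := hd (Y.map f) (by rwa [Finset.card_map])
    rw [Finset.card_map] at h3
    have h4 : e2 G' Y = e2 G (Y.map f) := by
      unfold e2
      rw [Finset.sum_map]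
      refine Finset.sum_congr rfl ?_
      intro x _
      rw [Finset.filter_map, Finset.card_map]
      rfl
    rw [h4]
    exact h3
  have hb : BddBelow {d : ℝ | ∃ G : SimpleGraph (Fin m), G.indepNum < r ∧ d = twoDensity G} := by
    refine Set.Finite.bddBelow ?_
    refine (Set.finite_range (fun G : SimpleGraph (Fin m) => twoDensity G)).subset ?_
    rintro d ⟨G, _, rfl⟩
    exact ⟨G, rfl⟩
  exact (csInf_le hb ⟨G', h1, rfl⟩).trans h2

/-- lower bounds for `M(m,r)` -/
theorem le_minTwoDensity {m r : ℕ} {c : ℝ} (hr : 2 ≤ r)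
    (h : ∀ G : SimpleGraph (Fin m), ∀ [DecidableRel G.Adj],
      (∀ I : Finset (Fin m), G.IsIndepSet (I : Set (Fin m)) → I.card < r) →
      ∃ Y : Finset (Fin m), 3 ≤ Y.card ∧ 2 + 2 * c * ((Y.card : ℝ) - 2) ≤ (e2 G Y : ℝ)) :
    c ≤ minTwoDensity m r := by
  classical
  refine le_csInf ?_ ?_
  · refine ⟨_, ⊤, ?_, rfl⟩
    rw [indepNum_lt_iff]
    intro I hI
    have : I.card ≤ 1 := by
      rw [Finset.card_le_one]
      intro x hx y hy
      by_contra hxy
      exact hI hx hy hxy hxy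
    omega
  · rintro d ⟨G, hG, rfl⟩
    obtain ⟨Y, hY, hY2⟩ := h G ((indepNum_lt_iff G).1 hG)
    exact le_twoDensity G Y hY hY2

end Pool.Agent.TwoDens
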