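import Pool.Agent.TwoDens.RK3

open Finset

namespace Pool.Agent.TwoDens.RK

open Pool.Agent.TwoDens

variable {V : Type*} [DecidableEq V] {G : SimpleGraph V} [DecidableRel G.Adj]

section
variable {X : Finset V} {a : ℕ} (H : Hyp G X a) {f : Fin 12 → V} (C : Cfg G X f)
include H C

theorem pfree9 : ∀ i, G.Adj (f 9) (f i) → i = 3 ∨ i = 8 ∨ i = 10 ∨ i = 11 := by
  intro i hi
  have h := pfree H C.s1 (σ1 i) (by
    have : (f ∘ σ1) (σ1 i) = f i := by
      show f (σ1 (σ1 i)) = f i
      congr 1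
      revert i; intro i _; fin_cases i <;> rfl
    rw [this]; exact hi)
  clear hi
  revert h
  revert i
  unfold σ1
  decide

theorem pfree10 : ∀ i, G.Adj (f 10) (f i) → i = 4 ∨ i = 8 ∨ i = 9 ∨ i = 11 := by
  intro i hi
  have h := pfree H C.s2 (σ2 i) (by
    have : (f ∘ σ2) (σ2 i) = f i := by
      show f (σ2 (σ2 i)) = f i
      congr 1
      revert i; intro i _; fin_cases i <;> rfl
    rw [this]; exact hi)
  clear hi
  revert h
  revert i
  unfold σ2
  decide

theorem pfree11 : ∀ i, G.Adj (f 11) (f i) → i = 5 ∨ i = 8 ∨ i = 9 ∨ i = 10 := by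
  intro i hi
  have h := pfree9 H C.s2 (σ2 i) (by
    have : (f ∘ σ2) (σ2 i) = f i := by
      show f (σ2 (σ2 i)) = f i
      congr 1
      revert i; intro i _; fin_cases i <;> rfl
    rw [this]; exact hi)
  clear hi
  revert h
  revert i
  unfold σ2
  decide

theorem e1011 : G.Adj (f 10) (f 11) := e89 H C.s2

theorem case1 (hR : 81 ≤ e2 G (Finset.univ.image f) + 4 * (Finset.univ.image f).card) : False := by
  have hcard : (Finset.univ.image f).card = 12 := by
    rw [Finset.card_image_of_injective _ C.inj]; rfl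
  let D : Fin 12 → ℕ := fun i => (Finset.univ.filter (fun j => G.Adj (f i) (f j))).card
  have hD : ∀ i, (nb G (Finset.univ.image f) (f i)).card = D i := by
    intro i
    have : nb G (Finset.univ.image f) (f i) =
        (Finset.univ.filter (fun j => G.Adj (f i) (f j))).image f := by
      unfold nb
      rw [Finset.filter_image]
    rw [this, Finset.card_image_of_injective _ C.inj]
  have he : e2 G (Finset.univ.image f) = ∑ i, D i := by
    rw [e2_eq, Finset.sum_image (fun i _ j _ h => C.inj h)]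
    exact Finset.sum_congr rfl fun i _ => hD i
  have hD3 : ∀ i, D i ≤ 3 := by
    intro i
    rw [← hD i, ← H.h3 (f i) (C.mem i)]
    refine Finset.card_le_card (Finset.filter_subset_filter _ ?_)
    intro y hy
    obtain ⟨j, _, rfl⟩ := mem_image.1 hy
    exact C.mem j
  have hDle : ∀ i, ∀ s : Finset (Fin 12), (∀ j, G.Adj (f i) (f j) → j ∈ s) → D i ≤ s.card := by
    intro i s hs
    refine Finset.card_le_card ?_
    intro j hj
    exact hs j (mem_filter.1 hj).2
  have h6 : D 6 ≤ 2 := hDle 6 {2, 4} (fun j hj => by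
    rcases xfree H C j hj with h | h <;> rw [h] <;> decide)
  have h7 : D 7 ≤ 2 := hDle 7 {3, 5} (fun j hj => by
    rcases yfree H C j hj with h | h <;> rw [h] <;> decide)
  have E1 := e89 H C
  have E2 := e1011 H C
  have n1 : G.Adj (f 8) (f 10) → G.Adj (f 8) (f 11) → False := fun h1 h2 =>
    H.htf _ _ _ h1 E2 h2
  have n2 : G.Adj (f 8) (f 10) → G.Adj (f 9) (f 10) → False := fun h1 h2 =>
    H.htf _ _ _ E1 h2 h1
  have n3 : G.Adj (f 8) (f 10) → G.Adj (f 9) (f 11) → False := fun h1 h2 =>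
    C.inj.ne (by decide : (9 : Fin 12) ≠ 10) (c4 H (C.mem 8) (C.mem 11) (C.mem 9) (C.mem 10)
      (C.inj.ne (by decide)) E1 h2 h1 E2)
  have n4 : G.Adj (f 8) (f 11) → G.Adj (f 9) (f 10) → False := fun h1 h2 =>
    C.inj.ne (by decide : (9 : Fin 12) ≠ 11) (c4 H (C.mem 8) (C.mem 10) (C.mem 9) (C.mem 11)
      (C.inj.ne (by decide)) E1 h2 h1 E2.symm)
  have n5 : G.Adj (f 8) (f 11) → G.Adj (f 9) (f 11) → False := fun h1 h2 =>
    H.htf _ _ _ E1 h2 h1
  have n6 : G.Adj (f 9) (f 10) → G.Adj (f 9) (f 11) → False := fun h1 h2 =>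
    H.htf _ _ _ h1 E2 h2
  have hsum : D 8 + D 9 + D 10 + D 11 ≤ 10 := by
    have p8 := pfree H C
    have p9 := pfree9 H C
    have p10 := pfree10 H C
    have p11 := pfree11 H C
    by_cases c1 : G.Adj (f 8) (f 10)
    · have h8 : D 8 ≤ 3 := hD3 8
      have h9 : D 9 ≤ 2 := hDle 9 {3, 8} (fun j hj => by
        rcases p9 j hj with rfl | rfl | rfl | rfl
        · decide
        · decide
        · exact absurd hj (n2 c1)
        · exact absurd hj (n3 c1))
      have h10 : D 10 ≤ 3 := hD3 10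
      have h11 : D 11 ≤ 2 := hDle 11 {5, 10} (fun j hj => by
        rcases p11 j hj with rfl | rfl | rfl | rfl
        · decide
        · exact absurd hj.symm (n1 c1)
        · exact absurd hj.symm (n3 c1)
        · decide)
      omega
    · by_cases c2 : G.Adj (f 8) (f 11)
      · have h8 : D 8 ≤ 3 := hD3 8
        have h9 : D 9 ≤ 2 := hDle 9 {3, 8} (fun j hj => by
          rcases p9 j hj with rfl | rfl | rfl | rfl
          · decide
          · decide
          · exact absurd hj (n4 c2)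
          · exact absurd hj (n5 c2))
        have h10 : D 10 ≤ 2 := hDle 10 {4, 11} (fun j hj => by
          rcases p10 j hj with rfl | rfl | rfl | rfl
          · decide
          · exact absurd hj.symm c1
          · exact absurd hj.symm (n4 c2)
          · decide)
        have h11 : D 11 ≤ 3 := hD3 11
        omega
      · have h8 : D 8 ≤ 2 := hDle 8 {2, 9} (fun j hj => by
          rcases p8 j hj with rfl | rfl | rfl | rfl
          · decide
          · decide
          · exact absurd hj c1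
          · exact absurd hj c2)
        by_cases c3 : G.Adj (f 9) (f 10)
        · have h9 : D 9 ≤ 3 := hD3 9
          have h10 : D 10 ≤ 3 := hD3 10
          have h11 : D 11 ≤ 2 := hDle 11 {5, 10} (fun j hj => by
            rcases p11 j hj with rfl | rfl | rfl | rfl
            · decide
            · exact absurd hj.symm c2
            · exact absurd hj.symm (n6 c3)
            · decide)
          omega
        · have h10 : D 10 ≤ 2 := hDle 10 {4, 11} (fun j hj => by
            rcases p10 j hj with rfl | rfl | rfl | rfl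
            · decide
            · exact absurd hj.symm c1
            · exact absurd hj.symm c3
            · decide)
          have h9 : D 9 ≤ 3 := hD3 9
          have h11 : D 11 ≤ 3 := hD3 11
          omega
  have h0 := hD3 0
  have h1 := hD3 1
  have h2 := hD3 2
  have h3 := hD3 3
  have h4 := hD3 4
  have h5 := hD3 5
  have hs : ∑ i, D i = D 0 + D 1 + D 2 + D 3 + D 4 + D 5 + D 6 + D 7 + D 8 + D 9 + D 10 + D 11 := by
    simp only [Fin.sum_univ_succ, Fin.sum_univ_zero]
    simp only [Fin.isValue, add_zero]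
    rw [show (Fin.succ (0 : Fin 11)) = 1 from rfl]
    simp only [← add_assoc]
    rfl
  rw [he, hcard, hs] at hR
  omega

end

section
variable {X : Finset V} {a : ℕ} (H : Hyp G X a)
include H

/-- one known neighbour -/
theorem nb_one {w p : V} (hw : w ∈ X) (hp : p ∈ nb G X w) :
    ∃ q ∈ nb G X w, ∃ r ∈ nb G X w, q ≠ p ∧ r ≠ p ∧ q ≠ r ∧
      ∀ t ∈ X, G.Adj w t → t = p ∨ t = q ∨ t = r := by
  have h1 : ((nb G X w).erase p).card = 2 := by
    rw [Finset.card_erase_of_mem hp, H.h3 w hw]
  obtain ⟨q, r, hqr, h2⟩ := Finset.card_eq_two.1 h1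
  have hq : q ∈ (nb G X w).erase p := by rw [h2]; simp
  have hr : r ∈ (nb G X w).erase p := by rw [h2]; simp
  rw [mem_erase] at hq hr
  refine ⟨q, hq.2, r, hr.2, hq.1, hr.1, hqr, ?_⟩
  intro t ht hwt
  by_cases htp : t = p
  · exact Or.inl htp
  · right
    have : t ∈ (nb G X w).erase p := mem_erase.2 ⟨htp, mem_nb.2 ⟨ht, hwt⟩⟩
    rw [h2, mem_insert, mem_singleton] at this
    exact this

/-- two known neighbours -/
theorem nb_two {w p q : V} (hw : w ∈ X) (hp : p ∈ nb G X w) (hq : q ∈ nb G X w) (hpq : p ≠ q) :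
    ∃ r ∈ nb G X w, ∀ t ∈ X, G.Adj w t → t = p ∨ t = q ∨ t = r := by
  obtain ⟨q', hq', r', hr', h1, h2, h3, h4⟩ := nb_one H hw hp
  rcases h4 q (mem_nb.1 hq).1 (mem_nb.1 hq).2 with h | h | h
  · exact absurd h.symm hpq
  · subst h
    exact ⟨r', hr', h4⟩
  · subst h
    refine ⟨q', hq', ?_⟩
    intro t ht hwt
    rcases h4 t ht hwt with h | h | h
    · exact Or.inl h
    · exact Or.inr (Or.inr h)
    · exact Or.inr (Or.inl h)

theorem main_config {u v p q c d x y : V} (hu : u ∈ X) (hv : v ∈ X) (hp : p ∈ X) (hq : q ∈ X)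
    (hc : c ∈ X) (hd : d ∈ X) (hx : x ∈ X) (hy : y ∈ X) (huv : G.Adj u v) (hup : G.Adj u p)
    (huq : G.Adj u q) (hvc : G.Adj v c) (hvd : G.Adj v d) (hpq : p ≠ q) (hcd : c ≠ d)
    (hpv : p ≠ v) (hqv : q ≠ v) (hcu : c ≠ u) (hdu : d ≠ u)
    (Nu : ∀ t ∈ X, G.Adj u t → t = v ∨ t = p ∨ t = q)
    (Nv : ∀ t ∈ X, G.Adj v t → t = u ∨ t = c ∨ t = d)
    (hpx : G.Adj p x) (hxc : G.Adj x c) (hqy : G.Adj q y) (hyd : G.Adj y d)
    : False := by
  have htf := H.htf
  have hxu : u ≠ x := by
    rintro rfl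
    exact htf _ _ _ huv hvc hxc
  have hxv : v ≠ x := by
    rintro rfl
    exact htf _ _ _ hup hpx huv
  have hyu : u ≠ y := by
    rintro rfl
    exact htf _ _ _ huv hvd hyd
  have hyv : v ≠ y := by
    rintro rfl
    exact htf _ _ _ huq hqy huv
  obtain ⟨p', hp', Np⟩ := nb_two H hp (mem_nb.2 ⟨hu, hup.symm⟩) (mem_nb.2 ⟨hx, hpx⟩) hxu
  obtain ⟨q', hq', Nq⟩ := nb_two H hq (mem_nb.2 ⟨hu, huq.symm⟩) (mem_nb.2 ⟨hy, hqy⟩) hyu
  obtain ⟨c', hc', Nc⟩ := nb_two H hc (mem_nb.2 ⟨hv, hvc.symm⟩) (mem_nb.2 ⟨hx, hxc.symm⟩) hxv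
  obtain ⟨d', hd', Nd⟩ := nb_two H hd (mem_nb.2 ⟨hv, hvd.symm⟩) (mem_nb.2 ⟨hy, hyd.symm⟩) hyv
  rw [mem_nb] at hp' hq' hc' hd'
  have hpc : p ≠ c := by
    rintro rfl; exact htf _ _ _ huv hvc hup
  have hpd : p ≠ d := by
    rintro rfl; exact htf _ _ _ huv hvd hup
  have hqc : q ≠ c := by
    rintro rfl; exact htf _ _ _ huv hvc huq
  have hqd : q ≠ d := by
    rintro rfl; exact htf _ _ _ huv hvd huq
  have n1 : ¬ G.Adj p q := htf _ _ _ hup.symm huq
  have n2 : ¬ G.Adj c d := htf _ _ _ hvc.symm hvd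
  have n3 : ¬ G.Adj p c := fun h => hcu (c4 H hp hv hc hu hpv h hvc.symm hup.symm huv)
  have n4 : ¬ G.Adj p d := fun h => hdu (c4 H hp hv hd hu hpv h hvd.symm hup.symm huv)
  have n5 : ¬ G.Adj q c := fun h => hcu (c4 H hq hv hc hu hqv h hvc.symm huq.symm huv)
  have n6 : ¬ G.Adj q d := fun h => hdu (c4 H hq hv hd hu hqv h hvd.symm huq.symm huv)
  let S : Finset V := {p, q, c, d}
  have hS : S ⊆ X := by
    intro t ht
    simp only [S, mem_insert, mem_singleton] at ht
    rcases ht with rfl | rfl | rfl | rfl <;> assumption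
  have hSc : S.card = 4 := by
    simp only [S]
    rw [Finset.card_insert_of_notMem, Finset.card_insert_of_notMem, Finset.card_pair hcd]
    · simp [hqc, hqd]
    · simp [hpq, hpc, hpd]
  have hSi : G.IsIndepSet (S : Set V) := by
    intro s hs t ht hst
    simp only [S, Finset.mem_coe, mem_insert, mem_singleton] at hs ht
    rcases hs with rfl | rfl | rfl | rfl <;> rcases ht with rfl | rfl | rfl | rfl
    · exact absurd rfl hst
    · exact n1
    · exact n3
    · exact n4
    · exact fun h => n1 h.symm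
    · exact absurd rfl hst
    · exact n5
    · exact n6
    · exact fun h => n3 h.symm
    · exact fun h => n5 h.symm
    · exact absurd rfl hst
    · exact n2
    · exact fun h => n4 h.symm
    · exact fun h => n6 h.symm
    · exact fun h => n2 h.symm
    · exact absurd rfl hst
  have hcount := count4 H hS hSi hSc
  let f : Fin 12 → V := ![u, v, p, q, c, d, x, y, p', q', c', d']
  set R := X.filter (fun y => y ∈ S ∨ ∃ s ∈ S, G.Adj s y) with hR
  have hRf : R ⊆ Finset.univ.image f := by
    intro t ht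
    rw [hR, mem_filter] at ht
    rw [mem_image]
    have hf : ∀ i : Fin 12, f i = t → ∃ a ∈ Finset.univ, f a = t := fun i hi => ⟨i, mem_univ _, hi⟩
    rcases ht with ⟨htX, ht | ⟨s, hs, hst⟩⟩
    · simp only [S, mem_insert, mem_singleton] at ht
      rcases ht with rfl | rfl | rfl | rfl
      · exact hf 2 rfl
      · exact hf 3 rfl
      · exact hf 4 rfl
      · exact hf 5 rfl
    · simp only [S, mem_insert, mem_singleton] at hs
      rcases hs with rfl | rfl | rfl | rfl
      · rcases Np t htX hst with rfl | rfl | rfl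
        · exact hf 0 rfl
        · exact hf 6 rfl
        · exact hf 8 rfl
      · rcases Nq t htX hst with rfl | rfl | rfl
        · exact hf 0 rfl
        · exact hf 7 rfl
        · exact hf 9 rfl
      · rcases Nc t htX hst with rfl | rfl | rfl
        · exact hf 1 rfl
        · exact hf 6 rfl
        · exact hf 10 rfl
      · rcases Nd t htX hst with rfl | rfl | rfl
        · exact hf 1 rfl
        · exact hf 7 rfl
        · exact hf 11 rfl
  have hfc : (Finset.univ.image f).card ≤ 12 := by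
    refine Finset.card_image_le.trans ?_
    simp
  have hRc := Finset.card_le_card hRf
  rcases Nat.lt_or_ge R.card 12 with h12 | h12
  · have h1 : e2 G R ≤ R.card * 3 := by
      rw [e2_eq, ← smul_eq_mul]
      refine Finset.sum_le_card_nsmul _ _ _ ?_
      intro t ht
      rw [← H.h3 t (mem_filter.1 ht).1]
      exact Finset.card_le_card (Finset.filter_subset_filter _ (Finset.filter_subset _ _))
    omega
  · have hRe : R = Finset.univ.image f := Finset.eq_of_subset_of_card_le hRf (by omega)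
    have hinj : Function.Injective f := by
      have h1 : (Finset.univ.image f).card = (Finset.univ : Finset (Fin 12)).card := by
        simp only [Finset.card_univ, Fintype.card_fin]
        omega
      have h2 := Finset.card_image_iff.1 h1
      intro i j hij
      exact h2 (Finset.mem_coe.2 (mem_univ i)) (Finset.mem_coe.2 (mem_univ j)) hij
    have C : Cfg G X f := {
      mem := by
        intro i
        fin_cases i
        · exact hu
        · exact hv
        · exact hp
        · exact hq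
        · exact hc
        · exact hd
        · exact hx
        · exact hy
        · exact hp'.1
        · exact hq'.1
        · exact hc'.1
        · exact hd'.1
      inj := hinj
      Nu := Nu
      Nv := Nv
      Na := Np
      Nb := Nq
      Nc := Nc
      Nd := Nd
      e01 := huv
      e02 := hup
      e03 := huq
      e14 := hvc
      e15 := hvd
      e26 := hpx
      e28 := hp'.2
      e37 := hqy
      e39 := hq'.2
      e46 := hxc.symm
      e4a := hc'.2
      e57 := hyd.symm
      e5b := hd'.2 }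
    rw [hRe] at hcount
    exact case1 H C hcount

theorem no_hyp : False := by
  have hne : X.Nonempty := by
    rw [← Finset.card_pos]
    have := H.hc
    omega
  obtain ⟨u, hu⟩ := hne
  obtain ⟨v, hv⟩ : (nb G X u).Nonempty := by
    rw [← Finset.card_pos, H.h3 u hu]; norm_num
  have huv := (mem_nb.1 hv).2
  have hvX := (mem_nb.1 hv).1
  obtain ⟨p, hp, q, hq, hpv, hqv, hpq, Nu⟩ := nb_one H hu hv
  obtain ⟨c, hc, d, hd, hcu, hdu, hcd, Nv⟩ := nb_one H hvX (mem_nb.2 ⟨hu, huv.symm⟩)
  rw [mem_nb] at hp hq hc hd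
  -- shared neighbours
  let Sh : V → V → Prop := fun s t => ∃ z ∈ X, G.Adj s z ∧ G.Adj z t
  have s1 : Sh p c ∨ Sh p d := by
    obtain ⟨z, hz, w, hw, h1, h2, h3, h4, h5⟩ := pent H hp.1 hu hvX hpv hp.2.symm huv
    rcases Nv z hz h1 with rfl | rfl | rfl
    · exact absurd rfl h4
    · exact Or.inl ⟨w, hw, h3.symm, h2.symm⟩
    · exact Or.inr ⟨w, hw, h3.symm, h2.symm⟩
  have s2 : Sh q c ∨ Sh q d := by
    obtain ⟨z, hz, w, hw, h1, h2, h3, h4, h5⟩ := pent H hq.1 hu hvX hqv hq.2.symm huv
    rcases Nv z hz h1 with rfl | rfl | rfl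
    · exact absurd rfl h4
    · exact Or.inl ⟨w, hw, h3.symm, h2.symm⟩
    · exact Or.inr ⟨w, hw, h3.symm, h2.symm⟩
  have s3 : Sh p c ∨ Sh q c := by
    obtain ⟨z, hz, w, hw, h1, h2, h3, h4, h5⟩ := pent H hc.1 hvX hu hcu hc.2.symm huv.symm
    rcases Nu z hz h1 with rfl | rfl | rfl
    · exact absurd rfl h4
    · exact Or.inl ⟨w, hw, h2, h3⟩
    · exact Or.inr ⟨w, hw, h2, h3⟩
  have s4 : Sh p d ∨ Sh q d := by
    obtain ⟨z, hz, w, hw, h1, h2, h3, h4, h5⟩ := pent H hd.1 hvX hu hdu hd.2.symm huv.symm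
    rcases Nu z hz h1 with rfl | rfl | rfl
    · exact absurd rfl h4
    · exact Or.inl ⟨w, hw, h2, h3⟩
    · exact Or.inr ⟨w, hw, h2, h3⟩
  have hcase : (Sh p c ∧ Sh q d) ∨ (Sh p d ∧ Sh q c) := by
    clear_value Sh
    rcases s1 with h1 | h1
    · rcases s4 with h4 | h4
      · rcases s2 with h2 | h2
        · exact Or.inr ⟨h4, h2⟩
        · exact Or.inl ⟨h1, h2⟩
      · exact Or.inl ⟨h1, h4⟩
    · rcases s3 with h3 | h3
      · rcases s2 with h2 | h2
        · exact Or.inr ⟨h1, h2⟩
        · exact Or.inl ⟨h3, h2⟩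
      · exact Or.inr ⟨h1, h3⟩
  rcases hcase with ⟨⟨x, hx, h1, h2⟩, ⟨y, hy, h3, h4⟩⟩ | ⟨⟨x, hx, h1, h2⟩, ⟨y, hy, h3, h4⟩⟩
  · exact main_config H hu hvX hp.1 hq.1 hc.1 hd.1 hx hy huv hp.2 hq.2 hc.2 hd.2 hpq hcd hpv hqv
      hcu hdu Nu Nv h1 h2 h3 h4
  · refine main_config H hu hvX hp.1 hq.1 hd.1 hc.1 hx hy huv hp.2 hq.2 hd.2 hc.2 hpq hcd.symm hpv
      hqv hdu hcu Nu ?_ h1 h2 h3 h4
    intro t ht h
    rcases Nv t ht h with h | h | h
    · exact Or.inl h
    · exact Or.inr (Or.inr h)
    · exact Or.inr (Or.inl h)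

end

/-- `e ≥ 5 n - 10 α` for triangle-free graphs -/
theorem main (htf : ∀ x y z, G.Adj x y → G.Adj y z → ¬ G.Adj x z) :
    ∀ n : ℕ, ∀ X : Finset V, X.card = n → ∀ a, Al G a X → 10 * X.card ≤ e2 G X + 20 * a := by
  intro n
  induction n using Nat.strong_induction_on with
  | _ n IH =>
    intro X hX a hal
    by_contra hcon
    push Not at hcon
    have ih : ∀ Y : Finset V, Y.card < X.card → ∀ a, Al G a Y → 10 * Y.card ≤ e2 G Y + 20 * a :=
      fun Y hY a ha => IH Y.card (by omega) Y rfl a ha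
    have hcub := cubic htf ih hal hcon
    exact no_hyp (X := X) (a := a) ⟨htf, ih, hal, hcon, fun v hv => (hcub v hv).1,
      fun v hv => (hcub v hv).2⟩

end Pool.Agent.TwoDens.RK
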