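import Pool.Agent.TwoDens.Core

/-!
Triangle-free graphs: `e ≥ 5 n - 10 α`.
-/

open Finset

namespace Pool.Agent.TwoDens.RK

open Pool.Agent.TwoDens

variable {V : Type*} [DecidableEq V] (G : SimpleGraph V) [DecidableRel G.Adj]

/-- neighbours in `X` -/
def nb (X : Finset V) (v : V) : Finset V := X.filter (G.Adj v)

/-- `X` minus the closed neighbourhood of `v` -/
def rem (X : Finset V) (v : V) : Finset V := X.filter (fun u => u ≠ v ∧ ¬ G.Adj v u)

/-- sum of the degrees of the neighbours -/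
def Z (X : Finset V) (v : V) : ℕ := ∑ u ∈ nb G X v, (nb G X u).card

variable {G}

theorem mem_nb {X : Finset V} {v u : V} : u ∈ nb G X v ↔ u ∈ X ∧ G.Adj v u := mem_filter

theorem mem_rem {X : Finset V} {v u : V} : u ∈ rem G X v ↔ u ∈ X ∧ u ≠ v ∧ ¬ G.Adj v u :=
  mem_filter

theorem e2_eq (X : Finset V) : e2 G X = ∑ v ∈ X, (nb G X v).card := rfl

theorem split {X : Finset V} {v : V} (hv : v ∈ X) :
    X = rem G X v ∪ insert v (nb G X v) := by
  ext u
  rw [mem_union, mem_insert, mem_rem, mem_nb]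
  constructor
  · intro hu
    by_cases h5 : u = v
    · exact Or.inr (Or.inl h5)
    · by_cases h6 : G.Adj v u
      · exact Or.inr (Or.inr ⟨hu, h6⟩)
      · exact Or.inl ⟨hu, h5, h6⟩
  · rintro (⟨hu, _⟩ | rfl | ⟨hu, _⟩)
    · exact hu
    · exact hv
    · exact hu

theorem disj {X : Finset V} {v : V} : Disjoint (rem G X v) (insert v (nb G X v)) := by
  rw [Finset.disjoint_left]
  intro u hu hu'
  rw [mem_rem] at hu
  rw [mem_insert, mem_nb] at hu'
  rcases hu' with h | h
  · exact hu.2.1 h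
  · exact hu.2.2 h.2

theorem self_notMem {X : Finset V} {v : V} : v ∉ nb G X v := fun h =>
  G.loopless.irrefl v (mem_nb.1 h).2

theorem card_rem {X : Finset V} {v : V} (hv : v ∈ X) :
    X.card = (rem G X v).card + (nb G X v).card + 1 := by
  conv_lhs => rw [split (G := G) hv]
  rw [Finset.card_union_of_disjoint disj, Finset.card_insert_of_notMem self_notMem]
  ring

theorem e2_rem {X : Finset V} (htf : ∀ x y z, G.Adj x y → G.Adj y z → ¬ G.Adj x z) {v : V}
    (hv : v ∈ X) : e2 G X = e2 G (rem G X v) + 2 * Z G X v := by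
  have h1 : e2 G X = ∑ x ∈ rem G X v, (nb G X x).card + ((nb G X v).card + Z G X v) := by
    rw [e2_eq]
    conv_lhs => rw [split (G := G) hv]
    rw [Finset.sum_union disj, Finset.sum_insert self_notMem]
    rw [← split (G := G) hv]
    rfl
  have h2 : ∀ x ∈ rem G X v, (nb G X x).card =
      (nb G (rem G X v) x).card + ((nb G X v).filter (fun y => G.Adj x y)).card := by
    intro x hx
    rw [mem_rem] at hx
    rw [← Finset.card_union_of_disjoint]
    · congr 1
      ext y
      rw [mem_union, mem_filter, mem_nb, mem_nb, mem_rem, mem_nb]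
      constructor
      · rintro ⟨h3, h4⟩
        by_cases h5 : G.Adj v y
        · exact Or.inr ⟨⟨h3, h5⟩, h4⟩
        · refine Or.inl ⟨⟨h3, ?_, h5⟩, h4⟩
          rintro rfl
          exact hx.2.2 h4.symm
      · rintro (⟨⟨h3, _⟩, h4⟩ | ⟨⟨h3, _⟩, h4⟩)
        · exact ⟨h3, h4⟩
        · exact ⟨h3, h4⟩
    · rw [Finset.disjoint_left]
      intro y hy hy'
      rw [mem_nb, mem_rem] at hy
      rw [mem_filter, mem_nb] at hy'
      exact hy.1.2.2 hy'.1.2
  have h3 : Z G X v = (nb G X v).card +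
      ∑ x ∈ rem G X v, ((nb G X v).filter (fun y => G.Adj x y)).card := by
    have h4 : ∀ u ∈ nb G X v, (nb G X u).card = 1 + ((rem G X v).filter (fun x => G.Adj x u)).card := by
      intro u hu
      rw [mem_nb] at hu
      have h5 : nb G X u = insert v ((rem G X v).filter (fun x => G.Adj x u)) := by
        ext y
        rw [mem_insert, mem_filter, mem_nb, mem_rem]
        constructor
        · rintro ⟨h6, h7⟩
          by_cases h8 : y = v
          · exact Or.inl h8
          · exact Or.inr ⟨⟨h6, h8, fun h9 => htf v u y hu.2 h7 h9⟩, h7.symm⟩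
        · rintro (rfl | ⟨⟨h6, _, _⟩, h7⟩)
          · exact ⟨hv, hu.2.symm⟩
          · exact ⟨h6, h7.symm⟩
      rw [h5, Finset.card_insert_of_notMem, add_comm]
      rw [mem_filter, mem_rem]
      rintro ⟨⟨_, h, _⟩, _⟩
      exact h rfl
    unfold Z
    rw [Finset.sum_congr rfl h4, Finset.sum_add_distrib, Finset.sum_const, smul_eq_mul, mul_one]
    congr 1
    simp only [Finset.card_filter]
    exact Finset.sum_comm
  rw [h1, Finset.sum_congr rfl h2, Finset.sum_add_distrib, ← e2_eq]
  omega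

theorem al_rem {a : ℕ} {X : Finset V} (hal : Al G a X) {v : V} (hv : v ∈ X) :
    1 ≤ a ∧ Al G (a - 1) (rem G X v) := by
  have key : ∀ J ⊆ rem G X v, G.IsIndepSet (J : Set V) → J.card + 1 ≤ a := by
    intro J hJ hind
    have hvJ : v ∉ J := fun h => (mem_rem.1 (hJ h)).2.1 rfl
    have h2 := hal (insert v J) (Finset.insert_subset hv (hJ.trans (Finset.filter_subset _ _))) (by
      intro x hx y hy hxy
      rw [Finset.mem_coe, mem_insert] at hx hy
      rcases hx with rfl | hx <;> rcases hy with rfl | hy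
      · exact absurd rfl hxy
      · exact (mem_rem.1 (hJ hy)).2.2
      · exact fun h => (mem_rem.1 (hJ hx)).2.2 h.symm
      · exact hind hx hy hxy)
    rwa [Finset.card_insert_of_notMem hvJ] at h2
  refine ⟨?_, ?_⟩
  · have := key ∅ (Finset.empty_subset _) (by simp [SimpleGraph.IsIndepSet])
    simpa using this
  · intro J hJ hind
    have := key J hJ hind
    omega

theorem sum_Z (X : Finset V) : ∑ v ∈ X, Z G X v = ∑ v ∈ X, (nb G X v).card * (nb G X v).card := by
  unfold Z
  have h1 : ∀ v ∈ X, ∑ u ∈ nb G X v, (nb G X u).card =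
      ∑ u ∈ X, if G.Adj v u then (nb G X u).card else 0 := by
    intro v _
    unfold nb
    rw [Finset.sum_filter]
  rw [Finset.sum_congr rfl h1, Finset.sum_comm]
  refine Finset.sum_congr rfl fun u _ => ?_
  have h2 : ∀ v ∈ X, (if G.Adj v u then (nb G X u).card else 0) =
      if G.Adj u v then (nb G X u).card else 0 := by
    intro v _
    simp only [G.adj_comm]
  rw [Finset.sum_congr rfl h2, ← Finset.sum_filter, Finset.sum_const, smul_eq_mul]
  rfl

/-- removing a set `R` -/
theorem e2_sdiff {X R : Finset V} (hR : R ⊆ X) :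
    e2 G X + e2 G R = e2 G (X \ R) + 2 * ∑ v ∈ R, (nb G X v).card := by
  have h1 : e2 G X = ∑ x ∈ X \ R, (nb G X x).card + ∑ x ∈ R, (nb G X x).card := by
    rw [e2_eq]; exact (Finset.sum_sdiff hR).symm
  have h2 : ∀ x, (nb G X x).card = (nb G (X \ R) x).card + (nb G R x).card := by
    intro x
    unfold nb
    rw [← Finset.card_union_of_disjoint]
    · rw [← Finset.filter_union, Finset.sdiff_union_of_subset hR]
    · exact Finset.disjoint_filter_filter Finset.sdiff_disjoint
  have h3 : ∑ x ∈ X \ R, (nb G R x).card = ∑ x ∈ R, (nb G (X \ R) x).card := by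
    unfold nb
    simp only [Finset.card_filter]
    rw [Finset.sum_comm]
    refine Finset.sum_congr rfl fun x _ => Finset.sum_congr rfl fun y _ => ?_
    simp only [G.adj_comm]
  have h4 : ∑ x ∈ X \ R, (nb G X x).card = e2 G (X \ R) + ∑ x ∈ X \ R, (nb G R x).card := by
    rw [e2_eq, ← Finset.sum_add_distrib]
    exact Finset.sum_congr rfl fun x _ => h2 x
  have h5 : ∑ x ∈ R, (nb G X x).card = ∑ x ∈ R, (nb G (X \ R) x).card + e2 G R := by
    rw [e2_eq, ← Finset.sum_add_distrib]
    exact Finset.sum_congr rfl fun x _ => h2 x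
  omega

/-- almost tight sets -/
def Tight (Y : Finset V) (a : ℕ) (G : SimpleGraph V) [DecidableRel G.Adj] : Prop :=
  Al G a Y ∧ e2 G Y + 20 * a ≤ 10 * Y.card + 1

section
variable {X : Finset V} (htf : ∀ x y z, G.Adj x y → G.Adj y z → ¬ G.Adj x z)
  (ih : ∀ Y : Finset V, Y.card < X.card → ∀ a, Al G a Y → 10 * Y.card ≤ e2 G Y + 20 * a)

include htf ih

theorem tight_Z {Y : Finset V} (hY : Y.card ≤ X.card) {a : ℕ} (hT : Tight Y a G) {w : V}
    (hw : w ∈ Y) : Z G Y w + 5 ≤ 5 * (nb G Y w).card ∧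
      (Z G Y w + 5 = 5 * (nb G Y w).card → Tight (rem G Y w) (a - 1) G) := by
  obtain ⟨hal, he⟩ := hT
  obtain ⟨ha, hal'⟩ := al_rem hal hw
  have h1 := card_rem (G := G) hw
  have h2 := e2_rem htf hw
  have h3 := ih (rem G Y w) (by omega) (a - 1) hal'
  refine ⟨by omega, fun h4 => ⟨hal', by omega⟩⟩

theorem tight_deg {Y : Finset V} (hY : Y.card ≤ X.card) {a : ℕ} (hT : Tight Y a G) {w : V}
    (hw : w ∈ Y) : 2 ≤ (nb G Y w).card := by
  have h1 := (tight_Z htf ih hY hT hw).1
  by_contra hcon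
  push Not at hcon
  have h2 : (nb G Y w).card = 0 ∨ (nb G Y w).card = 1 := by omega
  rcases h2 with h2 | h2
  · omega
  · obtain ⟨u, hu⟩ := Finset.card_eq_one.1 h2
    have h3 : u ∈ nb G Y w := by rw [hu]; simp
    have h4 : 1 ≤ (nb G Y u).card :=
      Finset.card_pos.2 ⟨w, mem_nb.2 ⟨hw, (mem_nb.1 h3).2.symm⟩⟩
    have h5 : Z G Y w = (nb G Y u).card := by
      unfold Z; rw [hu, Finset.sum_singleton]
    omega

end

end Pool.Agent.TwoDens.RK
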