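import Pool.Agent.TwoDens.Cyc2

open Finset

namespace Pool.Agent.TwoDens

theorem cyc_card {s k : ℕ} [NeZero s] (F : Finset (ZMod s × Fin k)) : F.card = ∑ i, aC F i :=
  Finset.card_eq_sum_card_fiberwise (f := fun y : ZMod s × Fin k => y.1) (s := F)
      (t := Finset.univ) (fun _ _ => Finset.mem_univ _)

theorem cyc_special {s k : ℕ} [NeZero s] (hk : 3 ≤ k) (F : Finset (ZMod s × Fin k))
    (J : Finset (ZMod s)) (c : ℤ) (h : c + 2 * ∑ j ∈ J, (aC F j : ℤ) ≤ k * ∑ j ∈ J, gC F j) :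
    c + 2 * (F.card : ℤ) ≤ k * ∑ i, gC F i := by
  classical
  have h1 : (F.card : ℤ) = ∑ i, (aC F i : ℤ) := by
    rw [cyc_card F]; push_cast; rfl
  have h2 : ∑ i, (aC F i : ℤ) = ∑ i ∈ Finset.univ \ J, (aC F i : ℤ) + ∑ j ∈ J, (aC F j : ℤ) :=
    (Finset.sum_sdiff (Finset.subset_univ J)).symm
  have h3 : ∑ i, gC F i = ∑ i ∈ Finset.univ \ J, gC F i + ∑ j ∈ J, gC F j :=
    (Finset.sum_sdiff (Finset.subset_univ J)).symm
  have h4 : 2 * ∑ i ∈ Finset.univ \ J, (aC F i : ℤ) ≤ k * ∑ i ∈ Finset.univ \ J, gC F i := by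
    rw [Finset.mul_sum, Finset.mul_sum]
    exact Finset.sum_le_sum fun i _ => gC_nonneg hk F i
  rw [h1, h2, h3]
  linarith

theorem cyc_notall {s k : ℕ} [NeZero s] (hk : 3 ≤ k) (hs : 2 ≤ s) (F : Finset (ZMod s × Fin k))
    (hF : 3 ≤ F.card) (j1 : ZMod s) (hj1 : aC F j1 = 0) :
    2 * (k : ℤ) * k - 4 + 2 * (F.card : ℤ) ≤ k * ∑ i, gC F i := by
  have hcard := cyc_card F
  have hk' : (3 : ℤ) ≤ k := by exact_mod_cast hk
  obtain ⟨j0, hj0⟩ : ∃ j0, 1 ≤ aC F j0 := by
    by_contra hcon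
    push Not at hcon
    have : ∑ i, aC F i = 0 := Finset.sum_eq_zero fun i _ => by have := hcon i; omega
    omega
  obtain ⟨i, hi1, hi2⟩ := exists_start (fun j => 1 ≤ aC F j) hj0 (by omega : ¬ (1 ≤ aC F j1))
  have hi3 : aC F (i - 1) = 0 := by omega
  have hst := gC_start hk F i hi1 hi3
  rcases Nat.lt_or_ge (aC F i) 2 with h2 | h2
  · have hai : aC F i = 1 := by omega
    have hne : i ≠ i + 1 := by
      intro h
      have h5 := one_sub_ne hs (i + 1)
      apply h5
      rw [add_sub_cancel_right]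
      exact h.symm
    rcases Nat.eq_zero_or_pos (aC F (i + 1)) with h3 | h3
    · -- isolated block
      obtain ⟨j2, hj2, hj2i⟩ : ∃ j, 1 ≤ aC F j ∧ j ≠ i := by
        by_contra hcon
        push Not at hcon
        have : ∑ j, aC F j = aC F i := by
          refine Finset.sum_eq_single i ?_ ?_
          · intro j _ hj
            by_contra h4
            exact hj (hcon j (by omega))
          · intro h; exact absurd (Finset.mem_univ i) h
        omega
      obtain ⟨i', hi', hi'2⟩ := exists_start (fun j => 1 ≤ aC F j ∧ j ≠ i) ⟨hj2, hj2i⟩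
        (by intro h; exact h.2 rfl : ¬ (1 ≤ aC F i ∧ i ≠ i))
      have hi'3 : aC F (i' - 1) = 0 := by
        by_contra h4
        apply hi'2
        refine ⟨by omega, ?_⟩
        intro h5
        have h6 : i' = i + 1 := by rw [← h5]; ring
        rw [h6] at hi'
        omega
      have hst' := gC_start hk F i' hi'.1 hi'3
      have hle : (aC F i' : ℤ) ≤ k := by exact_mod_cast aC_le F i'
      refine cyc_special hk F {i, i'} _ ?_
      rw [Finset.sum_pair (Ne.symm hi'.2), Finset.sum_pair (Ne.symm hi'.2), hai]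
      have e1 := hst.1
      have e2 := hst'.1
      push_cast
      nlinarith
    · refine cyc_special hk F {i, i + 1} _ ?_
      rw [Finset.sum_pair hne, Finset.sum_pair hne]
      have h4 := gC_pair hk F (i + 1) (by rw [add_sub_cancel_right]; exact hai)
        (by rw [add_sub_cancel_right]; exact hi3) h3
      rw [add_sub_cancel_right] at h4
      rw [hai]
      push_cast
      linarith
  · refine cyc_special hk F {i} _ ?_
    rw [Finset.sum_singleton, Finset.sum_singleton]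
    have := hst.2 h2
    linarith

theorem cyc_sparse {s k : ℕ} [NeZero s] (hk : 3 ≤ k) (hs : k ≤ s) (F : Finset (ZMod s × Fin k))
    (hF : 3 ≤ F.card) :
    (e2 (cycG s k) F : ℝ) ≤ 2 + 2 * (((k : ℝ) + 1) / 2 - ((s : ℝ) - k) / ((s : ℝ) * k - 2)) *
      ((F.card : ℝ) - 2) := by
  have hphi := cyc_phi F
  have hk' : (3 : ℝ) ≤ k := by exact_mod_cast hk
  have hs' : (k : ℝ) ≤ s := by exact_mod_cast hs
  have hF' : (3 : ℝ) ≤ F.card := by exact_mod_cast hF
  have hpos : (0 : ℝ) < (s : ℝ) * k - 2 := by nlinarith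
  have hphi' : ((∑ i, gC F i : ℤ) : ℝ) ≤ (k + 1) * (F.card : ℝ) - e2 (cycG s k) F := by
    exact_mod_cast hphi
  set Φ : ℝ := ((∑ i, gC F i : ℤ) : ℝ) with hΦ
  have hFle : (F.card : ℝ) ≤ s * k := by
    have h1 : F.card ≤ Fintype.card (ZMod s × Fin k) := Finset.card_le_univ F
    rw [Fintype.card_prod, ZMod.card, Fintype.card_fin] at h1
    exact_mod_cast h1
  -- reduce to a bound on Φ
  have key : 2 * (k : ℝ) + 2 * (((s : ℝ) - k) / ((s : ℝ) * k - 2)) * ((F.card : ℝ) - 2) ≤ Φ := by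
    by_cases hall : ∀ i, 1 ≤ aC F i
    · have h1 : (2 : ℤ) * s ≤ ∑ i, gC F i := by
        have h2 : ∑ i : ZMod s, (2 : ℤ) ≤ ∑ i, gC F i :=
          Finset.sum_le_sum fun i _ => gC_ge hk F i (hall i)
        simpa [ZMod.card, mul_comm] using h2
      have h2 : (2 : ℝ) * s ≤ Φ := by rw [hΦ]; exact_mod_cast h1
      have h3 : ((s : ℝ) - k) / ((s : ℝ) * k - 2) * ((F.card : ℝ) - 2) ≤ s - k := by
        rw [div_mul_eq_mul_div, div_le_iff₀ hpos]
        refine mul_le_mul_of_nonneg_left (by linarith) (by linarith)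
      nlinarith
    · push Not at hall
      obtain ⟨j1, hj1⟩ := hall
      have h1 := cyc_notall hk (by omega) F hF j1 (by omega)
      have h2 : 2 * (k : ℝ) * k - 4 + 2 * (F.card : ℝ) ≤ k * Φ := by
        rw [hΦ]; exact_mod_cast h1
      have h3 : ((s : ℝ) - k) / ((s : ℝ) * k - 2) ≤ 1 / k := by
        rw [div_le_div_iff₀ hpos (by linarith)]
        nlinarith
      have h4 : 2 * (k : ℝ) + 2 * (1 / k) * ((F.card : ℝ) - 2) ≤ Φ := by
        have h5 : (0 : ℝ) < k := by linarith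
        have h6 : k * (2 * (k : ℝ) + 2 * (1 / k) * ((F.card : ℝ) - 2)) ≤ k * Φ := by
          have h7 : k * (2 * (k : ℝ) + 2 * (1 / k) * ((F.card : ℝ) - 2)) =
              2 * k * k + 2 * ((F.card : ℝ) - 2) := by
            field_simp
          rw [h7]; linarith
        exact le_of_mul_le_mul_left h6 h5
      have h5 : 2 * (((s : ℝ) - k) / ((s : ℝ) * k - 2)) * ((F.card : ℝ) - 2) ≤
          2 * (1 / k) * ((F.card : ℝ) - 2) :=
        mul_le_mul_of_nonneg_right (by linarith) (by linarith)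
      linarith
  nlinarith

end Pool.Agent.TwoDens
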