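import Pool.Agent.TwoDens.Star2

open Finset

namespace Pool.Agent.TwoDens

theorem quad1 (k A : ℤ) (h1 : 2 ≤ A) (h2 : A ≤ k) : 2 * k ≤ A * (k + 2 - A) := by
  nlinarith [mul_nonneg (sub_nonneg.2 h1) (sub_nonneg.2 h2)]

theorem quad2 (k A : ℤ) (h1 : 3 ≤ A) (h2 : A ≤ k - 1) : 3 * (k - 1) ≤ A * (k + 2 - A) := by
  nlinarith [mul_nonneg (sub_nonneg.2 h1) (sub_nonneg.2 h2)]

/-- in all cases but the one of a single block -/
theorem star_multi {p k : ℕ} (hk : 2 * p * p + 4 * p + 13 ≤ k) (F : Finset (SV p k))
    (hF : 3 ≤ F.card) (hm : ¬ ∃ i, aN F i = F.card) :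
    (e2 (starG p k) F : ℤ) + 2 * k + 4 * p + 4 ≤ (k + 1) * F.card := by
  have h1 := star_e2 F
  have h2 := card_eq_sum F
  have hc := cN_le F
  have h3 : (e2 (starG p k) F : ℤ) + F.card ≤ cN F * cN F + ∑ i, (aN F i : ℤ) * aN F i +
      2 * ∑ i, (nN F i : ℤ) := by exact_mod_cast h1
  have h4 : (F.card : ℤ) = cN F + ∑ i, (aN F i : ℤ) := by exact_mod_cast h2
  have hw0 : ∀ i : Fin p, 0 ≤ (aN F i : ℤ) * (k + 2 - aN F i) - 2 * nN F i + 2 * p := by
    intro i
    have e1 := aN_le F i
    have e2 := nN_le F i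
    rcases Nat.lt_or_ge (aN F i) 2 with e3 | e3
    · rcases Nat.lt_or_ge (aN F i) 1 with e4 | e4
      · have e5 : aN F i = 0 := by omega
        rw [nN_zero F i e5, e5]
        simp
      · have e5 : aN F i = 1 := by omega
        have e6 := nN_le_one F i (by omega)
        rw [e5]
        push_cast
        omega
    · have e4 := quad1 k (aN F i) (by exact_mod_cast e3) (by exact_mod_cast e1)
      omega
  -- final estimate
  have hsum : (k + 1) * (F.card : ℤ) - e2 (starG p k) F ≥ cN F * (k + 2 - cN F) +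
      ∑ i, ((aN F i : ℤ) * (k + 2 - aN F i) - 2 * nN F i + 2 * p) - 2 * p * p := by
    have e1 : ∑ i : Fin p, ((aN F i : ℤ) * (k + 2 - aN F i) - 2 * nN F i + 2 * p) =
        (k + 2) * ∑ i, (aN F i : ℤ) - ∑ i, (aN F i : ℤ) * aN F i - 2 * ∑ i, (nN F i : ℤ) +
        2 * p * p := by
      rw [Finset.mul_sum, Finset.mul_sum, ← Finset.sum_sub_distrib, ← Finset.sum_sub_distrib]
      rw [Finset.sum_add_distrib]
      simp only [Finset.sum_const, Finset.card_univ, Fintype.card_fin, nsmul_eq_mul]
      congr 1
      · refine Finset.sum_congr rfl fun i _ => ?_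
        ring
      · ring
    rw [e1]
    have e2 : (cN F : ℤ) * (k + 2 - cN F) = (k + 2) * cN F - cN F * cN F := by ring
    rw [e2]
    have e3 : (k + 1) * (F.card : ℤ) = (k + 2) * F.card - F.card := by ring
    rw [e3]
    have e4 : ((k : ℤ) + 2) * F.card = (k + 2) * cN F + (k + 2) * ∑ i, (aN F i : ℤ) := by
      rw [h4]; ring
    rw [e4]
    linarith
  have hk' : (2 : ℤ) * p * p + 4 * p + 13 ≤ k := by exact_mod_cast hk
  rcases Nat.lt_or_ge (cN F) 3 with hc3 | hc3
  · -- small last block
    have hw : ∀ i : Fin p, ((k : ℤ) - 3) * (min (aN F i) 2 : ℕ) ≤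
        (aN F i : ℤ) * (k + 2 - aN F i) - 2 * nN F i + 2 * p := by
      intro i
      have e1 := aN_le F i
      have e2 := nN_le F i
      rcases Nat.lt_or_ge (aN F i) 2 with e3 | e3
      · rcases Nat.lt_or_ge (aN F i) 1 with e4 | e4
        · have e5 : aN F i = 0 := by omega
          rw [nN_zero F i e5, e5]
          simp
        · have e5 : aN F i = 1 := by omega
          rw [e5, min_eq_left (by norm_num : 1 ≤ 2)]
          push_cast
          omega
      · have e4 := quad1 k (aN F i) (by exact_mod_cast e3) (by exact_mod_cast e1)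
        rw [min_eq_right e3]
        push_cast
        omega
    have hu : 3 ≤ cN F + ∑ i : Fin p, min (aN F i) 2 := by
      by_cases h5 : ∃ i, 3 ≤ aN F i
      · obtain ⟨i, hi⟩ := h5
        have h6 : 2 ≤ ∑ i : Fin p, min (aN F i) 2 := by
          have := Finset.single_le_sum (f := fun i : Fin p => min (aN F i) 2)
            (fun _ _ => Nat.zero_le _) (Finset.mem_univ i)
          omega
        rcases Nat.eq_zero_or_pos (cN F) with h7 | h7
        · have h8 : ∃ j, j ≠ i ∧ 1 ≤ aN F j := by
            by_contra hcon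
            push Not at hcon
            apply hm
            refine ⟨i, ?_⟩
            rw [h2, h7, zero_add]
            symm
            refine Finset.sum_eq_single i ?_ ?_
            · intro j _ hj
              have := hcon j hj
              omega
            · intro h; exact absurd (Finset.mem_univ i) h
          obtain ⟨j, hj, hj1⟩ := h8
          have h9 : min (aN F i) 2 + min (aN F j) 2 ≤ ∑ i : Fin p, min (aN F i) 2 := by
            rw [← Finset.sum_pair (f := fun i : Fin p => min (aN F i) 2) (Ne.symm hj)]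
            exact Finset.sum_le_sum_of_subset (Finset.subset_univ _)
          omega
        · omega
      · push Not at h5
        have h6 : ∑ i : Fin p, min (aN F i) 2 = ∑ i, aN F i := by
          refine Finset.sum_congr rfl fun i _ => ?_
          have := h5 i
          omega
        rw [h6]
        omega
    have hsumw : ((k : ℤ) - 3) * ∑ i : Fin p, ((min (aN F i) 2 : ℕ) : ℤ) ≤
        ∑ i : Fin p, ((aN F i : ℤ) * (k + 2 - aN F i) - 2 * nN F i + 2 * p) := by
      rw [Finset.mul_sum]
      exact Finset.sum_le_sum fun i _ => hw i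
    have hcc : ((k : ℤ) - 3) * cN F ≤ cN F * (k + 2 - cN F) := by
      have e1 : (cN F : ℤ) ≤ 2 := by omega
      have e2 : (0 : ℤ) ≤ cN F := by omega
      nlinarith
    have hu' : (3 : ℤ) ≤ cN F + ∑ i : Fin p, ((min (aN F i) 2 : ℕ) : ℤ) := by
      exact_mod_cast hu
    have h7 : ((k : ℤ) - 3) * 3 ≤ (k - 3) * (cN F + ∑ i : Fin p, ((min (aN F i) 2 : ℕ) : ℤ)) :=
      mul_le_mul_of_nonneg_left hu' (by nlinarith)
    nlinarith
  · have h5 := quad2 k (cN F) (by exact_mod_cast hc3) (by
      have : 1 ≤ k := by omega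
      omega)
    have h6 : 0 ≤ ∑ i : Fin p, ((aN F i : ℤ) * (k + 2 - aN F i) - 2 * nN F i + 2 * p) :=
      Finset.sum_nonneg fun i _ => hw0 i
    nlinarith

theorem card_SV_le {p k : ℕ} (F : Finset (SV p k)) : F.card ≤ (p + 1) * k := by
  have h1 : F.card ≤ Fintype.card (SV p k) := Finset.card_le_univ F
  have h2 : Fintype.card (SV p k) = p * k + (k - 1) := by simp
  rw [h2] at h1
  have : (p + 1) * k = p * k + k := by ring
  omega

/-- a single block -/
theorem star_single {p k : ℕ} (hk : 4 ≤ k) (F : Finset (SV p k)) (hF : 3 ≤ F.card) (i : Fin p)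
    (hi : aN F i = F.card) :
    (e2 (starG p k) F : ℝ) ≤ 2 + 2 * (((k : ℝ) + 1) / 2 - 1 / ((k : ℝ) - 2)) *
      ((F.card : ℝ) - 2) := by
  have h1 := e2_add_m2 (starG p k) F
  have hle : F.card ≤ k := by rw [← hi]; exact aN_le F i
  have h2 : (e2 (starG p k) F : ℝ) + m2 (starG p k) F + F.card = F.card * F.card := by
    exact_mod_cast h1
  have hk' : (4 : ℝ) ≤ k := by exact_mod_cast hk
  have hF' : (3 : ℝ) ≤ F.card := by exact_mod_cast hF
  have hinv : 1 / ((k : ℝ) - 2) ≤ 1 / 2 := by
    rw [div_le_div_iff₀ (by linarith) (by norm_num)]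
    linarith
  rcases Nat.lt_or_ge F.card k with hlt | hge
  · have h3 : (F.card : ℝ) + 1 ≤ k := by exact_mod_cast hlt
    have h4 : (0 : ℝ) ≤ m2 (starG p k) F := by positivity
    nlinarith [mul_nonneg (sub_nonneg.2 hF') (sub_nonneg.2 h3),
      mul_nonneg (sub_nonneg.2 hinv) (by linarith : (0 : ℝ) ≤ F.card - 2)]
  · have hk0 : F.card = k := le_antisymm hle hge
    -- the block is complete, so it contains the missing pair
    have hall : ∀ a : Fin k, Sum.inl (i, a) ∈ F := by
      have h3 : F.filter (fun y => sb p k y = some i) =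
          (Finset.univ : Finset (Fin k)).image (fun a => Sum.inl (i, a)) := by
        refine Finset.eq_of_subset_of_card_le ?_ ?_
        · intro y hy
          rcases y with ⟨j, a⟩ | c
          · have := (mem_filter.1 hy).2
            simp only [sb, Option.some.injEq] at this
            rw [this]
            exact mem_image_of_mem _ (Finset.mem_univ _)
          · have := (mem_filter.1 hy).2
            simp [sb] at this
        · refine Finset.card_image_le.trans ?_
          simp only [Finset.card_univ, Fintype.card_fin]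
          have : (F.filter (fun y => sb p k y = some i)).card = F.card := hi
          omega
      intro a
      have h4 : (Sum.inl (i, a) : SV p k) ∈ F.filter (fun y => sb p k y = some i) := by
        rw [h3]; exact mem_image_of_mem _ (Finset.mem_univ _)
      exact (mem_filter.1 h4).1
    have hm : 2 ≤ m2 (starG p k) F := by
      set x0 : SV p k := Sum.inl (i, ⟨0, by omega⟩) with hx0
      set x1 : SV p k := Sum.inl (i, ⟨1, by omega⟩) with hx1
      have hne : x0 ≠ x1 := by
        rw [hx0, hx1]
        intro h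
        simp at h
      have hna : ¬ (starG p k).Adj x0 x1 := by
        rintro (⟨_, _, h, _⟩ | ⟨h, _⟩)
        · exact h ⟨rfl, rfl⟩
        · exact h rfl
      have h3 : ∀ x ∈ ({x0, x1} : Finset (SV p k)),
          1 ≤ (F.filter (fun y => y ≠ x ∧ ¬ (starG p k).Adj x y)).card := by
        intro x hx
        rw [mem_insert, mem_singleton] at hx
        rcases hx with rfl | rfl
        · exact Finset.card_pos.2 ⟨x1, mem_filter.2 ⟨hall _, hne.symm, hna⟩⟩
        · exact Finset.card_pos.2 ⟨x0, mem_filter.2 ⟨hall _, hne, fun h => hna h.symm⟩⟩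
      calc 2 = ∑ x ∈ ({x0, x1} : Finset (SV p k)), 1 := by
            rw [Finset.sum_const, Finset.card_pair hne]; rfl
        _ ≤ ∑ x ∈ ({x0, x1} : Finset (SV p k)),
            (F.filter (fun y => y ≠ x ∧ ¬ (starG p k).Adj x y)).card := Finset.sum_le_sum h3
        _ ≤ _ := by
            unfold m2
            refine Finset.sum_le_sum_of_subset ?_
            intro x hx
            rw [mem_insert, mem_singleton] at hx
            rcases hx with rfl | rfl <;> exact hall _
    have hm' : (2 : ℝ) ≤ m2 (starG p k) F := by exact_mod_cast hm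
    have hk1 : (F.card : ℝ) = k := by exact_mod_cast hk0
    have h5 : 1 / ((k : ℝ) - 2) * ((k : ℝ) - 2) = 1 := by
      rw [one_div, inv_mul_cancel₀]; linarith
    rw [hk1] at h2 ⊢
    nlinarith

theorem star_sparse {p k : ℕ} (hk : 2 * p * p + 4 * p + 13 ≤ k) (F : Finset (SV p k))
    (hF : 3 ≤ F.card) :
    (e2 (starG p k) F : ℝ) ≤ 2 + 2 * (((k : ℝ) + 1) / 2 - 1 / ((k : ℝ) - 2)) *
      ((F.card : ℝ) - 2) := by
  by_cases hm : ∃ i, aN F i = F.card
  · obtain ⟨i, hi⟩ := hm
    exact star_single (by omega) F hF i hi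
  · have h1 := star_multi hk F hF hm
    have h2 : (e2 (starG p k) F : ℝ) + 2 * k + 4 * p + 4 ≤ (k + 1) * F.card := by exact_mod_cast h1
    have h3 := card_SV_le F
    have h4 : (F.card : ℝ) ≤ (p + 1) * k := by exact_mod_cast h3
    have hk' : (13 : ℝ) ≤ k := by
      have : 13 ≤ k := by omega
      exact_mod_cast this
    have hp : (0 : ℝ) ≤ p := by positivity
    have h5 : 1 / ((k : ℝ) - 2) * ((F.card : ℝ) - 2) ≤ 2 * (p + 1) := by
      rw [one_div, inv_mul_le_iff₀ (by linarith)]
      nlinarith
    linarith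

end Pool.Agent.TwoDens
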