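import Pool.Agent.TwoDens.DDE
import Pool.Agent.TwoDens.Bridge

/-!
Disjoint complete graphs, and the lower bound for the minimum 2-density that follows from
`main_ineq`.
-/

open Finset

namespace Pool.Agent.TwoDens.DD

open Pool.Agent.TwoDens

/-- the disjoint union of `s` complete graphs on `k` vertices -/
def cliq (s k : ℕ) : SimpleGraph (Fin s × Fin k) where
  Adj x y := x ≠ y ∧ x.1 = y.1
  symm := ⟨fun _ _ h => ⟨h.1.symm, h.2.symm⟩⟩
  loopless := ⟨fun _ h => h.1 rfl⟩

instance (s k : ℕ) : DecidableRel (cliq s k).Adj := fun x y => by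
  unfold cliq; exact inferInstance

theorem cliq_adj {s k : ℕ} (x y : Fin s × Fin k) :
    (cliq s k).Adj x y ↔ x ≠ y ∧ x.1 = y.1 := Iff.rfl

theorem cliq_indep {s k : ℕ} (I : Finset (Fin s × Fin k))
    (hI : (cliq s k).IsIndepSet (I : Set (Fin s × Fin k))) : I.card ≤ s := by
  have h1 : I.card ≤ (Finset.univ : Finset (Fin s)).card := by
    refine Finset.card_le_card_of_injOn (fun x => x.1) (fun _ _ => Finset.mem_univ _) ?_
    intro x hx y hy hxy
    by_contra hne
    exact hI hx hy hne ⟨hne, hxy⟩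
  simpa using h1

theorem cliq_e2 {s k : ℕ} (Y : Finset (Fin s × Fin k)) :
    e2 (cliq s k) Y + Y.card =
      ∑ i : Fin s, (Y.filter (fun y => y.1 = i)).card * (Y.filter (fun y => y.1 = i)).card := by
  unfold e2
  rw [Finset.card_eq_sum_ones, ← Finset.sum_add_distrib]
  have h1 : ∀ x ∈ Y, (Y.filter ((cliq s k).Adj x)).card + 1 =
      (Y.filter (fun y => y.1 = x.1)).card := by
    intro x hx
    have h2 : Y.filter (fun y => y.1 = x.1) = insert x (Y.filter ((cliq s k).Adj x)) := by
      ext y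
      simp only [mem_filter, mem_insert, cliq_adj]
      constructor
      · rintro ⟨h3, h4⟩
        by_cases h5 : y = x
        · exact Or.inl h5
        · exact Or.inr ⟨h3, Ne.symm h5, h4.symm⟩
      · rintro (rfl | ⟨h3, _, h4⟩)
        · exact ⟨hx, rfl⟩
        · exact ⟨h3, h4.symm⟩
    rw [h2, Finset.card_insert_of_notMem]
    rw [mem_filter]
    rintro ⟨_, h, _⟩
    exact h rfl
  rw [Finset.sum_congr rfl h1]
  rw [← Finset.sum_fiberwise_of_maps_to (s := Y) (t := Finset.univ) (g := fun y => y.1)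
    (fun _ _ => Finset.mem_univ _)]
  refine Finset.sum_congr rfl ?_
  intro i _
  have h2 : ∀ x ∈ Y.filter (fun y => y.1 = i), (Y.filter (fun y => y.1 = x.1)).card =
      (Y.filter (fun y => y.1 = i)).card := by
    intro x hx
    rw [(mem_filter.1 hx).2]
  rw [Finset.sum_congr rfl h2, Finset.sum_const, smul_eq_mul]

theorem cliq_aux (n k : ℕ) (h1 : 2 ≤ n) (h2 : n ≤ k) : n * n + 2 * k ≤ (k + 2) * n := by
  obtain ⟨p, rfl⟩ := Nat.exists_eq_add_of_le h1
  obtain ⟨q, rfl⟩ := Nat.exists_eq_add_of_le h2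
  nlinarith [Nat.zero_le (p * q)]

theorem cliq_sparse {s k : ℕ} (Y : Finset (Fin s × Fin k)) (hY : 3 ≤ Y.card) :
    e2 (cliq s k) Y + 2 * k ≤ (k + 1) * Y.card := by
  have h1 := cliq_e2 Y
  have hle : ∀ i : Fin s, (Y.filter (fun y => y.1 = i)).card ≤ k := by
    intro i
    have : (Y.filter (fun y => y.1 = i)).card ≤ (Finset.univ : Finset (Fin k)).card := by
      refine Finset.card_le_card_of_injOn (fun x => x.2) (fun _ _ => Finset.mem_univ _) ?_
      intro x hx y hy hxy
      have hx' := (mem_filter.1 (Finset.mem_coe.1 hx)).2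
      have hy' := (mem_filter.1 (Finset.mem_coe.1 hy)).2
      exact Prod.ext (hx'.trans hy'.symm) hxy
    simpa using this
  have hsum : ∑ i : Fin s, (Y.filter (fun y => y.1 = i)).card = Y.card :=
    (Finset.card_eq_sum_card_fiberwise (f := fun y : Fin s × Fin k => y.1) (s := Y)
      (t := Finset.univ) (fun _ _ => Finset.mem_univ _)).symm
  have h2 : ∑ i : Fin s, (Y.filter (fun y => y.1 = i)).card *
      (Y.filter (fun y => y.1 = i)).card + 2 * k ≤
      ∑ i : Fin s, (k + 2) * (Y.filter (fun y => y.1 = i)).card := by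
    have hterm : ∀ i : Fin s, (Y.filter (fun y => y.1 = i)).card *
      (Y.filter (fun y => y.1 = i)).card ≤ (k + 2) * (Y.filter (fun y => y.1 = i)).card := by
      intro i
      exact Nat.mul_le_mul_right _ ((hle i).trans (by omega))
    by_cases h3 : ∃ i : Fin s, 2 ≤ (Y.filter (fun y => y.1 = i)).card
    · obtain ⟨i, hi⟩ := h3
      rw [← Finset.add_sum_erase _ _ (Finset.mem_univ i),
        ← Finset.add_sum_erase _ (fun i =>
          (k + 2) * (Y.filter (fun y => y.1 = i)).card) (Finset.mem_univ i)]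
      have h4 := Finset.sum_le_sum (s := Finset.univ.erase i) (fun j _ => hterm j)
      have h5 : (Y.filter (fun y => y.1 = i)).card * (Y.filter (fun y => y.1 = i)).card + 2 * k ≤
          (k + 2) * (Y.filter (fun y => y.1 = i)).card := cliq_aux _ _ hi (hle i)
      omega
    · push Not at h3
      have h4 : ∀ i : Fin s, (Y.filter (fun y => y.1 = i)).card *
          (Y.filter (fun y => y.1 = i)).card ≤ (Y.filter (fun y => y.1 = i)).card := by
        intro i
        have := h3 i
        interval_cases (Y.filter (fun y => y.1 = i)).card <;> simp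
      have h5 := Finset.sum_le_sum (s := Finset.univ) (fun i _ => h4 i)
      rw [hsum] at h5
      rw [← Finset.mul_sum, hsum]
      nlinarith
  rw [← Finset.mul_sum, hsum] at h2
  nlinarith

/-- the lower bound for `M(m, s + 1)` -/
theorem lower_bound (k m s : ℕ) (hk : 3 ≤ k) (hm : 3 ≤ m) (hs : 1 ≤ s) :
    min (((k : ℝ) + 1) / 2)
      (((4 * k - 6) * m - (3 * k - 4) * (k - 1) * s - 2) / (2 * ((m : ℝ) - 2))) ≤
        minTwoDensity m (s + 1) := by
  refine le_minTwoDensity (by omega) ?_
  intro G _ hα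
  by_contra hcon
  push Not at hcon
  set c := min (((k : ℝ) + 1) / 2)
      (((4 * k - 6) * m - (3 * k - 4) * (k - 1) * s - 2) / (2 * ((m : ℝ) - 2))) with hc
  have hc1 : c ≤ ((k : ℝ) + 1) / 2 := min_le_left _ _
  have hc2 : c ≤ ((4 * k - 6) * m - (3 * k - 4) * (k - 1) * s - 2) / (2 * ((m : ℝ) - 2)) :=
    min_le_right _ _
  have hS : Sk G k Finset.univ := by
    intro Y _ hY
    have h1 := hcon Y hY
    have h3 : (3 : ℝ) ≤ Y.card := by exact_mod_cast hY
    have h4 : 2 * c * ((Y.card : ℝ) - 2) ≤ (k + 1) * ((Y.card : ℝ) - 2) := by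
      refine mul_le_mul_of_nonneg_right (by linarith) (by linarith)
    have h2 : (e2 G Y : ℝ) + 2 * k < (k + 1) * Y.card := by linarith
    have h5 : e2 G Y + 2 * k < (k + 1) * Y.card := by exact_mod_cast h2
    omega
  have hal : Al G s Finset.univ := by
    intro I _ hI
    have := hα I hI
    omega
  have h1 := main_ineq hk Finset.univ hS s hal
  have h2 := hcon Finset.univ (by simpa using hm)
  rw [Finset.card_univ, Fintype.card_fin] at h1 h2
  have h3 : (3 : ℝ) ≤ m := by exact_mod_cast hm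
  have h4 : 2 * c * ((m : ℝ) - 2) ≤ (4 * k - 6) * m - (3 * k - 4) * (k - 1) * s - 2 := by
    have h5 : 0 < 2 * ((m : ℝ) - 2) := by linarith
    rw [le_div_iff₀ h5] at hc2
    linarith
  have h5 : ((4 * (k : ℝ) - 6) * m) ≤ (e2 G Finset.univ : ℝ) + (3 * k - 4) * (k - 1) * s := by
    exact_mod_cast h1
  linarith

end Pool.Agent.TwoDens.DD
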