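import Pool.Agent.TwoDens.Struct3

open Finset

namespace Pool.Agent.TwoDens

variable {V : Type*} [DecidableEq V] (G : SimpleGraph V) [DecidableRel G.Adj]

/-- number of non-neighbours of `w` in its own group -/
def ms (Y : Finset V) (h : V → V) (w : V) : ℕ :=
  (Y.filter (fun y => h y = h w ∧ y ≠ w ∧ ¬ G.Adj w y)).card

/-- the group of index `j` -/
def grp (Y : Finset V) (h : V → V) (j : V) : Finset V := Y.filter (fun y => h y = j)

theorem m2_mono {X Y : Finset V} (h : X ⊆ Y) : m2 G X ≤ m2 G Y := by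
  unfold m2
  refine (Finset.sum_le_sum fun x _ => Finset.card_le_card (Finset.filter_subset_filter _ h)).trans
    (Finset.sum_le_sum_of_subset h)

theorem m2_grp_le (Y : Finset V) (h : V → V) (j : V) :
    m2 G (grp Y h j) ≤ ∑ x ∈ Y, ms G Y h x := by
  unfold m2
  calc ∑ x ∈ grp Y h j, ((grp Y h j).filter (fun y => y ≠ x ∧ ¬ G.Adj x y)).card
      ≤ ∑ x ∈ grp Y h j, ms G Y h x := by
        refine Finset.sum_le_sum ?_
        intro x hx
        refine Finset.card_le_card ?_
        intro y hy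
        unfold grp at hx hy
        rw [mem_filter, mem_filter] at hy
        rw [mem_filter] at hx ⊢
        exact ⟨hy.1.1, by rw [hy.1.2, hx.2], hy.2⟩
    _ ≤ _ := Finset.sum_le_sum_of_subset (Finset.filter_subset _ _)

theorem grp_le {k Λ : ℕ} {Y : Finset V} (hk : 3 ≤ k) (hS : Sk G k Y) (h : V → V)
    (hP1 : ∑ x ∈ Y, ms G Y h x ≤ 2 * Λ) (hΛ : 2 * Λ < k) (j : V) :
    (grp Y h j).card ≤ k := by
  by_contra hcon
  push Not at hcon
  obtain ⟨Z, hZ, hZc⟩ := Finset.exists_subset_card_eq (s := grp Y h j) (n := k + 1) hcon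
  have h1 := hS Z (hZ.trans (Finset.filter_subset _ _)) (by omega)
  have h2 := e2_add_m2 G Z
  have h3 : m2 G Z ≤ 2 * Λ := ((m2_mono G hZ).trans (m2_grp_le G Y h j)).trans hP1
  rw [hZc] at h1 h2
  nlinarith

/-- ordered cross pairs inside classes -/
def crossR (Y : Finset V) (h r : V → V) : ℕ :=
  ∑ x ∈ Y, (Y.filter (fun y => r (h y) = r (h x) ∧ h y ≠ h x ∧ G.Adj x y)).card

/-- the main upper bound on cross edges -/
theorem cross_le {k : ℕ} {Y I : Finset V} (hS : Sk G k Y) (h r : V → V)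
    (hI : ∀ v ∈ Y, h v ∈ I) (h3 : ∀ j ∈ I, 3 ≤ (grp Y h j).card) :
    (∑ j ∈ I, (grp Y h j).card * (grp Y h j).card) + crossR G Y h r
      + (I.image r).card * (2 * k + 1) ≤ (k + 2) * Y.card + ∑ x ∈ Y, ms G Y h x := by
  classical
  let XC : V → Finset V := fun c => Y.filter (fun v => r (h v) = c)
  have hdisj : ∀ c ∈ I.image r, ∀ d ∈ I.image r, c ≠ d → Disjoint (XC c) (XC d) := by
    intro c _ d _ hcd
    rw [Finset.disjoint_left]
    intro v h1 h2
    rw [mem_filter] at h1 h2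
    exact hcd (h1.2.symm.trans h2.2)
  have hun : Y = (I.image r).biUnion XC := by
    ext v
    simp only [mem_biUnion, mem_filter, XC]
    constructor
    · intro hv
      exact ⟨r (h v), mem_image_of_mem r (hI v hv), hv, rfl⟩
    · rintro ⟨c, _, hv, _⟩
      exact hv
  have hsum : ∀ f : V → ℕ, ∑ x ∈ Y, f x = ∑ c ∈ I.image r, ∑ x ∈ XC c, f x := by
    intro f
    conv_lhs => rw [hun]
    exact Finset.sum_biUnion hdisj
  have hcardY : Y.card = ∑ c ∈ I.image r, (XC c).card := by
    have := hsum (fun _ => 1)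
    simpa using this
  -- classes
  have hclass : ∀ c ∈ I.image r, e2 G (XC c) + 2 * k + 1 ≤ (k + 1) * (XC c).card := by
    intro c hc
    refine hS _ (Finset.filter_subset _ _) ?_
    obtain ⟨j, hj, rfl⟩ := mem_image.1 hc
    refine (h3 j hj).trans (Finset.card_le_card ?_)
    intro v hv
    unfold grp at hv
    rw [mem_filter] at hv ⊢
    exact ⟨hv.1, by rw [hv.2]⟩
  have hpt : ∀ x ∈ Y, ((XC (r (h x))).filter (G.Adj x)).card + ms G Y h x + 1 =
      (grp Y h (h x)).card +
        (Y.filter (fun y => r (h y) = r (h x) ∧ h y ≠ h x ∧ G.Adj x y)).card := by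
    intro x hx
    have h4 : (XC (r (h x))).filter (G.Adj x) =
        Y.filter (fun y => h y = h x ∧ G.Adj x y) ∪
        Y.filter (fun y => r (h y) = r (h x) ∧ h y ≠ h x ∧ G.Adj x y) := by
      ext y
      simp only [XC, mem_filter, mem_union]
      constructor
      · rintro ⟨⟨h5, h6⟩, h7⟩
        by_cases h8 : h y = h x
        · exact Or.inl ⟨h5, h8, h7⟩
        · exact Or.inr ⟨h5, h6, h8, h7⟩
      · rintro (⟨h5, h6, h7⟩ | ⟨h5, h6, h7, h8⟩)
        · exact ⟨⟨h5, by rw [h6]⟩, h7⟩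
        · exact ⟨⟨h5, h6⟩, h8⟩
    have h5 : Disjoint (Y.filter (fun y => h y = h x ∧ G.Adj x y))
        (Y.filter (fun y => r (h y) = r (h x) ∧ h y ≠ h x ∧ G.Adj x y)) := by
      rw [Finset.disjoint_left]
      intro y h6 h7
      exact (mem_filter.1 h7).2.2.1 (mem_filter.1 h6).2.1
    have h6 : grp Y h (h x) = insert x (Y.filter (fun y => h y = h x ∧ G.Adj x y) ∪
        Y.filter (fun y => h y = h x ∧ y ≠ x ∧ ¬ G.Adj x y)) := by
      ext y
      simp only [grp, mem_filter, mem_union, mem_insert]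
      constructor
      · rintro ⟨h7, h8⟩
        by_cases h9 : y = x
        · exact Or.inl h9
        · by_cases h10 : G.Adj x y
          · exact Or.inr (Or.inl ⟨h7, h8, h10⟩)
          · exact Or.inr (Or.inr ⟨h7, h8, h9, h10⟩)
      · rintro (rfl | ⟨h7, h8, _⟩ | ⟨h7, h8, _⟩)
        · exact ⟨hx, rfl⟩
        · exact ⟨h7, h8⟩
        · exact ⟨h7, h8⟩
    have h7 : x ∉ (Y.filter (fun y => h y = h x ∧ G.Adj x y) ∪
        Y.filter (fun y => h y = h x ∧ y ≠ x ∧ ¬ G.Adj x y)) := by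
      rw [mem_union, mem_filter, mem_filter]
      rintro (⟨_, _, h8⟩ | ⟨_, _, h8, _⟩)
      · exact G.loopless.irrefl x h8
      · exact h8 rfl
    have h8 : Disjoint (Y.filter (fun y => h y = h x ∧ G.Adj x y))
        (Y.filter (fun y => h y = h x ∧ y ≠ x ∧ ¬ G.Adj x y)) := by
      rw [Finset.disjoint_left]
      intro y h9 h10
      exact (mem_filter.1 h10).2.2.2 (mem_filter.1 h9).2.2
    rw [h4, Finset.card_union_of_disjoint h5, h6, Finset.card_insert_of_notMem h7,
      Finset.card_union_of_disjoint h8]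
    unfold ms
    omega
  have he2 : ∑ c ∈ I.image r, e2 G (XC c) = ∑ x ∈ Y, ((XC (r (h x))).filter (G.Adj x)).card := by
    rw [hsum]
    refine Finset.sum_congr rfl ?_
    intro c _
    unfold e2
    refine Finset.sum_congr rfl ?_
    intro x hx
    rw [(mem_filter.1 hx).2]
  have hgr : ∑ x ∈ Y, (grp Y h (h x)).card = ∑ j ∈ I, (grp Y h j).card * (grp Y h j).card := by
    have : ∑ x ∈ Y, (grp Y h (h x)).card = ∑ j ∈ I, ∑ x ∈ Y with h x = j, (grp Y h (h x)).card :=
      (Finset.sum_fiberwise_of_maps_to hI _).symm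
    rw [this]
    refine Finset.sum_congr rfl ?_
    intro j _
    have : ∀ x ∈ Y.filter (fun x => h x = j), (grp Y h (h x)).card = (grp Y h j).card := by
      intro x hx
      rw [(mem_filter.1 hx).2]
    rw [Finset.sum_congr rfl this, Finset.sum_const, smul_eq_mul]
    rfl
  have h9 : ∑ x ∈ Y, ((XC (r (h x))).filter (G.Adj x)).card + ∑ x ∈ Y, ms G Y h x + Y.card =
      (∑ x ∈ Y, (grp Y h (h x)).card) + crossR G Y h r := by
    unfold crossR
    rw [← Finset.sum_add_distrib, ← Finset.sum_add_distrib, Finset.card_eq_sum_ones,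
      ← Finset.sum_add_distrib]
    exact Finset.sum_congr rfl hpt
  have h10 : ∑ c ∈ I.image r, (e2 G (XC c) + 2 * k + 1) ≤ ∑ c ∈ I.image r, (k + 1) * (XC c).card :=
    Finset.sum_le_sum hclass
  rw [← Finset.mul_sum, ← hcardY] at h10
  simp only [add_assoc, Finset.sum_add_distrib, Finset.sum_const, smul_eq_mul] at h10
  rw [he2] at h10
  rw [hgr] at h9
  nlinarith

/-- counting cross edges leaving `S` -/
theorem double_count {Y S : Finset V} (hSY : S ⊆ Y) (P : V → V → Prop) [DecidableRel P]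
    (hP : ∀ x y, P x y → P y x) :
    2 * ∑ x ∈ S, ((Y \ S).filter (P x)).card ≤ ∑ x ∈ Y, (Y.filter (P x)).card := by
  have h1 : ∑ x ∈ Y, (Y.filter (P x)).card =
      ∑ x ∈ S, (Y.filter (P x)).card + ∑ x ∈ Y \ S, (Y.filter (P x)).card := by
    rw [add_comm, Finset.sum_sdiff hSY]
  have h2 : ∑ x ∈ S, ((Y \ S).filter (P x)).card ≤ ∑ x ∈ S, (Y.filter (P x)).card :=
    Finset.sum_le_sum fun x _ => Finset.card_le_card
      (Finset.filter_subset_filter _ Finset.sdiff_subset)
  have h3 : ∑ x ∈ S, ((Y \ S).filter (P x)).card ≤ ∑ x ∈ Y \ S, (Y.filter (P x)).card := by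
    have h4 : ∑ x ∈ S, ((Y \ S).filter (P x)).card = ∑ y ∈ Y \ S, (S.filter (fun x => P x y)).card := by
      simp only [Finset.card_filter]
      exact Finset.sum_comm
    rw [h4]
    refine Finset.sum_le_sum fun y _ => Finset.card_le_card ?_
    intro x hx
    rw [mem_filter] at hx ⊢
    exact ⟨hSY hx.1, hP _ _ hx.2⟩
  omega

end Pool.Agent.TwoDens
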