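import Pool.Agent.TwoDens.Core

open Finset

namespace Pool.Agent.TwoDens

/-- splitting edges into those inside blocks and the cross ones -/
theorem e2_split {V W : Type*} [DecidableEq V] [DecidableEq W] [Fintype W]
    (G : SimpleGraph V) [DecidableRel G.Adj] (b : V → W) (F : Finset V) :
    e2 G F = ∑ o : W, e2 G (F.filter (fun y => b y = o)) +
      ∑ x ∈ F, (F.filter (fun y => b y ≠ b x ∧ G.Adj x y)).card := by
  have h1 : ∀ x ∈ F, (F.filter (G.Adj x)).card =
      ((F.filter (fun y => b y = b x)).filter (G.Adj x)).card +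
      (F.filter (fun y => b y ≠ b x ∧ G.Adj x y)).card := by
    intro x _
    rw [← Finset.card_union_of_disjoint]
    · congr 1
      ext y
      simp only [mem_union, mem_filter]
      tauto
    · rw [Finset.disjoint_left]
      intro y hy hy'
      exact (mem_filter.1 hy').2.1 (mem_filter.1 (mem_filter.1 hy).1).2
  have h2 : ∑ x ∈ F, ((F.filter (fun y => b y = b x)).filter (G.Adj x)).card =
      ∑ o : W, e2 G (F.filter (fun y => b y = o)) := by
    rw [← Finset.sum_fiberwise_of_maps_to (s := F) (t := Finset.univ) (g := b)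
      (fun _ _ => Finset.mem_univ _)]
    refine Finset.sum_congr rfl fun o _ => ?_
    unfold e2
    refine Finset.sum_congr rfl fun x hx => ?_
    rw [(mem_filter.1 hx).2]
  rw [← h2, ← Finset.sum_add_distrib]
  exact Finset.sum_congr rfl h1

theorem exists_start {s : ℕ} [NeZero s] (T : ZMod s → Prop) {j0 j1 : ZMod s} (h0 : T j0)
    (h1 : ¬ T j1) : ∃ i, T i ∧ ¬ T (i - 1) := by
  by_contra hcon
  push Not at hcon
  have h2 : ∀ n : ℕ, T (j0 - (n : ZMod s)) := by
    intro n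
    induction n with
    | zero => simpa using h0
    | succ n ih =>
      have := hcon _ ih
      have h3 : j0 - ((n + 1 : ℕ) : ZMod s) = j0 - (n : ZMod s) - 1 := by
        push_cast; ring
      rw [h3]; exact this
  apply h1
  have := h2 (j0 - j1).val
  rwa [ZMod.natCast_zmod_val, sub_sub_cancel] at this

/-- the parity class: which of the two special vertices is the parent of the vertices with second
coordinate `j` -/
def par (k j : ℕ) : ℕ := if 2 * j < k then 1 else 0

/-- adjacency of the cyclic construction -/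
def cAdj (s k : ℕ) (x y : ZMod s × Fin k) : Prop :=
  (x.1 = y.1 ∧ x.2 ≠ y.2 ∧ ¬ (x.2.val = 0 ∧ y.2.val = 1) ∧ ¬ (x.2.val = 1 ∧ y.2.val = 0)) ∨
  (x.1 ≠ y.1 ∧ ((x.1 = y.1 - 1 ∧ x.2.val = par k y.2.val) ∨
    (y.1 = x.1 - 1 ∧ y.2.val = par k x.2.val)))

instance (s k : ℕ) (x y : ZMod s × Fin k) : Decidable (cAdj s k x y) := by
  unfold cAdj; exact inferInstance

/-- the cyclic construction -/
def cycG (s k : ℕ) : SimpleGraph (ZMod s × Fin k) where
  Adj := cAdj s k
  symm := ⟨fun x y h => by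
    rcases h with ⟨h1, h2, h3, h4⟩ | ⟨h1, h2⟩
    · exact Or.inl ⟨h1.symm, h2.symm, fun h => h4 ⟨h.2, h.1⟩, fun h => h3 ⟨h.2, h.1⟩⟩
    · exact Or.inr ⟨h1.symm, h2.symm⟩⟩
  loopless := ⟨fun x h => by
    rcases h with ⟨_, h2, _⟩ | ⟨h1, _⟩
    · exact h2 rfl
    · exact h1 rfl⟩

instance (s k : ℕ) : DecidableRel (cycG s k).Adj := fun x y => by
  unfold cycG; exact inferInstance

theorem cycG_adj {s k : ℕ} (x y : ZMod s × Fin k) : (cycG s k).Adj x y ↔ cAdj s k x y := Iff.rfl

theorem one_sub_ne {s : ℕ} (hs : 2 ≤ s) (i : ZMod s) : i ≠ i - 1 := by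
  have : Fact (1 < s) := ⟨by omega⟩
  intro h
  have h1 : (1 : ZMod s) = 0 := by
    have h2 : i - (i - 1) = 0 := by rw [← h]; ring
    simp at h2
  exact one_ne_zero h1

theorem cyc_same {s k : ℕ} (x y : ZMod s × Fin k) (hxy : x ≠ y) (hb : x.1 = y.1)
    (hna : ¬ (cycG s k).Adj x y) :
    (x.2.val = 0 ∧ y.2.val = 1) ∨ (x.2.val = 1 ∧ y.2.val = 0) := by
  by_contra hcon
  push Not at hcon
  apply hna
  refine Or.inl ⟨hb, fun h => hxy (Prod.ext hb h), ?_, ?_⟩
  · rintro ⟨h1, h2⟩; exact hcon.1 h1 h2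
  · rintro ⟨h1, h2⟩; exact hcon.2 h1 h2

theorem cyc_indep {s k : ℕ} [NeZero s] (hs : 2 ≤ s) (I : Finset (ZMod s × Fin k))
    (hI : (cycG s k).IsIndepSet (I : Set (ZMod s × Fin k))) : I.card ≤ s := by
  classical
  have hcard : (Finset.univ : Finset (ZMod s)).card = s := by
    rw [Finset.card_univ, ZMod.card]
  -- a pair in one block excludes the next block
  have hex : ∀ x ∈ I, ∀ y ∈ I, x.1 = y.1 → x.2.val = 0 → y.2.val = 1 → ∀ z ∈ I,
      z.1 ≠ x.1 + 1 := by
    intro x hx y hy hxy hx0 hy1 z hz hzx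
    have h1 : x.1 = z.1 - 1 := by rw [hzx]; ring
    have h2 : y.1 = z.1 - 1 := by rw [← hxy]; exact h1
    have hne : z.1 ≠ z.1 - 1 := one_sub_ne hs _
    by_cases h3 : 2 * z.2.val < k
    · refine hI (Finset.mem_coe.2 hy) (Finset.mem_coe.2 hz) ?_ (Or.inr ⟨?_, Or.inl ⟨h2, ?_⟩⟩)
      · intro h; rw [h] at h2; exact hne h2
      · rw [h2]; exact hne.symm
      · unfold par; rw [if_pos h3, hy1]
    · refine hI (Finset.mem_coe.2 hx) (Finset.mem_coe.2 hz) ?_ (Or.inr ⟨?_, Or.inl ⟨h1, ?_⟩⟩)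
      · intro h; rw [h] at h1; exact hne h1
      · rw [h1]; exact hne.symm
      · unfold par; rw [if_neg h3, hx0]
  refine le_trans ?_ hcard.le
  refine Finset.card_le_card_of_injOn
    (fun y => if ∃ x ∈ I, x.1 = y.1 ∧ x.2.val = 0 ∧ y.2.val = 1 then y.1 + 1 else y.1)
    (fun _ _ => Finset.mem_univ _) ?_
  intro y hy z hz hyz
  by_contra hne
  simp only at hyz
  split_ifs at hyz with h1 h2 h2
  · obtain ⟨x, hx, hx1, hx2, hx3⟩ := h1
    obtain ⟨w, hw, hw1, hw2, hw3⟩ := h2
    apply hne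
    exact Prod.ext (add_right_cancel hyz) (Fin.ext (by rw [hx3, hw3]))
  · obtain ⟨x, hx, hx1, hx2, hx3⟩ := h1
    exact hex x hx y hy hx1 hx2 hx3 z hz (by rw [← hyz, hx1])
  · obtain ⟨x, hx, hx1, hx2, hx3⟩ := h2
    exact hex x hx z hz hx1 hx2 hx3 y hy (by rw [hyz, hx1])
  · rcases cyc_same y z hne hyz (hI hy hz hne) with ⟨h3, h4⟩ | ⟨h3, h4⟩
    · exact h2 ⟨y, hy, hyz, h3, h4⟩
    · exact h1 ⟨z, hz, hyz.symm, h4, h3⟩

/-- the parent of a vertex -/
def isPar (s k : ℕ) (x y : ZMod s × Fin k) : Prop := x.1 = y.1 - 1 ∧ x.2.val = par k y.2.val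

instance (s k : ℕ) (x y : ZMod s × Fin k) : Decidable (isPar s k x y) := by
  unfold isPar; exact inferInstance

/-- size of block `i` -/
def aC {s k : ℕ} (F : Finset (ZMod s × Fin k)) (i : ZMod s) : ℕ := (F.filter (fun y => y.1 = i)).card

/-- number of vertices of block `i` whose parent is in `F` -/
def eC {s k : ℕ} (F : Finset (ZMod s × Fin k)) (i : ZMod s) : ℕ :=
  ((F.filter (fun y => y.1 = i)).filter (fun y => ∃ x ∈ F, isPar s k x y)).card

theorem cyc_cross {s k : ℕ} [NeZero s] (F : Finset (ZMod s × Fin k)) :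
    ∑ x ∈ F, (F.filter (fun y => y.1 ≠ x.1 ∧ (cycG s k).Adj x y)).card ≤ 2 * ∑ i, eC F i := by
  have h1 : ∑ x ∈ F, (F.filter (fun y => y.1 ≠ x.1 ∧ (cycG s k).Adj x y)).card ≤
      ∑ x ∈ F, (F.filter (fun y => isPar s k x y)).card +
      ∑ x ∈ F, (F.filter (fun y => isPar s k y x)).card := by
    rw [← Finset.sum_add_distrib]
    refine Finset.sum_le_sum fun x _ => ?_
    refine (Finset.card_le_card ?_).trans (Finset.card_union_le _ _)
    intro y hy
    obtain ⟨hyF, hy1, hy2⟩ := mem_filter.1 hy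
    rw [mem_union, mem_filter, mem_filter]
    rcases hy2 with ⟨h, _⟩ | ⟨_, h | h⟩
    · exact absurd h.symm hy1
    · exact Or.inl ⟨hyF, h⟩
    · exact Or.inr ⟨hyF, h⟩
  have h2 : ∑ x ∈ F, (F.filter (fun y => isPar s k x y)).card =
      ∑ x ∈ F, (F.filter (fun y => isPar s k y x)).card := by
    simp only [Finset.card_filter]
    exact Finset.sum_comm
  have h3 : ∑ x ∈ F, (F.filter (fun y => isPar s k y x)).card ≤ ∑ i, eC F i := by
    have h4 : ∀ x ∈ F, (F.filter (fun y => isPar s k y x)).card ≤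
        if ∃ z ∈ F, isPar s k z x then 1 else 0 := by
      intro x _
      split_ifs with h5
      · rw [Finset.card_le_one]
        intro y hy z hz
        have h6 := (mem_filter.1 hy).2
        have h7 := (mem_filter.1 hz).2
        exact Prod.ext (h6.1.trans h7.1.symm) (Fin.ext (h6.2.trans h7.2.symm))
      · rw [Nat.le_zero, Finset.card_eq_zero, Finset.filter_eq_empty_iff]
        intro y hy h6
        exact h5 ⟨y, hy, h6⟩
    refine (Finset.sum_le_sum h4).trans ?_
    rw [← Finset.card_filter, Finset.card_eq_sum_card_fiberwise (f := fun y : ZMod s × Fin k => y.1)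
      (t := Finset.univ) (fun _ _ => Finset.mem_univ _)]
    refine Finset.sum_le_sum fun i _ => ?_
    unfold eC
    refine Finset.card_le_card ?_
    intro y hy
    rw [mem_filter, mem_filter] at hy
    rw [mem_filter, mem_filter]
    exact ⟨⟨hy.1.1, hy.2⟩, hy.1.2⟩
  omega

/-- block contribution to the potential -/
def gC {s k : ℕ} (F : Finset (ZMod s × Fin k)) (i : ZMod s) : ℤ :=
  (aC F i : ℤ) * (k + 2 - aC F i) + m2 (cycG s k) (F.filter (fun y => y.1 = i)) - 2 * eC F i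

theorem cyc_phi {s k : ℕ} [NeZero s] (F : Finset (ZMod s × Fin k)) :
    ∑ i, gC F i ≤ (k + 1) * (F.card : ℤ) - e2 (cycG s k) F := by
  have h1 := e2_split (cycG s k) (fun y => y.1) F
  have h2 := cyc_cross F
  have h3 : (F.card : ℤ) = ∑ i, (aC F i : ℤ) := by
    have := Finset.card_eq_sum_card_fiberwise (f := fun y : ZMod s × Fin k => y.1) (s := F)
      (t := Finset.univ) (fun _ _ => Finset.mem_univ _)
    rw [this]
    push_cast
    rfl
  have h4 : ∑ i, gC F i = (k + 1) * (F.card : ℤ) -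
      ∑ i, (e2 (cycG s k) (F.filter (fun y => y.1 = i)) : ℤ) - 2 * ∑ i, (eC F i : ℤ) := by
    rw [h3, Finset.mul_sum, Finset.mul_sum, ← Finset.sum_sub_distrib, ← Finset.sum_sub_distrib]
    refine Finset.sum_congr rfl fun i _ => ?_
    have h5 := e2_add_m2 (cycG s k) (F.filter (fun y => y.1 = i))
    have h6 : (e2 (cycG s k) (F.filter (fun y => y.1 = i)) : ℤ) +
        m2 (cycG s k) (F.filter (fun y => y.1 = i)) + aC F i = aC F i * aC F i := by
      exact_mod_cast h5
    unfold gC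
    linarith
  have h7 : (e2 (cycG s k) F : ℤ) = ∑ i, (e2 (cycG s k) (F.filter (fun y => y.1 = i)) : ℤ) +
      ((∑ x ∈ F, (F.filter (fun y => y.1 ≠ x.1 ∧ (cycG s k).Adj x y)).card : ℕ) : ℤ) := by
    rw [h1]; push_cast; rfl
  have h8 : ((∑ x ∈ F, (F.filter (fun y => y.1 ≠ x.1 ∧ (cycG s k).Adj x y)).card : ℕ) : ℤ) ≤
      2 * ∑ i, (eC F i : ℤ) := by exact_mod_cast h2
  rw [h4]
  linarith

end Pool.Agent.TwoDens
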