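import Pool.Agent.TwoDens.Cyc

open Finset

namespace Pool.Agent.TwoDens

theorem aC_le {s k : ℕ} (F : Finset (ZMod s × Fin k)) (i : ZMod s) : aC F i ≤ k := by
  have h1 : F.filter (fun y => y.1 = i) ⊆
      (Finset.univ : Finset (Fin k)).image (fun a => (i, a)) := by
    intro y hy
    have := (mem_filter.1 hy).2
    rw [mem_image]
    exact ⟨y.2, mem_univ _, by rw [← this]⟩
  have := (Finset.card_le_card h1).trans Finset.card_image_le
  simpa [aC] using this

theorem eC_le {s k : ℕ} (F : Finset (ZMod s × Fin k)) (i : ZMod s) : eC F i ≤ aC F i :=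
  Finset.card_le_card (Finset.filter_subset _ _)

theorem eC_zero {s k : ℕ} (F : Finset (ZMod s × Fin k)) (i : ZMod s) (h : aC F (i - 1) = 0) :
    eC F i = 0 := by
  unfold eC
  rw [Finset.card_eq_zero, Finset.filter_eq_empty_iff]
  rintro y hy ⟨x, hx, hx1, _⟩
  have h1 : x ∈ F.filter (fun y => y.1 = i - 1) := by
    rw [mem_filter]
    refine ⟨hx, ?_⟩
    rw [hx1, (mem_filter.1 hy).2]
  rw [Finset.card_eq_zero.1 h] at h1
  exact absurd h1 (Finset.notMem_empty _)

/-- two vertices with second coordinates 0 and 1 in a block give two missing ordered pairs -/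
theorem m2_ge_two {s k : ℕ} (A : Finset (ZMod s × Fin k)) (x y : ZMod s × Fin k) (hx : x ∈ A)
    (hy : y ∈ A) (hxy : x.1 = y.1) (hx0 : x.2.val = 0) (hy1 : y.2.val = 1) :
    2 ≤ m2 (cycG s k) A := by
  have hne : x ≠ y := by
    intro h; rw [h] at hx0; omega
  have hna : ¬ (cycG s k).Adj x y := by
    rintro (⟨_, _, h, _⟩ | ⟨h, _⟩)
    · exact h ⟨hx0, hy1⟩
    · exact h hxy
  have h3 : ∀ z ∈ ({x, y} : Finset (ZMod s × Fin k)),
      1 ≤ (A.filter (fun y => y ≠ z ∧ ¬ (cycG s k).Adj z y)).card := by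
    intro z hz
    rw [mem_insert, mem_singleton] at hz
    rcases hz with rfl | rfl
    · exact Finset.card_pos.2 ⟨y, mem_filter.2 ⟨hy, hne.symm, hna⟩⟩
    · exact Finset.card_pos.2 ⟨x, mem_filter.2 ⟨hx, hne, fun h => hna h.symm⟩⟩
  calc 2 = ∑ z ∈ ({x, y} : Finset (ZMod s × Fin k)), 1 := by
        rw [Finset.sum_const, Finset.card_pair hne]; rfl
    _ ≤ ∑ z ∈ ({x, y} : Finset (ZMod s × Fin k)),
        (A.filter (fun y => y ≠ z ∧ ¬ (cycG s k).Adj z y)).card := Finset.sum_le_sum h3
    _ ≤ _ := by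
        unfold m2
        refine Finset.sum_le_sum_of_subset ?_
        intro z hz
        rw [mem_insert, mem_singleton] at hz
        rcases hz with rfl | rfl <;> assumption

theorem m2_full {s k : ℕ} (hk : 2 ≤ k) (F : Finset (ZMod s × Fin k)) (i : ZMod s)
    (h : aC F i = k) : 2 ≤ m2 (cycG s k) (F.filter (fun y => y.1 = i)) := by
  have h3 : F.filter (fun y => y.1 = i) =
      (Finset.univ : Finset (Fin k)).image (fun a => (i, a)) := by
    refine Finset.eq_of_subset_of_card_le ?_ ?_
    · intro y hy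
      have := (mem_filter.1 hy).2
      rw [mem_image]
      exact ⟨y.2, mem_univ _, by rw [← this]⟩
    · refine Finset.card_image_le.trans ?_
      simp only [Finset.card_univ, Fintype.card_fin]
      exact h.ge
  have h4 : ∀ a : Fin k, (i, a) ∈ F.filter (fun y => y.1 = i) := by
    intro a
    rw [h3]; exact mem_image_of_mem _ (Finset.mem_univ _)
  exact m2_ge_two _ (i, ⟨0, by omega⟩) (i, ⟨1, by omega⟩) (h4 _) (h4 _) rfl rfl rfl

/-- number of children in one block of a vertex -/
theorem eC_one {s k : ℕ} (F : Finset (ZMod s × Fin k)) (i : ZMod s) (h : aC F (i - 1) = 1) :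
    2 * eC F i ≤ k + 1 ∧ (k = 3 → eC F i = 2 →
      2 ≤ m2 (cycG s k) (F.filter (fun y => y.1 = i))) := by
  obtain ⟨x, hx⟩ := Finset.card_eq_one.1 h
  have h1 : ∀ y ∈ (F.filter (fun y => y.1 = i)).filter (fun y => ∃ x ∈ F, isPar s k x y),
      x.2.val = par k y.2.val ∧ y.1 = i := by
    intro y hy
    obtain ⟨hy1, z, hz, hz1, hz2⟩ := mem_filter.1 hy
    have hyi := (mem_filter.1 hy1).2
    have h2 : z ∈ F.filter (fun y => y.1 = i - 1) := by
      rw [mem_filter]
      exact ⟨hz, by rw [hz1, hyi]⟩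
    rw [hx, mem_singleton] at h2
    rw [← h2]
    exact ⟨hz2, hyi⟩
  constructor
  · have h2 : eC F i ≤ (Finset.range ((k + 1) / 2)).card := by
      unfold eC
      by_cases hx1 : x.2.val = 1
      · refine Finset.card_le_card_of_injOn (fun y => y.2.val) ?_ ?_
        · intro y hy
          have h3 := h1 y hy
          rw [Finset.mem_coe, Finset.mem_range]
          show y.2.val < (k + 1) / 2
          have h4 := h3.1
          unfold par at h4
          split_ifs at h4 <;> omega
        · intro y hy z hz hyz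
          exact Prod.ext ((h1 y hy).2.trans (h1 z hz).2.symm) (Fin.ext hyz)
      · refine Finset.card_le_card_of_injOn (fun y => k - 1 - y.2.val) ?_ ?_
        · intro y hy
          have h3 := h1 y hy
          rw [Finset.mem_coe, Finset.mem_range]
          show k - 1 - y.2.val < (k + 1) / 2
          have h4 := h3.1
          have h5 := y.2.isLt
          unfold par at h4
          split_ifs at h4 <;> omega
        · intro y hy z hz hyz
          have h5 := y.2.isLt
          have h6 := z.2.isLt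
          simp only at hyz
          exact Prod.ext ((h1 y hy).2.trans (h1 z hz).2.symm) (Fin.ext (by omega))
    rw [Finset.card_range] at h2
    omega
  · intro hk he
    obtain ⟨y, z, hyz, hyz2⟩ := Finset.card_eq_two.1 he
    have hy : y ∈ (F.filter (fun y => y.1 = i)).filter (fun y => ∃ x ∈ F, isPar s k x y) := by
      rw [hyz2]; simp
    have hz : z ∈ (F.filter (fun y => y.1 = i)).filter (fun y => ∃ x ∈ F, isPar s k x y) := by
      rw [hyz2]; simp
    have hy1 := h1 y hy
    have hz1 := h1 z hz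
    have hne : y.2.val ≠ z.2.val := by
      intro h2
      exact hyz (Prod.ext (hy1.2.trans hz1.2.symm) (Fin.ext h2))
    have hyk := y.2.isLt
    have hzk := z.2.isLt
    have e1 := hy1.1
    have e2 := hz1.1
    unfold par at e1 e2
    subst hk
    have e3 : (y.2.val = 0 ∧ z.2.val = 1) ∨ (y.2.val = 1 ∧ z.2.val = 0) := by
      split_ifs at e1 e2 <;> omega
    rcases e3 with ⟨e4, e5⟩ | ⟨e4, e5⟩
    · exact m2_ge_two _ y z (mem_filter.1 hy).1 (mem_filter.1 hz).1 (hy1.2.trans hz1.2.symm) e4 e5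
    · exact m2_ge_two _ z y (mem_filter.1 hz).1 (mem_filter.1 hy).1 (hz1.2.trans hy1.2.symm) e5 e4

/-- a touched block contributes at least two -/
theorem gC_ge {s k : ℕ} (hk : 3 ≤ k) (F : Finset (ZMod s × Fin k)) (i : ZMod s)
    (h : 1 ≤ aC F i) : 2 ≤ gC F i := by
  have h1 := aC_le F i
  have h2 := eC_le F i
  unfold gC
  have h2' : (eC F i : ℤ) ≤ aC F i := by exact_mod_cast h2
  have hk' : (3 : ℤ) ≤ k := by exact_mod_cast hk
  rcases Nat.lt_or_ge (aC F i) k with h3 | h3
  · have h4 : (aC F i : ℤ) + 1 ≤ k := by exact_mod_cast h3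
    have h5 : (1 : ℤ) ≤ aC F i := by exact_mod_cast h
    have h6 : (0 : ℤ) ≤ m2 (cycG s k) (F.filter (fun y => y.1 = i)) := by positivity
    nlinarith [mul_nonneg (sub_nonneg.2 h5) (sub_nonneg.2 h4)]
  · have h4 : aC F i = k := le_antisymm h1 h3
    have h5 := m2_full (by omega) F i h4
    have h6 : (2 : ℤ) ≤ m2 (cycG s k) (F.filter (fun y => y.1 = i)) := by exact_mod_cast h5
    rw [h4] at h2' ⊢
    nlinarith

theorem gC_nonneg {s k : ℕ} (hk : 3 ≤ k) (F : Finset (ZMod s × Fin k)) (i : ZMod s) :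
    2 * (aC F i : ℤ) ≤ k * gC F i := by
  rcases Nat.eq_zero_or_pos (aC F i) with h | h
  · have h1 : eC F i = 0 := by have := eC_le F i; omega
    unfold gC
    rw [h, h1]
    push_cast
    have h6 : (0 : ℤ) ≤ m2 (cycG s k) (F.filter (fun y => y.1 = i)) := by positivity
    have hk' : (3 : ℤ) ≤ k := by exact_mod_cast hk
    nlinarith
  · have h1 := gC_ge hk F i h
    have h2 : (aC F i : ℤ) ≤ k := by exact_mod_cast aC_le F i
    have hk' : (3 : ℤ) ≤ k := by exact_mod_cast hk
    nlinarith

/-- first blocks of a run -/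
theorem gC_start {s k : ℕ} (hk : 3 ≤ k) (F : Finset (ZMod s × Fin k)) (i : ZMod s)
    (h1 : 1 ≤ aC F i) (h2 : aC F (i - 1) = 0) :
    (k : ℤ) + 1 ≤ gC F i ∧ (2 ≤ aC F i → 2 * (k : ℤ) * k + 2 * aC F i - 4 ≤ k * gC F i) := by
  have h3 := eC_zero F i h2
  have h4 := aC_le F i
  have hk' : (3 : ℤ) ≤ k := by exact_mod_cast hk
  have h4' : (aC F i : ℤ) ≤ k := by exact_mod_cast h4
  have h5 : (1 : ℤ) ≤ aC F i := by exact_mod_cast h1
  have h6 : (0 : ℤ) ≤ m2 (cycG s k) (F.filter (fun y => y.1 = i)) := by positivity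
  unfold gC
  rw [h3]
  push_cast
  constructor
  · nlinarith [mul_nonneg (sub_nonneg.2 h5) (sub_nonneg.2 h4')]
  · intro h7
    have h7' : (2 : ℤ) ≤ aC F i := by exact_mod_cast h7
    rcases Nat.lt_or_ge (aC F i) k with h8 | h8
    · have h9 : (aC F i : ℤ) + 1 ≤ k := by exact_mod_cast h8
      have h10 : 2 * (k : ℤ) + (aC F i - 2) ≤ (aC F i : ℤ) * (k + 2 - aC F i) := by
        nlinarith [mul_nonneg (sub_nonneg.2 h7') (sub_nonneg.2 h9)]
      nlinarith
    · have h9 : aC F i = k := le_antisymm h4 h8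
      have h10 := m2_full (by omega) F i h9
      have h11 : (2 : ℤ) ≤ m2 (cycG s k) (F.filter (fun y => y.1 = i)) := by exact_mod_cast h10
      rw [h9]
      nlinarith

/-- a one-vertex first block followed by another block -/
theorem gC_pair {s k : ℕ} (hk : 3 ≤ k) (F : Finset (ZMod s × Fin k)) (i : ZMod s)
    (h1 : aC F (i - 1) = 1) (h2 : aC F (i - 1 - 1) = 0) (h3 : 1 ≤ aC F i) :
    2 * (k : ℤ) * k + 2 * aC F i - 2 ≤ k * (gC F (i - 1) + gC F i) := by
  have h4 : (k : ℤ) + 1 ≤ gC F (i - 1) := (gC_start hk F (i - 1) (by omega) h2).1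
  obtain ⟨h5, h6⟩ := eC_one F i h1
  have h7 := eC_le F i
  have h8 := aC_le F i
  have hk' : (3 : ℤ) ≤ k := by exact_mod_cast hk
  have h5' : 2 * (eC F i : ℤ) ≤ k + 1 := by exact_mod_cast h5
  have h7' : (eC F i : ℤ) ≤ aC F i := by exact_mod_cast h7
  have h8' : (aC F i : ℤ) ≤ k := by exact_mod_cast h8
  have h3' : (1 : ℤ) ≤ aC F i := by exact_mod_cast h3
  have h9 : (0 : ℤ) ≤ m2 (cycG s k) (F.filter (fun y => y.1 = i)) := by positivity
  -- it suffices to bound the second contribution
  suffices h10 : 2 * (k : ℤ) * k + 2 * aC F i - 2 ≤ k * (k + 1 + gC F i) by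
    nlinarith
  unfold gC
  rcases Nat.lt_or_ge (aC F i) k with h11 | h11
  · have h12 : (aC F i : ℤ) + 1 ≤ k := by exact_mod_cast h11
    -- not full
    rcases Nat.lt_or_ge k 4 with h13 | h13
    · have hk3 : k = 3 := by omega
      subst hk3
      have h14 : aC F i = 1 ∨ aC F i = 2 := by omega
      rcases h14 with h15 | h15
      · rw [h15] at h7' ⊢
        push_cast at h7' ⊢
        nlinarith
      · by_cases h16 : eC F i = 2
        · have h17 := h6 rfl h16
          have h18 : (2 : ℤ) ≤ m2 (cycG s 3) (F.filter (fun y => y.1 = i)) := by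
            exact_mod_cast h17
          rw [h15, h16]
          push_cast
          nlinarith
        · have h19 : eC F i ≤ 1 := by omega
          have h20 : (eC F i : ℤ) ≤ 1 := by exact_mod_cast h19
          rw [h15]
          push_cast
          nlinarith
    · have h14 : (4 : ℤ) ≤ k := by exact_mod_cast h13
      -- a < k, k ≥ 4
      rcases Nat.lt_or_ge (2 * aC F i) (k + 2) with h15 | h15
      · -- small a
        have h16 : 2 * (aC F i : ℤ) + 1 ≤ k + 2 := by exact_mod_cast h15
        have h17 : (k : ℤ) - 1 + (aC F i - 1) ≤ (aC F i : ℤ) * (k + 2 - aC F i) - 2 * eC F i := by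
          rcases Nat.lt_or_ge (aC F i + 1) k with h18 | h18
          · have h19 : (aC F i : ℤ) + 2 ≤ k := by exact_mod_cast h18
            nlinarith [mul_nonneg (sub_nonneg.2 h3') (sub_nonneg.2 h19)]
          · exfalso; omega
        nlinarith
      · have h16 : (k : ℤ) + 2 ≤ 2 * aC F i := by exact_mod_cast h15
        have h17 : (k : ℤ) - 1 + (aC F i - 2) ≤ (aC F i : ℤ) * (k + 2 - aC F i) - 2 * eC F i := by
          nlinarith [mul_nonneg (by linarith : (0 : ℤ) ≤ (aC F i : ℤ) - 2) (sub_nonneg.2 h12)]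
        nlinarith
  · have h12 : aC F i = k := le_antisymm h8 h11
    have h10 := m2_full (by omega) F i h12
    have h13 : (2 : ℤ) ≤ m2 (cycG s k) (F.filter (fun y => y.1 = i)) := by exact_mod_cast h10
    rw [h12]
    nlinarith

end Pool.Agent.TwoDens
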