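import Pool.Agent.TwoDens.RK

/-!
Sparse graphs: `2 e ≥ (4 k - 6) n - (3 k - 4) (k - 1) α` (first part: the minimum degree of a
minimal counterexample).
-/

open Finset

namespace Pool.Agent.TwoDens.DD

open Pool.Agent.TwoDens Pool.Agent.TwoDens.RK

variable {V : Type*} [DecidableEq V] {G : SimpleGraph V} [DecidableRel G.Adj]

theorem e2_singleton (v : V) : e2 G {v} = 0 := by
  unfold e2
  rw [Finset.sum_singleton, Finset.card_eq_zero, Finset.filter_eq_empty_iff]
  intro x hx h
  rw [mem_singleton] at hx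
  rw [hx] at h
  exact G.loopless.irrefl v h

theorem e2_even (X : Finset V) : ∃ h : ℕ, e2 G X = 2 * h := by
  induction X using Finset.induction_on with
  | empty => exact ⟨0, by simp [e2]⟩
  | insert v X hv ih =>
    obtain ⟨h, hh⟩ := ih
    have h1 := e2_sdiff (G := G) (X := insert v X) (R := {v})
      (Finset.singleton_subset_iff.2 (Finset.mem_insert_self v X))
    rw [e2_singleton, Finset.sum_singleton] at h1
    have h2 : insert v X \ {v} = X := by
      ext u
      rw [mem_sdiff, mem_insert, mem_singleton]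
      constructor
      · rintro ⟨h3 | h3, h4⟩
        · exact absurd h3 h4
        · exact h3
      · intro h3
        exact ⟨Or.inr h3, fun h4 => hv (h4 ▸ h3)⟩
    rw [h2, hh] at h1
    exact ⟨h + (nb G (insert v X) v).card, by omega⟩

theorem e2_compl (X : Finset V) : e2 Gᶜ X = m2 G X := by
  unfold e2 m2
  refine Finset.sum_congr rfl fun x _ => ?_
  congr 1
  ext y
  rw [mem_filter, mem_filter, SimpleGraph.compl_adj]
  constructor
  · rintro ⟨h1, h2, h3⟩
    exact ⟨h1, Ne.symm h2, h3⟩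
  · rintro ⟨h1, h2, h3⟩
    exact ⟨h1, Ne.symm h2, h3⟩

theorem e2_add_compl (X : Finset V) : e2 G X + e2 Gᶜ X + X.card = X.card * X.card := by
  rw [e2_compl]; exact e2_add_m2 G X

/-- the degree of a vertex of `F`, split at `F` -/
theorem deg_split {X F : Finset V} (hF : F ⊆ X) {u : V} (hu : u ∈ F) :
    (nb G X u).card + (nb Gᶜ F u).card + 1 = F.card + (nb G X u \ F).card := by
  have h1 : (nb G X u).card = (nb G F u).card + (nb G X u \ F).card := by
    rw [← Finset.card_union_of_disjoint]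
    · congr 1
      ext y
      rw [mem_union, mem_sdiff, mem_nb, mem_nb]
      constructor
      · rintro ⟨h2, h3⟩
        by_cases h4 : y ∈ F
        · exact Or.inl ⟨h4, h3⟩
        · exact Or.inr ⟨⟨h2, h3⟩, h4⟩
      · rintro (⟨h2, h3⟩ | ⟨h2, _⟩)
        · exact ⟨hF h2, h3⟩
        · exact h2
    · rw [Finset.disjoint_left]
      intro y h2 h3
      exact (mem_sdiff.1 h3).2 (mem_nb.1 h2).1
  have h2 : F.card = (nb G F u).card + (nb Gᶜ F u).card + 1 := by
    rw [← Finset.card_union_of_disjoint]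
    · rw [← Finset.card_insert_of_notMem (a := u)]
      · congr 1
        ext y
        rw [mem_insert, mem_union, mem_nb, mem_nb, SimpleGraph.compl_adj]
        constructor
        · intro h3
          by_cases h4 : y = u
          · exact Or.inl h4
          · by_cases h5 : G.Adj u y
            · exact Or.inr (Or.inl ⟨h3, h5⟩)
            · exact Or.inr (Or.inr ⟨h3, Ne.symm h4, h5⟩)
        · rintro (h3 | ⟨h3, _⟩ | ⟨h3, _⟩)
          · rw [h3]; exact hu
          · exact h3
          · exact h3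
      · rw [mem_union, mem_nb, mem_nb]
        rintro (⟨_, h⟩ | ⟨_, h⟩)
        · exact G.loopless.irrefl u h
        · exact Gᶜ.loopless.irrefl u h
    · rw [Finset.disjoint_left]
      intro y h3 h4
      exact ((SimpleGraph.compl_adj _ _ _).1 (mem_nb.1 h4).2).2 (mem_nb.1 h3).2
  omega

theorem al_sdiff {a : ℕ} {X R J : Finset V} (hal : Al G a X) (hR : R ⊆ X) (hJ : J ⊆ R)
    (hJi : G.IsIndepSet (J : Set V)) (hcl : ∀ z ∈ J, nb G X z ⊆ R) :
    J.card ≤ a ∧ Al G (a - J.card) (X \ R) := by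
  refine ⟨hal J (hJ.trans hR) hJi, ?_⟩
  intro I hI hIi
  have hdis : Disjoint I J := by
    rw [Finset.disjoint_left]
    intro x hx hx'
    exact (mem_sdiff.1 (hI hx)).2 (hJ hx')
  have h1 := hal (I ∪ J) (Finset.union_subset (hI.trans Finset.sdiff_subset) (hJ.trans hR)) (by
    intro x hx y hy hxy
    rw [Finset.mem_coe, mem_union] at hx hy
    rcases hx with hx | hx <;> rcases hy with hy | hy
    · exact hIi hx hy hxy
    · intro h
      have h2 := mem_sdiff.1 (hI hx)
      exact h2.2 (hcl y hy (mem_nb.2 ⟨h2.1, h.symm⟩))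
    · intro h
      have h2 := mem_sdiff.1 (hI hy)
      exact h2.2 (hcl x hx (mem_nb.2 ⟨h2.1, h⟩))
    · exact hJi hx hy hxy)
  rw [Finset.card_union_of_disjoint hdis] at h1
  omega

omit [DecidableEq V] [DecidableRel G.Adj] in
theorem indep_singleton (v : V) : G.IsIndepSet (({v} : Finset V) : Set V) := by
  intro x hx y hy hxy
  rw [Finset.coe_singleton, Set.mem_singleton_iff] at hx hy
  exact absurd (hx.trans hy.symm) hxy

omit [DecidableRel G.Adj] in
theorem indep_pair {x y : V} (h : ¬ G.Adj x y) :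
    G.IsIndepSet (({x, y} : Finset V) : Set V) := by
  intro u hu w hw huw
  rw [Finset.mem_coe, mem_insert, mem_singleton] at hu hw
  rcases hu with rfl | rfl <;> rcases hw with rfl | rfl
  · exact absurd rfl huw
  · exact h
  · exact fun h1 => h h1.symm
  · exact absurd rfl huw

omit [DecidableRel G.Adj] in
theorem indep_triple {x y z : V} (h1 : ¬ G.Adj x y) (h2 : ¬ G.Adj x z) (h3 : ¬ G.Adj y z) :
    G.IsIndepSet (({x, y, z} : Finset V) : Set V) := by
  intro u hu w hw huw
  rw [Finset.mem_coe, mem_insert, mem_insert, mem_singleton] at hu hw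
  rcases hu with rfl | rfl | rfl <;> rcases hw with rfl | rfl | rfl
  · exact absurd rfl huw
  · exact h1
  · exact h2
  · exact fun h => h1 h.symm
  · exact absurd rfl huw
  · exact h3
  · exact fun h => h2 h.symm
  · exact fun h => h3 h.symm
  · exact absurd rfl huw

/-- a minimal counterexample -/
structure MinC (G : SimpleGraph V) [DecidableRel G.Adj] (k : ℕ) (X : Finset V) (a : ℕ) : Prop where
  hk : 3 ≤ k
  hS : Sk G k X
  hal : Al G a X
  hbad : (e2 G X : ℤ) + (3 * k - 4) * (k - 1) * a + 1 ≤ (4 * k - 6) * X.card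
  hmin : ∀ Y ⊆ X, Y.card < X.card → ∀ b : ℕ, Al G b Y →
    ((4 * k - 6) * Y.card : ℤ) ≤ e2 G Y + (3 * k - 4) * (k - 1) * b

section
variable {k a : ℕ} {X : Finset V} (H : MinC G k X a)
include H

theorem star {R J : Finset V} (hR : R ⊆ X)
    (hJ : J ⊆ R) (hJn : J.Nonempty) (hJi : G.IsIndepSet (J : Set V))
    (hcl : ∀ z ∈ J, nb G X z ⊆ R) :
    (2 * ((∑ v ∈ R, (nb G X v).card : ℕ) : ℤ)) + (3 * k - 4) * (k - 1) * J.card + 1 ≤
      (4 * k - 6) * R.card + e2 G R := by
  obtain ⟨h1, h2⟩ := al_sdiff H.hal hR hJ hJi hcl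
  have h3 : (X \ R).card + R.card = X.card := Finset.card_sdiff_add_card_eq_card hR
  have h4 : 1 ≤ R.card := Finset.card_pos.2 (hJn.mono hJ)
  have h5 := H.hmin (X \ R) Finset.sdiff_subset (by omega) _ h2
  have h6 := e2_sdiff (G := G) hR
  have h7 := H.hbad
  rw [Nat.cast_sub h1] at h5
  have h8 : ((X \ R).card : ℤ) + R.card = X.card := by exact_mod_cast h3
  have h9 : (e2 G X : ℤ) + e2 G R = e2 G (X \ R) + 2 * ((∑ v ∈ R, (nb G X v).card : ℕ) : ℤ) := by
    exact_mod_cast h6
  rw [← h8] at h7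
  nlinarith

theorem lower {R J : Finset V} (hR : R ⊆ X)
    (hJ : J ⊆ R) (hJn : J.Nonempty) (hJi : G.IsIndepSet (J : Set V))
    (hcl : ∀ z ∈ J, nb G X z ⊆ R) (h3 : 3 ≤ R.card) (δ : ℕ)
    (hδ : ∀ v ∈ X, δ ≤ (nb G X v).card) :
    ((3 * k - 4) * (k - 1) * J.card + 2 * k + 2 : ℤ) ≤ (5 * k - 5 - 2 * δ) * R.card := by
  have h1 := star H hR hJ hJn hJi hcl
  have h2 := H.hS R hR h3
  have h4 : δ * R.card ≤ ∑ v ∈ R, (nb G X v).card := by
    rw [mul_comm, ← smul_eq_mul, ← Finset.sum_const]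
    exact Finset.sum_le_sum fun v hv => hδ v (hR hv)
  have h5 : ((δ : ℤ) * R.card) ≤ ((∑ v ∈ R, (nb G X v).card : ℕ) : ℤ) := by exact_mod_cast h4
  have h6 : (e2 G R : ℤ) + 2 * k + 1 ≤ (k + 1) * R.card := by exact_mod_cast h2
  nlinarith

end

end Pool.Agent.TwoDens.DD
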