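import Pool.Agent.TwoDens.DDA

/-!
The minimum degree of a minimal counterexample is `k`.
-/

open Finset

namespace Pool.Agent.TwoDens.DD

open Pool.Agent.TwoDens Pool.Agent.TwoDens.RK

variable {V : Type*} [DecidableEq V] {G : SimpleGraph V} [DecidableRel G.Adj]

/-- the closed neighbourhood of `v` in `X` -/
def cl (G : SimpleGraph V) [DecidableRel G.Adj] (X : Finset V) (v : V) : Finset V :=
  insert v (nb G X v)

theorem cl_sub {X : Finset V} {v : V} (hv : v ∈ X) : cl G X v ⊆ X :=
  Finset.insert_subset hv (Finset.filter_subset _ _)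

theorem card_cl {X : Finset V} {v : V} : (cl G X v).card = (nb G X v).card + 1 :=
  Finset.card_insert_of_notMem self_notMem

theorem sum_deg {X F : Finset V} (hF : F ⊆ X) :
    ∑ v ∈ F, (nb G X v).card = e2 G F + ∑ v ∈ F, (nb G X v \ F).card := by
  rw [e2_eq, ← Finset.sum_add_distrib]
  refine Finset.sum_congr rfl fun u _ => ?_
  rw [← Finset.card_union_of_disjoint]
  · congr 1
    ext y
    rw [mem_union, mem_sdiff, mem_nb, mem_nb]
    constructor
    · rintro ⟨h2, h3⟩
      by_cases h4 : y ∈ F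
      · exact Or.inl ⟨h4, h3⟩
      · exact Or.inr ⟨⟨h2, h3⟩, h4⟩
    · rintro (⟨h2, h3⟩ | ⟨h2, _⟩)
      · exact ⟨hF h2, h3⟩
      · exact h2
  · rw [Finset.disjoint_left]
    intro y h2 h3
    exact (mem_sdiff.1 h3).2 (mem_nb.1 h2).1

theorem exists_missing {k : ℕ} {X F : Finset V} (hk : 3 ≤ k) (hS : Sk G k X) (hF : F ⊆ X)
    (hc : k ≤ F.card) : ∃ x ∈ F, ∃ y ∈ F, x ≠ y ∧ ¬ G.Adj x y := by
  by_contra hcon
  push Not at hcon
  have h1 : m2 G F = 0 := by
    unfold m2
    rw [Finset.sum_eq_zero_iff]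
    intro x hx
    rw [Finset.card_eq_zero, Finset.filter_eq_empty_iff]
    rintro y hy ⟨h2, h3⟩
    exact h3 (hcon x hx y hy (Ne.symm h2))
  have := hS.clique_lt G hk hF h1
  omega

theorem e2_pair_le {x y : V} (hxy : x ≠ y) : e2 Gᶜ {x, y} ≤ 2 := by
  have h1 := e2_add_compl (G := G) {x, y}
  rw [Finset.card_pair hxy] at h1
  omega

theorem sum_pair' {x y : V} (hxy : x ≠ y) (f : V → ℕ) : ∑ u ∈ ({x, y} : Finset V), f u = f x + f y :=
  Finset.sum_pair hxy

section
variable {k a : ℕ} {X : Finset V} (H : MinC G k X a)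
include H

theorem pair_lower {F : Finset V} (hF : F ⊆ X) (h3 : 3 ≤ F.card) {x y : V} (hx : x ∈ F)
    (hy : y ∈ F) (hxy : x ≠ y) (hn : ¬ G.Adj x y) (δ : ℕ)
    (hδ : ∀ v ∈ X, δ ≤ (nb G X v).card) :
    ((3 * k - 4) * (k - 1) * 2 + 2 * k + 2 : ℤ) ≤
      (5 * k - 5 - 2 * δ) * (F.card + ((nb G X x \ F) ∪ (nb G X y \ F)).card) := by
  have hcard : (F ∪ ((nb G X x \ F) ∪ (nb G X y \ F))).card =
      F.card + ((nb G X x \ F) ∪ (nb G X y \ F)).card := by
    rw [Finset.card_union_of_disjoint]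
    rw [Finset.disjoint_left]
    intro u hu hu'
    rw [mem_union, mem_sdiff, mem_sdiff] at hu'
    rcases hu' with h | h
    · exact h.2 hu
    · exact h.2 hu
  have hsub : F ∪ ((nb G X x \ F) ∪ (nb G X y \ F)) ⊆ X := by
    refine Finset.union_subset hF (Finset.union_subset ?_ ?_)
    · exact Finset.sdiff_subset.trans (Finset.filter_subset _ _)
    · exact Finset.sdiff_subset.trans (Finset.filter_subset _ _)
  have h1 := lower H (R := F ∪ ((nb G X x \ F) ∪ (nb G X y \ F))) (J := {x, y}) hsub (by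
      intro z hz
      rw [mem_insert, mem_singleton] at hz
      rcases hz with rfl | rfl
      · exact mem_union_left _ hx
      · exact mem_union_left _ hy) ⟨x, by simp⟩ (indep_pair hn) (by
      intro z hz w hw
      rw [mem_insert, mem_singleton] at hz
      by_cases hwF : w ∈ F
      · exact mem_union_left _ hwF
      · rcases hz with rfl | rfl
        · exact mem_union_right _ (mem_union_left _ (mem_sdiff.2 ⟨hw, hwF⟩))
        · exact mem_union_right _ (mem_union_right _ (mem_sdiff.2 ⟨hw, hwF⟩)))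
    (by rw [hcard]; omega) δ hδ
  rw [Finset.card_pair hxy, hcard] at h1
  push_cast at h1
  exact h1

theorem deg_ge_aux {v : V} (hv : v ∈ X) (hm : ∀ u ∈ X, (nb G X v).card ≤ (nb G X u).card) :
    k ≤ (nb G X v).card := by
  by_contra hcon
  push Not at hcon
  have hk := H.hk
  have hF := cl_sub (G := G) hv
  have hFc := card_cl (G := G) (X := X) (v := v)
  obtain ⟨d, hd⟩ : ∃ d, (nb G X v).card = d := ⟨_, rfl⟩
  rw [hd] at hcon hFc hm
  set F := cl G X v with hFdef
  have hvF : v ∈ F := Finset.mem_insert_self _ _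
  have hs := star H (R := F) (J := {v}) hF (by simpa using hvF) ⟨v, by simp⟩ (indep_singleton v) (by
    intro z hz
    rw [mem_singleton] at hz
    rw [hz]
    exact Finset.subset_insert _ _)
  rw [Finset.card_singleton, hFc] at hs
  have hsum := sum_deg (G := G) hF
  have hlow : d * (d + 1) ≤ ∑ u ∈ F, (nb G X u).card := by
    rw [mul_comm, ← hFc, ← smul_eq_mul, ← Finset.sum_const]
    exact Finset.sum_le_sum fun u hu => hm u (hF hu)
  have hcomp := e2_add_compl (G := G) F
  obtain ⟨D, hD⟩ : ∃ D, ∑ u ∈ F, (nb G X u).card = D := ⟨_, rfl⟩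
  rw [hD] at hs hsum hlow
  rcases Nat.lt_or_ge d (k - 1) with hdk | hdk
  · -- degree at most k - 2
    obtain ⟨t, rfl⟩ : ∃ t, k = d + 2 + t := ⟨k - 2 - d, by omega⟩
    have h1 : (e2 G F : ℤ) ≤ D := by exact_mod_cast (by omega : e2 G F ≤ D)
    have h2 : ((d : ℤ) * (d + 1)) ≤ D := by exact_mod_cast hlow
    push_cast at hs
    nlinarith [Nat.zero_le t, Nat.zero_le d, mul_nonneg (Int.natCast_nonneg t) (Int.natCast_nonneg d),
      mul_nonneg (Int.natCast_nonneg t) (Int.natCast_nonneg t)]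
  · -- degree k - 1
    have hdk' : k = d + 1 := by omega
    subst hdk'
    obtain ⟨h, hh⟩ := e2_even (G := Gᶜ) F
    rw [hh, hFc] at hcomp
    have h1 : (e2 G F : ℤ) + 2 * h + (d + 1) = (d + 1) * (d + 1) := by exact_mod_cast hcomp
    push_cast at hs
    -- excess at most k - 3
    have h2 : (D : ℤ) + h + 2 ≤ d * (d + 1) + d := by
      have h3 : 2 * (D : ℤ) + 2 * h + 3 ≤ 2 * (d * (d + 1)) + 2 * d := by nlinarith
      omega
    obtain ⟨x, hx, y, hy, hxy, hn⟩ := exists_missing hk H.hS hF (by omega)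
    have h4 := pair_lower H hF (by omega) hx hy hxy hn d hm
    have h5 := deg_split (G := G) hF hx
    have h6 := deg_split (G := G) hF hy
    have hS2 : ({x, y} : Finset V) ⊆ F := by
      intro z hz
      rw [mem_insert, mem_singleton] at hz
      rcases hz with rfl | rfl
      · exact hx
      · exact hy
    have h7 := e2_sdiff (G := Gᶜ) hS2
    rw [sum_pair' hxy, hh] at h7
    have h8 := e2_pair_le (G := G) hxy
    have h9 : (nb G X x).card + (nb G X y).card + d * (d - 1) ≤ D := by
      rw [← hD, ← Finset.sum_sdiff hS2, sum_pair' hxy]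
      have h10 : (d - 1) * d ≤ ∑ u ∈ F \ {x, y}, (nb G X u).card := by
        have h11 : (F \ {x, y}).card = d - 1 := by
          rw [Finset.card_sdiff_of_subset hS2, Finset.card_pair hxy, hFc]
          omega
        rw [← h11, ← smul_eq_mul, ← Finset.sum_const]
        exact Finset.sum_le_sum fun u hu => hm u (hF (Finset.sdiff_subset hu))
      nlinarith
    have h12 := Finset.card_union_le (nb G X x \ F) (nb G X y \ F)
    obtain ⟨m, rfl⟩ : ∃ m, d = m + 1 := ⟨d - 1, by omega⟩
    rw [hFc] at h5 h6 h4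
    have h13 : (m + 1) * (m + 1 - 1) = (m + 1) * m := by simp
    rw [h13] at h9
    have h14 : ((nb G X x \ F) ∪ (nb G X y \ F)).card ≤ m := by
      have h15 : (D : ℤ) + h + 2 ≤ (m + 1) * (m + 2) + (m + 1) := by
        push_cast at h2; linarith
      have h16 : D + h + 2 ≤ (m + 1) * (m + 2) + (m + 1) := by exact_mod_cast h15
      have h17 : (m + 1) * (m + 2) = (m + 1) * m + 2 * (m + 1) := by ring
      omega
    have h18 : (((nb G X x \ F) ∪ (nb G X y \ F)).card : ℤ) ≤ m := by exact_mod_cast h14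
    push_cast at h4
    nlinarith [Int.natCast_nonneg m, mul_le_mul_of_nonneg_left h18 (Int.natCast_nonneg m)]

theorem deg_ge : ∀ v ∈ X, k ≤ (nb G X v).card := by
  intro u hu
  obtain ⟨v, hv, hm⟩ := Finset.exists_min_image X (fun v => (nb G X v).card) ⟨u, hu⟩
  exact (deg_ge_aux H hv hm).trans (hm u hu)

theorem nonempty : X.Nonempty := by
  rw [Finset.nonempty_iff_ne_empty]
  rintro rfl
  have h1 := H.hbad
  have h2 : (0 : ℤ) ≤ (3 * k - 4) * (k - 1) * a := by
    have hk : (3 : ℤ) ≤ k := by exact_mod_cast H.hk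
    exact mul_nonneg (mul_nonneg (by linarith) (by linarith)) (Int.natCast_nonneg a)
  have h3 : (0 : ℤ) ≤ e2 G (∅ : Finset V) := Int.natCast_nonneg _
  rw [Finset.card_empty] at h1
  push_cast at h1
  linarith

theorem exists_deg : ∃ v ∈ X, (nb G X v).card = k := by
  obtain ⟨u, hu⟩ := nonempty H
  have hge := deg_ge H
  by_contra hcon
  push Not at hcon
  have hge' : ∀ v ∈ X, k + 1 ≤ (nb G X v).card := fun v hv =>
    lt_of_le_of_ne (hge v hv) (Ne.symm (hcon v hv))
  have h1 : (nb G X u).card + 1 ≤ X.card := by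
    rw [← card_cl]
    exact Finset.card_le_card (cl_sub hu)
  have h2 := H.hS X (Finset.Subset.refl X) (by have := hge u hu; have := H.hk; omega)
  have h3 : (k + 1) * X.card ≤ e2 G X := by
    rw [e2_eq, mul_comm, ← smul_eq_mul, ← Finset.sum_const]
    exact Finset.sum_le_sum hge'
  omega

end

end Pool.Agent.TwoDens.DD
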