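import Pool.Agent.TwoDens.DDB

/-!
The neighbourhood of a vertex of degree `k` in a minimal counterexample.
-/

open Finset

namespace Pool.Agent.TwoDens.DD

open Pool.Agent.TwoDens Pool.Agent.TwoDens.RK

variable {V : Type*} [DecidableEq V] {G : SimpleGraph V} [DecidableRel G.Adj]

theorem ind_le_one (p : Prop) [Decidable p] : (if p then 1 else 0 : ℕ) ≤ 1 := by
  split_ifs <;> omega

/-- twice the number of edges of a four-element set -/
theorem e2_four {p q r s : V} (h1 : p ≠ q) (h2 : p ≠ r) (h3 : p ≠ s) (h4 : q ≠ r) (h5 : q ≠ s)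
    (h6 : r ≠ s) : e2 G {p, q, r, s} =
      2 * ((if G.Adj p q then 1 else 0) + (if G.Adj p r then 1 else 0) +
        (if G.Adj p s then 1 else 0) + (if G.Adj q r then 1 else 0) +
        (if G.Adj q s then 1 else 0) + (if G.Adj r s then 1 else 0)) := by
  unfold e2
  simp only [Finset.card_filter]
  have hs : ∀ f : V → ℕ, ∑ x ∈ ({p, q, r, s} : Finset V), f x = f p + (f q + (f r + f s)) := by
    intro f
    rw [Finset.sum_insert (by simp [h1, h2, h3]), Finset.sum_insert (by simp [h4, h5]),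
      Finset.sum_insert (by simp [h6]), Finset.sum_singleton]
  simp only [hs]
  have e1 : G.Adj q p ↔ G.Adj p q := G.adj_comm _ _
  have e2 : G.Adj r p ↔ G.Adj p r := G.adj_comm _ _
  have e3 : G.Adj s p ↔ G.Adj p s := G.adj_comm _ _
  have e4 : G.Adj r q ↔ G.Adj q r := G.adj_comm _ _
  have e5 : G.Adj s q ↔ G.Adj q s := G.adj_comm _ _
  have e6 : G.Adj s r ↔ G.Adj r s := G.adj_comm _ _
  simp only [e1, e2, e3, e4, e5, e6, G.irrefl, if_false]
  ring

section
variable {k a : ℕ} {X : Finset V} (H : MinC G k X a)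
include H

theorem triple_lower {B : Finset V} (hB : B ⊆ X) (h3 : 3 ≤ B.card) {p q r : V} (hp : p ∈ B)
    (hq : q ∈ B) (hr : r ∈ B) (h1 : p ≠ q) (h2 : p ≠ r) (h4 : q ≠ r) (n1 : ¬ G.Adj p q)
    (n2 : ¬ G.Adj p r) (n3 : ¬ G.Adj q r) :
    3 * k ≤ B.card + (nb G X p \ B).card + (nb G X q \ B).card + (nb G X r \ B).card + 1 := by
  set U := (nb G X p \ B) ∪ ((nb G X q \ B) ∪ (nb G X r \ B)) with hU
  have hUc : U.card ≤ (nb G X p \ B).card + ((nb G X q \ B).card + (nb G X r \ B).card) :=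
    (Finset.card_union_le _ _).trans (Nat.add_le_add_left (Finset.card_union_le _ _) _)
  have hcard : (B ∪ U).card = B.card + U.card := by
    rw [Finset.card_union_of_disjoint]
    rw [Finset.disjoint_left]
    intro u hu hu'
    rw [hU, mem_union, mem_union, mem_sdiff, mem_sdiff, mem_sdiff] at hu'
    rcases hu' with h | h | h <;> exact h.2 hu
  have hsub : B ∪ U ⊆ X := by
    refine Finset.union_subset hB (Finset.union_subset ?_ (Finset.union_subset ?_ ?_)) <;>
    exact Finset.sdiff_subset.trans (Finset.filter_subset _ _)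
  have h5 := lower H (R := B ∪ U) (J := {p, q, r}) hsub (by
      intro z hz
      rw [mem_insert, mem_insert, mem_singleton] at hz
      rcases hz with rfl | rfl | rfl
      · exact mem_union_left _ hp
      · exact mem_union_left _ hq
      · exact mem_union_left _ hr) ⟨p, by simp⟩ (indep_triple n1 n2 n3) (by
      intro z hz w hw
      rw [mem_insert, mem_insert, mem_singleton] at hz
      by_cases hwF : w ∈ B
      · exact mem_union_left _ hwF
      · refine mem_union_right _ ?_
        rcases hz with rfl | rfl | rfl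
        · exact mem_union_left _ (mem_sdiff.2 ⟨hw, hwF⟩)
        · exact mem_union_right _ (mem_union_left _ (mem_sdiff.2 ⟨hw, hwF⟩))
        · exact mem_union_right _ (mem_union_right _ (mem_sdiff.2 ⟨hw, hwF⟩)))
    (by rw [hcard]; omega) k (deg_ge H)
  have h6 : ({p, q, r} : Finset V).card = 3 := by
    rw [Finset.card_insert_of_notMem (by simp [h1, h2]), Finset.card_pair h4]
  rw [h6, hcard] at h5
  push_cast at h5
  have hk : (3 : ℤ) ≤ k := by exact_mod_cast H.hk
  have h7 : (3 * k : ℤ) ≤ B.card + U.card + 1 := by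
    by_contra hcon
    push Not at hcon
    have h8 : ((B.card : ℤ) + U.card) ≤ 3 * k - 2 := by linarith
    nlinarith
  have h9 : 3 * k ≤ B.card + U.card + 1 := by exact_mod_cast h7
  omega

section
variable {v : V} (hv : v ∈ X) (hd : (nb G X v).card = k)
include hv hd

theorem card_F : (cl G X v).card = k + 1 := by rw [card_cl, hd]

theorem pair_ge {x y : V} (hx : x ∈ cl G X v) (hy : y ∈ cl G X v) (hxy : x ≠ y)
    (hn : ¬ G.Adj x y) : k ≤ ((nb G X x \ cl G X v) ∪ (nb G X y \ cl G X v)).card + 1 := by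
  have hc := card_F H hv hd
  have hk := H.hk
  have h1 := pair_lower H (cl_sub hv) (by omega) hx hy hxy hn k (deg_ge H)
  rw [hc] at h1
  push_cast at h1
  have hk' : (3 : ℤ) ≤ k := by exact_mod_cast hk
  have h2 : (k : ℤ) ≤ ((nb G X x \ cl G X v) ∪ (nb G X y \ cl G X v)).card + 1 := by
    by_contra hcon
    push Not at hcon
    have h3 : (((nb G X x \ cl G X v) ∪ (nb G X y \ cl G X v)).card : ℤ) ≤ k - 2 := by linarith
    nlinarith
  exact_mod_cast h2

theorem pair_ge' {x y : V} (hx : x ∈ cl G X v) (hy : y ∈ cl G X v) (hxy : x ≠ y)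
    (hn : ¬ G.Adj x y) : k ≤ (nb G X x \ cl G X v).card + (nb G X y \ cl G X v).card + 1 := by
  have h1 := pair_ge H hv hd hx hy hxy hn
  have h2 := Finset.card_union_le (nb G X x \ cl G X v) (nb G X y \ cl G X v)
  omega

theorem budget : 2 * ∑ u ∈ cl G X v, (nb G X u).card + e2 Gᶜ (cl G X v) + 12 ≤
    2 * (k * k) + 6 * k := by
  have hc := card_F H hv hd
  have hs := star H (R := cl G X v) (J := {v}) (cl_sub hv)
    (by simp [cl]) ⟨v, by simp⟩ (indep_singleton v) (by
    intro z hz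
    rw [mem_singleton] at hz
    rw [hz]
    exact Finset.subset_insert _ _)
  rw [Finset.card_singleton, hc] at hs
  have hcomp := e2_add_compl (G := G) (cl G X v)
  obtain ⟨h, hh⟩ := e2_even (G := Gᶜ) (cl G X v)
  rw [hh, hc] at hcomp
  rw [hh]
  have h1 : (e2 G (cl G X v) : ℤ) + 2 * h + (k + 1) = (k + 1) * (k + 1) := by exact_mod_cast hcomp
  push_cast at hs
  have hk' : (3 : ℤ) ≤ k := by exact_mod_cast H.hk
  obtain ⟨D, hD⟩ : ∃ D, ∑ u ∈ cl G X v, (nb G X u).card = D := ⟨_, rfl⟩
  have hD' : ∑ u ∈ cl G X v, ((nb G X u).card : ℤ) = D := by exact_mod_cast hD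
  rw [hD'] at hs
  rw [hD]
  have h2 : 2 * (D : ℤ) + 2 * h + 11 ≤ 2 * (k * k) + 6 * k := by nlinarith
  have h3 : 2 * D + 2 * h + 11 ≤ 2 * (k * k) + 6 * k := by exact_mod_cast h2
  omega

theorem key_ineq {S : Finset V} (hS : S ⊆ cl G X v) :
    2 * ∑ u ∈ S, (nb G X u \ cl G X v).card + 2 * ∑ u ∈ cl G X v \ S, ((nb G X u).card - k) +
      e2 Gᶜ (cl G X v \ S) + 12 ≤ 4 * k + e2 Gᶜ S := by
  have hb := budget H hv hd
  have hc := card_F H hv hd
  have h1 := e2_sdiff (G := Gᶜ) hS
  have h2 := Finset.sum_sdiff (f := fun u => (nb G X u).card) hS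
  have h3 : ∑ u ∈ S, (nb G X u).card + ∑ u ∈ S, (nb Gᶜ (cl G X v) u).card =
      k * S.card + ∑ u ∈ S, (nb G X u \ cl G X v).card := by
    rw [mul_comm, ← smul_eq_mul, ← Finset.sum_const, ← Finset.sum_add_distrib,
      ← Finset.sum_add_distrib]
    refine Finset.sum_congr rfl fun u hu => ?_
    have h4 := deg_split (G := G) (cl_sub hv) (hS hu)
    rw [hc] at h4
    omega
  have h4 : ∑ u ∈ cl G X v \ S, (nb G X u).card =
      k * (cl G X v \ S).card + ∑ u ∈ cl G X v \ S, ((nb G X u).card - k) := by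
    rw [mul_comm, ← smul_eq_mul, ← Finset.sum_const, ← Finset.sum_add_distrib]
    refine Finset.sum_congr rfl fun u hu => ?_
    have h5 := deg_ge H u (cl_sub hv (Finset.sdiff_subset hu))
    omega
  have h5 : (cl G X v \ S).card + S.card = k + 1 := by
    rw [Finset.card_sdiff_add_card_eq_card hS, hc]
  have h6 : k * (cl G X v \ S).card + k * S.card = k * k + k := by
    rw [← mul_add, h5]; ring
  omega

theorem no_triple {p q r : V} (hp : p ∈ cl G X v) (hq : q ∈ cl G X v) (hr : r ∈ cl G X v)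
    (h1 : p ≠ q) (h2 : p ≠ r) (h4 : q ≠ r) (n1 : ¬ G.Adj p q) (n2 : ¬ G.Adj p r)
    (n3 : ¬ G.Adj q r) : False := by
  have hc := card_F H hv hd
  have hk := H.hk
  have h5 := triple_lower H (cl_sub hv) (by omega) hp hq hr h1 h2 h4 n1 n2 n3
  have h6 := key_ineq H hv hd (S := {p, q, r}) (by
    intro z hz
    rw [mem_insert, mem_insert, mem_singleton] at hz
    rcases hz with rfl | rfl | rfl
    · exact hp
    · exact hq
    · exact hr)
  have h7 : ({p, q, r} : Finset V).card = 3 := by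
    rw [Finset.card_insert_of_notMem (by simp [h1, h2]), Finset.card_pair h4]
  have h8 := e2_add_compl (G := G) {p, q, r}
  rw [h7] at h8
  rw [Finset.sum_insert (by simp [h1, h2]), Finset.sum_pair h4] at h6
  rw [hc] at h5
  omega

theorem tight4 {p q r s : V} (hp : p ∈ cl G X v) (hq : q ∈ cl G X v) (hr : r ∈ cl G X v)
    (hs : s ∈ cl G X v) (h1 : p ≠ q) (h2 : p ≠ r) (h3 : p ≠ s) (h4 : q ≠ r) (h5 : q ≠ s)
    (h6 : r ≠ s) (n1 : ¬ G.Adj p q) (n2 : ¬ G.Adj r s) :
    ((nb G X p \ cl G X v).card + (nb G X q \ cl G X v).card + 1 = k) ∧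
    ((nb G X r \ cl G X v).card + (nb G X s \ cl G X v).card + 1 = k) ∧
    (∀ u ∈ cl G X v, u ≠ p → u ≠ q → u ≠ r → u ≠ s → (nb G X u).card = k) ∧
    (∀ u ∈ cl G X v, u ≠ p → u ≠ q → u ≠ r → u ≠ s →
      ∀ w ∈ cl G X v, w ≠ p → w ≠ q → w ≠ r → w ≠ s → u ≠ w → G.Adj u w) ∧
    2 * ∑ u ∈ cl G X v, (nb G X u).card + e2 Gᶜ (cl G X v) + 12 = 2 * (k * k) + 6 * k ∧
    ((¬ G.Adj p r ∧ ¬ G.Adj q s) ∨ (¬ G.Adj p s ∧ ¬ G.Adj q r)) := by
  have hS : ({p, q, r, s} : Finset V) ⊆ cl G X v := by
    intro z hz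
    rw [mem_insert, mem_insert, mem_insert, mem_singleton] at hz
    rcases hz with rfl | rfl | rfl | rfl
    · exact hp
    · exact hq
    · exact hr
    · exact hs
  have hsum : ∀ f : V → ℕ, ∑ x ∈ ({p, q, r, s} : Finset V), f x = f p + (f q + (f r + f s)) := by
    intro f
    rw [Finset.sum_insert (by simp [h1, h2, h3]), Finset.sum_insert (by simp [h4, h5]),
      Finset.sum_insert (by simp [h6]), Finset.sum_singleton]
  have hpq := pair_ge' H hv hd hp hq h1 n1
  have hrs := pair_ge' H hv hd hr hs h6 n2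
  have hkey := key_ineq H hv hd hS
  have he := e2_four (G := Gᶜ) h1 h2 h3 h4 h5 h6
  rw [hsum] at hkey
  -- no independent triples
  have t1 : G.Adj p r ∨ G.Adj q r := by
    by_contra hcon
    push Not at hcon
    exact no_triple H hv hd hp hq hr h1 h2 h4 n1 hcon.1 hcon.2
  have t2 : G.Adj p s ∨ G.Adj q s := by
    by_contra hcon
    push Not at hcon
    exact no_triple H hv hd hp hq hs h1 h3 h5 n1 hcon.1 hcon.2
  have t3 : G.Adj p r ∨ G.Adj p s := by
    by_contra hcon
    push Not at hcon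
    exact no_triple H hv hd hp hr hs h2 h3 h6 hcon.1 hcon.2 n2
  have t4 : G.Adj q r ∨ G.Adj q s := by
    by_contra hcon
    push Not at hcon
    exact no_triple H hv hd hq hr hs h4 h5 h6 hcon.1 hcon.2 n2
  have hle : e2 Gᶜ {p, q, r, s} ≤ 8 := by
    rw [he]
    simp only [SimpleGraph.compl_adj]
    have a1 := ind_le_one (p ≠ q ∧ ¬ G.Adj p q)
    have a2 := ind_le_one (r ≠ s ∧ ¬ G.Adj r s)
    by_cases b1 : G.Adj p r <;> by_cases b2 : G.Adj q r <;> by_cases b3 : G.Adj p s <;>
      by_cases b4 : G.Adj q s <;> simp only [b1, b2, b3, b4, h1, h2, h3, h4, h5, h6, n1, n2,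
        not_true_eq_false, not_false_eq_true, ne_eq, and_true, and_false, if_true, if_false,
        or_self, or_true, true_or, or_false, false_or] at * <;> omega
  have hstr : 8 ≤ e2 Gᶜ {p, q, r, s} →
      (¬ G.Adj p r ∧ ¬ G.Adj q s) ∨ (¬ G.Adj p s ∧ ¬ G.Adj q r) := by
    intro h8
    rw [he] at h8
    simp only [SimpleGraph.compl_adj] at h8
    have a1 := ind_le_one (p ≠ q ∧ ¬ G.Adj p q)
    have a2 := ind_le_one (r ≠ s ∧ ¬ G.Adj r s)
    by_cases b1 : G.Adj p r
    · by_cases b4 : G.Adj q s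
      · rw [if_neg (fun h => h.2 b1 : ¬ (p ≠ r ∧ ¬ G.Adj p r)),
          if_neg (fun h => h.2 b4 : ¬ (q ≠ s ∧ ¬ G.Adj q s))] at h8
        by_cases b3 : G.Adj p s
        · rw [if_neg (fun h => h.2 b3 : ¬ (p ≠ s ∧ ¬ G.Adj p s))] at h8
          have a3 := ind_le_one (q ≠ r ∧ ¬ G.Adj q r)
          omega
        · by_cases b2 : G.Adj q r
          · rw [if_neg (fun h => h.2 b2 : ¬ (q ≠ r ∧ ¬ G.Adj q r))] at h8
            have a3 := ind_le_one (p ≠ s ∧ ¬ G.Adj p s)
            omega
          · exact Or.inr ⟨b3, b2⟩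
      · rcases t4 with b2 | b2
        · rw [if_neg (fun h => h.2 b1 : ¬ (p ≠ r ∧ ¬ G.Adj p r)),
            if_neg (fun h => h.2 b2 : ¬ (q ≠ r ∧ ¬ G.Adj q r))] at h8
          rcases t2 with b3 | b3
          · rw [if_neg (fun h => h.2 b3 : ¬ (p ≠ s ∧ ¬ G.Adj p s))] at h8
            have a3 := ind_le_one (q ≠ s ∧ ¬ G.Adj q s)
            omega
          · exact absurd b3 b4
        · exact absurd b2 b4
    · by_cases b4 : G.Adj q s
      · rcases t1 with b2 | b2
        · exact absurd b2 b1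
        · rcases t3 with b3 | b3
          · exact absurd b3 b1
          · rw [if_neg (fun h => h.2 b4 : ¬ (q ≠ s ∧ ¬ G.Adj q s)),
              if_neg (fun h => h.2 b2 : ¬ (q ≠ r ∧ ¬ G.Adj q r)),
              if_neg (fun h => h.2 b3 : ¬ (p ≠ s ∧ ¬ G.Adj p s))] at h8
            have a3 := ind_le_one (p ≠ r ∧ ¬ G.Adj p r)
            omega
      · exact Or.inl ⟨b1, b4⟩
  have hex : ∑ u ∈ cl G X v \ {p, q, r, s}, ((nb G X u).card - k) = 0 := by omega
  have hmi : e2 Gᶜ (cl G X v \ {p, q, r, s}) = 0 := by omega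
  refine ⟨by omega, by omega, ?_, ?_, ?_, hstr (by omega)⟩
  · intro u hu u1 u2 u3 u4
    rw [Finset.sum_eq_zero_iff] at hex
    have h7 := hex u (by
      rw [mem_sdiff]
      refine ⟨hu, ?_⟩
      rw [mem_insert, mem_insert, mem_insert, mem_singleton]
      rintro (h | h | h | h)
      · exact u1 h
      · exact u2 h
      · exact u3 h
      · exact u4 h)
    have h8 := deg_ge H u (cl_sub hv hu)
    omega
  · intro u hu u1 u2 u3 u4 w hw w1 w2 w3 w4 huw
    have hu' : u ∈ cl G X v \ {p, q, r, s} := by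
      rw [mem_sdiff]
      refine ⟨hu, ?_⟩
      rw [mem_insert, mem_insert, mem_insert, mem_singleton]
      rintro (h | h | h | h)
      · exact u1 h
      · exact u2 h
      · exact u3 h
      · exact u4 h
    have hw' : w ∈ cl G X v \ {p, q, r, s} := by
      rw [mem_sdiff]
      refine ⟨hw, ?_⟩
      rw [mem_insert, mem_insert, mem_insert, mem_singleton]
      rintro (h | h | h | h)
      · exact w1 h
      · exact w2 h
      · exact w3 h
      · exact w4 h
    by_contra hcon
    unfold e2 at hmi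
    rw [Finset.sum_eq_zero_iff] at hmi
    have h7 := hmi u hu'
    rw [Finset.card_eq_zero, Finset.filter_eq_empty_iff] at h7
    exact h7 hw' ((SimpleGraph.compl_adj _ _ _).2 ⟨huw, hcon⟩)
  · have h1' := e2_sdiff (G := Gᶜ) hS
    have hb := budget H hv hd
    have hc := card_F H hv hd
    have h2' := Finset.sum_sdiff (f := fun u => (nb G X u).card) hS
    have h3' : ∀ u ∈ cl G X v, (nb G X u).card + (nb Gᶜ (cl G X v) u).card =
        k + (nb G X u \ cl G X v).card := by
      intro u hu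
      have h4 := deg_split (G := G) (cl_sub hv) hu
      rw [hc] at h4
      omega
    have e1 := h3' p hp
    have e2' := h3' q hq
    have e3 := h3' r hr
    have e4 := h3' s hs
    have h4' : ∑ u ∈ cl G X v \ {p, q, r, s}, (nb G X u).card =
        k * (cl G X v \ {p, q, r, s}).card +
          ∑ u ∈ cl G X v \ {p, q, r, s}, ((nb G X u).card - k) := by
      rw [mul_comm, ← smul_eq_mul, ← Finset.sum_const, ← Finset.sum_add_distrib]
      refine Finset.sum_congr rfl fun u hu => ?_
      have h5 := deg_ge H u (cl_sub hv (Finset.sdiff_subset hu))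
      omega
    have h5' : (cl G X v \ {p, q, r, s}).card + 4 = k + 1 := by
      have h6' : ({p, q, r, s} : Finset V).card = 4 := by
        rw [Finset.card_eq_sum_ones, hsum]
      rw [← h6', Finset.card_sdiff_add_card_eq_card hS, hc]
    have h6' : k * (cl G X v \ {p, q, r, s}).card + k * 4 = k * k + k := by
      rw [← mul_add, h5']; ring
    rw [hsum] at h1' h2'
    omega

end

end

end Pool.Agent.TwoDens.DD
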