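import Pool.Agent.TwoDens.DDC

/-!
Tight pairs: the second neighbourhood is a clique with no edges leaving.
-/

open Finset

namespace Pool.Agent.TwoDens.DD

open Pool.Agent.TwoDens Pool.Agent.TwoDens.RK

variable {V : Type*} [DecidableEq V] {G : SimpleGraph V} [DecidableRel G.Adj]

/-- double counting over the non-adjacent pairs of `T` -/
theorem double_count (T : Finset V) (o : V → ℕ) (c m : ℕ)
    (hpair : ∀ r ∈ T, ∀ s ∈ T, r ≠ s → ¬ G.Adj r s → c ≤ o r + o s)
    (hm : ∀ r ∈ T, (nb Gᶜ T r).card ≤ m) :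
    c * e2 Gᶜ T ≤ 2 * (m * ∑ r ∈ T, o r) := by
  have h1 : c * e2 Gᶜ T ≤ ∑ r ∈ T, ∑ s ∈ nb Gᶜ T r, (o r + o s) := by
    rw [e2_eq, Finset.mul_sum]
    refine Finset.sum_le_sum fun r hr => ?_
    rw [mul_comm, ← smul_eq_mul, ← Finset.sum_const]
    refine Finset.sum_le_sum fun s hs => ?_
    have h2 := mem_nb.1 hs
    have h3 := (SimpleGraph.compl_adj _ _ _).1 h2.2
    exact hpair r hr s h2.1 h3.1 h3.2
  have h2 : ∑ r ∈ T, ∑ s ∈ nb Gᶜ T r, (o r + o s) =
      ∑ r ∈ T, (nb Gᶜ T r).card * o r + ∑ r ∈ T, ∑ s ∈ nb Gᶜ T r, o s := by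
    rw [← Finset.sum_add_distrib]
    refine Finset.sum_congr rfl fun r _ => ?_
    rw [Finset.sum_add_distrib, Finset.sum_const, smul_eq_mul]
  have h3 : ∑ r ∈ T, ∑ s ∈ nb Gᶜ T r, o s = ∑ s ∈ T, (nb Gᶜ T s).card * o s := by
    have h4 : ∀ r ∈ T, ∑ s ∈ nb Gᶜ T r, o s = ∑ s ∈ T, if Gᶜ.Adj r s then o s else 0 := by
      intro r _
      unfold nb
      rw [Finset.sum_filter]
    rw [Finset.sum_congr rfl h4, Finset.sum_comm]
    refine Finset.sum_congr rfl fun s _ => ?_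
    have h5 : ∀ r ∈ T, (if Gᶜ.Adj r s then o s else 0) = if Gᶜ.Adj s r then o s else 0 := by
      intro r _
      simp only [Gᶜ.adj_comm]
    rw [Finset.sum_congr rfl h5, ← Finset.sum_filter, Finset.sum_const, smul_eq_mul]
    rfl
  have h4 : ∑ r ∈ T, (nb Gᶜ T r).card * o r ≤ m * ∑ r ∈ T, o r := by
    rw [Finset.mul_sum]
    exact Finset.sum_le_sum fun r hr => Nat.mul_le_mul_right _ (hm r hr)
  omega

theorem nb_compl_le (T : Finset V) {r : V} (hr : r ∈ T) : (nb Gᶜ T r).card + 1 ≤ T.card := by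
  rw [← Finset.card_erase_add_one hr]
  refine Nat.add_le_add_right (Finset.card_le_card ?_) 1
  intro s hs
  have h1 := mem_nb.1 hs
  rw [mem_erase]
  exact ⟨fun h => ((SimpleGraph.compl_adj _ _ _).1 h1.2).1 h.symm, h1.1⟩

section
variable {k a : ℕ} {X : Finset V} (H : MinC G k X a)
include H

section
variable {v : V} (hv : v ∈ X) (hd : (nb G X v).card = k)
include hv hd

theorem tight_pair {x y : V} (hx : x ∈ cl G X v) (hy : y ∈ cl G X v) (hxy : x ≠ y)
    (hn : ¬ G.Adj x y)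
    (ht : (nb G X x \ cl G X v).card + (nb G X y \ cl G X v).card + 1 = k)
    (hb : 2 * ∑ u ∈ cl G X v, (nb G X u).card + e2 Gᶜ (cl G X v) + 12 = 2 * (k * k) + 6 * k)
    {T : Finset V} (hT : T = (nb G X x \ cl G X v) ∪ (nb G X y \ cl G X v)) :
    T.card + 1 = k ∧ (∀ t ∈ T, nb G X t ⊆ cl G X v ∪ T) ∧
      (∀ t ∈ T, ∀ s ∈ T, t ≠ s → G.Adj t s) := by
  have hk := H.hk
  have hc := card_F H hv hd
  have hFX := cl_sub (G := G) hv
  have hvF : v ∈ cl G X v := Finset.mem_insert_self _ _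
  have hnbF : nb G X v ⊆ cl G X v := Finset.subset_insert _ _
  have h1 := pair_ge H hv hd hx hy hxy hn
  have h2 := Finset.card_union_le (nb G X x \ cl G X v) (nb G X y \ cl G X v)
  rw [← hT] at h1 h2
  set F := cl G X v with hF
  have hTc : T.card + 1 = k := by omega
  have hTX : T ⊆ X := by
    rw [hT]
    exact Finset.union_subset (Finset.sdiff_subset.trans (Finset.filter_subset _ _))
      (Finset.sdiff_subset.trans (Finset.filter_subset _ _))
  have hdis : Disjoint F T := by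
    rw [Finset.disjoint_left]
    intro u hu hu'
    rw [hT, mem_union, mem_sdiff, mem_sdiff] at hu'
    rcases hu' with h | h
    · exact h.2 hu
    · exact h.2 hu
  have hRc : (F ∪ T).card = 2 * k := by
    rw [Finset.card_union_of_disjoint hdis]; omega
  have hRX : F ∪ T ⊆ X := Finset.union_subset hFX hTX
  have hs := star H (R := F ∪ T) (J := {x, y}) hRX (by
      intro z hz
      rw [mem_insert, mem_singleton] at hz
      rcases hz with rfl | rfl
      · exact mem_union_left _ hx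
      · exact mem_union_left _ hy) ⟨x, by simp⟩ (indep_pair hn) (by
      intro z hz w hw
      rw [mem_insert, mem_singleton] at hz
      by_cases hwF : w ∈ F
      · exact mem_union_left _ hwF
      · refine mem_union_right _ ?_
        rw [hT]
        rcases hz with rfl | rfl
        · exact mem_union_left _ (mem_sdiff.2 ⟨hw, hwF⟩)
        · exact mem_union_right _ (mem_sdiff.2 ⟨hw, hwF⟩))
  rw [Finset.card_pair hxy, hRc] at hs
  have h3 := e2_sdiff (G := G) (Finset.subset_union_right : T ⊆ F ∪ T)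
  have h4 : (F ∪ T) \ T = F := by
    rw [Finset.union_sdiff_right]
    exact Finset.sdiff_eq_self_of_disjoint hdis
  rw [h4] at h3
  have h5 : ∑ u ∈ F ∪ T, (nb G X u).card = ∑ u ∈ F, (nb G X u).card + ∑ u ∈ T, (nb G X u).card :=
    Finset.sum_union hdis
  have hsplit : ∀ u ∈ T, (nb G X u).card =
      (nb G (F ∪ T) u).card + (nb G X u \ (F ∪ T)).card := by
    intro u _
    rw [← Finset.card_union_of_disjoint]
    · congr 1
      ext z
      rw [mem_union, mem_sdiff, mem_nb, mem_nb]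
      constructor
      · rintro ⟨h6, h7⟩
        by_cases h8 : z ∈ F ∪ T
        · exact Or.inl ⟨h8, h7⟩
        · exact Or.inr ⟨⟨h6, h7⟩, h8⟩
      · rintro (⟨h6, h7⟩ | ⟨h6, _⟩)
        · exact ⟨hRX h6, h7⟩
        · exact h6
    · rw [Finset.disjoint_left]
      intro z h6 h7
      exact (mem_sdiff.1 h7).2 (mem_nb.1 h6).1
  have h6 : ∑ u ∈ T, (nb G X u).card = ∑ u ∈ T, (nb G (F ∪ T) u).card +
      ∑ u ∈ T, (nb G X u \ (F ∪ T)).card := by
    rw [← Finset.sum_add_distrib]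
    exact Finset.sum_congr rfl hsplit
  have h7 := e2_add_compl (G := G) F
  have h8 := e2_add_compl (G := G) T
  obtain ⟨h, hh⟩ := e2_even (G := Gᶜ) T
  obtain ⟨m, rfl⟩ : ∃ m, k = m + 1 := ⟨k - 1, by omega⟩
  have hTc' : T.card = m := by omega
  rw [hc] at h7
  rw [hTc', hh] at h8
  obtain ⟨D, hD⟩ : ∃ D, ∑ u ∈ F, (nb G X u).card = D := ⟨_, rfl⟩
  obtain ⟨DT, hDT⟩ : ∃ D, ∑ u ∈ T, (nb G X u).card = D := ⟨_, rfl⟩
  obtain ⟨O, hO⟩ : ∃ D, ∑ u ∈ T, (nb G X u \ (F ∪ T)).card = D := ⟨_, rfl⟩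
  obtain ⟨I, hI⟩ : ∃ D, ∑ u ∈ T, (nb G (F ∪ T) u).card = D := ⟨_, rfl⟩
  rw [hD] at hb
  rw [h5, hD, hDT] at hs
  rw [hDT, hI, hO] at h6
  rw [hI] at h3
  have hs' : (2 * ((D : ℤ) + DT)) + (3 * (m + 1) - 4) * ((m + 1) - 1) * 2 + 1 ≤
      (4 * (m + 1) - 6) * (2 * (m + 1)) + e2 G (F ∪ T) := by
    push_cast at hs
    exact hs
  have g3 : (e2 G (F ∪ T) : ℤ) + e2 G T = e2 G F + 2 * I := by exact_mod_cast h3
  have g6 : (DT : ℤ) = I + O := by exact_mod_cast h6
  have g7 : (e2 G F : ℤ) + e2 Gᶜ F + (m + 1 + 1) = (m + 1 + 1) * (m + 1 + 1) := by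
    exact_mod_cast h7
  have g8 : (e2 G T : ℤ) + 2 * h + m = m * m := by exact_mod_cast h8
  have gb : 2 * (D : ℤ) + e2 Gᶜ F + 12 = 2 * ((m + 1) * (m + 1)) + 6 * (m + 1) := by
    exact_mod_cast hb
  have hOh : 2 * (O : ℤ) ≤ 2 * h + 1 := by nlinarith
  have hOh' : O ≤ h := by
    have : 2 * O ≤ 2 * h + 1 := by exact_mod_cast hOh
    omega
  -- missing pairs in `T`
  have hpair : ∀ r ∈ T, ∀ s ∈ T, r ≠ s → ¬ G.Adj r s →
      m ≤ (nb G X r \ (F ∪ T)).card + (nb G X s \ (F ∪ T)).card := by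
    intro r hr s hs' hrs hnrs
    have hrF : r ∉ F := fun h => (Finset.disjoint_left.1 hdis) h hr
    have hsF : s ∉ F := fun h => (Finset.disjoint_left.1 hdis) h hs'
    have h9 := triple_lower H hRX (by omega) (p := v) (q := r) (r := s)
      (mem_union_left _ hvF) (mem_union_right _ hr) (mem_union_right _ hs')
      (fun h => hrF (h ▸ hvF)) (fun h => hsF (h ▸ hvF)) hrs
      (fun h => hrF (hnbF (mem_nb.2 ⟨hTX hr, h⟩)))
      (fun h => hsF (hnbF (mem_nb.2 ⟨hTX hs', h⟩))) hnrs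
    have h10 : nb G X v \ (F ∪ T) = ∅ := by
      rw [Finset.sdiff_eq_empty_iff_subset]
      exact hnbF.trans Finset.subset_union_left
    rw [h10, Finset.card_empty, hRc] at h9
    omega
  have hdc := double_count (G := G) T (fun u => (nb G X u \ (F ∪ T)).card) m (m - 1) hpair (by
    intro r hr
    have := nb_compl_le (G := G) T hr
    omega)
  rw [hO, hh] at hdc
  have hh0 : h = 0 := by
    by_contra hne
    obtain ⟨q, rfl⟩ : ∃ q, m = q + 1 := ⟨m - 1, by omega⟩
    have h11 : (q + 1) * (2 * h) ≤ 2 * (q * O) := by simpa using hdc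
    have h12 : q * O ≤ q * h := Nat.mul_le_mul_left _ hOh'
    have h13 : (q + 1) * (2 * h) = 2 * (q * h) + 2 * h := by ring
    omega
  have hO0 : O = 0 := by omega
  refine ⟨by omega, ?_, ?_⟩
  · intro t htT z hz
    by_contra hcon
    rw [hO0, Finset.sum_eq_zero_iff] at hO
    have h11 := hO t htT
    rw [Finset.card_eq_zero] at h11
    have h12 : z ∈ nb G X t \ (F ∪ T) := mem_sdiff.2 ⟨hz, hcon⟩
    rw [h11] at h12
    simp at h12
  · intro t htT s hsT hts
    by_contra hcon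
    rw [hh0] at hh
    rw [e2_eq, mul_zero, Finset.sum_eq_zero_iff] at hh
    have h11 := hh t htT
    rw [Finset.card_eq_zero] at h11
    have h12 : s ∈ nb Gᶜ T t := mem_nb.2 ⟨hsT, (SimpleGraph.compl_adj _ _ _).2 ⟨hts, hcon⟩⟩
    rw [h11] at h12
    simp at h12

end

end

end Pool.Agent.TwoDens.DD
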