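import Pool.Agent.TwoDens.DDD

/-!
Sparse graphs: `2 e ≥ (4 k - 6) n - (3 k - 4) (k - 1) α`.
-/

open Finset

namespace Pool.Agent.TwoDens.DD

open Pool.Agent.TwoDens Pool.Agent.TwoDens.RK

variable {V : Type*} [DecidableEq V] {G : SimpleGraph V} [DecidableRel G.Adj]

section
variable {k a : ℕ} {X : Finset V} (H : MinC G k X a)
include H

section
variable {v : V} (hv : v ∈ X) (hd : (nb G X v).card = k)
include hv hd

theorem exists_two : ∃ p ∈ cl G X v, ∃ q ∈ cl G X v, ∃ r ∈ cl G X v, ∃ s ∈ cl G X v,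
    p ≠ q ∧ p ≠ r ∧ p ≠ s ∧ q ≠ r ∧ q ≠ s ∧ r ≠ s ∧ ¬ G.Adj p q ∧ ¬ G.Adj r s := by
  have hk := H.hk
  have hc := card_F H hv hd
  have hFX := cl_sub (G := G) hv
  obtain ⟨x, hx, y, hy, hxy, hn⟩ := exists_missing hk H.hS hFX (by omega)
  have key : ∀ z ∈ cl G X v, ∀ w ∈ cl G X v, z ≠ w → ¬ G.Adj z w →
      (∃ p ∈ cl G X v, ∃ q ∈ cl G X v, p ≠ q ∧ ¬ G.Adj p q ∧ p ≠ z ∧ q ≠ z ∧ p ≠ w ∧ q ≠ w) ∨
      (∃ q ∈ cl G X v, q ≠ z ∧ q ≠ w ∧ ¬ G.Adj w q) := by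
    intro z hz w hw hzw hnzw
    obtain ⟨p, hp, q, hq, hpq, hnpq⟩ := exists_missing (F := (cl G X v).erase z) hk H.hS
      ((Finset.erase_subset _ _).trans hFX) (by
        have := Finset.card_erase_of_mem hz
        omega)
    rw [mem_erase] at hp hq
    by_cases h1 : p = w
    · exact Or.inr ⟨q, hq.2, hq.1, fun h => hpq (h1.trans h.symm), h1 ▸ hnpq⟩
    · by_cases h2 : q = w
      · exact Or.inr ⟨p, hp.2, hp.1, h1, fun h => hnpq (h2 ▸ h.symm)⟩
      · exact Or.inl ⟨p, hp.2, q, hq.2, hpq, hnpq, hp.1, hq.1, h1, h2⟩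
  rcases key x hx y hy hxy hn with ⟨p, hp, q, hq, h1, h2, h3, h4, h5, h6⟩ | ⟨q, hq, h1, h2, h3⟩
  · exact ⟨x, hx, y, hy, p, hp, q, hq, hxy, Ne.symm h3, Ne.symm h4, Ne.symm h5, Ne.symm h6, h1,
      hn, h2⟩
  · rcases key y hy x hx (Ne.symm hxy) (fun h => hn h.symm) with
      ⟨p, hp, q, hq, g1, g2, g3, g4, g5, g6⟩ | ⟨s, hs, g1, g2, g3⟩
    · exact ⟨x, hx, y, hy, p, hp, q, hq, hxy, Ne.symm g5, Ne.symm g6, Ne.symm g3, Ne.symm g4, g1,
        hn, g2⟩
    · by_cases h7 : s = q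
      · rw [h7] at g3
        exact (no_triple H hv hd hx hy hq hxy (Ne.symm h1) (Ne.symm h2) hn g3 h3).elim
      · exact ⟨x, hx, s, hs, y, hy, q, hq, Ne.symm g2, hxy, Ne.symm h1, g1, h7, Ne.symm h2, g3, h3⟩

theorem exists_four : ∃ p ∈ cl G X v, ∃ q ∈ cl G X v, ∃ r ∈ cl G X v, ∃ s ∈ cl G X v,
    p ≠ q ∧ p ≠ r ∧ p ≠ s ∧ q ≠ r ∧ q ≠ s ∧ r ≠ s ∧ ¬ G.Adj p q ∧ ¬ G.Adj r s ∧
    ¬ G.Adj p s ∧ ¬ G.Adj q r := by
  obtain ⟨p, hp, q, hq, r, hr, s, hs, h1, h2, h3, h4, h5, h6, n1, n2⟩ := exists_two H hv hd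
  obtain ⟨_, _, _, _, _, h | h⟩ := tight4 H hv hd hp hq hr hs h1 h2 h3 h4 h5 h6 n1 n2
  · exact ⟨p, hp, q, hq, s, hs, r, hr, h1, h3, h2, h5, h4, Ne.symm h6, n1, fun h => n2 h.symm,
      h.1, h.2⟩
  · exact ⟨p, hp, q, hq, r, hr, s, hs, h1, h2, h3, h4, h5, h6, n1, n2, h.1, h.2⟩

theorem propagate {T : Finset V} (hTF : Disjoint (cl G X v) T)
    (hcl : ∀ t ∈ T, nb G X t ⊆ cl G X v ∪ T)
    (hb : 2 * ∑ u ∈ cl G X v, (nb G X u).card + e2 Gᶜ (cl G X v) + 12 = 2 * (k * k) + 6 * k)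
    {u w : V} (hu : u ∈ cl G X v) (hw : w ∈ cl G X v) (huw : u ≠ w) (hn : ¬ G.Adj u w)
    (ht : (nb G X u \ cl G X v).card + (nb G X w \ cl G X v).card + 1 = k)
    (hsub : nb G X w \ cl G X v ⊆ T) : nb G X u \ cl G X v ⊆ T := by
  have hc := card_F H hv hd
  have hFX := cl_sub (G := G) hv
  obtain ⟨_, _, hcq⟩ := tight_pair H hv hd hu hw huw hn ht hb rfl
  have h1 := deg_split (G := G) hFX hw
  have h2 := deg_ge H w (hFX hw)
  have h3 : 1 ≤ (nb Gᶜ (cl G X v) w).card :=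
    Finset.card_pos.2 ⟨u, mem_nb.2 ⟨hu, (SimpleGraph.compl_adj _ _ _).2
      ⟨Ne.symm huw, fun h => hn h.symm⟩⟩⟩
  rw [hc] at h1
  obtain ⟨τ, hτ⟩ : (nb G X w \ cl G X v).Nonempty := Finset.card_pos.1 (by omega)
  intro z hz
  by_cases hzt : z = τ
  · rw [hzt]; exact hsub hτ
  · have h4 := hcq τ (mem_union_right _ hτ) z (mem_union_left _ hz) (Ne.symm hzt)
    have hz' := mem_sdiff.1 hz
    have h5 := hcl τ (hsub hτ) (mem_nb.2 ⟨(mem_nb.1 hz'.1).1, h4⟩)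
    rw [mem_union] at h5
    exact h5.resolve_left hz'.2

theorem contra_aux : False := by
  have hk := H.hk
  have hc := card_F H hv hd
  have hFX := cl_sub (G := G) hv
  obtain ⟨p, hp, q, hq, r, hr, s, hs, h1, h2, h3, h4, h5, h6, n1, n2, n3, n4⟩ :=
    exists_four H hv hd
  obtain ⟨a1, a2, a3, a4, hb, _⟩ := tight4 H hv hd hp hq hr hs h1 h2 h3 h4 h5 h6 n1 n2
  obtain ⟨b1, b2, _⟩ := tight4 H hv hd hp hs hq hr h3 h1 h2 (Ne.symm h5) (Ne.symm h6) h4 n3 n4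
  obtain ⟨T, hT⟩ : ∃ T, T = (nb G X p \ cl G X v) ∪ (nb G X q \ cl G X v) := ⟨_, rfl⟩
  obtain ⟨hTc, hcl, _⟩ := tight_pair H hv hd hp hq h1 n1 a1 hb hT
  have hTF : Disjoint (cl G X v) T := by
    rw [Finset.disjoint_left]
    intro u hu hu'
    rw [hT, mem_union, mem_sdiff, mem_sdiff] at hu'
    rcases hu' with h | h
    · exact h.2 hu
    · exact h.2 hu
  have hTX : T ⊆ X := by
    rw [hT]
    exact Finset.union_subset (Finset.sdiff_subset.trans (Finset.filter_subset _ _))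
      (Finset.sdiff_subset.trans (Finset.filter_subset _ _))
  have sp : nb G X p \ cl G X v ⊆ T := by rw [hT]; exact Finset.subset_union_left
  have sq : nb G X q \ cl G X v ⊆ T := by rw [hT]; exact Finset.subset_union_right
  have prop : ∀ u ∈ cl G X v, ∀ w ∈ cl G X v, u ≠ w → ¬ G.Adj u w →
      (nb G X u \ cl G X v).card + (nb G X w \ cl G X v).card + 1 = k →
      nb G X w \ cl G X v ⊆ T → nb G X u \ cl G X v ⊆ T :=
    fun u hu w hw huw hn ht hsub => propagate H hv hd hTF hcl hb hu hw huw hn ht hsub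
  have sr : nb G X r \ cl G X v ⊆ T :=
    prop r hr q hq (Ne.symm h4) (fun h => n4 h.symm) (by omega) sq
  have ss : nb G X s \ cl G X v ⊆ T :=
    prop s hs p hp (Ne.symm h3) (fun h => n3 h.symm) (by omega) sp
  have all : ∀ u ∈ cl G X v, nb G X u \ cl G X v ⊆ T := by
    intro u hu
    by_cases u1 : u = p
    · rw [u1]; exact sp
    by_cases u2 : u = q
    · rw [u2]; exact sq
    by_cases u3 : u = r
    · rw [u3]; exact sr
    by_cases u4 : u = s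
    · rw [u4]; exact ss
    have e1 := a3 u hu u1 u2 u3 u4
    have e2' := deg_split (G := G) hFX hu
    rw [hc, e1] at e2'
    rcases Nat.eq_zero_or_pos (nb Gᶜ (cl G X v) u).card with h0 | h0
    · have h7 : (nb G X u \ cl G X v).card = 0 := by omega
      rw [Finset.card_eq_zero] at h7
      rw [h7]; exact Finset.empty_subset _
    · obtain ⟨w, hw⟩ := Finset.card_pos.1 h0
      have hw1 := (mem_nb.1 hw).1
      obtain ⟨hw2, hw3⟩ := (SimpleGraph.compl_adj _ _ _).1 (mem_nb.1 hw).2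
      by_cases w1 : w = p
      · rw [w1] at hw1 hw2 hw3
        exact prop u hu p hp hw2 hw3
          (tight4 H hv hd hu hp hq hr u1 u2 u3 h1 h2 h4 hw3 n4).1 sp
      by_cases w2 : w = q
      · rw [w2] at hw1 hw2 hw3
        exact prop u hu q hq hw2 hw3
          (tight4 H hv hd hu hq hr hs u2 u3 u4 h4 h5 h6 hw3 n2).1 sq
      by_cases w3 : w = r
      · rw [w3] at hw1 hw2 hw3
        exact prop u hu r hr hw2 hw3
          (tight4 H hv hd hu hr hp hq u3 u1 u2 (Ne.symm h2) (Ne.symm h4) h1 hw3 n1).1 sr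
      by_cases w4 : w = s
      · rw [w4] at hw1 hw2 hw3
        exact prop u hu s hs hw2 hw3
          (tight4 H hv hd hu hs hp hq u4 u1 u2 (Ne.symm h3) (Ne.symm h5) h1 hw3 n1).1 ss
      exact absurd (a4 u hu u1 u2 u3 u4 w hw1 w1 w2 w3 w4 hw2) hw3
  have hRX : cl G X v ∪ T ⊆ X := Finset.union_subset hFX hTX
  have hRc : (cl G X v ∪ T).card = 2 * k := by
    rw [Finset.card_union_of_disjoint hTF]; omega
  have hclosed : ∀ u ∈ cl G X v ∪ T, (nb G X u \ (cl G X v ∪ T)).card = 0 := by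
    intro u hu
    rw [Finset.card_eq_zero, Finset.sdiff_eq_empty_iff_subset]
    rw [mem_union] at hu
    rcases hu with hu | hu
    · intro z hz
      by_cases hzF : z ∈ cl G X v
      · exact mem_union_left _ hzF
      · exact mem_union_right _ (all u hu (mem_sdiff.2 ⟨hz, hzF⟩))
    · exact hcl u hu
  have h7 := sum_deg (G := G) hRX
  rw [Finset.sum_congr rfl hclosed, Finset.sum_const_zero, add_zero] at h7
  have h8 : k * (2 * k) ≤ ∑ u ∈ cl G X v ∪ T, (nb G X u).card := by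
    rw [← hRc, mul_comm, ← smul_eq_mul, ← Finset.sum_const]
    exact Finset.sum_le_sum fun u hu => deg_ge H u (hRX hu)
  have h9 := H.hS _ hRX (by omega)
  rw [hRc, ← h7] at h9
  have h10 : (k + 1) * (2 * k) = k * (2 * k) + 2 * k := by ring
  omega

end

theorem contra : False := by
  obtain ⟨v, hv, hd⟩ := exists_deg H
  exact contra_aux H hv hd

end

/-- Sparse graphs have `2 e ≥ (4 k - 6) n - (3 k - 4) (k - 1) α`. -/
theorem main_ineq {k : ℕ} (hk : 3 ≤ k) (X : Finset V) (hS : Sk G k X) (a : ℕ) (hal : Al G a X) :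
    ((4 * k - 6) * X.card : ℤ) ≤ e2 G X + (3 * k - 4) * (k - 1) * a := by
  obtain ⟨n, hn⟩ : ∃ n, X.card = n := ⟨_, rfl⟩
  induction n using Nat.strong_induction_on generalizing X a with
  | _ n ih =>
    by_contra hcon
    push Not at hcon
    refine contra (G := G) (k := k) (a := a) (X := X) ⟨hk, hS, hal, by linarith, ?_⟩
    intro Y hY hYc b hb
    exact ih Y.card (by omega) Y (hS.mono G hY) b hb rfl

end Pool.Agent.TwoDens.DD
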