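import Mathlib

/-!
The 2-density of a graph and its minimum over graphs with bounded independence number.
-/

namespace Pool.Agent.TwoDens

/-- The 2-density `m_2(G)`: the maximum of `(e(F) - 1) / (v(F) - 2)` over all subgraphs `F` of `G`
with `v(F) ≥ 3` vertices. -/
noncomputable def twoDensity {V : Type*} (G : SimpleGraph V) : ℝ :=
  sSup {d : ℝ | ∃ F : G.Subgraph, 3 ≤ F.verts.ncard ∧
    d = ((F.edgeSet.ncard : ℝ) - 1) / ((F.verts.ncard : ℝ) - 2)}

/-- `M(m, r)`: the minimum 2-density of a graph on `m` vertices whose independence number is less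
than `r`. -/
noncomputable def minTwoDensity (m r : ℕ) : ℝ :=
  sInf {d : ℝ | ∃ G : SimpleGraph (Fin m), G.indepNum < r ∧ d = twoDensity G}

end Pool.Agent.TwoDens
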