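import Pool.Agent.TwoDens.DDF
import Pool.Agent.TwoDens.Cyc3

/-!
# The divisible case `m = k s`, `s = r - 1`: uniform bounds for all `k` and `s`

A lower bound for `M(m, s + 1)` for all `m`, and in the divisible case `m = k s` the bounds
`(k + 1) / 2 - max (0, 2 s - k) / (k s - 2) ≤ M(k s, s + 1) ≤ (k + 1) / 2 - max (0, s - k) / (k s - 2)`.
-/

open Finset

namespace Pool.Agent.TwoDens.DivisibleUniformOld

open Pool.Agent.TwoDens Pool.Agent.TwoDens.DD

theorem upper_cliq (k s : ℕ) (hk : 3 ≤ k) :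
    minTwoDensity (k * s) (s + 1) ≤ ((k : ℝ) + 1) / 2 := by
  refine minTwoDensity_le (by positivity) (cliq s k) ?_ ?_ ?_
  · simp [mul_comm]
  · intro I hI
    have := cliq_indep I hI
    omega
  · intro Y hY
    have h1 := cliq_sparse Y hY
    have h2 : (e2 (cliq s k) Y : ℝ) + 2 * k ≤ (k + 1) * Y.card := by exact_mod_cast h1
    linarith

theorem upper_cyc (k s : ℕ) (hk : 3 ≤ k) (hr : k < s) :
    minTwoDensity (k * s) (s + 1) ≤
      ((k : ℝ) + 1) / 2 - ((s : ℝ) - k) / ((s : ℝ) * k - 2) := by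
  have hks : (k : ℝ) + 1 ≤ s := by exact_mod_cast hr
  have hk' : (3 : ℝ) ≤ k := by exact_mod_cast hk
  haveI : NeZero s := ⟨by omega⟩
  have hpos : (0 : ℝ) < (s : ℝ) * k - 2 := by nlinarith
  have hfrac1 : ((s : ℝ) - k) / ((s : ℝ) * k - 2) ≤ 1 := by
    rw [div_le_one hpos]
    nlinarith
  refine minTwoDensity_le (by linarith) (cycG s k) ?_ ?_ ?_
  · rw [Fintype.card_prod, ZMod.card, Fintype.card_fin, mul_comm]
  · intro I hI
    have := cyc_indep (by omega) I hI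
    omega
  · intro Y hY
    exact cyc_sparse hk hr.le Y hY

theorem upper (k s : ℕ) (hk : 3 ≤ k) :
    minTwoDensity (k * s) (s + 1) ≤
      ((k : ℝ) + 1) / 2 - max 0 ((s : ℝ) - k) / ((k : ℝ) * s - 2) := by
  rcases Nat.lt_or_ge k s with h | h
  · have h1 : (k : ℝ) ≤ s := by exact_mod_cast h.le
    rw [max_eq_right (by linarith), mul_comm (k : ℝ) s]
    exact upper_cyc k s hk h
  · have h1 : (s : ℝ) ≤ k := by exact_mod_cast h
    rw [max_eq_left (by linarith), zero_div, sub_zero]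
    exact upper_cliq k s hk

theorem lower (k s : ℕ) (hk : 3 ≤ k) (hs : 2 ≤ s) :
    ((k : ℝ) + 1) / 2 - max 0 (2 * (s : ℝ) - k) / ((k : ℝ) * s - 2) ≤
      minTwoDensity (k * s) (s + 1) := by
  have hk' : (3 : ℝ) ≤ k := by exact_mod_cast hk
  have hs' : (2 : ℝ) ≤ s := by exact_mod_cast hs
  have hpos : (0 : ℝ) < (k : ℝ) * s - 2 := by nlinarith
  have h1 := lower_bound k (k * s) s hk (by nlinarith) (by omega)
  refine le_trans ?_ h1
  refine le_min ?_ ?_
  · have : 0 ≤ max 0 (2 * (s : ℝ) - k) / ((k : ℝ) * s - 2) :=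
      div_nonneg (le_max_left _ _) hpos.le
    linarith
  · push_cast
    have h2 : ((4 * (k : ℝ) - 6) * (k * s) - (3 * k - 4) * (k - 1) * s - 2) /
        (2 * ((k : ℝ) * s - 2)) = ((k : ℝ) + 1) / 2 - (2 * (s : ℝ) - k) / ((k : ℝ) * s - 2) := by
      field_simp
      ring
    rw [h2]
    have h3 : (2 * (s : ℝ) - k) / ((k : ℝ) * s - 2) ≤
        max 0 (2 * (s : ℝ) - k) / ((k : ℝ) * s - 2) :=
      div_le_div_of_nonneg_right (le_max_right _ _) hpos.le
    linarith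

/-- For all `k ≥ 3` and `s ≥ 2`: a lower bound for `M(m, s + 1)` for every `m ≥ 3`; in the
divisible case `(k + 1) / 2 - max (0, 2 s - k) / (k s - 2) ≤ M(k s, s + 1) ≤
(k + 1) / 2 - max (0, s - k) / (k s - 2)`; in particular `M(k s, s + 1) = (k + 1) / 2` whenever
`k ≥ 2 s`. -/
theorem result (k s : ℕ) (hk : 3 ≤ k) (hs : 2 ≤ s) :
    (∀ m : ℕ, 3 ≤ m → min (((k : ℝ) + 1) / 2)
      (((4 * k - 6) * m - (3 * k - 4) * (k - 1) * s - 2) / (2 * ((m : ℝ) - 2))) ≤
        minTwoDensity m (s + 1)) ∧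
    ((k : ℝ) + 1) / 2 - max 0 (2 * (s : ℝ) - k) / ((k : ℝ) * s - 2) ≤
      minTwoDensity (k * s) (s + 1) ∧
    minTwoDensity (k * s) (s + 1) ≤
      ((k : ℝ) + 1) / 2 - max 0 ((s : ℝ) - k) / ((k : ℝ) * s - 2) ∧
    (2 * s ≤ k → minTwoDensity (k * s) (s + 1) = ((k : ℝ) + 1) / 2) := by
  refine ⟨fun m hm => lower_bound k m s hk hm (by omega), lower k s hk hs, upper k s hk, ?_⟩
  intro h
  have h1 : 2 * (s : ℝ) ≤ k := by exact_mod_cast h
  have h2 := lower k s hk hs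
  rw [max_eq_left (by linarith), zero_div, sub_zero] at h2
  exact le_antisymm (upper_cliq k s hk) h2

end Pool.Agent.TwoDens.DivisibleUniformOld
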