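import Mathlib

/-!
Accounting lemmas for the lower bound in the upper half of the residues.
-/

open Finset

namespace Pool.Agent.TwoDens

/-- bound of the gain at one target group -/
theorem gain_le {ι : Type*} (J : Finset ι) (a k d q ε : ℤ) (x o E : ι → ℤ)
    (st : ι → Prop) (hJ : (J.card : ℤ) ≤ a) (hk : 0 ≤ k) (hq : 0 ≤ q) (hd : 0 ≤ d) (hε : 0 ≤ ε)
    (hx0 : ∀ j ∈ J, 0 ≤ x j) (hxq : ∀ j ∈ J, x j ≤ q) (ho : ∀ j ∈ J, 0 ≤ o j)
    (hE : ∀ j ∈ J, 0 ≤ E j + ε)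
    (hst : ∀ j ∈ J, st j → k * x j ≤ q * o j + E j + ε)
    (hns : ∀ j ∈ J, ¬ st j → 2 * k ≤ E j + ε)
    (hso : ∑ j ∈ J, o j ≤ k * d + ε) (hsE : ∑ j ∈ J, E j ≤ k * d + ε)
    (hsmall : (a + 1) * ε < k) :
    ∑ j ∈ J, (2 * k * x j - E j) ≤
      (if d = 0 then 0 else k * d * (4 * q + 3) - 2 * k * (q + 1)) +
        ((3 * q + 1) * ε + a * ((q + 2) * ε)) := by
  classical
  have ha : 0 ≤ a := le_trans (by positivity) hJ
  by_cases hd1 : d ≤ 1
  · have hall : ∀ j ∈ J, st j := by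
      intro j hj
      by_contra hcon
      have h1 := hns j hj hcon
      have h2 : E j + ε ≤ ∑ i ∈ J, (E i + ε) :=
        Finset.single_le_sum (f := fun i => E i + ε) (fun i hi => hE i hi) hj
      rw [Finset.sum_add_distrib, Finset.sum_const, nsmul_eq_mul] at h2
      have h3 : (J.card : ℤ) * ε ≤ a * ε := mul_le_mul_of_nonneg_right hJ hε
      have h4 : k * d ≤ k * 1 := mul_le_mul_of_nonneg_left hd1 hk
      nlinarith
    have h1 : ∑ j ∈ J, (2 * k * x j - E j) ≤ ∑ j ∈ J, (2 * q * o j + E j + 2 * ε) := by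
      refine Finset.sum_le_sum fun j hj => ?_
      have := hst j hj (hall j hj)
      linarith
    rw [Finset.sum_add_distrib, Finset.sum_add_distrib, ← Finset.mul_sum, Finset.sum_const,
      nsmul_eq_mul] at h1
    have h3 : (J.card : ℤ) * ε ≤ a * ε := mul_le_mul_of_nonneg_right hJ hε
    have h4 : 2 * q * ∑ j ∈ J, o j ≤ 2 * q * (k * d + ε) :=
      mul_le_mul_of_nonneg_left hso (by linarith)
    have h5 : 0 ≤ q * ε := mul_nonneg hq hε
    have h6 : 0 ≤ a * (q * ε) := mul_nonneg ha h5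
    split_ifs with h7
    · subst h7
      nlinarith
    · have h8 : d = 1 := by omega
      subst h8
      nlinarith
  · have hd2 : 2 ≤ d := by omega
    have h1 : ∑ j ∈ J, (2 * k * x j - E j) ≤
        ∑ j ∈ J, (2 * q * o j + q * E j + (q * ε + ε)) := by
      refine Finset.sum_le_sum fun j hj => ?_
      have e1 := hE j hj
      have e2 := ho j hj
      have e3 := hx0 j hj
      have e4 := hxq j hj
      have e5 : 0 ≤ q * o j := mul_nonneg hq e2
      rcases Int.lt_or_le q 1 with h2 | h2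
      · have hq0 : q = 0 := by omega
        have hx : x j = 0 := by omega
        rw [hx, hq0]
        linarith
      · have h3 : E j + ε ≤ q * (E j + ε) := by nlinarith
        by_cases h4 : st j
        · have := hst j hj h4
          linarith
        · have h5 := hns j hj h4
          have h6 : k * x j ≤ k * q := mul_le_mul_of_nonneg_left e4 hk
          have h7 : q * (2 * k) ≤ q * (E j + ε) := mul_le_mul_of_nonneg_left h5 hq
          linarith
    rw [Finset.sum_add_distrib, Finset.sum_add_distrib, ← Finset.mul_sum, ← Finset.mul_sum,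
      Finset.sum_const, nsmul_eq_mul] at h1
    have h5 : 0 ≤ q * ε := mul_nonneg hq hε
    have h3 : (J.card : ℤ) * (q * ε + ε) ≤ a * (q * ε + ε) :=
      mul_le_mul_of_nonneg_right hJ (by linarith)
    have h4 : 2 * q * ∑ j ∈ J, o j ≤ 2 * q * (k * d + ε) :=
      mul_le_mul_of_nonneg_left hso (by linarith)
    have h4' : q * ∑ j ∈ J, E j ≤ q * (k * d + ε) :=
      mul_le_mul_of_nonneg_left hsE hq
    have h6 : 0 ≤ a * ε := mul_nonneg ha hε
    have h8 : 2 * (k * (q + 3)) ≤ d * (k * (q + 3)) :=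
      mul_le_mul_of_nonneg_right hd2 (mul_nonneg hk (by linarith))
    rw [if_neg (by omega)]
    nlinarith

/-- the accounting contradiction -/
theorem account {ι : Type*} [DecidableEq ι] (I Full : Finset ι) (J : ι → Finset ι) (d : ι → ℤ)
    (x o E : ι → ι → ℤ) (st : ι → ι → Prop) (a k t q ε : ℤ)
    (hI : (I.card : ℤ) = a) (hk : 0 ≤ k) (hq : 0 ≤ q) (hε : 0 ≤ ε)
    (hd : ∀ i ∈ I, 0 ≤ d i) (hdt : ∑ i ∈ I, d i = t)
    (hFull : Full = I.filter (fun i => d i = 0))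
    (hJ : ∀ i ∈ I, ((J i).card : ℤ) ≤ a)
    (hx0 : ∀ i ∈ I, ∀ j ∈ J i, 0 ≤ x i j) (hxq : ∀ i ∈ I, ∀ j ∈ J i, x i j ≤ q)
    (ho : ∀ i ∈ I, ∀ j ∈ J i, 0 ≤ o i j)
    (hE : ∀ i ∈ I, ∀ j ∈ J i, 0 ≤ E i j + ε)
    (hst : ∀ i ∈ I, ∀ j ∈ J i, st i j → k * x i j ≤ q * o i j + E i j + ε)
    (hns : ∀ i ∈ I, ∀ j ∈ J i, ¬ st i j → 2 * k ≤ E i j + ε)
    (hso : ∀ i ∈ I, ∑ j ∈ J i, o i j ≤ k * d i + ε)
    (hsE : ∀ i ∈ I, ∑ j ∈ J i, E i j ≤ k * d i + ε)
    (hcount : ∑ i ∈ I, ∑ j ∈ J i, (x i j + 1) = (q + 1) * Full.card)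
    (hbud : ∑ i ∈ I, ∑ j ∈ J i, (2 * k + E i j) ≤ 2 * k * (a - 1) + k * t + ε)
    (hqt : 2 * t * (q + 1) ≤ q * a)
    (hs1 : (a + 1) * ε < k)
    (hs2 : ε + a * ((3 * q + 1) * ε + a * ((q + 2) * ε)) < 2 * k) : False := by
  have h1 : ∀ i ∈ I, ∑ j ∈ J i, (2 * k * x i j - E i j) ≤
      (k * d i * (4 * q + 3) - (if d i = 0 then 0 else 2 * k * (q + 1))) +
        ((3 * q + 1) * ε + a * ((q + 2) * ε)) := by
    intro i hi
    have h2 := gain_le (J i) a k (d i) q ε (x i) (o i) (E i) (st i) (hJ i hi) hk hq (hd i hi) hε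
      (hx0 i hi) (hxq i hi) (ho i hi) (hE i hi) (hst i hi) (hns i hi) (hso i hi) (hsE i hi) hs1
    split_ifs at h2 ⊢ with h3
    · rw [h3]; linarith
    · linarith
  have h2 := Finset.sum_le_sum h1
  rw [Finset.sum_add_distrib, Finset.sum_sub_distrib, Finset.sum_const, nsmul_eq_mul, hI] at h2
  have h3 : ∑ i ∈ I, k * d i * (4 * q + 3) = k * t * (4 * q + 3) := by
    rw [← Finset.sum_mul, ← Finset.mul_sum, hdt]
  have h4 : ∑ i ∈ I, (if d i = 0 then 0 else 2 * k * (q + 1)) =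
      2 * k * (q + 1) * (a - Full.card) := by
    have h5 : ∀ i ∈ I, (if d i = 0 then (0:ℤ) else 2 * k * (q + 1)) =
        2 * k * (q + 1) - (if d i = 0 then 2 * k * (q + 1) else 0) := by
      intro i _
      split_ifs <;> ring
    rw [Finset.sum_congr rfl h5, Finset.sum_sub_distrib, Finset.sum_const, nsmul_eq_mul, hI,
      ← Finset.sum_filter, ← hFull, Finset.sum_const, nsmul_eq_mul]
    ring
  rw [h3, h4] at h2
  have h5 : ∑ i ∈ I, ∑ j ∈ J i, (2 * k + E i j) + ∑ i ∈ I, ∑ j ∈ J i, (2 * k * x i j - E i j) =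
      2 * k * ∑ i ∈ I, ∑ j ∈ J i, (x i j + 1) := by
    rw [Finset.mul_sum, ← Finset.sum_add_distrib]
    refine Finset.sum_congr rfl fun i _ => ?_
    rw [Finset.mul_sum, ← Finset.sum_add_distrib]
    refine Finset.sum_congr rfl fun j _ => ?_
    ring
  rw [hcount] at h5
  have h6 : 2 * k * (2 * t * (q + 1)) ≤ 2 * k * (q * a) :=
    mul_le_mul_of_nonneg_left hqt (by linarith)
  nlinarith

end Pool.Agent.TwoDens
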