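import Pool.Agent.TwoDens.MainB2

/-!
Graph lemmas for the lower bound in the upper half of the residues.
-/

open Finset

namespace Pool.Agent.TwoDens

variable {V : Type} [DecidableEq V] (G : SimpleGraph V) [DecidableRel G.Adj]

/-- `q + 1` unordered missing pairs -/
theorem exists_pairs {B : Finset V} {q : ℕ} (hm : 2 * q < m2 G B) :
    ∃ P : Finset (Sym2 V), P.card = q + 1 ∧
      ∀ e ∈ P, ∃ x ∈ B, ∃ y ∈ B, x ≠ y ∧ ¬ G.Adj x y ∧ e = s(x, y) := by
  have h1 : m2 G B = ((B ×ˢ B).filter (fun p => p.2 ≠ p.1 ∧ ¬ G.Adj p.1 p.2)).card := by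
    unfold m2
    simp only [Finset.card_filter]
    rw [Finset.sum_product]
  set O := (B ×ˢ B).filter (fun p => p.2 ≠ p.1 ∧ ¬ G.Adj p.1 p.2) with hO
  have h2 : O.card ≤ 2 * (O.image (fun p => s(p.1, p.2))).card := by
    refine Finset.card_le_mul_card_image O 2 ?_
    intro e he
    obtain ⟨p, hp, rfl⟩ := mem_image.1 he
    have h3 : O.filter (fun x => s(x.1, x.2) = s(p.1, p.2)) ⊆ {(p.1, p.2), (p.2, p.1)} := by
      intro x hx
      have h4 := (mem_filter.1 hx).2
      rw [mem_insert, mem_singleton]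
      rw [Sym2.eq_iff] at h4
      rcases h4 with ⟨h5, h6⟩ | ⟨h5, h6⟩
      · exact Or.inl (Prod.ext h5 h6)
      · exact Or.inr (Prod.ext h5 h6)
    exact (Finset.card_le_card h3).trans Finset.card_le_two
  obtain ⟨P, hP, hPc⟩ := Finset.exists_subset_card_eq
    (s := O.image (fun p => s(p.1, p.2))) (n := q + 1) (by omega)
  refine ⟨P, hPc, ?_⟩
  intro e he
  obtain ⟨p, hp, rfl⟩ := mem_image.1 (hP he)
  obtain ⟨hp1, hp2, hp3⟩ := mem_filter.1 hp
  rw [mem_product] at hp1
  exact ⟨p.1, hp1.1, p.2, hp1.2, hp2.symm, hp3, rfl⟩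

theorem sum_swap (A W : Finset V) :
    ∑ v ∈ W, (A.filter (G.Adj v)).card = ∑ z ∈ A, (W.filter (fun v => G.Adj v z)).card := by
  simp only [Finset.card_filter]
  exact Finset.sum_comm

/-- load of a family of missing pairs on a target group -/
theorem load {A W : Finset V} {H : Finset (Sym2 V)} {Λ : ℕ} (hH : H.Nonempty)
    (hW : ∀ e ∈ H, ∀ v ∈ e, v ∈ W)
    (hbad : ∀ e ∈ H, ∃ x y : V, e = s(x, y) ∧
      (A.filter (fun u => ¬ G.Adj x u ∧ ¬ G.Adj y u)).card ≤ Λ) :
    (∃ c ∈ W, (A.filter (G.Adj c)).card + H.card * (A.filter (fun z => ¬ G.Adj c z)).card ≤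
      ∑ v ∈ W, (A.filter (G.Adj v)).card + H.card * (H.card * Λ)) ∨
    2 * A.card ≤ ∑ v ∈ W, (A.filter (G.Adj v)).card + 2 * (H.card * Λ) := by
  classical
  obtain ⟨e00, he00⟩ := id hH
  obtain ⟨x00, -⟩ := hbad e00 he00
  haveI : Nonempty V := ⟨x00⟩
  choose! ex ey hexy using hbad
  set Bad := H.biUnion (fun e => A.filter (fun u => ¬ G.Adj (ex e) u ∧ ¬ G.Adj (ey e) u)) with hBad
  have hBc : Bad.card ≤ H.card * Λ :=
    Finset.card_biUnion_le_card_mul _ _ _ (fun e he => (hexy e he).2)
  have hBA : Bad ⊆ A := by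
    intro z hz
    obtain ⟨e, _, hz⟩ := mem_biUnion.1 hz
    exact (mem_filter.1 hz).1
  have hgood : ∀ z ∈ A, z ∉ Bad → ∀ e ∈ H, ∃ v ∈ e, G.Adj v z := by
    intro z hz hzb e he
    by_contra hcon
    push Not at hcon
    apply hzb
    rw [hBad, mem_biUnion]
    have h1 : ex e ∈ e := by
      have h2 := Sym2.mem_mk_left (ex e) (ey e)
      rwa [← (hexy e he).1] at h2
    have h3 : ey e ∈ e := by
      have h2 := Sym2.mem_mk_right (ex e) (ey e)
      rwa [← (hexy e he).1] at h2
    exact ⟨e, he, mem_filter.2 ⟨hz, hcon _ h1, hcon _ h3⟩⟩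
  have hHpos : 1 ≤ H.card := Finset.card_pos.2 hH
  by_cases hstar : ∃ c ∈ W, ∀ e ∈ H, c ∈ e
  · left
    obtain ⟨c, hcW, hc⟩ := hstar
    refine ⟨c, hcW, ?_⟩
    rw [sum_swap]
    have h1 : ∀ z ∈ A, (if G.Adj c z then 1 else H.card) ≤
        (W.filter (fun v => G.Adj v z)).card + (if z ∈ Bad then H.card else 0) := by
      intro z hz
      by_cases hzb : z ∈ Bad
      · rw [if_pos hzb]
        split_ifs <;> omega
      · rw [if_neg hzb, add_zero]
        split_ifs with h2
        · exact Finset.card_pos.2 ⟨c, mem_filter.2 ⟨hcW, h2⟩⟩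
        · have h3 : H ⊆ (W.filter (fun v => G.Adj v z)).image (fun v => s(c, v)) := by
            intro e he
            obtain ⟨v, hve, hvz⟩ := hgood z hz hzb e he
            rw [mem_image]
            refine ⟨v, mem_filter.2 ⟨hW e he v hve, hvz⟩, ?_⟩
            have hcv : c ≠ v := by
              rintro rfl
              exact h2 hvz
            exact ((Sym2.mem_and_mem_iff hcv).1 ⟨hc e he, hve⟩).symm
          exact (Finset.card_le_card h3).trans Finset.card_image_le
    have h2 := Finset.sum_le_sum h1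
    rw [Finset.sum_add_distrib, ← Finset.sum_filter, Finset.sum_const, smul_eq_mul,
      Finset.filter_mem_eq_inter, Finset.inter_eq_right.2 hBA] at h2
    have h3 : ∑ z ∈ A, (if G.Adj c z then 1 else H.card) =
        (A.filter (G.Adj c)).card + H.card * (A.filter (fun z => ¬ G.Adj c z)).card := by
      rw [Finset.sum_ite, Finset.sum_const, Finset.sum_const, smul_eq_mul, smul_eq_mul, mul_one,
        mul_comm]
    rw [h3] at h2
    have h4 : Bad.card * H.card ≤ H.card * Λ * H.card := Nat.mul_le_mul_right _ hBc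
    have h5 : H.card * Λ * H.card = H.card * (H.card * Λ) := by ring
    omega
  · right
    push Not at hstar
    rw [sum_swap]
    have h1 : ∀ z ∈ A, 2 ≤
        (W.filter (fun v => G.Adj v z)).card + (if z ∈ Bad then 2 else 0) := by
      intro z hz
      by_cases hzb : z ∈ Bad
      · rw [if_pos hzb]; omega
      · rw [if_neg hzb, add_zero]
        obtain ⟨e0, he0⟩ := hH
        obtain ⟨v0, hv0, hv0z⟩ := hgood z hz hzb e0 he0
        obtain ⟨e1, he1, hv01⟩ := hstar v0 (hW e0 he0 v0 hv0)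
        obtain ⟨v1, hv1, hv1z⟩ := hgood z hz hzb e1 he1
        have hne : v0 ≠ v1 := by
          rintro rfl
          exact hv01 hv1
        have h2 : ({v0, v1} : Finset V) ⊆ W.filter (fun v => G.Adj v z) := by
          intro u hu
          rw [mem_insert, mem_singleton] at hu
          rcases hu with rfl | rfl
          · exact mem_filter.2 ⟨hW e0 he0 _ hv0, hv0z⟩
          · exact mem_filter.2 ⟨hW e1 he1 _ hv1, hv1z⟩
        have h3 := Finset.card_le_card h2
        rwa [Finset.card_pair hne] at h3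
    have h2 := Finset.sum_le_sum h1
    rw [Finset.sum_add_distrib, ← Finset.sum_filter, Finset.sum_const, Finset.sum_const,
      smul_eq_mul, smul_eq_mul,
      Finset.filter_mem_eq_inter, Finset.inter_eq_right.2 hBA] at h2
    omega

/-- vertices of the groups of `J` -/
def XJ (Y : Finset V) (h : V → V) (J : Finset V) : Finset V := Y.filter (fun v => h v ∈ J)

/-- ordered cross pairs inside the groups of `J` -/
def crJ (Y : Finset V) (h : V → V) (J : Finset V) : ℕ :=
  ∑ x ∈ XJ Y h J, ((XJ Y h J).filter (fun y => h y ≠ h x ∧ G.Adj x y)).card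

theorem grp_XJ (Y : Finset V) (h : V → V) (J : Finset V) {j : V} (hj : j ∈ J) :
    grp (XJ Y h J) h j = grp Y h j := by
  unfold grp XJ
  rw [Finset.filter_filter]
  refine Finset.filter_congr fun v _ => ?_
  constructor
  · rintro ⟨_, h2⟩; exact h2
  · intro h2; exact ⟨by rw [h2]; exact hj, h2⟩

/-- cross edges inside the groups of `J` -/
theorem budget {k Λ : ℕ} {Y : Finset V} {h : V → V} {J : Finset V} (hS : Sk G k Y)
    (hJ : J.Nonempty) (hle : ∀ j ∈ J, (grp Y h j).card ≤ k)
    (hge : ∀ j ∈ J, 3 ≤ (grp Y h j).card) (hP1 : ∑ x ∈ Y, ms G Y h x ≤ 2 * Λ) :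
    crJ G Y h J + 2 * k + 1 ≤ 2 * k * J.card + k * (∑ j ∈ J, (k - (grp Y h j).card)) + 2 * Λ := by
  obtain ⟨j0, hj0⟩ := hJ
  let r : V → V := fun _ => j0
  have hXY : XJ Y h J ⊆ Y := Finset.filter_subset _ _
  have himg : (J.image r).card = 1 := by
    have : J.image r = {j0} := by
      ext z
      rw [mem_image, mem_singleton]
      constructor
      · rintro ⟨_, _, h⟩; exact h.symm
      · rintro rfl; exact ⟨z, hj0, rfl⟩
    rw [this, Finset.card_singleton]
  have hup := cross_le G (I := J) (hS.mono G hXY) h r (fun v hv => (mem_filter.1 hv).2) (by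
    intro j hj
    rw [grp_XJ Y h J hj]
    exact hge j hj)
  rw [himg] at hup
  have h1 : crossR G (XJ Y h J) h r = crJ G Y h J := by
    unfold crossR crJ
    simp [r]
  rw [h1] at hup
  have h2 : ∑ x ∈ XJ Y h J, ms G (XJ Y h J) h x ≤ 2 * Λ := by
    refine le_trans ?_ hP1
    refine (Finset.sum_le_sum fun x _ => ?_).trans
      (Finset.sum_le_sum_of_subset (f := fun x => ms G Y h x) hXY)
    exact Finset.card_le_card (Finset.filter_subset_filter _ hXY)
  have h3 : (XJ Y h J).card = ∑ j ∈ J, (grp Y h j).card := by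
    rw [← sum_grp (Y := XJ Y h J) (I := J) (h := h) (fun v hv => (mem_filter.1 hv).2)]
    exact Finset.sum_congr rfl fun j hj => by rw [grp_XJ Y h J hj]
  have h4 : ∑ j ∈ J, (grp (XJ Y h J) h j).card * (grp (XJ Y h J) h j).card =
      ∑ j ∈ J, (grp Y h j).card * (grp Y h j).card :=
    Finset.sum_congr rfl fun j hj => by rw [grp_XJ Y h J hj]
  rw [h4, h3] at hup
  have h5 : (k + 2) * ∑ j ∈ J, (grp Y h j).card ≤
      ∑ j ∈ J, (grp Y h j).card * (grp Y h j).card + (2 * k * J.card +
        k * (∑ j ∈ J, (k - (grp Y h j).card))) := by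
    have h6 : 2 * k * J.card = ∑ j ∈ J, 2 * k := by
      rw [Finset.sum_const, smul_eq_mul, mul_comm]
    rw [h6, Finset.mul_sum, Finset.mul_sum, ← Finset.sum_add_distrib, ← Finset.sum_add_distrib]
    refine Finset.sum_le_sum fun j hj => ?_
    obtain ⟨e, he⟩ := Nat.exists_eq_add_of_le (hle j hj)
    have h7 : k - (grp Y h j).card = e := by omega
    rw [h7]
    have h8 : (e + 2) * (grp Y h j).card ≤ (e + 2) * k := Nat.mul_le_mul_left _ (hle j hj)
    nlinarith
  omega

end Pool.Agent.TwoDens
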