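import Pool.Agent.TwoDens.HalfA
import Pool.Agent.TwoDens.HalfB

/-!
Loads and budgets, integer forms.
-/

open Finset

namespace Pool.Agent.TwoDens

variable {V : Type} [DecidableEq V] (G : SimpleGraph V) [DecidableRel G.Adj]

theorem grp_filter (Y : Finset V) (h : V → V) (i v : V) :
    ((grp Y h i).filter (G.Adj v)).card = dj G Y h v i := by
  unfold grp dj
  rw [Finset.filter_filter]

/-- integer form of the load bound -/
theorem load_int {k t q Λ : ℕ} {Y : Finset V} {h : V → V} {i : V} {W : Finset V}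
    {H : Finset (Sym2 V)} (hH : H.Nonempty) (hHq : H.card ≤ q + 1)
    (hW : ∀ e ∈ H, ∀ v ∈ e, v ∈ W)
    (hbad : ∀ e ∈ H, ∃ x y : V, e = s(x, y) ∧
      ((grp Y h i).filter (fun u => ¬ G.Adj x u ∧ ¬ G.Adj y u)).card ≤ Λ)
    (hgk : (grp Y h i).card ≤ k) (hgt : k ≤ (grp Y h i).card + t) :
    (∃ c ∈ W, (k : ℤ) * ((H.card : ℤ) - 1) ≤ (q : ℤ) * ((2 * dj G Y h c i - k : ℕ) : ℤ) +
        (2 * ((∑ v ∈ W, dj G Y h v i : ℕ) : ℤ) - 2 * k) + 4 * (q + 1) * (t + (q + 1) * Λ) ∧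
      0 ≤ (2 * ((∑ v ∈ W, dj G Y h v i : ℕ) : ℤ) - 2 * k) + 4 * (q + 1) * (t + (q + 1) * Λ)) ∨
    2 * (k : ℤ) ≤ (2 * ((∑ v ∈ W, dj G Y h v i : ℕ) : ℤ) - 2 * k) +
      4 * (q + 1) * (t + (q + 1) * Λ) := by
  have hL : ∑ v ∈ W, ((grp Y h i).filter (G.Adj v)).card = ∑ v ∈ W, dj G Y h v i :=
    Finset.sum_congr rfl fun v _ => grp_filter G Y h i v
  have hn1 : 1 ≤ H.card := Finset.card_pos.2 hH
  have hq1 : (H.card : ℤ) ≤ (q : ℤ) + 1 := by exact_mod_cast hHq
  have hn1' : (1 : ℤ) ≤ H.card := by exact_mod_cast hn1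
  have hgk' : ((grp Y h i).card : ℤ) ≤ k := by exact_mod_cast hgk
  have hgt' : (k : ℤ) ≤ (grp Y h i).card + t := by exact_mod_cast hgt
  have hΛ0 : (0 : ℤ) ≤ Λ := Int.natCast_nonneg _
  have ht0 : (0 : ℤ) ≤ t := Int.natCast_nonneg _
  have hq0 : (0 : ℤ) ≤ q := Int.natCast_nonneg _
  rcases load G hH hW hbad with ⟨c, hcW, hc⟩ | hns
  · left
    refine ⟨c, hcW, ?_⟩
    rw [hL, grp_filter] at hc
    have hsplit := Finset.card_filter_add_card_filter_not (s := grp Y h i) (G.Adj c)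
    rw [grp_filter] at hsplit
    set L := ∑ v ∈ W, dj G Y h v i
    set n := H.card
    set D := dj G Y h c i
    set F := ((grp Y h i).filter (fun z => ¬ G.Adj c z)).card
    set g := (grp Y h i).card
    have hc' : (D : ℤ) + n * F ≤ L + n * (n * Λ) := by exact_mod_cast hc
    have hs' : (D : ℤ) + F = g := by exact_mod_cast hsplit
    have hF0 : (0 : ℤ) ≤ F := Int.natCast_nonneg _
    have hD0 : (0 : ℤ) ≤ D := Int.natCast_nonneg _
    -- the overload
    have ho : (2 * D : ℤ) ≤ k + ((2 * D - k : ℕ) : ℤ) := by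
      have : 2 * D ≤ k + (2 * D - k) := by omega
      exact_mod_cast this
    have ho0 : (0 : ℤ) ≤ ((2 * D - k : ℕ) : ℤ) := Int.natCast_nonneg _
    have hok : ((2 * D - k : ℕ) : ℤ) ≤ k := by
      have : 2 * D - k ≤ k := by omega
      exact_mod_cast this
    generalize ((2 * D - k : ℕ) : ℤ) = o at ho ho0 hok ⊢
    -- 2 L ≥ 2 g + x (2 g - 2 D) - 2 n² Λ
    have e1 : (n : ℤ) * (n * Λ) ≤ (q + 1) * ((q + 1) * Λ) := by
      have : (n : ℤ) * Λ ≤ (q + 1) * Λ := mul_le_mul_of_nonneg_right hq1 hΛ0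
      exact mul_le_mul hq1 this (by positivity) (by positivity)
    have e2 : (n : ℤ) * t ≤ (q + 1) * t := mul_le_mul_of_nonneg_right hq1 ht0
    have e3 : ((n : ℤ) - 1) * (k - o) ≤ ((n : ℤ) - 1) * (2 * F + 2 * t) := by
      refine mul_le_mul_of_nonneg_left ?_ (by linarith)
      linarith
    have e4 : 0 ≤ ((n : ℤ) - 1) * (k - o) := mul_nonneg (by linarith) (by linarith)
    have e5 : ((n : ℤ) - 1) * o ≤ q * o := mul_le_mul_of_nonneg_right (by linarith) ho0
    have e6 : 0 ≤ ((q : ℤ) + 1) * ((q + 1) * Λ) := by positivity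
    have e7 : 0 ≤ ((q : ℤ) + 1) * t := by positivity
    have e8 : ((n : ℤ) - 1) * (k - o) ≤ 2 * L - 2 * k + 4 * (q + 1) * (t + (q + 1) * Λ) := by
      nlinarith
    constructor
    · nlinarith
    · linarith
  · right
    rw [hL] at hns
    set L := ∑ v ∈ W, dj G Y h v i
    set n := H.card
    set g := (grp Y h i).card
    have hns' : 2 * (g : ℤ) ≤ L + 2 * (n * Λ) := by exact_mod_cast hns
    have e1 : (n : ℤ) * Λ ≤ (q + 1) * Λ := mul_le_mul_of_nonneg_right hq1 hΛ0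
    have e2 : 0 ≤ (q : ℤ) * t := by positivity
    have e3 : 0 ≤ (q : ℤ) * ((q + 1) * Λ) := by positivity
    nlinarith

/-- local bound of the loads into the group `i` -/
theorem local_load {k Λ : ℕ} {Y I Full J : Finset V} {h : V → V} {i : V} (hS : Sk G k Y)
    (hJI : J ⊆ I) (hi : i ∈ I) (hiJ : i ∉ J)
    (hJf : ∀ j ∈ J, (grp Y h j).card = k)
    (hle : ∀ j ∈ I, (grp Y h j).card ≤ k)
    (hge : ∀ j ∈ I, 3 ≤ (grp Y h j).card) (hP1 : ∑ x ∈ Y, ms G Y h x ≤ 2 * Λ)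
    (W : V → Finset V) (hW : ∀ j ∈ J, W j ⊆ grp Y h j) :
    2 * (∑ j ∈ J, ∑ v ∈ W j, dj G Y h v i) ≤
      2 * k * J.card + k * (k - (grp Y h i).card) + 2 * Λ := by
  classical
  have hsub : insert i J ⊆ I := Finset.insert_subset hi hJI
  have hb := budget G (J := insert i J) hS ⟨i, mem_insert_self _ _⟩
    (fun j hj => hle j (hsub hj)) (fun j hj => hge j (hsub hj)) hP1
  rw [Finset.card_insert_of_notMem hiJ, Finset.sum_insert hiJ,
    Finset.sum_eq_zero (s := J) (fun j hj => by rw [hJf j hj]; omega), add_zero] at hb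
  set X := XJ Y h (insert i J) with hX
  set S := J.biUnion W with hSdef
  have hSX : S ⊆ X := by
    intro v hv
    obtain ⟨j, hj, hv⟩ := mem_biUnion.1 hv
    obtain ⟨h1, h2⟩ := mem_filter.1 (hW j hj hv)
    exact mem_filter.2 ⟨h1, by rw [h2]; exact mem_insert_of_mem hj⟩
  have hdc := double_count (Y := X) (S := S) hSX (fun x y => h y ≠ h x ∧ G.Adj x y)
    (fun x y hxy => ⟨hxy.1.symm, hxy.2.symm⟩)
  have hcr : ∑ x ∈ X, (X.filter (fun y => h y ≠ h x ∧ G.Adj x y)).card =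
      crJ G Y h (insert i J) := rfl
  rw [hcr] at hdc
  have hsumS : ∑ x ∈ S, ((X \ S).filter (fun y => h y ≠ h x ∧ G.Adj x y)).card =
      ∑ j ∈ J, ∑ x ∈ W j, ((X \ S).filter (fun y => h y ≠ h x ∧ G.Adj x y)).card := by
    refine Finset.sum_biUnion ?_
    intro j hj j' hj' hne
    rw [Function.onFun, Finset.disjoint_left]
    intro z h1 h2
    exact hne ((mem_filter.1 (hW j hj h1)).2.symm.trans (mem_filter.1 (hW j' hj' h2)).2)
  rw [hsumS] at hdc
  have hcmp : ∑ j ∈ J, ∑ v ∈ W j, dj G Y h v i ≤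
      ∑ j ∈ J, ∑ x ∈ W j, ((X \ S).filter (fun y => h y ≠ h x ∧ G.Adj x y)).card := by
    refine Finset.sum_le_sum fun j hj => Finset.sum_le_sum fun v hv => ?_
    refine Finset.card_le_card ?_
    intro u hu
    obtain ⟨hu1, hu2, hu3⟩ := mem_filter.1 hu
    have hvj : h v = j := (mem_filter.1 (hW j hj hv)).2
    refine mem_filter.2 ⟨mem_sdiff.2 ⟨mem_filter.2 ⟨hu1, by rw [hu2]; exact mem_insert_self _ _⟩,
      ?_⟩, ?_, hu3⟩
    · intro huS
      obtain ⟨j', hj', huj⟩ := mem_biUnion.1 huS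
      have := (mem_filter.1 (hW j' hj' huj)).2
      rw [hu2] at this
      exact hiJ (this ▸ hj')
    · rw [hu2, hvj]
      rintro rfl
      exact hiJ hj
  have h9 : 2 * k * (J.card + 1) = 2 * k * J.card + 2 * k := by ring
  omega

/-- global bound of the loads -/
theorem global_load {k t Λ a w : ℕ} {Y I Full : Finset V} {h : V → V} (hS : Sk G k Y)
    (hI : ∀ v ∈ Y, h v ∈ I) (hIc : I.card = a) (ha : 1 ≤ a) (hFI : Full ⊆ I)
    (hle : ∀ j ∈ I, (grp Y h j).card ≤ k)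
    (hge : ∀ j ∈ I, 3 ≤ (grp Y h j).card) (hP1 : ∑ x ∈ Y, ms G Y h x ≤ 2 * Λ)
    (hdef : ∑ i ∈ I, (k - (grp Y h i).card) = t)
    (W : V → Finset V) (hW : ∀ j ∈ Full, W j ⊆ grp Y h j) (hWc : ∀ j ∈ Full, (W j).card ≤ w) :
    2 * (∑ i ∈ I, ∑ j ∈ Full.filter (fun j => j ≠ i), ∑ v ∈ W j, dj G Y h v i) + 2 * k ≤
      2 * k * a + k * t + 2 * Λ + 2 * ((a * w) * (a * w)) := by
  classical
  have hb := budget G (J := I) hS (Finset.card_pos.1 (by omega)) hle hge hP1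
  rw [hIc, hdef] at hb
  have hXY : XJ Y h I = Y := by
    unfold XJ
    exact Finset.filter_true_of_mem hI
  set S := Full.biUnion W with hSdef
  have hFc : Full.card ≤ a := by rw [← hIc]; exact Finset.card_le_card hFI
  have hSc : S.card ≤ a * w := by
    refine (Finset.card_biUnion_le_card_mul _ _ _ hWc).trans ?_
    exact Nat.mul_le_mul_right _ hFc
  have hSY : S ⊆ Y := by
    intro v hv
    obtain ⟨j, hj, hv⟩ := mem_biUnion.1 hv
    exact (mem_filter.1 (hW j hj hv)).1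
  have hdc := double_count (Y := Y) (S := S) hSY (fun x y => h y ≠ h x ∧ G.Adj x y)
    (fun x y hxy => ⟨hxy.1.symm, hxy.2.symm⟩)
  have hcr : ∑ x ∈ Y, (Y.filter (fun y => h y ≠ h x ∧ G.Adj x y)).card = crJ G Y h I := by
    unfold crJ
    rw [hXY]
  rw [hcr] at hdc
  have hsumS : ∀ f : V → ℕ, ∑ x ∈ S, f x = ∑ j ∈ Full, ∑ x ∈ W j, f x := by
    intro f
    refine Finset.sum_biUnion ?_
    intro j hj j' hj' hne
    rw [Function.onFun, Finset.disjoint_left]
    intro z h1 h2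
    exact hne ((mem_filter.1 (hW j hj h1)).2.symm.trans (mem_filter.1 (hW j' hj' h2)).2)
  have hswap : ∑ i ∈ I, ∑ j ∈ Full.filter (fun j => j ≠ i), ∑ v ∈ W j, dj G Y h v i =
      ∑ j ∈ Full, ∑ v ∈ W j, ∑ i ∈ I.filter (fun i => j ≠ i), dj G Y h v i := by
    have h1 : ∀ i ∈ I, ∑ j ∈ Full.filter (fun j => j ≠ i), ∑ v ∈ W j, dj G Y h v i =
        ∑ j ∈ Full, if j ≠ i then ∑ v ∈ W j, dj G Y h v i else 0 := by
      intro i _
      rw [Finset.sum_filter]
    rw [Finset.sum_congr rfl h1, Finset.sum_comm]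
    refine Finset.sum_congr rfl fun j _ => ?_
    rw [← Finset.sum_filter, Finset.sum_comm]
  rw [hswap]
  have hcmp : ∀ j ∈ Full, ∀ v ∈ W j, ∑ i ∈ I.filter (fun i => j ≠ i), dj G Y h v i ≤
      ((Y \ S).filter (fun y => h y ≠ h v ∧ G.Adj v y)).card + a * w := by
    intro j hj v hv
    have hvj : h v = j := (mem_filter.1 (hW j hj hv)).2
    have h1 : ∑ i ∈ I.filter (fun i => j ≠ i), dj G Y h v i =
        (Y.filter (fun u => h u ≠ h v ∧ G.Adj v u)).card := by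
      have h2 : ∀ u ∈ Y.filter (fun u => h u ≠ h v ∧ G.Adj v u),
          h u ∈ I.filter (fun i => j ≠ i) := by
        intro u hu
        obtain ⟨hu1, hu2, _⟩ := mem_filter.1 hu
        exact mem_filter.2 ⟨hI u hu1, by rw [← hvj]; exact hu2.symm⟩
      rw [Finset.card_eq_sum_card_fiberwise h2]
      refine Finset.sum_congr rfl fun i hi => ?_
      unfold dj
      rw [Finset.filter_filter]
      congr 1
      refine Finset.filter_congr fun u _ => ?_
      obtain ⟨_, hji⟩ := mem_filter.1 hi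
      constructor
      · rintro ⟨h3, h4⟩
        exact ⟨⟨by rw [h3, hvj]; exact hji.symm, h4⟩, h3⟩
      · rintro ⟨⟨_, h4⟩, h5⟩
        exact ⟨h5, h4⟩
    rw [h1]
    have h2 : Y.filter (fun u => h u ≠ h v ∧ G.Adj v u) ⊆
        (Y \ S).filter (fun y => h y ≠ h v ∧ G.Adj v y) ∪ S := by
      intro u hu
      obtain ⟨hu1, hu2⟩ := mem_filter.1 hu
      rw [mem_union, mem_filter, mem_sdiff]
      by_cases h3 : u ∈ S
      · exact Or.inr h3
      · exact Or.inl ⟨⟨hu1, h3⟩, hu2⟩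
    have h3 := (Finset.card_le_card h2).trans (Finset.card_union_le _ _)
    omega
  have hsum : ∑ j ∈ Full, ∑ v ∈ W j, ∑ i ∈ I.filter (fun i => j ≠ i), dj G Y h v i ≤
      ∑ x ∈ S, ((Y \ S).filter (fun y => h y ≠ h x ∧ G.Adj x y)).card + (a * w) * (a * w) := by
    have h1 : ∑ j ∈ Full, ∑ v ∈ W j, ∑ i ∈ I.filter (fun i => j ≠ i), dj G Y h v i ≤
        ∑ j ∈ Full, ∑ v ∈ W j,
          (((Y \ S).filter (fun y => h y ≠ h v ∧ G.Adj v y)).card + a * w) :=
      Finset.sum_le_sum fun j hj => Finset.sum_le_sum fun v hv => hcmp j hj v hv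
    refine h1.trans ?_
    rw [← hsumS (fun v => ((Y \ S).filter (fun y => h y ≠ h v ∧ G.Adj v y)).card + a * w),
      Finset.sum_add_distrib, Finset.sum_const, smul_eq_mul]
    have : S.card * (a * w) ≤ (a * w) * (a * w) := Nat.mul_le_mul_right _ hSc
    omega
  omega

end Pool.Agent.TwoDens
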