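import Pool.Agent.TwoDens.HalfC

/-!
The lower bound in the upper half of the residues.
-/

open Finset

namespace Pool.Agent.TwoDens

/-- If `2 t (q + 1) ≤ q a` and `k` is large, a graph with `k a - t` vertices, no independent set of
size `a + 1` and `m_2 < (k+1)/2` contains a set of `k` vertices with at most `q` missing pairs. -/
theorem UH_low (a t q : ℕ) (ha : 2 ≤ a) (hqt : 2 * t * (q + 1) ≤ q * a) : ∃ K, ∀ k, K ≤ k →
    ∀ {V : Type} [DecidableEq V] (G : SimpleGraph V) [DecidableRel G.Adj] (Y : Finset V),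
    Sk G k Y → Al G a Y → Y.card + t = k * a → ∃ Z ⊆ Y, Z.card = k ∧ m2 G Z ≤ 2 * q := by
  set c1 := 4 * (q + 1) * (q + 1) + 2 with hc1
  set c2 := 4 * (q + 1) * t + a + 2 * ((a * (2 * (q + 1))) * (a * (2 * (q + 1)))) with hc2
  set M1 := 2 + a * (3 * q + 1) + a * (a * (q + 2)) + a with hM1
  obtain ⟨K1, hK1⟩ := T_thm (a - 1) (by omega)
  obtain ⟨K2, hK2⟩ := struct_thm a t (2 * (M1 * c1)) ha
  refine ⟨K1 + K2 + 2 * (M1 * c2) + t + 3, ?_⟩
  intro k hk V _ G _ Y hS hal hYc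
  classical
  by_contra hcon
  push Not at hcon
  have ha1 : a - 1 + 1 = a := by omega
  have hdeg := deg_of_T G (t := t) (hK1 k (by omega) G) hS (by rw [ha1]; exact hal)
    (by rw [ha1]; exact hYc)
  obtain ⟨I, h, Λ, hIc, hI, hΛ, hP1, hP2⟩ := hK2 k (by omega) G Y hS hal hYc hdeg
  have hP1' : ∑ x ∈ Y, ms G Y h x ≤ 2 * Λ := hP1
  have hεk : M1 * (c1 * Λ + c2) < k := by
    have e1 : M1 * (c1 * Λ + c2) = M1 * c1 * Λ + M1 * c2 := by ring
    have e2 : 2 * (M1 * c1) * Λ = 2 * (M1 * c1 * Λ) := by ring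
    omega
  have hΛk : 2 * Λ < k := by
    have e1 : 2 * Λ ≤ c1 * Λ := Nat.mul_le_mul_right _ (by omega)
    have e2 : 1 * (c1 * Λ + c2) ≤ M1 * (c1 * Λ + c2) := Nat.mul_le_mul_right _ (by omega)
    omega
  have hle : ∀ j ∈ I, (grp Y h j).card ≤ k := fun j _ =>
    grp_le G (by omega) hS h hP1' hΛk j
  have hdef : ∑ i ∈ I, (k - (grp Y h i).card) = t := by
    have h8 : ∑ i ∈ I, ((k - (grp Y h i).card) + (grp Y h i).card) = ∑ i ∈ I, k :=
      Finset.sum_congr rfl fun i hi => by have := hle i hi; omega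
    rw [Finset.sum_add_distrib, sum_grp hI, Finset.sum_const, smul_eq_mul, hIc, mul_comm a k] at h8
    omega
  have hgt : ∀ i ∈ I, k ≤ (grp Y h i).card + t := by
    intro i hi
    have h1 : k - (grp Y h i).card ≤ ∑ i ∈ I, (k - (grp Y h i).card) :=
      Finset.single_le_sum (f := fun i => k - (grp Y h i).card) (fun _ _ => Nat.zero_le _) hi
    omega
  have hge : ∀ i ∈ I, 3 ≤ (grp Y h i).card := by
    intro i hi
    have := hgt i hi
    omega
  -- full groups
  set Full := I.filter (fun j => ((k - (grp Y h j).card : ℕ) : ℤ) = 0) with hFull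
  have hFullI : Full ⊆ I := Finset.filter_subset _ _
  have hFk : ∀ j ∈ Full, (grp Y h j).card = k := by
    intro j hj
    obtain ⟨h1, h2⟩ := mem_filter.1 hj
    have h3 := hle j h1
    have h4 : k - (grp Y h j).card = 0 := by exact_mod_cast h2
    omega
  -- the missing pairs
  have hpairs : ∀ j ∈ Full, ∃ P : Finset (Sym2 V), P.card = q + 1 ∧
      ∀ e ∈ P, ∃ x ∈ grp Y h j, ∃ y ∈ grp Y h j, x ≠ y ∧ ¬ G.Adj x y ∧ e = s(x, y) := by
    intro j hj
    exact exists_pairs G (hcon (grp Y h j) (Finset.filter_subset _ _) (hFk j hj))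
  choose! P hPc hPe using hpairs
  obtain ⟨i0, hi0⟩ : I.Nonempty := Finset.card_pos.1 (by omega)
  have hdom : ∀ j, ∀ e, j ∈ Full → e ∈ P j → ∃ x y τ : V, x ∈ grp Y h j ∧ y ∈ grp Y h j ∧
      e = s(x, y) ∧ τ ∈ I ∧ τ ≠ j ∧
      ((grp Y h τ).filter (fun u => ¬ G.Adj x u ∧ ¬ G.Adj y u)).card ≤ Λ := by
    intro j e hj he
    obtain ⟨x, hx, y, hy, hxy, hna, hexy⟩ := hPe j hj e he
    obtain ⟨hx1, hx2⟩ := mem_filter.1 hx
    obtain ⟨hy1, hy2⟩ := mem_filter.1 hy
    obtain ⟨τ, hτ, hτj, hc⟩ := hP2 x hx1 y hy1 hxy hna (by rw [hx2, hy2])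
    refine ⟨x, y, τ, hx, hy, hexy, hτ, by rw [← hx2]; exact hτj, ?_⟩
    unfold grp
    rw [Finset.filter_filter]
    exact hc
  haveI : Nonempty V := ⟨i0⟩
  choose! ex ey τ hex hey hexy hτI hτj hτc using hdom
  -- data
  set H : V → V → Finset (Sym2 V) := fun i j => (P j).filter (fun e => τ j e = i) with hH
  set J : V → Finset V := fun i => Full.filter (fun j => (H i j).Nonempty) with hJ
  set W' : V → Finset V := fun j => (P j).biUnion (fun e => {ex j e, ey j e}) with hW'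
  set W : V → V → Finset V := fun i j => (H i j).biUnion (fun e => {ex j e, ey j e}) with hW
  have hHP : ∀ i j, H i j ⊆ P j := fun i j => Finset.filter_subset _ _
  have hWW' : ∀ i j, W i j ⊆ W' j := fun i j => Finset.biUnion_subset_biUnion_of_subset_left _
    (hHP i j)
  have hW'g : ∀ j ∈ Full, W' j ⊆ grp Y h j := by
    intro j hj v hv
    obtain ⟨e, he, hv⟩ := mem_biUnion.1 hv
    rw [mem_insert, mem_singleton] at hv
    rcases hv with rfl | rfl
    · exact hex j e hj he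
    · exact hey j e hj he
  have hW'c : ∀ j ∈ Full, (W' j).card ≤ 2 * (q + 1) := by
    intro j hj
    have h1 : (W' j).card ≤ (P j).card * 2 :=
      Finset.card_biUnion_le_card_mul _ _ _ fun _ _ => Finset.card_le_two
    rw [hPc j hj] at h1
    omega
  have hJF : ∀ i, J i ⊆ Full := fun i => Finset.filter_subset _ _
  have hiJ : ∀ i, i ∉ J i := by
    intro i hi
    obtain ⟨h1, e, he⟩ := mem_filter.1 hi
    obtain ⟨h2, h3⟩ := mem_filter.1 he
    exact hτj i e h1 h2 h3
  -- load bounds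
  have hload : ∀ i ∈ I, ∀ j ∈ J i, _ := fun i hi j hj =>
    load_int G (k := k) (t := t) (q := q) (Λ := Λ) (Y := Y) (h := h) (i := i) (W := W i j)
      (H := H i j) (mem_filter.1 hj).2
      ((Finset.card_le_card (hHP i j)).trans (hPc j (hJF i hj)).le)
      (by
        intro e he v hv
        rw [hexy j e (hJF i hj) (hHP i j he), Sym2.mem_iff] at hv
        refine mem_biUnion.2 ⟨e, he, ?_⟩
        rw [mem_insert, mem_singleton]
        exact hv)
      (by
        intro e he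
        refine ⟨ex j e, ey j e, hexy j e (hJF i hj) (hHP i j he), ?_⟩
        have h1 := hτc j e (hJF i hj) (hHP i j he)
        rwa [(mem_filter.1 he).2] at h1)
      (hle i hi) (hgt i hi)
  set L : V → V → ℤ := fun i j => ((∑ v ∈ W i j, dj G Y h v i : ℕ) : ℤ) with hL
  set ε0 : ℤ := 4 * ((q : ℤ) + 1) * (t + (q + 1) * Λ) with hε0
  -- star predicate and centres
  set st : V → V → Prop := fun i j => ∃ c ∈ W i j, (k : ℤ) * (((H i j).card : ℤ) - 1) ≤
    (q : ℤ) * ((2 * dj G Y h c i - k : ℕ) : ℤ) + (2 * L i j - 2 * k) + ε0 ∧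
    0 ≤ (2 * L i j - 2 * k) + ε0 with hst
  have hload' : ∀ i ∈ I, ∀ j ∈ J i, st i j ∨ 2 * (k : ℤ) ≤ (2 * L i j - 2 * k) + ε0 := hload
  have hcent : ∀ i j, ∃ c, st i j → c ∈ W i j ∧ (k : ℤ) * (((H i j).card : ℤ) - 1) ≤
    (q : ℤ) * ((2 * dj G Y h c i - k : ℕ) : ℤ) + (2 * L i j - 2 * k) + ε0 ∧
    0 ≤ (2 * L i j - 2 * k) + ε0 := by
    intro i j
    by_cases h1 : st i j
    · obtain ⟨c, hc1, hc2⟩ := h1
      exact ⟨c, fun _ => ⟨hc1, hc2⟩⟩
    · exact ⟨i0, fun h2 => absurd h2 h1⟩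
  choose cen hcen using hcent
  set x : V → V → ℤ := fun i j => ((H i j).card : ℤ) - 1 with hx
  set o : V → V → ℤ := fun i j => if st i j then ((2 * dj G Y h (cen i j) i - k : ℕ) : ℤ) else 0
    with ho
  set E : V → V → ℤ := fun i j => 2 * L i j - 2 * k with hE
  set ε : ℤ := ((c1 * Λ + c2 : ℕ) : ℤ) with hε
  have hε0ε : ε0 ≤ ε := by
    rw [hε, hε0, hc1, hc2]
    push_cast
    have e1 : (0 : ℤ) ≤ 2 * ((a * (2 * (q + 1))) * (a * (2 * (q + 1)))) := by positivity
    have e2 : (0 : ℤ) ≤ (Λ : ℤ) := Int.natCast_nonneg _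
    have e3 : (0 : ℤ) ≤ (a : ℤ) := Int.natCast_nonneg _
    nlinarith
  have hk0 : (0 : ℤ) ≤ k := Int.natCast_nonneg _
  have hx0 : ∀ i ∈ I, ∀ j ∈ J i, 0 ≤ x i j := by
    intro i _ j hj
    have h1 : 1 ≤ (H i j).card := Finset.card_pos.2 (mem_filter.1 hj).2
    have h2 : (1 : ℤ) ≤ (H i j).card := by exact_mod_cast h1
    simp only [hx]
    linarith
  have hxq : ∀ i ∈ I, ∀ j ∈ J i, x i j ≤ q := by
    intro i _ j hj
    have h1 := (Finset.card_le_card (hHP i j)).trans (hPc j (hJF i hj)).le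
    have h2 : ((H i j).card : ℤ) ≤ q + 1 := by exact_mod_cast h1
    simp only [hx]
    linarith
  have ho0 : ∀ i ∈ I, ∀ j ∈ J i, 0 ≤ o i j := by
    intro i _ j _
    simp only [ho]
    split_ifs
    · exact Int.natCast_nonneg _
    · exact le_refl _
  have hstar : ∀ i ∈ I, ∀ j ∈ J i, st i j → (k : ℤ) * x i j ≤ q * o i j + E i j + ε := by
    intro i _ j _ h1
    have h2 := (hcen i j h1).2.1
    have h3 : o i j = ((2 * dj G Y h (cen i j) i - k : ℕ) : ℤ) := by
      simp only [ho]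
      rw [if_pos h1]
    rw [h3]
    linarith
  have hnst : ∀ i ∈ I, ∀ j ∈ J i, ¬ st i j → 2 * (k : ℤ) ≤ E i j + ε := by
    intro i hi j hj h1
    rcases hload' i hi j hj with h2 | h2
    · exact absurd h2 h1
    · linarith
  have hE0 : ∀ i ∈ I, ∀ j ∈ J i, 0 ≤ E i j + ε := by
    intro i hi j hj
    by_cases h1 : st i j
    · have h2 := (hcen i j h1).2.2
      linarith
    · have h2 := hnst i hi j hj h1
      linarith
  -- overload
  have hso : ∀ i ∈ I, ∑ j ∈ J i, o i j ≤ k * ((k - (grp Y h i).card : ℕ) : ℤ) + ε := by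
    intro i hi
    set J' := (J i).filter (fun j => st i j ∧ k ≤ 2 * dj G Y h (cen i j) i) with hJ'
    have hJJ : J' ⊆ J i := Finset.filter_subset _ _
    have h1 : ∑ j ∈ J i, o i j = ∑ j ∈ J', ((2 * dj G Y h (cen i j) i - k : ℕ) : ℤ) := by
      rw [hJ', Finset.sum_filter (s := J i)]
      refine Finset.sum_congr rfl fun j _ => ?_
      simp only [ho]
      by_cases h2 : st i j
      · by_cases h3 : k ≤ 2 * dj G Y h (cen i j) i
        · rw [if_pos h2, if_pos ⟨h2, h3⟩]
        · rw [if_pos h2, if_neg (fun h4 => h3 h4.2)]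
          have : 2 * dj G Y h (cen i j) i - k = 0 := by omega
          rw [this]
          rfl
      · rw [if_neg h2, if_neg (fun h4 => h2 h4.1)]
    have h2 := overload_one G hS (hle i hi) (hge i hi) J' (fun j => cen i j) (by
      intro j hj
      obtain ⟨h3, h4, _⟩ := mem_filter.1 hj
      refine ⟨hW'g j (hJF i h3) (hWW' i j (hcen i j h4).1), ?_⟩
      rintro rfl
      exact hiJ _ h3) (by
      intro j hj
      exact (mem_filter.1 hj).2.2)
    have h3 : J'.card ≤ a := by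
      rw [← hIc]
      exact Finset.card_le_card ((hJJ.trans (hJF i)).trans hFullI)
    have h4 := (m2_grp_le G Y h i).trans hP1'
    have h5 : ∑ j ∈ J', (2 * dj G Y h (cen i j) i - k) ≤
        k * (k - (grp Y h i).card) + (c1 * Λ + c2) := by
      have e1 : 2 * Λ ≤ c1 * Λ := Nat.mul_le_mul_right _ (by omega)
      have e2 : a ≤ c2 := by
        rw [hc2]
        omega
      omega
    rw [h1, hε]
    exact_mod_cast h5
  -- local budget
  have hsE : ∀ i ∈ I, ∑ j ∈ J i, E i j ≤ k * ((k - (grp Y h i).card : ℕ) : ℤ) + ε := by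
    intro i hi
    have h1 := local_load G (k := k) (Λ := Λ) (Y := Y) (I := I) (Full := Full) (J := J i) (h := h)
      (i := i) hS ((hJF i).trans hFullI) hi (hiJ i) (fun j hj => hFk j (hJF i hj)) hle hge hP1'
      (W i) (fun j hj => (hWW' i j).trans (hW'g j (hJF i hj)))
    have h2 : ∑ j ∈ J i, E i j = 2 * ((∑ j ∈ J i, ∑ v ∈ W i j, dj G Y h v i : ℕ) : ℤ) -
        2 * k * (J i).card := by
      simp only [hE, hL]
      rw [Finset.sum_sub_distrib, ← Finset.mul_sum, Finset.sum_const, nsmul_eq_mul]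
      push_cast
      ring
    have h3 : 2 * ((∑ j ∈ J i, ∑ v ∈ W i j, dj G Y h v i : ℕ) : ℤ) ≤
        2 * k * (J i).card + k * ((k - (grp Y h i).card : ℕ) : ℤ) + 2 * Λ := by
      exact_mod_cast h1
    have h4 : (2 * Λ : ℤ) ≤ ε := by
      have e1 : 2 * Λ ≤ c1 * Λ + c2 := by
        have := Nat.mul_le_mul_right Λ (show 2 ≤ c1 by omega)
        omega
      rw [hε]
      exact_mod_cast e1
    rw [h2]
    linarith
  -- counting
  have hcount : ∑ i ∈ I, ∑ j ∈ J i, (x i j + 1) = ((q : ℤ) + 1) * Full.card := by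
    have h1 : ∀ i ∈ I, ∑ j ∈ J i, (x i j + 1) = ∑ j ∈ Full, ((H i j).card : ℤ) := by
      intro i _
      rw [hJ]
      simp only [hx, sub_add_cancel]
      rw [Finset.sum_filter]
      refine Finset.sum_congr rfl fun j _ => ?_
      split_ifs with h2
      · rfl
      · rw [Finset.not_nonempty_iff_eq_empty] at h2
        rw [h2]
        rfl
    rw [Finset.sum_congr rfl h1, Finset.sum_comm]
    have h2 : ∀ j ∈ Full, ∑ i ∈ I, ((H i j).card : ℤ) = (q : ℤ) + 1 := by
      intro j hj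
      have h3 := Finset.card_eq_sum_card_fiberwise (s := P j) (t := I) (f := τ j)
        (fun e he => hτI j e hj he)
      rw [hPc j hj] at h3
      exact_mod_cast h3.symm
    rw [Finset.sum_congr rfl h2, Finset.sum_const, nsmul_eq_mul]
    ring
  -- global budget
  have hbud : ∑ i ∈ I, ∑ j ∈ J i, (2 * (k : ℤ) + E i j) ≤
      2 * k * ((a : ℤ) - 1) + k * t + ε := by
    have h1 := global_load G (k := k) (t := t) (Λ := Λ) (a := a) (w := 2 * (q + 1)) (Y := Y)
      (I := I) (Full := Full) (h := h) hS hI hIc (by omega) hFullI hle hge hP1' hdef W' hW'g hW'c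
    have h2 : ∑ i ∈ I, ∑ j ∈ J i, (2 * (k : ℤ) + E i j) =
        2 * ((∑ i ∈ I, ∑ j ∈ J i, ∑ v ∈ W i j, dj G Y h v i : ℕ) : ℤ) := by
      simp only [hE, hL]
      push_cast
      rw [Finset.mul_sum]
      refine Finset.sum_congr rfl fun i _ => ?_
      rw [Finset.mul_sum]
      refine Finset.sum_congr rfl fun j _ => ?_
      ring
    have h3 : ∑ i ∈ I, ∑ j ∈ J i, ∑ v ∈ W i j, dj G Y h v i ≤
        ∑ i ∈ I, ∑ j ∈ Full.filter (fun j => j ≠ i), ∑ v ∈ W' j, dj G Y h v i := by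
      refine Finset.sum_le_sum fun i _ => ?_
      have h4 : J i ⊆ Full.filter (fun j => j ≠ i) := by
        intro j hj
        refine mem_filter.2 ⟨hJF i hj, ?_⟩
        rintro rfl
        exact hiJ _ hj
      refine (Finset.sum_le_sum fun j _ => Finset.sum_le_sum_of_subset (hWW' i j)).trans ?_
      exact Finset.sum_le_sum_of_subset h4
    have h4 : 2 * (∑ i ∈ I, ∑ j ∈ J i, ∑ v ∈ W i j, dj G Y h v i) + 2 * k ≤
        2 * k * a + k * t + (c1 * Λ + c2) := by
      have e1 : 2 * Λ ≤ c1 * Λ := Nat.mul_le_mul_right _ (by omega)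
      have e2 : 2 * ((a * (2 * (q + 1))) * (a * (2 * (q + 1)))) ≤ c2 := by
        rw [hc2]
        omega
      omega
    have h5 : 2 * ((∑ i ∈ I, ∑ j ∈ J i, ∑ v ∈ W i j, dj G Y h v i : ℕ) : ℤ) + 2 * k ≤
        2 * k * a + k * t + ε := by
      rw [hε]
      exact_mod_cast h4
    rw [h2]
    linarith
  have hεk' : ((2 : ℤ) + a * (3 * q + 1) + a * (a * (q + 2)) + a) * ε < k := by
    rw [hε, hM1] at *
    exact_mod_cast hεk
  have hε00 : 0 ≤ ε := by rw [hε]; exact Int.natCast_nonneg _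
  have hdt : ∑ i ∈ I, ((k - (grp Y h i).card : ℕ) : ℤ) = t := by exact_mod_cast hdef
  refine account I Full J (fun i => ((k - (grp Y h i).card : ℕ) : ℤ)) x o E st a k t q ε
    (by exact_mod_cast hIc) hk0 (Int.natCast_nonneg _) hε00 (fun i _ => Int.natCast_nonneg _) hdt
    hFull (fun i _ => ?_) hx0 hxq ho0 hE0 hstar hnst hso hsE hcount hbud
    (by exact_mod_cast hqt) ?_ ?_
  · have : (J i).card ≤ a := by
      rw [← hIc]
      exact Finset.card_le_card ((hJF i).trans hFullI)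
    exact_mod_cast this
  · have e1 : (0 : ℤ) ≤ (1 + a * (3 * q + 1) + a * (a * (q + 2))) * ε := by positivity
    nlinarith
  · have e1 : (0 : ℤ) ≤ (1 + a) * ε := by positivity
    nlinarith

end Pool.Agent.TwoDens
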