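import Pool.Agent.TwoDens.Struct

/-!
Weighted Caro-Wei bound (greedy form) and an independent set of `s` vertices with small degree sum.
-/

open Finset

namespace Pool.Agent.TwoDens

variable {V : Type*} [DecidableEq V] (G : SimpleGraph V) [DecidableRel G.Adj]

/-- weighted Caro-Wei -/
theorem cw (w : V → ℚ) : ∀ (n : ℕ) (X : Finset V), X.card ≤ n → (∀ v ∈ X, 0 ≤ w v) →
    ∃ I ⊆ X, G.IsIndepSet (I : Set V) ∧
      ∑ v ∈ X, w v / ((dg G X v : ℚ) + 1) ≤ ∑ v ∈ I, w v := by
  intro n
  induction n with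
  | zero =>
    intro X hX _
    have : X = ∅ := Finset.card_eq_zero.1 (by omega)
    subst this
    exact ⟨∅, subset_rfl, by simp [SimpleGraph.IsIndepSet], by simp⟩
  | succ n ih =>
    intro X hX hw
    rcases Finset.eq_empty_or_nonempty X with rfl | hne
    · exact ⟨∅, subset_rfl, by simp [SimpleGraph.IsIndepSet], by simp⟩
    obtain ⟨v, hv, hmax⟩ := Finset.exists_max_image X (fun v => w v / ((dg G X v : ℚ) + 1)) hne
    set D : Finset V := insert v (X.filter (G.Adj v)) with hD
    have hDX : D ⊆ X := Finset.insert_subset hv (Finset.filter_subset _ _)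
    have hDc : D.card = dg G X v + 1 := by
      rw [hD, Finset.card_insert_of_notMem]
      · rfl
      · rw [mem_filter]
        exact fun h => G.loopless.irrefl v h.2
    set X' := X \ D with hX'
    have hX'X : X' ⊆ X := Finset.sdiff_subset
    have hcard : X'.card ≤ n := by
      have h1 : X'.card + D.card = X.card := by
        rw [hX', Finset.card_sdiff_add_card_eq_card hDX]
      omega
    obtain ⟨I, hI, hind, hsum⟩ := ih X' hcard (fun u hu => hw u (hX'X hu))
    have hvI : v ∉ I := fun h => by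
      have := hI h
      rw [hX', mem_sdiff] at this
      exact this.2 (mem_insert_self _ _)
    have hnadj : ∀ u ∈ I, ¬ G.Adj v u := by
      intro u hu h
      have h1 := hI hu
      rw [hX', mem_sdiff] at h1
      exact h1.2 (mem_insert_of_mem (mem_filter.2 ⟨h1.1, h⟩))
    refine ⟨insert v I, Finset.insert_subset hv (hI.trans hX'X), ?_, ?_⟩
    · intro x hx y hy hxy
      rw [Finset.mem_coe, mem_insert] at hx hy
      rcases hx with rfl | hx <;> rcases hy with rfl | hy
      · exact absurd rfl hxy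
      · exact hnadj y hy
      · exact fun h => hnadj x hx h.symm
      · exact hind hx hy hxy
    · rw [Finset.sum_insert hvI, ← Finset.sum_sdiff hDX, add_comm]
      refine add_le_add ?_ ?_
      · have h1 : ∑ u ∈ D, w u / ((dg G X u : ℚ) + 1) ≤
            D.card • (w v / ((dg G X v : ℚ) + 1)) := by
          refine Finset.sum_le_card_nsmul _ _ _ ?_
          intro u hu
          exact hmax u (hDX hu)
        refine h1.trans ?_
        rw [hDc, nsmul_eq_mul]
        have h2 : ((dg G X v : ℚ) + 1) ≠ 0 := by positivity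
        push_cast
        rw [mul_div_cancel₀ _ h2]
      · refine le_trans ?_ hsum
        refine Finset.sum_le_sum ?_
        intro u hu
        have h3 : (dg G X' u : ℚ) ≤ dg G X u := by
          unfold dg
          exact_mod_cast Finset.card_le_card (Finset.filter_subset_filter _ hX'X)
        exact div_le_div_of_nonneg_left (hw u (hX'X hu)) (by positivity) (by linarith)

/-- an independent set of `s` vertices with small degree sum -/
theorem exists_lowI {s k : ℕ} {X : Finset V} (hs : 1 ≤ s) (hk : 4 * s ≤ k) (hal : Al G s X)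
    (hcard : X.card = k * s) (hdeg : ∀ v ∈ X, k ≤ dg G X v)
    (hsum : ∑ v ∈ X, dg G X v ≤ (k + 1) * (k * s)) :
    ∃ I ⊆ X, G.IsIndepSet (I : Set V) ∧ I.card = s ∧ ∑ v ∈ I, dg G X v ≤ k * s + 2 * s := by
  classical
  set A : ℚ := 2 * (s : ℚ) + 1 with hA
  have hkq : (0 : ℚ) < k := by
    have : 0 < k := by omega
    exact_mod_cast this
  have hsq : (1 : ℚ) ≤ s := by exact_mod_cast hs
  have hk4 : 4 * (s : ℚ) ≤ k := by exact_mod_cast hk
  let w : V → ℚ := fun v => max (A + k - dg G X v) 0
  obtain ⟨I, hIX, hind, hIw⟩ := cw G w X.card X le_rfl (fun v _ => le_max_right _ _)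
  -- lower bound of the left side
  have hlow : (X.card : ℚ) * (A - 1) / (k + 2) ≤ ∑ v ∈ X, w v / ((dg G X v : ℚ) + 1) := by
    have hpt : ∀ v ∈ X, (A - 1) / (k + 2) -
        (A + k + 1) / (k + 2) ^ 2 * ((dg G X v : ℚ) - k - 1) ≤ w v / ((dg G X v : ℚ) + 1) := by
      intro v hv
      have hd : (k : ℚ) ≤ dg G X v := by exact_mod_cast hdeg v hv
      set d : ℚ := (dg G X v : ℚ) with hdd
      have h1 : (A + k - d) / (d + 1) ≤ w v / (d + 1) :=
        div_le_div_of_nonneg_right (le_max_left _ _) (by linarith)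
      refine le_trans ?_ h1
      have hd1 : (0 : ℚ) < d + 1 := by linarith
      have hk2 : (0 : ℚ) < (k : ℚ) + 2 := by linarith
      have hid : (A + k - d) / (d + 1) - ((A - 1) / (k + 2) -
          (A + k + 1) / (k + 2) ^ 2 * (d - k - 1)) =
          (A + k + 1) * (d - k - 1) ^ 2 / ((k + 2) ^ 2 * (d + 1)) := by
        field_simp
        ring
      have hpos : 0 ≤ (A + k + 1) * (d - k - 1) ^ 2 / ((k + 2) ^ 2 * (d + 1)) := by
        have : 0 ≤ A + k + 1 := by rw [hA]; linarith
        positivity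
      linarith
    have h2 := Finset.sum_le_sum hpt
    rw [Finset.sum_sub_distrib, Finset.sum_const, nsmul_eq_mul, ← Finset.mul_sum] at h2
    have h3 : ∑ v ∈ X, ((dg G X v : ℚ) - k - 1) ≤ 0 := by
      have h4 : ((∑ v ∈ X, dg G X v : ℕ) : ℚ) ≤ (k + 1) * X.card := by
        rw [hcard]
        exact_mod_cast hsum
      rw [Finset.sum_sub_distrib, Finset.sum_sub_distrib, Finset.sum_const, Finset.sum_const,
        nsmul_eq_mul, nsmul_eq_mul]
      push_cast at h4
      linarith
    have h5 : (A + k + 1) / (k + 2) ^ 2 * ∑ v ∈ X, ((dg G X v : ℚ) - k - 1) ≤ 0 := by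
      refine mul_nonpos_of_nonneg_of_nonpos ?_ h3
      have : 0 ≤ A + k + 1 := by rw [hA]; linarith
      positivity
    have h6 : (X.card : ℚ) * (A - 1) / (k + 2) = X.card * ((A - 1) / (k + 2)) := by ring
    rw [h6]
    linarith
  have hX : (X.card : ℚ) = k * s := by exact_mod_cast hcard
  have hIc : I.card ≤ s := hal I hIX hind
  have hwle : ∀ v ∈ I, w v ≤ A := by
    intro v hv
    refine max_le ?_ (by rw [hA]; linarith)
    have : (k : ℚ) ≤ dg G X v := by exact_mod_cast hdeg v (hIX hv)
    linarith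
  have hmain : (k * s : ℚ) * (2 * s) / (k + 2) ≤ ∑ v ∈ I, w v := by
    have : (k * s : ℚ) * (2 * s) = (X.card : ℚ) * (A - 1) := by rw [hX, hA]; ring
    rw [this]
    exact hlow.trans hIw
  have hk2 : (0 : ℚ) < (k : ℚ) + 2 := by linarith
  rw [div_le_iff₀ hk2] at hmain
  -- every vertex of `I` has positive weight
  have key : ∀ J ⊆ I, (∑ v ∈ I, w v ≤ ∑ v ∈ J, w v) → s ≤ J.card := by
    intro J hJ hle
    by_contra hcon
    push Not at hcon
    have h1 : ∑ v ∈ J, w v ≤ J.card • A := Finset.sum_le_card_nsmul _ _ _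
      (fun v hv => hwle v (hJ hv))
    have h2 : (J.card : ℚ) ≤ s - 1 := by
      have : J.card + 1 ≤ s := hcon
      have : ((J.card : ℚ)) + 1 ≤ s := by exact_mod_cast this
      linarith
    rw [nsmul_eq_mul] at h1
    have h3 : ∑ v ∈ I, w v ≤ (s - 1) * A := by
      have hA0 : 0 ≤ A := by rw [hA]; linarith
      calc ∑ v ∈ I, w v ≤ (J.card : ℚ) * A := hle.trans h1
        _ ≤ (s - 1) * A := mul_le_mul_of_nonneg_right h2 hA0
    have h4 : (k * s : ℚ) * (2 * s) ≤ (s - 1) * A * (k + 2) :=
      hmain.trans (mul_le_mul_of_nonneg_right h3 hk2.le)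
    rw [hA] at h4
    nlinarith
  have hcardI : I.card = s := le_antisymm hIc (key I subset_rfl le_rfl)
  have hpos : ∀ v ∈ I, w v = A + k - dg G X v := by
    intro v hv
    by_contra hne
    have h0 : w v = 0 := by
      rcases max_choice (A + k - dg G X v) (0 : ℚ) with h | h
      · exact absurd h hne
      · exact h
    have h1 : ∑ u ∈ I, w u ≤ ∑ u ∈ I.erase v, w u := by
      rw [← Finset.add_sum_erase _ _ hv, h0, zero_add]
    have h2 := key _ (Finset.erase_subset _ _) h1
    rw [Finset.card_erase_of_mem hv] at h2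
    omega
  refine ⟨I, hIX, hind, hcardI, ?_⟩
  have h1 : ∑ v ∈ I, w v = s * (A + k) - ((∑ v ∈ I, dg G X v : ℕ) : ℚ) := by
    rw [Finset.sum_congr rfl hpos, Finset.sum_sub_distrib, Finset.sum_const, nsmul_eq_mul, hcardI]
    push_cast
    ring
  rw [h1, hA] at hmain
  have h2 : ((∑ v ∈ I, dg G X v : ℕ) : ℚ) ≤ k * s + 2 * s := by
    by_contra hcon
    push Not at hcon
    have h3 : (s : ℚ) * (2 * s + 1 + k) - ((∑ v ∈ I, dg G X v : ℕ) : ℚ) <
        s * (2 * s + 1 + k) - (k * s + 2 * s) := by linarith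
    have h4 := mul_lt_mul_of_pos_right h3 hk2
    nlinarith
  exact_mod_cast h2

end Pool.Agent.TwoDens
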