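import Pool.Agent.TwoDens.LinA

/-!
A family of `s` disjoint cliques covering all but `3 s` vertices, locally maximal.
-/

open Finset

namespace Pool.Agent.TwoDens

variable {V : Type*} [DecidableEq V] (G : SimpleGraph V) [DecidableRel G.Adj]

/-- a family of disjoint cliques -/
structure Fam0 (X : Finset V) {s : ℕ} (Q : Fin s → Finset V) : Prop where
  sub : ∀ i, Q i ⊆ X
  disj : ∀ i j, i ≠ j → Disjoint (Q i) (Q j)
  clq : ∀ i, ∀ u ∈ Q i, ∀ v ∈ Q i, u ≠ v → G.Adj u v

/-- a family of disjoint cliques in which no clique can be exchanged for a larger one -/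
structure Fam (X : Finset V) {s : ℕ} (Q : Fin s → Finset V) : Prop extends Fam0 G X Q where
  max : ∀ i, ∀ C ⊆ X, (∀ u ∈ C, ∀ v ∈ C, u ≠ v → G.Adj u v) →
    (∀ j, j ≠ i → Disjoint C (Q j)) → C.card ≤ (Q i).card

theorem fam_of_I {s k : ℕ} {X I : Finset V} (hal : Al G s X) (hcard : X.card = k * s)
    (hIX : I ⊆ X) (hind : G.IsIndepSet (I : Set V)) (hI : I.card = s)
    (hsum : ∑ v ∈ I, dg G X v ≤ k * s + 2 * s) :
    ∃ Q : Fin s → Finset V, Fam0 G X Q ∧ X.card ≤ (∑ i, (Q i).card) + 3 * s := by
  classical
  let N : V → Finset V := fun u => I.filter (fun j => j = u ∨ G.Adj j u)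
  have hdom : ∀ v ∈ X, 1 ≤ (N v).card := by
    intro v hv
    by_contra hcon
    have h0 : N v = ∅ := Finset.card_eq_zero.1 (by omega)
    have hno : ∀ i ∈ I, ¬ (i = v ∨ G.Adj i v) := by
      intro i hi h
      have : i ∈ N v := mem_filter.2 ⟨hi, h⟩
      rw [h0] at this
      exact absurd this (Finset.notMem_empty _)
    have hvI : v ∉ I := fun h => hno v h (Or.inl rfl)
    have hins : G.IsIndepSet ((insert v I : Finset V) : Set V) := by
      intro x hx y hy hxy
      rw [Finset.mem_coe, mem_insert] at hx hy
      rcases hx with rfl | hx <;> rcases hy with rfl | hy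
      · exact absurd rfl hxy
      · exact fun h => hno y hy (Or.inr h.symm)
      · exact fun h => hno x hx (Or.inr h)
      · exact hind hx hy hxy
    have := hal (insert v I) (Finset.insert_subset hv hIX) hins
    rw [Finset.card_insert_of_notMem hvI] at this
    omega
  have hcntsum : ∑ v ∈ X, (N v).card ≤ k * s + 3 * s := by
    have h1 : ∑ v ∈ X, (N v).card = ∑ i ∈ I, (X.filter (fun v => i = v ∨ G.Adj i v)).card := by
      simp only [N, Finset.card_filter]
      exact Finset.sum_comm
    rw [h1]
    have h3 : ∀ i ∈ I, (X.filter (fun v => i = v ∨ G.Adj i v)).card ≤ dg G X i + 1 := by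
      intro i hi
      have h2 : X.filter (fun v => i = v ∨ G.Adj i v) ⊆ insert i (X.filter (G.Adj i)) := by
        intro v hv
        rw [mem_filter] at hv
        rw [mem_insert, mem_filter]
        rcases hv.2 with h | h
        · exact Or.inl h.symm
        · exact Or.inr ⟨hv.1, h⟩
      exact (Finset.card_le_card h2).trans (Finset.card_insert_le _ _)
    refine (Finset.sum_le_sum h3).trans ?_
    rw [Finset.sum_add_distrib, Finset.sum_const, smul_eq_mul, mul_one, hI]
    omega
  let e : I ≃ Fin s := I.equivFinOfCardEq hI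
  let c : Fin s → V := fun i => ((e.symm i : I) : V)
  have hcI : ∀ i, c i ∈ I := fun i => (e.symm i).2
  have hcinj : ∀ i j, c i = c j → i = j := by
    intro i j h
    exact e.symm.injective (Subtype.ext h)
  have hcsurj : ∀ v ∈ I, ∃ i, c i = v := by
    intro v hv
    exact ⟨e ⟨v, hv⟩, by simp [c]⟩
  let Q : Fin s → Finset V := fun i => X.filter (fun u => N u = {c i})
  refine ⟨Q, ⟨fun i => Finset.filter_subset _ _, ?_, ?_⟩, ?_⟩
  · intro i j hij
    rw [Finset.disjoint_left]
    intro v h1 h2
    have h3 := (mem_filter.1 h1).2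
    have h4 := (mem_filter.1 h2).2
    rw [h3] at h4
    exact hij (hcinj i j (Finset.singleton_injective h4))
  · intro i u hu v hv huv
    by_contra hna
    rw [mem_filter] at hu hv
    have hno : ∀ x, N x = {c i} → ∀ j ∈ I.erase (c i), ¬ (j = x ∨ G.Adj j x) := by
      intro x hx j hj h
      rw [mem_erase] at hj
      have : j ∈ N x := mem_filter.2 ⟨hj.2, h⟩
      rw [hx, mem_singleton] at this
      exact hj.1 this
    have hnu := hno u hu.2
    have hnv := hno v hv.2
    have hins : G.IsIndepSet ((insert u (insert v (I.erase (c i))) : Finset V) : Set V) := by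
      intro p hp q hq hpq
      rw [Finset.mem_coe, mem_insert, mem_insert] at hp hq
      rcases hp with rfl | rfl | hp <;> rcases hq with rfl | rfl | hq
      · exact absurd rfl hpq
      · exact hna
      · exact fun h => hnu q hq (Or.inr h.symm)
      · exact fun h => hna h.symm
      · exact absurd rfl hpq
      · exact fun h => hnv q hq (Or.inr h.symm)
      · exact fun h => hnu p hp (Or.inr h)
      · exact fun h => hnv p hp (Or.inr h)
      · exact hind (mem_of_mem_erase hp) (mem_of_mem_erase hq) hpq
    have h1 := hal _ (Finset.insert_subset hu.1 (Finset.insert_subset hv.1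
      ((Finset.erase_subset _ _).trans hIX))) hins
    have h2 : v ∉ I.erase (c i) := fun h => hnv v h (Or.inl rfl)
    have h3 : u ∉ insert v (I.erase (c i)) := by
      rw [mem_insert]
      rintro (h | h)
      · exact huv h
      · exact hnu u h (Or.inl rfl)
    rw [Finset.card_insert_of_notMem h3, Finset.card_insert_of_notMem h2,
      Finset.card_erase_of_mem (hcI i)] at h1
    have := Finset.card_pos.2 ⟨_, hcI i⟩
    omega
  · let O := X.filter (fun v => 1 < (N v).card)
    have hOcard : O.card ≤ 3 * s := by
      have h1 : X.card + O.card ≤ ∑ v ∈ X, (N v).card := by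
        have h2 : X.card + O.card = ∑ v ∈ X, (1 + if 1 < (N v).card then 1 else 0) := by
          rw [Finset.sum_add_distrib, Finset.sum_const, smul_eq_mul, mul_one, Finset.card_filter]
        rw [h2]
        refine Finset.sum_le_sum ?_
        intro v hv
        have := hdom v hv
        split_ifs <;> omega
      omega
    have hcov : X ⊆ (Finset.univ.biUnion Q) ∪ O := by
      intro v hv
      rw [mem_union]
      by_cases h : 1 < (N v).card
      · exact Or.inr (mem_filter.2 ⟨hv, h⟩)
      · left
        have h1 : (N v).card = 1 := by have := hdom v hv; omega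
        obtain ⟨j, hj⟩ := Finset.card_eq_one.1 h1
        have hjI : j ∈ I := by
          have : j ∈ N v := by rw [hj]; exact mem_singleton_self _
          exact (mem_filter.1 this).1
        obtain ⟨i, rfl⟩ := hcsurj j hjI
        exact mem_biUnion.2 ⟨i, mem_univ _, mem_filter.2 ⟨hv, hj⟩⟩
    have h2 := (Finset.card_le_card hcov).trans (Finset.card_union_le _ _)
    have h3 : (Finset.univ.biUnion Q).card ≤ ∑ i, (Q i).card := Finset.card_biUnion_le
    omega

/-- existence of a locally maximal family -/
theorem exists_fam {s k : ℕ} {X : Finset V} (hs : 1 ≤ s) (hk : 4 * s ≤ k) (hal : Al G s X)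
    (hcard : X.card = k * s) (hdeg : ∀ v ∈ X, k ≤ dg G X v)
    (hsum : ∑ v ∈ X, dg G X v ≤ (k + 1) * (k * s)) :
    ∃ Q : Fin s → Finset V, Fam G X Q ∧ X.card ≤ (∑ i, (Q i).card) + 3 * s := by
  classical
  obtain ⟨I, hIX, hind, hI, hIs⟩ := exists_lowI G hs hk hal hcard hdeg hsum
  obtain ⟨Q0, hQ0, hQ0c⟩ := fam_of_I G hal hcard hIX hind hI hIs
  let F := (Fintype.piFinset (fun _ : Fin s => X.powerset)).filter (fun Q => Fam0 G X Q)
  have hQ0F : Q0 ∈ F := by
    rw [mem_filter, Fintype.mem_piFinset]
    exact ⟨fun i => mem_powerset.2 (hQ0.sub i), hQ0⟩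
  obtain ⟨Q, hQF, hmax⟩ := Finset.exists_max_image F (fun Q => ∑ i, (Q i).card) ⟨Q0, hQ0F⟩
  have hQ := (mem_filter.1 hQF).2
  refine ⟨Q, ⟨hQ, ?_⟩, ?_⟩
  · intro i C hCX hC hCd
    have hf : Fam0 G X (Function.update Q i C) := by
      refine ⟨?_, ?_, ?_⟩
      · intro j
        by_cases hj : j = i
        · subst hj; simpa using hCX
        · rw [Function.update_of_ne hj]; exact hQ.sub j
      · intro j l hjl
        by_cases hj : j = i
        · subst hj
          rw [Function.update_self, Function.update_of_ne (Ne.symm hjl)]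
          exact hCd l (Ne.symm hjl)
        · rw [Function.update_of_ne hj]
          by_cases hl : l = i
          · subst hl
            rw [Function.update_self]
            exact (hCd j hj).symm
          · rw [Function.update_of_ne hl]
            exact hQ.disj j l hjl
      · intro j
        by_cases hj : j = i
        · subst hj; simpa using hC
        · rw [Function.update_of_ne hj]; exact hQ.clq j
    have hmem : Function.update Q i C ∈ F := by
      rw [mem_filter, Fintype.mem_piFinset]
      exact ⟨fun j => mem_powerset.2 (hf.sub j), hf⟩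
    have h1 := hmax _ hmem
    rw [← Finset.add_sum_erase _ _ (mem_univ i),
      ← Finset.add_sum_erase _ (fun j => (Q j).card) (mem_univ i)] at h1
    have h2 : ∑ j ∈ Finset.univ.erase i, (Function.update Q i C j).card =
        ∑ j ∈ Finset.univ.erase i, (Q j).card := by
      refine Finset.sum_congr rfl ?_
      intro j hj
      rw [Function.update_of_ne (Finset.ne_of_mem_erase hj)]
    rw [h2, Function.update_self] at h1
    omega
  · exact hQ0c.trans (Nat.add_le_add_right (hmax Q0 hQ0F) _)

end Pool.Agent.TwoDens
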