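import Pool.Agent.TwoDens.LinB

/-!
An independent transversal by a weighted greedy argument.
-/

open Finset

namespace Pool.Agent.TwoDens

variable {V : Type*} [DecidableEq V] (G : SimpleGraph V) [DecidableRel G.Adj]

omit [DecidableEq V] in
/-- a vertex of small weight in a large set -/
theorem exists_small {B : Finset V} {t : ℕ} (ht : 0 < t) (hB : t ≤ B.card) (p : V → ℕ) :
    ∃ z ∈ B, t * p z ≤ ∑ v ∈ B, p v := by
  have hne : B.Nonempty := Finset.card_pos.1 (by omega)
  obtain ⟨z, hz, hmin⟩ := Finset.exists_min_image B p hne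
  refine ⟨z, hz, ?_⟩
  calc t * p z ≤ B.card * p z := Nat.mul_le_mul_right _ hB
    _ = B.card • p z := by rw [smul_eq_mul]
    _ ≤ ∑ v ∈ B, p v := Finset.card_nsmul_le_sum _ _ _ (fun v hv => hmin v hv)

/-- number of ordered pairs of adjacent vertices of `U` in different classes -/
def cr {ι : Type*} [DecidableEq ι] (h : V → ι) (U : Finset V) : ℕ :=
  ∑ v ∈ U, (U.filter (fun u => h u ≠ h v ∧ G.Adj v u)).card

omit [DecidableEq V] in
theorem cr_mono {ι : Type*} [DecidableEq ι] (h : V → ι) {U W : Finset V} (hUW : U ⊆ W) :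
    cr G h U ≤ cr G h W := by
  unfold cr
  exact (Finset.sum_le_sum fun x _ => Finset.card_le_card (Finset.filter_subset_filter _ hUW)).trans
    (Finset.sum_le_sum_of_subset hUW)

theorem transversal_aux {ι : Type*} [DecidableEq ι] (h : V → ι) (U : Finset V) {t : ℕ}
    (ht : 0 < t) : ∀ (J : Finset ι) (f : V → ℕ),
    (∀ j ∈ J, t ≤ (U.filter (fun v => h v = j)).card) →
    2 * t * (∑ v ∈ U.filter (fun v => h v ∈ J), f v) +
      cr G h (U.filter (fun v => h v ∈ J)) < 2 * (t * t) →
    ∃ Z ⊆ U.filter (fun v => h v ∈ J), Z.card = J.card ∧ G.IsIndepSet (Z : Set V) ∧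
      (∀ z ∈ Z, f z = 0) := by
  classical
  intro J
  induction J using Finset.induction_on with
  | empty =>
    intro f _ _
    exact ⟨∅, by simp, by simp, by simp [SimpleGraph.IsIndepSet], by simp⟩
  | insert i J hi ih =>
    intro f hA hE
    set U' := U.filter (fun v => h v ∈ J) with hU'
    set B := U.filter (fun v => h v = i) with hB
    set W := U.filter (fun v => h v ∈ insert i J) with hW
    have hWU : W = U' ∪ B := by
      ext v
      simp only [hW, hU', hB, mem_filter, mem_union, mem_insert]
      tauto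
    have hdisj : Disjoint U' B := by
      rw [Finset.disjoint_left]
      intro v h1 h2
      rw [mem_filter] at h1 h2
      rw [h2.2] at h1
      exact hi h1.2
    let p : V → ℕ := fun v => (U'.filter (G.Adj v)).card + t * f v
    obtain ⟨z, hzB, hz⟩ := exists_small ht (hA i (mem_insert_self _ _)) p
    let f' : V → ℕ := fun u => f u + if G.Adj z u then 1 else 0
    -- cross pairs
    have hcr : cr G h U' + 2 * ∑ v ∈ B, (U'.filter (G.Adj v)).card ≤ cr G h W := by
      unfold cr
      rw [hWU, Finset.sum_union hdisj]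
      have h1 : ∀ v ∈ U', (U'.filter (fun u => h u ≠ h v ∧ G.Adj v u)).card +
          (B.filter (fun u => G.Adj u v)).card ≤
          ((U' ∪ B).filter (fun u => h u ≠ h v ∧ G.Adj v u)).card := by
        intro v hv
        rw [← Finset.card_union_of_disjoint]
        · refine Finset.card_le_card ?_
          intro u hu
          simp only [mem_union, mem_filter] at hu
          rw [mem_filter, mem_union]
          rcases hu with ⟨h3, h4⟩ | ⟨h3, h4⟩
          · exact ⟨Or.inl h3, h4⟩
          · refine ⟨Or.inr h3, ?_, h4.symm⟩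
            rw [(mem_filter.1 h3).2]
            intro h5
            exact hi (h5 ▸ (mem_filter.1 hv).2)
        · exact Finset.disjoint_filter_filter hdisj
      have h2 : ∀ v ∈ B, (U'.filter (G.Adj v)).card ≤
          ((U' ∪ B).filter (fun u => h u ≠ h v ∧ G.Adj v u)).card := by
        intro v hv
        refine Finset.card_le_card ?_
        intro u hu
        rw [mem_filter] at hu
        rw [mem_filter, mem_union]
        refine ⟨Or.inl hu.1, ?_, hu.2⟩
        rw [(mem_filter.1 hv).2]
        intro h5
        exact hi (h5 ▸ (mem_filter.1 hu.1).2)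
      have h3 : ∑ v ∈ U', (B.filter (fun u => G.Adj u v)).card =
          ∑ v ∈ B, (U'.filter (G.Adj v)).card := by
        simp only [Finset.card_filter]
        exact Finset.sum_comm
      have h4 := Finset.sum_le_sum h1
      have h5 := Finset.sum_le_sum h2
      rw [Finset.sum_add_distrib, h3] at h4
      omega
    have hsumf : ∑ v ∈ W, f v = ∑ v ∈ U', f v + ∑ v ∈ B, f v := by
      rw [hWU, Finset.sum_union hdisj]
    have hsump : ∑ v ∈ B, p v = ∑ v ∈ B, (U'.filter (G.Adj v)).card + t * ∑ v ∈ B, f v := by
      simp only [p]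
      rw [Finset.sum_add_distrib, Finset.mul_sum]
    have hsumf' : ∑ v ∈ U', f' v = ∑ v ∈ U', f v + (U'.filter (G.Adj z)).card := by
      simp only [f']
      rw [Finset.sum_add_distrib, Finset.card_filter]
    have hz' : t * (U'.filter (G.Adj z)).card + t * t * f z ≤
        ∑ v ∈ B, (U'.filter (G.Adj v)).card + t * ∑ v ∈ B, f v := by
      rw [← hsump]
      refine le_trans (le_of_eq ?_) hz
      simp only [p]; ring
    rw [hsumf] at hE
    have hkey : 2 * t * (∑ v ∈ U', f' v) + cr G h U' + 2 * (t * t) * f z < 2 * (t * t) := by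
      rw [hsumf']
      have e1 : 2 * t * (∑ v ∈ U', f v + ∑ v ∈ B, f v) =
        2 * t * (∑ v ∈ U', f v) + 2 * (t * ∑ v ∈ B, f v) := by ring
      have e2' : 2 * t * (∑ v ∈ U', f v + (U'.filter (G.Adj z)).card) =
        2 * t * (∑ v ∈ U', f v) + 2 * (t * (U'.filter (G.Adj z)).card) := by ring
      have e3 : 2 * (t * t) * f z = 2 * (t * t * f z) := by ring
      rw [e1] at hE
      rw [e2', e3]
      omega
    have hfz : f z = 0 := by
      by_contra hne
      have h1 : 1 ≤ f z := Nat.one_le_iff_ne_zero.2 hne
      have h2 : 2 * (t * t) * 1 ≤ 2 * (t * t) * f z := Nat.mul_le_mul_left _ h1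
      omega
    obtain ⟨Z, hZ, hZc, hZi, hZf⟩ := ih f' (fun j hj => hA j (mem_insert_of_mem hj)) (by
      have : 0 ≤ 2 * (t * t) * f z := Nat.zero_le _
      omega)
    have hzZ : z ∉ Z := by
      intro h1
      exact (Finset.disjoint_left.1 hdisj (hZ h1)) hzB
    have hnadj : ∀ u ∈ Z, ¬ G.Adj z u := by
      intro u hu h1
      have h2 := hZf u hu
      simp only [f', if_pos h1] at h2
      omega
    refine ⟨insert z Z, ?_, ?_, ?_, ?_⟩
    · rw [hWU]
      exact Finset.insert_subset (mem_union_right _ hzB) (hZ.trans Finset.subset_union_left)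
    · rw [Finset.card_insert_of_notMem hzZ, Finset.card_insert_of_notMem hi, hZc]
    · intro x hx y hy hxy
      rw [Finset.mem_coe, mem_insert] at hx hy
      rcases hx with rfl | hx <;> rcases hy with rfl | hy
      · exact absurd rfl hxy
      · exact hnadj y hy
      · exact fun h => hnadj x hx h.symm
      · exact hZi hx hy hxy
    · intro u hu
      rw [mem_insert] at hu
      rcases hu with rfl | hu
      · exact hfz
      · have h2 := hZf u hu
        simp only [f'] at h2
        omega

/-- independent transversal -/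
theorem transversal {ι : Type*} [DecidableEq ι] (h : V → ι) (U : Finset V) {t : ℕ}
    (ht : 0 < t) (J : Finset ι) (hU : ∀ v ∈ U, h v ∈ J)
    (hA : ∀ j ∈ J, t ≤ (U.filter (fun v => h v = j)).card)
    (hE : cr G h U < 2 * (t * t)) :
    ∃ Z ⊆ U, Z.card = J.card ∧ G.IsIndepSet (Z : Set V) := by
  have hUJ : U.filter (fun v => h v ∈ J) = U := Finset.filter_true_of_mem hU
  obtain ⟨Z, hZ, hZc, hZi, -⟩ := transversal_aux G h U ht J (fun _ => 0) hA (by
    rw [hUJ]; simpa using hE)
  rw [hUJ] at hZ
  exact ⟨Z, hZ, hZc, hZi⟩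

end Pool.Agent.TwoDens
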