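import Pool.Agent.TwoDens.LinC

/-!
Few edges run between the cliques of the family; extension of independent sets by transversals.
-/

open Finset

namespace Pool.Agent.TwoDens

variable {V : Type*} [DecidableEq V] (G : SimpleGraph V) [DecidableRel G.Adj]

/-- the union of the cliques -/
def UQ {s : ℕ} (Q : Fin s → Finset V) : Finset V := Finset.univ.biUnion Q

omit [DecidableEq V] in
theorem mem_UQ [DecidableEq V] {s : ℕ} {Q : Fin s → Finset V} {v : V} :
    v ∈ UQ Q ↔ ∃ i, v ∈ Q i := by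
  unfold UQ
  simp

theorem card_UQ {s : ℕ} {X : Finset V} {Q : Fin s → Finset V} (hF : Fam0 G X Q) :
    (UQ Q).card = ∑ i, (Q i).card := by
  unfold UQ
  exact Finset.card_biUnion (fun i _ j _ hij => hF.disj i j hij)

theorem sum_UQ {s : ℕ} {X : Finset V} {Q : Fin s → Finset V} (hF : Fam0 G X Q) (f : V → ℕ) :
    ∑ v ∈ UQ Q, f v = ∑ i, ∑ v ∈ Q i, f v := by
  unfold UQ
  exact Finset.sum_biUnion (fun i _ j _ hij => hF.disj i j hij)

theorem cross_Q {s k : ℕ} {X : Finset V} {Q : Fin s → Finset V} (hF : Fam0 G X Q) (h : V → Fin s)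
    (hQ : ∀ i, ∀ v ∈ Q i, h v = i) (hcard : X.card = k * s)
    (hdeg : ∀ v ∈ X, k ≤ dg G X v) (hsum : ∑ v ∈ X, dg G X v ≤ (k + 1) * (k * s))
    (hq : ∀ i, (Q i).card + 1 ≤ k) (hR : X.card ≤ (∑ i, (Q i).card) + 3 * s) :
    cr G h (UQ Q) ≤ 2 * (k * s) + 9 * (s * s) := by
  classical
  set U := UQ Q with hU
  set R := X \ U with hRdef
  have hUX : U ⊆ X := by
    intro v hv
    obtain ⟨i, hi⟩ := mem_UQ.1 hv
    exact hF.sub i hi
  have hUc : U.card = ∑ i, (Q i).card := card_UQ G hF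
  have hRc : R.card + U.card = X.card := Finset.card_sdiff_add_card_eq_card hUX
  have hsplit : ∀ v, dg G X v = (U.filter (G.Adj v)).card + (R.filter (G.Adj v)).card := by
    intro v
    unfold dg
    rw [← Finset.card_union_of_disjoint]
    · congr 1
      rw [← Finset.filter_union, hRdef, Finset.union_sdiff_of_subset hUX]
    · exact Finset.disjoint_filter_filter Finset.disjoint_sdiff
  have h0 : ∑ v ∈ X, dg G X v = ∑ v ∈ R, dg G X v + ∑ v ∈ U, dg G X v := by
    rw [hRdef, Finset.sum_sdiff hUX]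
  have h1 : k * R.card ≤ ∑ v ∈ R, dg G X v := by
    rw [mul_comm, ← smul_eq_mul]
    exact Finset.card_nsmul_le_sum _ _ _ (fun v hv => hdeg v (Finset.sdiff_subset hv))
  have h2 : ∑ v ∈ U, (R.filter (G.Adj v)).card = ∑ w ∈ R, (U.filter (G.Adj w)).card := by
    simp only [Finset.card_filter]
    rw [Finset.sum_comm]
    refine Finset.sum_congr rfl fun w _ => Finset.sum_congr rfl fun v _ => ?_
    simp only [G.adj_comm]
  have h3 : ∑ v ∈ R, dg G X v ≤ ∑ w ∈ R, (U.filter (G.Adj w)).card + R.card * R.card := by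
    have : ∀ v ∈ R, dg G X v ≤ (U.filter (G.Adj v)).card + R.card := by
      intro v _
      rw [hsplit v]
      exact Nat.add_le_add_left (Finset.card_filter_le _ _) _
    refine (Finset.sum_le_sum this).trans (le_of_eq ?_)
    rw [Finset.sum_add_distrib, Finset.sum_const, smul_eq_mul]
  have h4 : ∀ v ∈ U, (U.filter (G.Adj v)).card + 1 =
      (Q (h v)).card + (U.filter (fun u => h u ≠ h v ∧ G.Adj v u)).card := by
    intro v hv
    obtain ⟨i, hi⟩ := mem_UQ.1 hv
    have hi' : h v = i := hQ i v hi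
    rw [hi']
    have e1 : U.filter (G.Adj v) = (Q i).erase v ∪ U.filter (fun u => h u ≠ i ∧ G.Adj v u) := by
      ext u
      simp only [mem_filter, mem_union, mem_erase]
      constructor
      · rintro ⟨h5, h6⟩
        by_cases h7 : h u = i
        · left
          obtain ⟨j, hj⟩ := mem_UQ.1 h5
          have : h u = j := hQ j u hj
          rw [← this, h7] at hj
          exact ⟨fun h8 => G.loopless.irrefl v (h8 ▸ h6), hj⟩
        · exact Or.inr ⟨h5, h7, h6⟩
      · rintro (⟨h5, h6⟩ | ⟨h5, _, h6⟩)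
        · exact ⟨mem_UQ.2 ⟨i, h6⟩, hF.clq i v hi u h6 (Ne.symm h5)⟩
        · exact ⟨h5, h6⟩
    have e2' : Disjoint ((Q i).erase v) (U.filter (fun u => h u ≠ i ∧ G.Adj v u)) := by
      rw [Finset.disjoint_left]
      intro u h5 h6
      exact (mem_filter.1 h6).2.1 (hQ i u (mem_of_mem_erase h5))
    rw [e1, Finset.card_union_of_disjoint e2', Finset.card_erase_of_mem hi]
    have := Finset.card_pos.2 ⟨v, hi⟩
    omega
  have h5 : ∑ v ∈ U, (U.filter (G.Adj v)).card + U.card =
      ∑ i, (Q i).card * (Q i).card + cr G h U := by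
    have e1 := Finset.sum_congr rfl h4
    rw [Finset.sum_add_distrib, Finset.sum_add_distrib, Finset.sum_const, smul_eq_mul,
      mul_one] at e1
    rw [e1]
    unfold cr
    congr 1
    rw [hU, sum_UQ G hF]
    refine Finset.sum_congr rfl ?_
    intro i _
    have : ∀ v ∈ Q i, (Q (h v)).card = (Q i).card := by
      intro v hv
      rw [hQ i v hv]
    rw [Finset.sum_congr rfl this, Finset.sum_const, smul_eq_mul]
  have h6 : ∑ v ∈ U, dg G X v =
      ∑ v ∈ U, (U.filter (G.Adj v)).card + ∑ v ∈ U, (R.filter (G.Adj v)).card := by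
    rw [← Finset.sum_add_distrib]
    exact Finset.sum_congr rfl (fun v _ => hsplit v)
  -- arithmetic
  have hr1 : s ≤ R.card := by
    have : ∑ i : Fin s, ((Q i).card + 1) ≤ ∑ _i : Fin s, k := Finset.sum_le_sum fun i _ => hq i
    rw [Finset.sum_add_distrib] at this
    simp only [Finset.sum_const, Finset.card_univ, Fintype.card_fin, smul_eq_mul, mul_one] at this
    rw [mul_comm s k, ← hcard, ← hUc] at this
    omega
  have hr2 : R.card ≤ 3 * s := by omega
  have h7 : (2 * ((k : ℤ) - 1) * (U.card : ℤ)) - s * ((k : ℤ) - 1) ^ 2 ≤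
      ((∑ i, (Q i).card * (Q i).card : ℕ) : ℤ) := by
    rw [hUc]
    push_cast
    have : ∀ i ∈ (Finset.univ : Finset (Fin s)), 2 * ((k : ℤ) - 1) * ((Q i).card : ℤ) -
        ((k : ℤ) - 1) ^ 2 ≤ ((Q i).card : ℤ) * (Q i).card := by
      intro i _
      nlinarith [sq_nonneg (((Q i).card : ℤ) - (k - 1))]
    have h8 := Finset.sum_le_sum this
    rw [Finset.sum_sub_distrib, ← Finset.mul_sum, Finset.sum_const, Finset.card_univ,
      Fintype.card_fin, nsmul_eq_mul] at h8
    exact h8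
  zify at h0 h1 h2 h3 h5 h6 hRc hcard hsum hr1 hr2 h7 ⊢
  set r : ℤ := (R.card : ℤ) with hrdef
  set u : ℤ := (U.card : ℤ) with hudef
  have hu : u = k * s - r := by rw [← hcard, ← hRc]; ring
  rw [hu] at h7 h5
  have hrr : r * r ≤ 9 * (s * s) := by nlinarith
  nlinarith

/-- an independent set `W` that misses many vertices of each clique of `J` could be extended -/
theorem TR {s t : ℕ} {X W : Finset V} {Q : Fin s → Finset V} (hF : Fam0 G X Q) (h : V → Fin s)
    (hQ : ∀ i, ∀ v ∈ Q i, h v = i) (hal : Al G s X) (hWX : W ⊆ X)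
    (hW : G.IsIndepSet (W : Set V)) (J : Finset (Fin s)) (hWJ : ∀ j ∈ J, Disjoint W (Q j))
    (hc : s + 1 ≤ W.card + J.card) (ht : 0 < t) (hcr : cr G h (UQ Q) < 2 * (t * t)) :
    ∃ j ∈ J, ((Q j).filter (fun v => ∀ w ∈ W, ¬ G.Adj w v)).card < t := by
  classical
  by_contra hcon
  push Not at hcon
  let U := (UQ Q).filter (fun v => h v ∈ J ∧ ∀ w ∈ W, ¬ G.Adj w v)
  have hUj : ∀ j ∈ J, U.filter (fun v => h v = j) =
      (Q j).filter (fun v => ∀ w ∈ W, ¬ G.Adj w v) := by
    intro j hj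
    ext v
    simp only [U, mem_filter]
    constructor
    · rintro ⟨⟨h1, -, h2⟩, h3⟩
      obtain ⟨i, hi⟩ := mem_UQ.1 h1
      have : h v = i := hQ i v hi
      rw [← this, h3] at hi
      exact ⟨hi, h2⟩
    · rintro ⟨h1, h2⟩
      have h3 : h v = j := hQ j v h1
      exact ⟨⟨mem_UQ.2 ⟨j, h1⟩, h3 ▸ hj, h2⟩, h3⟩
  obtain ⟨Z, hZ, hZc, hZi⟩ := transversal G h U ht J (fun v hv => (mem_filter.1 hv).2.1)
    (fun j hj => by rw [hUj j hj]; exact hcon j hj)
    (lt_of_le_of_lt (cr_mono G h (Finset.filter_subset _ _)) hcr)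
  have hdisj : Disjoint W Z := by
    rw [Finset.disjoint_left]
    intro v hv hvZ
    have h1 := mem_filter.1 (hZ hvZ)
    obtain ⟨i, hi⟩ := mem_UQ.1 h1.1
    have h2 : h v = i := hQ i v hi
    exact Finset.disjoint_left.1 (hWJ i (h2 ▸ h1.2.1)) hv hi
  have hadj : ∀ w ∈ W, ∀ z ∈ Z, ¬ G.Adj w z := by
    intro w hw z hz
    exact (mem_filter.1 (hZ hz)).2.2 w hw
  have hZX : Z ⊆ X := by
    intro v hv
    obtain ⟨i, hi⟩ := mem_UQ.1 (mem_filter.1 (hZ hv)).1
    exact hF.sub i hi
  have hI : G.IsIndepSet ((W ∪ Z : Finset V) : Set V) := by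
    intro x hx y hy hxy
    rw [Finset.mem_coe, mem_union] at hx hy
    rcases hx with hx | hx <;> rcases hy with hy | hy
    · exact hW hx hy hxy
    · exact hadj x hx y hy
    · exact fun h => hadj y hy x hx h.symm
    · exact hZi hx hy hxy
  have := hal _ (Finset.union_subset hWX hZX) hI
  rw [Finset.card_union_of_disjoint hdisj, hZc] at this
  omega

end Pool.Agent.TwoDens
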