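import Pool.Agent.TwoDens.LinD

/-!
Groups: missing pairs, half-integral covers, excess of a missing pair, exceptional coverings.
-/

open Finset

namespace Pool.Agent.TwoDens

variable {V : Type*} [DecidableEq V] (G : SimpleGraph V) [DecidableRel G.Adj]

/-- number of non-neighbours of `v` in `P` -/
def mi (P : Finset V) (v : V) : ℕ := (P.filter (fun y => y ≠ v ∧ ¬ G.Adj v y)).card

theorem m2_eq (P : Finset V) : m2 G P = ∑ v ∈ P, mi G P v := rfl

theorem adj_add_mi {P : Finset V} {v : V} (hv : v ∈ P) :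
    (P.filter (G.Adj v)).card + mi G P v + 1 = P.card := by
  have h1 : P.erase v = P.filter (G.Adj v) ∪ P.filter (fun y => y ≠ v ∧ ¬ G.Adj v y) := by
    ext y
    simp only [mem_erase, mem_union, mem_filter]
    constructor
    · rintro ⟨h1, h2⟩
      by_cases h : G.Adj v y
      · exact Or.inl ⟨h2, h⟩
      · exact Or.inr ⟨h2, h1, h⟩
    · rintro (⟨h1, h2⟩ | ⟨h1, h2, h3⟩)
      · exact ⟨fun h => G.loopless.irrefl v (h ▸ h2), h1⟩
      · exact ⟨h2, h1⟩
  have h2 : Disjoint (P.filter (G.Adj v)) (P.filter (fun y => y ≠ v ∧ ¬ G.Adj v y)) := by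
    rw [Finset.disjoint_left]
    intro y h1 h2
    exact (mem_filter.1 h2).2.2 (mem_filter.1 h1).2
  have h3 := Finset.card_erase_of_mem hv
  rw [h1, Finset.card_union_of_disjoint h2] at h3
  have := Finset.card_pos.2 ⟨v, hv⟩
  unfold mi
  omega

/-- missing pairs of a group `C ∪ R`, `C` a clique, every vertex of `R` misses less than `t`
vertices of `C` -/
theorem m2_group {C R : Finset V} {t : ℕ} (hd : Disjoint C R)
    (hC : ∀ u ∈ C, ∀ v ∈ C, u ≠ v → G.Adj u v)
    (hR : ∀ w ∈ R, (C.filter (fun u => ¬ G.Adj w u)).card < t) :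
    m2 G (C ∪ R) + 3 * R.card ≤ 2 * (R.card * t) + R.card * R.card := by
  have h1 : ∀ w ∈ R, mi G (C ∪ R) w + 2 ≤ t + R.card := by
    intro w hw
    have h2 : (C ∪ R).filter (fun y => y ≠ w ∧ ¬ G.Adj w y) ⊆
        C.filter (fun u => ¬ G.Adj w u) ∪ R.erase w := by
      intro y hy
      rw [mem_filter, mem_union] at hy
      rw [mem_union, mem_filter, mem_erase]
      rcases hy.1 with h | h
      · exact Or.inl ⟨h, hy.2.2⟩
      · exact Or.inr ⟨hy.2.1, h⟩
    have h3 := (Finset.card_le_card h2).trans (Finset.card_union_le _ _)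
    rw [Finset.card_erase_of_mem hw] at h3
    have h4 := hR w hw
    have h5 := Finset.card_pos.2 ⟨w, hw⟩
    unfold mi
    omega
  have h2 : ∀ v ∈ C, mi G (C ∪ R) v ≤ (R.filter (fun w => ¬ G.Adj w v)).card := by
    intro v hv
    refine Finset.card_le_card ?_
    intro y hy
    rw [mem_filter, mem_union] at hy
    rw [mem_filter]
    rcases hy.1 with h | h
    · exact absurd (hC v hv y h (Ne.symm hy.2.1)) hy.2.2
    · exact ⟨h, fun h' => hy.2.2 h'.symm⟩
  have h3 : ∑ v ∈ C, (R.filter (fun w => ¬ G.Adj w v)).card =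
      ∑ w ∈ R, (C.filter (fun u => ¬ G.Adj w u)).card := by
    simp only [Finset.card_filter]
    exact Finset.sum_comm
  have h4 : ∑ w ∈ R, ((C.filter (fun u => ¬ G.Adj w u)).card + 1) ≤ R.card * t := by
    rw [← smul_eq_mul]
    exact Finset.sum_le_card_nsmul _ _ _ (fun w hw => hR w hw)
  have h5 : ∑ w ∈ R, (mi G (C ∪ R) w + 2) ≤ R.card * (t + R.card) := by
    rw [← smul_eq_mul]
    exact Finset.sum_le_card_nsmul _ _ _ (fun w hw => h1 w hw)
  have h6 := Finset.sum_le_sum h2
  rw [h3] at h6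
  rw [Finset.sum_add_distrib, Finset.sum_const, smul_eq_mul] at h4 h5
  rw [m2_eq, Finset.sum_union hd]
  have h7 : R.card * (t + R.card) = R.card * t + R.card * R.card := by ring
  omega

/-- half-integral covers -/
theorem half_cover {P : Finset V} {q ρ κ : ℕ} (f : V → ℕ)
    (hcl : ∀ C ⊆ P, (∀ u ∈ C, ∀ v ∈ C, u ≠ v → G.Adj u v) → C.card ≤ q)
    (hf : ∀ x ∈ P, ∀ y ∈ P, x ≠ y → ¬ G.Adj x y → κ ≤ f x + f y)
    (hP : P.card = q + ρ) (hρ : 1 ≤ ρ) : κ * (ρ + 1) ≤ 2 * ∑ x ∈ P, f x := by
  set S := P.filter (fun x => κ ≤ 2 * f x) with hS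
  set L := P.filter (fun x => ¬ κ ≤ 2 * f x) with hL
  have hSL : S.card + L.card = P.card := Finset.card_filter_add_card_filter_not _
  have hLc : ∀ u ∈ L, ∀ v ∈ L, u ≠ v → G.Adj u v := by
    intro u hu v hv huv
    by_contra hna
    rw [mem_filter] at hu hv
    have := hf u hu.1 v hv.1 huv hna
    omega
  have hLq : L.card ≤ q := hcl L (Finset.filter_subset _ _) hLc
  have hSne : S.Nonempty := Finset.card_pos.1 (by omega)
  obtain ⟨x0, hx0, hmin⟩ := Finset.exists_min_image S f hSne
  have hx0P := (mem_filter.1 hx0).1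
  have hx0κ := (mem_filter.1 hx0).2
  have hsumS : S.card * f x0 ≤ ∑ x ∈ S, f x := by
    rw [← smul_eq_mul]
    exact Finset.card_nsmul_le_sum _ _ _ (fun x hx => hmin x hx)
  have hsplit : ∑ x ∈ P, f x = ∑ x ∈ S, f x + ∑ x ∈ L, f x :=
    (Finset.sum_filter_add_sum_filter_not P (fun x => κ ≤ 2 * f x) f).symm
  have hmul : S.card * κ ≤ 2 * ∑ x ∈ S, f x := by
    calc S.card * κ ≤ S.card * (2 * f x0) := Nat.mul_le_mul_left _ hx0κ
      _ = 2 * (S.card * f x0) := by ring
      _ ≤ _ := Nat.mul_le_mul_left _ hsumS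
  by_cases hcase : ∃ y ∈ L, ¬ G.Adj x0 y
  · obtain ⟨y, hy, hna⟩ := hcase
    have hyP := (mem_filter.1 hy).1
    have hne : x0 ≠ y := by
      rintro rfl
      exact (mem_filter.1 hy).2 hx0κ
    have h1 := hf x0 hx0P y hyP hne hna
    have h2 : f y ≤ ∑ x ∈ L, f x := Finset.single_le_sum (fun _ _ => Nat.zero_le _) hy
    have h3 : ρ ≤ S.card := by omega
    obtain ⟨p, hp⟩ : ∃ p, S.card = p + 1 := ⟨S.card - 1, by omega⟩
    have h4 : (p + 1) * f x0 ≤ ∑ x ∈ S, f x := by rw [← hp]; exact hsumS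
    have h5 : p * κ ≤ p * (2 * f x0) := Nat.mul_le_mul_left _ hx0κ
    have h6 : κ * (ρ + 1) ≤ p * κ + 2 * κ := by
      have : κ * (ρ + 1) ≤ κ * (p + 2) := Nat.mul_le_mul_left _ (by omega)
      calc κ * (ρ + 1) ≤ κ * (p + 2) := this
        _ = p * κ + 2 * κ := by ring
    have h7 : p * (2 * f x0) = 2 * (p * f x0) := by ring
    have h8 : (p + 1) * f x0 = p * f x0 + f x0 := by ring
    omega
  · push Not at hcase
    have h1 : (insert x0 L).card ≤ q := by
      refine hcl _ (Finset.insert_subset hx0P (Finset.filter_subset _ _)) ?_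
      intro u hu v hv huv
      rw [mem_insert] at hu hv
      rcases hu with rfl | hu <;> rcases hv with rfl | hv
      · exact absurd rfl huv
      · exact hcase v hv
      · exact (hcase u hu).symm
      · exact hLc u hu v hv huv
    have h2 : x0 ∉ L := fun h => (mem_filter.1 h).2 hx0κ
    rw [Finset.card_insert_of_notMem h2] at h1
    have h3 : ρ + 1 ≤ S.card := by omega
    have h4 : κ * (ρ + 1) ≤ S.card * κ := by
      calc κ * (ρ + 1) ≤ κ * S.card := Nat.mul_le_mul_left _ h3
        _ = S.card * κ := by ring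
    have h5 : 0 ≤ ∑ x ∈ L, f x := Nat.zero_le _
    omega

/-- a missing pair has large degree sum -/
theorem pair_bound {k : ℕ} {X P : Finset V} (hPX : P ⊆ X) {x y : V} (hx : x ∈ P) (hy : y ∈ P)
    (hxy : 2 * k ≤ (X.filter (fun u => u = x ∨ u = y ∨ G.Adj x u ∨ G.Adj y u)).card) :
    2 * k + P.card ≤ dg G X x + dg G X y + mi G P x + mi G P y + 2 := by
  have hdg : ∀ v, dg G X v = (P.filter (G.Adj v)).card + ((X \ P).filter (G.Adj v)).card := by
    intro v
    unfold dg
    rw [← Finset.card_union_of_disjoint]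
    · congr 1
      rw [← Finset.filter_union, Finset.union_sdiff_of_subset hPX]
    · exact Finset.disjoint_filter_filter Finset.disjoint_sdiff
  have hsub : X.filter (fun u => u = x ∨ u = y ∨ G.Adj x u ∨ G.Adj y u) ⊆
      P ∪ ((X \ P).filter (G.Adj x) ∪ (X \ P).filter (G.Adj y)) := by
    intro u hu
    rw [mem_filter] at hu
    simp only [mem_union, mem_filter, mem_sdiff]
    by_cases hP : u ∈ P
    · exact Or.inl hP
    · right
      rcases hu.2 with rfl | rfl | h | h
      · exact absurd hx hP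
      · exact absurd hy hP
      · exact Or.inl ⟨⟨hu.1, hP⟩, h⟩
      · exact Or.inr ⟨⟨hu.1, hP⟩, h⟩
  have h1 := (Finset.card_le_card hsub).trans (Finset.card_union_le _ _)
  have h2 := Finset.card_union_le ((X \ P).filter (G.Adj x)) ((X \ P).filter (G.Adj y))
  have h3 := adj_add_mi G hx
  have h4 := adj_add_mi G hy
  have h5 := hdg x
  have h6 := hdg y
  omega

/-- `e2` of a disjoint union -/
theorem e2_union_ge {P F : Finset V} {c : ℕ} (hd : Disjoint P F)
    (hF : ∀ w ∈ F, c ≤ (P.filter (G.Adj w)).card) :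
    e2 G P + 2 * (F.card * c) ≤ e2 G (P ∪ F) := by
  unfold e2
  rw [Finset.sum_union hd]
  have h1 : ∀ v ∈ P, (P.filter (G.Adj v)).card + (F.filter (fun w => G.Adj w v)).card ≤
      ((P ∪ F).filter (G.Adj v)).card := by
    intro v _
    rw [← Finset.card_union_of_disjoint]
    · refine Finset.card_le_card ?_
      intro y hy
      simp only [mem_union, mem_filter] at hy
      rw [mem_filter, mem_union]
      rcases hy with ⟨h3, h4⟩ | ⟨h3, h4⟩
      · exact ⟨Or.inl h3, h4⟩
      · exact ⟨Or.inr h3, h4.symm⟩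
    · exact Finset.disjoint_filter_filter hd
  have h2 : ∀ w ∈ F, c ≤ ((P ∪ F).filter (G.Adj w)).card := by
    intro w hw
    exact (hF w hw).trans
      (Finset.card_le_card (Finset.filter_subset_filter _ Finset.subset_union_left))
  have h3 : ∑ v ∈ P, (F.filter (fun w => G.Adj w v)).card =
      ∑ w ∈ F, (P.filter (G.Adj w)).card := by
    simp only [Finset.card_filter]
    exact Finset.sum_comm
  have h4 : F.card * c ≤ ∑ w ∈ F, (P.filter (G.Adj w)).card := by
    rw [← smul_eq_mul]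
    exact Finset.card_nsmul_le_sum _ _ _ hF
  have h5 : F.card * c ≤ ∑ w ∈ F, ((P ∪ F).filter (G.Adj w)).card := by
    rw [← smul_eq_mul]
    exact Finset.card_nsmul_le_sum _ _ _ h2
  have h6 := Finset.sum_le_sum h1
  rw [Finset.sum_add_distrib, h3] at h6
  omega

/-- the sparsity condition for a group together with a set of vertices that cover most of it -/
theorem cover_bound {k c : ℕ} {X P F : Finset V} (hS : Sk G k X) (hPX : P ⊆ X) (hFX : F ⊆ X)
    (hP3 : 3 ≤ P.card) (hd : Disjoint P F) (hF : ∀ w ∈ F, c ≤ (P.filter (G.Adj w)).card) :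
    (P.card : ℤ) * P.card - (k + 2) * P.card + 2 * k + 1 + F.card * (2 * c - (k + 1)) ≤
      (m2 G P : ℤ) := by
  have h1 := hS (P ∪ F) (Finset.union_subset hPX hFX)
    (hP3.trans (Finset.card_le_card Finset.subset_union_left))
  have h2 := e2_union_ge G hd hF
  have h3 := e2_add_m2 G P
  rw [Finset.card_union_of_disjoint hd] at h1
  zify at h1 h2 h3
  nlinarith

end Pool.Agent.TwoDens
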