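import Pool.Agent.TwoDens.LinE

/-!
The groups of a family: fine groups.
-/

open Finset

namespace Pool.Agent.TwoDens

variable {V : Type*} [DecidableEq V] (G : SimpleGraph V) [DecidableRel G.Adj]

/-- the situation of the proof: `s` disjoint cliques, every vertex assigned to a clique of which it
misses less than `t` vertices -/
structure Setup {s : ℕ} (k t : ℕ) (X : Finset V) (Q : Fin s → Finset V) (h : V → Fin s) :
    Prop where
  fam : Fam G X Q
  hQ : ∀ i, ∀ v ∈ Q i, h v = i
  near : ∀ v ∈ X, ((Q (h v)).filter (fun u => u ≠ v ∧ ¬ G.Adj v u)).card < t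
  deg : ∀ v ∈ X, k ≤ dg G X v
  sk : Sk G k X
  al : Al G s X
  pair : ∀ x ∈ X, ∀ y ∈ X, x ≠ y → ¬ G.Adj x y →
    2 * k ≤ (X.filter (fun u => u = x ∨ u = y ∨ G.Adj x u ∨ G.Adj y u)).card
  cr : cr G h (UQ Q) < 2 * (t * t)
  ht : 0 < t
  hq : ∀ i, (Q i).card + 1 ≤ k

/-- the group number `i` -/
def gp {s : ℕ} (X : Finset V) (h : V → Fin s) (i : Fin s) : Finset V := X.filter (fun v => h v = i)

namespace Setup

variable {G} {s k t : ℕ} {X : Finset V} {Q : Fin s → Finset V} {h : V → Fin s}

theorem Q_sub (S : Setup G k t X Q h) (i : Fin s) : Q i ⊆ gp X h i := by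
  intro v hv
  exact mem_filter.2 ⟨S.fam.sub i hv, S.hQ i v hv⟩

theorem clique_le (S : Setup G k t X Q h) (i : Fin s) {C : Finset V} (hC : C ⊆ gp X h i)
    (hcl : ∀ u ∈ C, ∀ v ∈ C, u ≠ v → G.Adj u v) : C.card ≤ (Q i).card := by
  refine S.fam.max i C (hC.trans (Finset.filter_subset _ _)) hcl ?_
  intro j hj
  rw [Finset.disjoint_left]
  intro v hv hvj
  have h1 := (mem_filter.1 (hC hv)).2
  rw [S.hQ j v hvj] at h1
  exact hj h1

theorem rest_near (S : Setup G k t X Q h) (i : Fin s) {w : V} (hw : w ∈ gp X h i \ Q i) :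
    ((Q i).filter (fun u => ¬ G.Adj w u)).card < t := by
  rw [mem_sdiff] at hw
  have h1 := mem_filter.1 hw.1
  have h2 := S.near w h1.1
  rw [h1.2] at h2
  refine lt_of_le_of_lt (Finset.card_le_card ?_) h2
  intro u hu
  rw [mem_filter] at hu ⊢
  refine ⟨hu.1, ?_, hu.2⟩
  rintro rfl
  exact hw.2 hu.1

theorem card_gp (S : Setup G k t X Q h) (i : Fin s) :
    (gp X h i \ Q i).card + (Q i).card = (gp X h i).card :=
  Finset.card_sdiff_add_card_eq_card (S.Q_sub i)

theorem m2_le (S : Setup G k t X Q h) (i : Fin s) :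
    m2 G (gp X h i) + 3 * (gp X h i \ Q i).card ≤
      2 * ((gp X h i \ Q i).card * t) + (gp X h i \ Q i).card * (gp X h i \ Q i).card := by
  have h1 := m2_group G (C := Q i) (R := gp X h i \ Q i) (t := t) Finset.disjoint_sdiff
    (S.fam.clq i) (fun w hw => S.rest_near i hw)
  rw [Finset.union_sdiff_of_subset (S.Q_sub i)] at h1
  exact h1

/-- the total excess of a group -/
theorem cover (S : Setup G k t X Q h) (i : Fin s) (hρ : 1 ≤ (gp X h i \ Q i).card) :
    ((gp X h i).card - 2) * ((gp X h i \ Q i).card + 1) ≤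
      2 * (∑ v ∈ gp X h i, (dg G X v - k) + m2 G (gp X h i)) := by
  have hPX : gp X h i ⊆ X := Finset.filter_subset _ _
  have h1 := half_cover G (P := gp X h i) (q := (Q i).card) (ρ := (gp X h i \ Q i).card)
    (κ := (gp X h i).card - 2) (fun v => (dg G X v - k) + mi G (gp X h i) v)
    (fun C hC hcl => S.clique_le i hC hcl)
    (fun x hx y hy hxy hna => by
      have h2 := pair_bound G hPX hx hy (S.pair x (hPX hx) y (hPX hy) hxy hna)
      have h3 := S.deg x (hPX hx)
      have h4 := S.deg y (hPX hy)
      omega)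
    (by have := S.card_gp i; omega) hρ
  rw [Finset.sum_add_distrib, ← m2_eq] at h1
  exact h1

/-- fine groups -/
theorem fine (S : Setup G k t X Q h) (hs : 1 ≤ s) (i : Fin s)
    (hρ : (gp X h i \ Q i).card = 1) (hqi : (Q i).card + 1 = k) :
    k ≤ ∑ v ∈ gp X h i, (dg G X v - k) + 4 ∨
      (∃ w ∈ gp X h i, ∃ j, j ≠ i ∧ ((Q j).filter (fun u => ¬ G.Adj w u)).card ≤ t + 1) ∧
        k ≤ ∑ v ∈ gp X h i, (dg G X v - k) + t + 2 := by
  classical
  set P := gp X h i with hP
  have hPX : P ⊆ X := Finset.filter_subset _ _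
  obtain ⟨w, hw⟩ := Finset.card_eq_one.1 hρ
  have hwm : w ∈ P \ Q i := by rw [hw]; exact mem_singleton_self _
  have hwP : w ∈ P := (mem_sdiff.1 hwm).1
  have hwQ : w ∉ Q i := (mem_sdiff.1 hwm).2
  have hPc : P.card = k := by
    have h0 := S.card_gp i
    rw [← hP] at h0
    omega
  have hQP : ∀ v ∈ P, v = w ∨ v ∈ Q i := by
    intro v hv
    by_cases h1 : v ∈ Q i
    · exact Or.inr h1
    · left
      have : v ∈ P \ Q i := mem_sdiff.2 ⟨hv, h1⟩
      rw [hw, mem_singleton] at this
      exact this
  set M := (Q i).filter (fun u => ¬ G.Adj w u) with hM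
  have hMt : M.card < t := S.rest_near i hwm
  have hMne : M.Nonempty := by
    by_contra hcon
    rw [Finset.not_nonempty_iff_eq_empty] at hcon
    have hadj : ∀ u ∈ Q i, G.Adj w u := by
      intro u hu
      by_contra h1
      have : u ∈ M := mem_filter.2 ⟨hu, h1⟩
      rw [hcon] at this
      exact absurd this (Finset.notMem_empty _)
    have h1 := S.clique_le i (C := P) subset_rfl (by
      intro u hu v hv huv
      rcases hQP u hu with rfl | hu' <;> rcases hQP v hv with rfl | hv'
      · exact absurd rfl huv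
      · exact hadj v hv'
      · exact (hadj u hu').symm
      · exact S.fam.clq i u hu' v hv' huv)
    omega
  have hmiw : mi G P w = M.card := by
    unfold mi
    congr 1
    ext u
    rw [mem_filter, hM, mem_filter]
    constructor
    · rintro ⟨h1, h2, h3⟩
      rcases hQP u h1 with h4 | h4
      · exact absurd h4 h2
      · exact ⟨h4, h3⟩
    · rintro ⟨h1, h2⟩
      refine ⟨S.Q_sub i h1, ?_, h2⟩
      rintro rfl
      exact hwQ h1
  have hmiu : ∀ u ∈ M, mi G P u = 1 := by
    intro u hu
    rw [hM, mem_filter] at hu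
    unfold mi
    rw [Finset.card_eq_one]
    refine ⟨w, ?_⟩
    ext v
    rw [mem_filter, mem_singleton]
    constructor
    · rintro ⟨h1, h2, h3⟩
      rcases hQP v h1 with h4 | h4
      · exact h4
      · exact absurd (S.fam.clq i u hu.1 v h4 (Ne.symm h2)) h3
    · rintro rfl
      refine ⟨hwP, ?_, fun h1 => hu.2 h1.symm⟩
      rintro rfl
      exact hwQ hu.1
  have hpair : ∀ u ∈ M, 3 * k ≤ dg G X w + dg G X u + M.card + 3 := by
    intro u hu
    have hu' := mem_filter.1 hu
    have huP : u ∈ P := S.Q_sub i hu'.1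
    have hne : w ≠ u := by rintro rfl; exact hwQ hu'.1
    have h1 := pair_bound G hPX hwP huP (S.pair w (hPX hwP) u (hPX huP) hne hu'.2)
    rw [hmiw, hmiu u hu] at h1
    omega
  have hdw := S.deg w (hPX hwP)
  have htwo : ∀ u ∈ M, (dg G X w - k) + (dg G X u - k) ≤ ∑ v ∈ P, (dg G X v - k) := by
    intro u hu
    have hu' := mem_filter.1 hu
    have hne : w ≠ u := by rintro rfl; exact hwQ hu'.1
    have hsub : ({w, u} : Finset V) ⊆ P := by
      intro v hv
      rw [mem_insert, mem_singleton] at hv
      rcases hv with rfl | rfl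
      · exact hwP
      · exact S.Q_sub i hu'.1
    have h1 : ∑ v ∈ ({w, u} : Finset V), (dg G X v - k) ≤ ∑ v ∈ P, (dg G X v - k) :=
      Finset.sum_le_sum_of_subset hsub
    rw [Finset.sum_pair hne] at h1
    exact h1
  by_cases hcase : ∀ u ∈ M, k + 1 ≤ dg G X u
  · left
    obtain ⟨u, hu⟩ := hMne
    have hsub : insert w M ⊆ P := by
      intro v hv
      rw [mem_insert] at hv
      rcases hv with rfl | hv
      · exact hwP
      · exact S.Q_sub i (mem_filter.1 hv).1
    have hwM : w ∉ M := fun h1 => hwQ (mem_filter.1 h1).1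
    have h1 : ∑ v ∈ insert w M, (dg G X v - k) ≤ ∑ v ∈ P, (dg G X v - k) :=
      Finset.sum_le_sum_of_subset hsub
    rw [Finset.sum_insert hwM, ← Finset.add_sum_erase _ _ hu] at h1
    have h2 : (M.erase u).card ≤ ∑ v ∈ M.erase u, (dg G X v - k) := by
      rw [Finset.card_eq_sum_ones]
      refine Finset.sum_le_sum ?_
      intro v hv
      have := hcase v (mem_of_mem_erase hv)
      omega
    rw [Finset.card_erase_of_mem hu] at h2
    have h3 := hpair u hu
    have h4 := hcase u hu
    have h5 := Finset.card_pos.2 ⟨u, hu⟩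
    omega
  · right
    push Not at hcase
    obtain ⟨u, hu, hdu⟩ := hcase
    have hu' := mem_filter.1 hu
    have huP : u ∈ P := S.Q_sub i hu'.1
    have hne : w ≠ u := by rintro rfl; exact hwQ hu'.1
    have hdu' := S.deg u (hPX huP)
    have h3 := hpair u hu
    have h4 := htwo u hu
    refine ⟨?_, by omega⟩
    have hiw : h w = i := (mem_filter.1 hwP).2
    have hiu : h u = i := (mem_filter.1 huP).2
    obtain ⟨j, hj, hjt⟩ := TR G (W := {w, u}) S.fam.toFam0 h S.hQ S.al
      (by
        intro v hv
        rw [mem_insert, mem_singleton] at hv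
        rcases hv with rfl | rfl
        · exact hPX hwP
        · exact hPX huP)
      (by
        intro x hx y hy hxy
        rw [Finset.mem_coe, mem_insert, mem_singleton] at hx hy
        rcases hx with rfl | rfl <;> rcases hy with rfl | rfl
        · exact absurd rfl hxy
        · exact hu'.2
        · exact fun h1 => hu'.2 h1.symm
        · exact absurd rfl hxy)
      (Finset.univ.erase i)
      (by
        intro j hj
        have hji := Finset.ne_of_mem_erase hj
        rw [Finset.disjoint_left]
        intro v hv hvj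
        have h5 := S.hQ j v hvj
        rw [mem_insert, mem_singleton] at hv
        rcases hv with rfl | rfl
        · exact hji (h5.symm.trans hiw)
        · exact hji (h5.symm.trans hiu))
      (by
        rw [Finset.card_pair hne, Finset.card_erase_of_mem (mem_univ i), Finset.card_univ,
          Fintype.card_fin]
        omega)
      S.ht S.cr
    have hji := Finset.ne_of_mem_erase hj
    refine ⟨w, hwP, j, hji, ?_⟩
    -- `u` has two neighbours outside its group
    have hout : ((Q j).filter (G.Adj u)).card ≤ 2 := by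
      have h5 := adj_add_mi G huP
      rw [hmiu u hu, hPc] at h5
      have h6 : (P.filter (G.Adj u)).card + ((Q j).filter (G.Adj u)).card ≤ dg G X u := by
        unfold dg
        rw [← Finset.card_union_of_disjoint]
        · refine Finset.card_le_card ?_
          intro v hv
          simp only [mem_union, mem_filter] at hv
          rw [mem_filter]
          rcases hv with ⟨h7, h8⟩ | ⟨h7, h8⟩
          · exact ⟨hPX h7, h8⟩
          · exact ⟨S.fam.sub j h7, h8⟩
        · refine Finset.disjoint_filter_filter ?_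
          rw [Finset.disjoint_left]
          intro v hv hvj
          have h7 := (mem_filter.1 hv).2
          rw [S.hQ j v hvj] at h7
          exact hji h7
      omega
    have hsub : (Q j).filter (fun v => ¬ G.Adj w v) ⊆
        (Q j).filter (fun v => ∀ w' ∈ ({w, u} : Finset V), ¬ G.Adj w' v) ∪
        (Q j).filter (G.Adj u) := by
      intro v hv
      rw [mem_filter] at hv
      rw [mem_union, mem_filter, mem_filter]
      by_cases h5 : G.Adj u v
      · exact Or.inr ⟨hv.1, h5⟩
      · left
        refine ⟨hv.1, ?_⟩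
        intro w' hw'
        rw [mem_insert, mem_singleton] at hw'
        rcases hw' with rfl | rfl
        · exact hv.2
        · exact h5
    have h5 := (Finset.card_le_card hsub).trans (Finset.card_union_le _ _)
    omega

end Setup

end Pool.Agent.TwoDens
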