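import Mathlib

/-!
The accounting of one group (integers).
-/

namespace Pool.Agent.TwoDens

theorem acc_group {k s t q ρ m n E : ℤ} (hk : 400 ≤ k) (hs : 200 * s ≤ k) (ht : 12 * t ≤ k)
    (ht1 : 1 ≤ t) (hq1 : q + 1 ≤ k) (hq2 : k ≤ q + 1 + 2 * s) (hρ0 : 0 ≤ ρ) (hρ : ρ ≤ 3 * s)
    (h1 : m + 3 * ρ ≤ 2 * (ρ * t) + ρ * ρ) (hn : 0 ≤ n) (hm : 0 ≤ m)
    (h3 : (q + ρ) * (q + ρ) - (k + 2) * (q + ρ) + 2 * k + 1 +
      n * (2 * (q - (t + 1)) - (k + 1)) ≤ m)
    (h4 : 1 ≤ ρ → (q + ρ - 2) * (ρ + 1) ≤ 2 * (E + m)) (hE : 0 ≤ E)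
    (hnf : ¬ (ρ = 1 ∧ q + 1 = k)) :
    t * n + k + (k + 2 * t) * (q + ρ - k) ≤ E := by
  obtain ⟨b, hb⟩ : ∃ b, b = k - 1 - q := ⟨_, rfl⟩
  have hb0 : 0 ≤ b := by omega
  have hb2 : b ≤ 2 * s := by omega
  obtain rfl : q = k - 1 - b := by omega
  have hs0 : 0 ≤ s := by omega
  have hk0 : 0 ≤ k := by omega
  have ht0 : 0 ≤ t := by omega
  -- the coefficient of `n`
  have hL : 4 * k ≤ 5 * (2 * (k - 1 - b - (t + 1)) - (k + 1)) := by omega
  obtain ⟨L, hLdef⟩ : ∃ L, L = 2 * (k - 1 - b - (t + 1)) - (k + 1) := ⟨_, rfl⟩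
  rw [← hLdef] at h3 hL
  have hnL : 4 * (k * n) ≤ 5 * (n * L) := by
    linarith [mul_le_mul_of_nonneg_left hL hn]
  have htn : 12 * (t * n) ≤ k * n := by
    linarith [mul_le_mul_of_nonneg_right ht hn]
  have h3' : (ρ - 1 - b) * (k + (ρ - 1 - b) - 2) + 1 + n * L ≤ m := by
    have e : (k - 1 - b + ρ) * (k - 1 - b + ρ) - (k + 2) * (k - 1 - b + ρ) + 2 * k =
        (ρ - 1 - b) * (k + (ρ - 1 - b) - 2) := by ring
    linarith
  have hgoal : k - 1 - b + ρ - k = ρ - 1 - b := by ring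
  rw [hgoal]
  have hρk' : 200 * ρ ≤ 3 * k := by linarith
  have hρk : 200 * (ρ * ρ) ≤ 3 * (ρ * k) := by
    linarith [mul_le_mul_of_nonneg_left hρk' hρ0]
  have hρt : 12 * (ρ * t) ≤ ρ * k := by
    linarith [mul_le_mul_of_nonneg_left ht hρ0]
  have hM : 600 * m ≤ 109 * (ρ * k) - 1800 * ρ := by linarith
  clear h3 hLdef
  rcases lt_trichotomy ρ 1 with hρ1 | hρ1 | hρ1
  · -- `ρ = 0`
    obtain rfl : ρ = 0 := by omega
    have hm0 : m = 0 := by linarith
    subst hm0
    have e1 : n * L ≤ (1 + b) * k := by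
      linarith [mul_nonneg (show 0 ≤ 1 + b by linarith) (show 0 ≤ 3 + b by linarith)]
    have e2 : 4 * (k * n) ≤ 5 * ((1 + b) * k) := by linarith
    have e3 : 4 * n ≤ 5 * (1 + b) := by
      have : k * (4 * n) ≤ k * (5 * (1 + b)) := by linarith
      exact le_of_mul_le_mul_left this (by linarith)
    have e4 : 4 * (t * n) ≤ 5 * (t * (1 + b)) := by
      linarith [mul_le_mul_of_nonneg_left e3 ht0]
    have e5 : 0 ≤ t * (1 + b) := mul_nonneg ht0 (by linarith)
    have e6 : 0 ≤ b * k := mul_nonneg hb0 hk0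
    linarith
  · -- `ρ = 1`
    subst hρ1
    have hb1 : 1 ≤ b := by
      by_contra hcon
      exact hnf ⟨rfl, by omega⟩
    have h4' := h4 le_rfl
    have e1 : n * L ≤ m + b * k := by linarith [mul_nonneg hb0 hb0]
    have hbk' : k ≤ b * k := by linarith [mul_le_mul_of_nonneg_right hb1 hk0]
    have htb : t ≤ t * b := by linarith [mul_le_mul_of_nonneg_left hb1 ht0]
    have hm2 : m ≤ 2 * t - 2 := by linarith
    have e2 : 48 * (t * n) ≤ 5 * (m + b * k) := by linarith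
    have htb2 : 12 * (t * b) ≤ b * k := by linarith [mul_le_mul_of_nonneg_right ht hb0]
    have e3 : k - b - 2 - m ≤ E := by linarith
    have e4 : (k + 2 * t) * (1 - 1 - b) = - (b * k) - 2 * (t * b) := by ring
    rw [e4]
    have e5 : 400 * b ≤ b * k := by linarith [mul_le_mul_of_nonneg_left hk hb0]
    linarith
  · -- `ρ ≥ 2`
    have hρ2 : 2 ≤ ρ := by omega
    have h4' := h4 (by omega)
    rcases le_or_gt (ρ - 1 - b) 0 with ha | ha
    · obtain ⟨α, hα⟩ : ∃ α, α = -(ρ - 1 - b) := ⟨_, rfl⟩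
      have hα0 : 0 ≤ α := by omega
      have hα' : ρ - 1 - b = -α := by omega
      rw [hα'] at h3' ⊢
      have hαb : α ≤ b := by omega
      have hg : k - 1 - b + ρ - 2 = k - α - 2 := by omega
      rw [hg] at h4'
      have e0 : 0 ≤ α * α := mul_nonneg hα0 hα0
      have e1 : n * L ≤ m + α * k := by linarith
      have e2 : 48 * (t * n) ≤ 5 * (m + α * k) := by linarith
      have e3 : 0 ≤ t * α := mul_nonneg ht0 hα0
      have e4 : (k + 2 * t) * (-α) = -(α * k) - 2 * (t * α) := by ring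
      rw [e4]
      have e5 : (k - α - 2) * (ρ + 1) = ρ * k + k - α * (ρ + 1) - 2 * ρ - 2 := by ring
      rw [e5] at h4'
      have e6 : α * (ρ + 1) ≤ α * k := by
        refine mul_le_mul_of_nonneg_left ?_ hα0
        omega
      have e7 : 2 * k ≤ ρ * k := mul_le_mul_of_nonneg_right hρ2 hk0
      have e8 : 0 ≤ α * k := mul_nonneg hα0 hk0
      clear h3' h1
      linarith
    · obtain ⟨a, haa⟩ : ∃ a, a = ρ - 1 - b := ⟨_, rfl⟩
      rw [← haa] at ha h3' ⊢
      have ha1 : 1 ≤ a := by omega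
      have haρ : a ≤ ρ := by omega
      have hg : k - 1 - b + ρ - 2 = k + a - 2 := by omega
      rw [hg] at h4'
      have hnL0 : 0 ≤ n * L := by
        refine mul_nonneg hn ?_
        linarith
      have e0 : a * k - a ≤ a * (k + a - 2) := by
        linarith [mul_nonneg (show 0 ≤ a by linarith) (show 0 ≤ a - 1 by linarith)]
      have e1 : a * k - a + 1 + n * L ≤ m := by linarith
      have hak0 : k ≤ a * k := by linarith [mul_le_mul_of_nonneg_right ha1 hk0]
      have hρ6 : 6 ≤ ρ := by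
        by_contra hcon
        have hρ5 : ρ ≤ 5 := by omega
        have h5 : ρ * k ≤ 5 * k := mul_le_mul_of_nonneg_right hρ5 hk0
        have hak0' : 0 ≤ (a - 1) * (k - 1) := mul_nonneg (by linarith) (by linarith)
        linarith
      have e2 : 48 * (t * n) ≤ 5 * m := by
        have : n * L ≤ m := by linarith
        linarith
      have hta : 12 * (t * a) ≤ a * k := by
        linarith [mul_le_mul_of_nonneg_right ht (show 0 ≤ a by linarith)]
      have e3 : a * k ≤ m + ρ := by linarith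
      have e4 : (k + 2 * t) * a = a * k + 2 * (t * a) := by ring
      rw [e4]
      have e5 : (k - 1) * (ρ + 1) ≤ (k + a - 2) * (ρ + 1) := by
        refine mul_le_mul_of_nonneg_right (by linarith) (by linarith)
      have e6 : (k - 1) * (ρ + 1) = ρ * k + k - ρ - 1 := by ring
      rw [e6] at e5
      have e7 : 6 * k ≤ ρ * k := mul_le_mul_of_nonneg_right hρ6 hk0
      clear h3' h1
      linarith

end Pool.Agent.TwoDens
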