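import Pool.Agent.TwoDens.LinF
import Pool.Agent.TwoDens.LinG

/-!
The accounting over all groups: the situation of `Setup` is impossible for `200 s ≤ k`.
-/

open Finset

namespace Pool.Agent.TwoDens

variable {V : Type*} [DecidableEq V] {G : SimpleGraph V} [DecidableRel G.Adj]

namespace Setup

variable {s k t : ℕ} {X : Finset V} {Q : Fin s → Finset V} {h : V → Fin s}

/-- sparsity of a group together with covering vertices -/
theorem cover_int (S : Setup G k t X Q h) (j : Fin s) {F : Finset V} (hFX : F ⊆ X)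
    (hFj : ∀ w ∈ F, h w ≠ j)
    (hF : ∀ w ∈ F, ((Q j).filter (fun u => ¬ G.Adj w u)).card ≤ t + 1)
    (hq3 : 3 ≤ (Q j).card) (hqt : t + 1 ≤ (Q j).card) :
    (((Q j).card : ℤ) + (gp X h j \ Q j).card) * (((Q j).card : ℤ) + (gp X h j \ Q j).card) -
      (k + 2) * (((Q j).card : ℤ) + (gp X h j \ Q j).card) + 2 * k + 1 +
      F.card * (2 * (((Q j).card : ℤ) - (t + 1)) - (k + 1)) ≤ (m2 G (gp X h j) : ℤ) := by
  have hPc := S.card_gp j
  have hd : Disjoint (gp X h j) F := by
    rw [Finset.disjoint_left]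
    intro v hv hvF
    exact hFj v hvF (mem_filter.1 hv).2
  have hPX : gp X h j ⊆ X := Finset.filter_subset _ _
  have h1 := cover_bound G (k := k) (c := (Q j).card - (t + 1)) (P := gp X h j) S.sk
    hPX hFX (by omega) hd (by
      intro w hw
      have h2 := hF w hw
      have h3 := Finset.card_filter_add_card_filter_not (s := Q j) (fun u => G.Adj w u)
      have h4 : ((Q j).filter (fun u => G.Adj w u)).card ≤
          ((gp X h j).filter (G.Adj w)).card :=
        Finset.card_le_card (Finset.filter_subset_filter _ (S.Q_sub j))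
      omega)
  have h2 : (((Q j).card - (t + 1) : ℕ) : ℤ) = ((Q j).card : ℤ) - (t + 1) := by
    rw [Nat.cast_sub hqt]; push_cast; ring
  have h3 : ((gp X h j).card : ℤ) = (Q j).card + (gp X h j \ Q j).card := by
    rw [← hPc]; push_cast; ring
  rw [h2, h3] at h1
  exact h1

theorem absurd_of (S : Setup G k t X Q h) (hs : 1 ≤ s) (hk : 400 ≤ k) (hsk : 200 * s ≤ k)
    (htk : 12 * t ≤ k) (hcard : X.card = k * s) (hR : X.card ≤ (∑ i, (Q i).card) + 3 * s) :
    False := by
  classical
  have ht := S.ht
  -- sizes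
  have hsumP : ∑ i, (gp X h i).card = k * s := by
    rw [← hcard]
    exact (Finset.card_eq_sum_card_fiberwise (f := h) (s := X) (t := Finset.univ)
      (fun _ _ => Finset.mem_univ _)).symm
  have hsumρ : ∑ i, (gp X h i \ Q i).card + ∑ i, (Q i).card = k * s := by
    rw [← hsumP, ← Finset.sum_add_distrib]
    exact Finset.sum_congr rfl (fun i _ => S.card_gp i)
  have hρ : ∀ i, (gp X h i \ Q i).card ≤ 3 * s := by
    intro i
    have h1 : (gp X h i \ Q i).card ≤ ∑ i, (gp X h i \ Q i).card :=
      Finset.single_le_sum (f := fun i => (gp X h i \ Q i).card) (fun _ _ => Nat.zero_le _)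
        (mem_univ i)
    omega
  have hq2 : ∀ i, k ≤ (Q i).card + 1 + 2 * s := by
    intro i
    have h1 : ∑ j ∈ Finset.univ.erase i, ((Q j).card + 1) ≤ ∑ j ∈ Finset.univ.erase i, k :=
      Finset.sum_le_sum (fun j _ => S.hq j)
    rw [Finset.sum_add_distrib, Finset.sum_const, Finset.sum_const,
      Finset.card_erase_of_mem (mem_univ i), Finset.card_univ, Fintype.card_fin, smul_eq_mul,
      smul_eq_mul, mul_one] at h1
    have h2 : (Q i).card + ∑ j ∈ Finset.univ.erase i, (Q j).card = ∑ j, (Q j).card :=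
      Finset.add_sum_erase Finset.univ (fun j => (Q j).card) (mem_univ i)
    obtain ⟨r, rfl⟩ : ∃ r, s = r + 1 := ⟨s - 1, by omega⟩
    have h3 : k * (r + 1) = r * k + k := by ring
    simp only [Nat.add_sub_cancel] at h1
    omega
  -- excess
  let E : Fin s → ℕ := fun i => ∑ v ∈ gp X h i, (dg G X v - k)
  have hE : ∑ i, E i + k * (k * s) = ∑ v ∈ X, dg G X v := by
    have h1 : ∑ i, E i = ∑ v ∈ X, (dg G X v - k) :=
      Finset.sum_fiberwise_of_maps_to (s := X) (t := Finset.univ) (g := h)
        (fun _ _ => Finset.mem_univ _) _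
    have h2 : ∑ v ∈ X, (dg G X v - k) + ∑ v ∈ X, k = ∑ v ∈ X, dg G X v := by
      rw [← Finset.sum_add_distrib]
      refine Finset.sum_congr rfl fun v hv => ?_
      have := S.deg v hv
      omega
    rw [h1, ← h2, Finset.sum_const, smul_eq_mul, hcard]
    ring
  have hX3 : 3 ≤ X.card := by
    rw [hcard]
    have : k * 1 ≤ k * s := Nat.mul_le_mul_left _ hs
    omega
  have hH := S.sk X subset_rfl hX3
  rw [hcard] at hH
  have hHd : ∑ v ∈ X, dg G X v = e2 G X := rfl
  rw [hHd] at hE
  -- exceptional fine groups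
  let Fn : Fin s → Prop := fun i => (gp X h i \ Q i).card = 1 ∧ (Q i).card + 1 = k
  let Bd : Finset (Fin s) := Finset.univ.filter (fun i => Fn i ∧ ¬ k ≤ E i + 4)
  have hBd : ∀ i ∈ Bd, ∃ w ∈ gp X h i, ∃ j, j ≠ i ∧
      ((Q j).filter (fun u => ¬ G.Adj w u)).card ≤ t + 1 := by
    intro i hi
    obtain ⟨-, hf, hn⟩ := mem_filter.1 hi
    rcases S.fine hs i hf.1 hf.2 with h1 | h1
    · exact absurd h1 hn
    · exact h1.1
  have : Nonempty (Fin s) := ⟨⟨0, hs⟩⟩
  have : Nonempty V := by
    obtain ⟨x, -⟩ := Finset.card_pos.1 (lt_of_lt_of_le (by norm_num) hX3)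
    exact ⟨x⟩
  choose! ww hww jj hjj hcov using hBd
  have hhw : ∀ i ∈ Bd, h (ww i) = i := fun i hi => (mem_filter.1 (hww i hi)).2
  let n : Fin s → ℕ := fun j => (Bd.filter (fun i => jj i = j)).card
  let F : Fin s → Finset V := fun j => (Bd.filter (fun i => jj i = j)).image ww
  have hFc : ∀ j, (F j).card = n j := by
    intro j
    refine Finset.card_image_of_injOn ?_
    intro i hi i' hi' hii
    have h1 := hhw i (mem_filter.1 (Finset.mem_coe.1 hi)).1
    have h2 := hhw i' (mem_filter.1 (Finset.mem_coe.1 hi')).1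
    have hii' : ww i = ww i' := hii
    rw [← h1, ← h2, hii']
  have hnsum : ∑ j, n j = Bd.card :=
    (Finset.card_eq_sum_card_fiberwise (f := jj) (s := Bd) (t := Finset.univ)
      (fun _ _ => Finset.mem_univ _)).symm
  have hcovint : ∀ j, (((Q j).card : ℤ) + (gp X h j \ Q j).card) *
      (((Q j).card : ℤ) + (gp X h j \ Q j).card) -
      (k + 2) * (((Q j).card : ℤ) + (gp X h j \ Q j).card) + 2 * k + 1 +
      (n j : ℤ) * (2 * (((Q j).card : ℤ) - (t + 1)) - (k + 1)) ≤ (m2 G (gp X h j) : ℤ) := by
    intro j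
    have hq2j := hq2 j
    rw [← hFc j]
    refine S.cover_int j ?_ ?_ ?_ (by omega) (by omega)
    · intro w hw
      obtain ⟨i, hi, rfl⟩ := mem_image.1 hw
      exact (mem_filter.1 (hww i (mem_filter.1 hi).1)).1
    · intro w hw
      obtain ⟨i, hi, rfl⟩ := mem_image.1 hw
      have h1 := mem_filter.1 hi
      rw [hhw i h1.1, ← h1.2]
      exact (hjj i h1.1).symm
    · intro w hw
      obtain ⟨i, hi, rfl⟩ := mem_image.1 hw
      have h1 := mem_filter.1 hi
      have h2 := hcov i h1.1
      rw [h1.2] at h2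
      exact h2
  -- the estimate of each group
  have hkey : ∀ i, (k : ℤ) + t * n i + (k + 2 * t) * (((gp X h i).card : ℤ) - k) ≤
      E i + 4 + (if i ∈ Bd then (t : ℤ) else 0) := by
    intro i
    have hPc := S.card_gp i
    have hPc' : ((gp X h i).card : ℤ) = (Q i).card + (gp X h i \ Q i).card := by
      rw [← hPc]; push_cast; ring
    have hm2 := S.m2_le i
    have hc := hcovint i
    by_cases hf : Fn i
    · -- fine
      obtain ⟨hf1, hf2⟩ := hf
      have hn0 : n i = 0 := by
        by_contra hne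
        have hn1 : (1 : ℤ) ≤ n i := by
          have : 1 ≤ n i := Nat.one_le_iff_ne_zero.2 hne
          exact_mod_cast this
        rw [hf1] at hc hm2
        have e1 : ((Q i).card : ℤ) = k - 1 := by
          have : ((Q i).card : ℤ) + 1 = k := by exact_mod_cast hf2
          linarith
        rw [e1] at hc
        have e2 : (m2 G (gp X h i) : ℤ) + 3 * 1 ≤ 2 * (1 * t) + 1 * 1 := by exact_mod_cast hm2
        have e3 : (12 : ℤ) * t ≤ k := by exact_mod_cast htk
        have e4 : (400 : ℤ) ≤ k := by exact_mod_cast hk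
        have e5 : (1 : ℤ) * (2 * ((k : ℤ) - 1 - (t + 1)) - (k + 1)) ≤
            (n i : ℤ) * (2 * ((k : ℤ) - 1 - (t + 1)) - (k + 1)) :=
          mul_le_mul_of_nonneg_right hn1 (by linarith)
        push_cast at hc
        nlinarith
      have hg : ((gp X h i).card : ℤ) - k = 0 := by
        rw [hPc', hf1]
        have : ((Q i).card : ℤ) + 1 = k := by exact_mod_cast hf2
        push_cast
        linarith
      rw [hn0, hg]
      by_cases hB : i ∈ Bd
      · rw [if_pos hB]
        have hnb := (mem_filter.1 hB).2.2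
        rcases S.fine hs i hf1 hf2 with h1 | h1
        · exact absurd h1 hnb
        · have h2 : k ≤ E i + t + 2 := h1.2
          have h3 : (k : ℤ) ≤ E i + t + 2 := by exact_mod_cast h2
          push_cast
          linarith
      · rw [if_neg hB]
        have h1 : k ≤ E i + 4 := by
          by_contra h2
          exact hB (mem_filter.2 ⟨mem_univ _, ⟨hf1, hf2⟩, h2⟩)
        have h3 : (k : ℤ) ≤ E i + 4 := by exact_mod_cast h1
        push_cast
        linarith
    · have hB : i ∉ Bd := fun hB => hf (mem_filter.1 hB).2.1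
      rw [if_neg hB]
      have h4 : (1 : ℤ) ≤ ((gp X h i \ Q i).card : ℤ) →
          (((Q i).card : ℤ) + ((gp X h i \ Q i).card : ℤ) - 2) *
            (((gp X h i \ Q i).card : ℤ) + 1) ≤ 2 * ((E i : ℤ) + (m2 G (gp X h i) : ℤ)) := by
        intro h5
        have h6 : 1 ≤ (gp X h i \ Q i).card := by exact_mod_cast h5
        have h7 := S.cover i h6
        have hq2i := hq2 i
        have h8 : 2 ≤ (gp X h i).card := by omega
        have h9 : (((gp X h i).card - 2 : ℕ) : ℤ) =
            ((Q i).card : ℤ) + ((gp X h i \ Q i).card : ℤ) - 2 := by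
          rw [Nat.cast_sub h8, hPc']; push_cast; ring
        rw [← h9]
        exact_mod_cast h7
      have h5 := acc_group (k := k) (s := s) (t := t) (q := (Q i).card)
        (ρ := (gp X h i \ Q i).card) (m := m2 G (gp X h i)) (n := n i) (E := E i)
        (by exact_mod_cast hk) (by exact_mod_cast hsk) (by exact_mod_cast htk)
        (by exact_mod_cast ht) (by exact_mod_cast S.hq i) (by exact_mod_cast hq2 i)
        (by positivity) (by exact_mod_cast hρ i) (by exact_mod_cast hm2) (by positivity)
        (by positivity) hc h4 (by positivity) (by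
          rintro ⟨h6, h7⟩
          exact hf ⟨by exact_mod_cast h6, by exact_mod_cast h7⟩)
      rw [hPc']
      linarith
  -- summation
  have hsum := Finset.sum_le_sum (s := Finset.univ) (fun i _ => hkey i)
  have hL : ∑ i : Fin s, ((k : ℤ) + t * n i + (k + 2 * t) * (((gp X h i).card : ℤ) - k)) =
      s * k + t * Bd.card := by
    rw [Finset.sum_add_distrib, Finset.sum_add_distrib, ← Finset.mul_sum, ← Finset.mul_sum,
      Finset.sum_sub_distrib, Finset.sum_const, Finset.card_univ, Fintype.card_fin, nsmul_eq_mul]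
    have e1 : ∑ i, ((n i : ℕ) : ℤ) = Bd.card := by
      rw [← hnsum]; push_cast; rfl
    have e2 : ∑ i, (((gp X h i).card : ℕ) : ℤ) = k * s := by
      rw [← Nat.cast_sum, hsumP]; push_cast; ring
    rw [e1, e2]
    ring
  have hRt : ∑ i : Fin s, ((E i : ℤ) + 4 + (if i ∈ Bd then (t : ℤ) else 0)) =
      ∑ i, (E i : ℤ) + 4 * s + t * Bd.card := by
    rw [Finset.sum_add_distrib, Finset.sum_add_distrib, Finset.sum_const, Finset.card_univ,
      Fintype.card_fin, nsmul_eq_mul, ← Finset.sum_filter, Finset.filter_mem_eq_inter,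
      Finset.univ_inter, Finset.sum_const, nsmul_eq_mul]
    ring
  rw [hL, hRt] at hsum
  have hE' : ∑ i, (E i : ℤ) + k * (k * s) = (e2 G X : ℤ) := by exact_mod_cast hE
  have hH' : (e2 G X : ℤ) + 2 * k + 1 ≤ (k + 1) * (k * s) := by exact_mod_cast hH
  have hsk' : (200 : ℤ) * s ≤ k := by exact_mod_cast hsk
  have hs' : (1 : ℤ) ≤ s := by exact_mod_cast hs
  nlinarith

end Setup

end Pool.Agent.TwoDens
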