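import Pool.Agent.TwoDens.LinH

/-!
The induction: for `200 s ≤ k` there is no graph on `k s` vertices without independent sets of
`s + 1` vertices in which every set `Y` of at least three vertices has
`2 e(Y) ≤ (k + 1) |Y| - 2 k - 1`.
-/

open Finset

namespace Pool.Agent.TwoDens

variable {V : Type*} [DecidableEq V] (G : SimpleGraph V) [DecidableRel G.Adj]

/-- removing the closed neighbourhood of an independent set -/
theorem Al_sdiff {s r : ℕ} {X W : Finset V} (hal : Al G s X) (hWX : W ⊆ X)
    (hW : G.IsIndepSet (W : Set V)) (hr : s ≤ r + W.card) :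
    Al G r (X \ X.filter (fun u => ∃ w ∈ W, w = u ∨ G.Adj w u)) := by
  classical
  intro I hI hind
  have hIX : I ⊆ X := hI.trans Finset.sdiff_subset
  have hno : ∀ u ∈ I, ∀ w ∈ W, ¬ (w = u ∨ G.Adj w u) := by
    intro u hu w hw h
    have h1 := hI hu
    rw [mem_sdiff] at h1
    exact h1.2 (mem_filter.2 ⟨h1.1, w, hw, h⟩)
  have hdisj : Disjoint W I := by
    rw [Finset.disjoint_left]
    intro v hv hvI
    exact hno v hvI v hv (Or.inl rfl)
  have hins : G.IsIndepSet ((W ∪ I : Finset V) : Set V) := by
    intro x hx y hy hxy
    rw [Finset.mem_coe, mem_union] at hx hy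
    rcases hx with hx | hx <;> rcases hy with hy | hy
    · exact hW hx hy hxy
    · exact fun h => hno y hy x hx (Or.inr h)
    · exact fun h => hno x hx y hy (Or.inr h.symm)
    · exact hind hx hy hxy
  have h1 := hal _ (Finset.union_subset hWX hIX) hins
  rw [Finset.card_union_of_disjoint hdisj] at h1
  omega

theorem exists_setup {s k : ℕ} {X : Finset V} (hs : 2 ≤ s) (hsk : 200 * s ≤ k) (hS : Sk G k X)
    (hal : Al G s X) (hcard : X.card = k * s) (hdeg : ∀ v ∈ X, k ≤ dg G X v)
    (hpair : ∀ x ∈ X, ∀ y ∈ X, x ≠ y → ¬ G.Adj x y →
      2 * k ≤ (X.filter (fun u => u = x ∨ u = y ∨ G.Adj x u ∨ G.Adj y u)).card) : False := by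
  classical
  have hk : 400 ≤ k := by omega
  have hX3 : 3 ≤ X.card := by
    rw [hcard]
    have : k * 1 ≤ k * s := Nat.mul_le_mul_left _ (by omega)
    omega
  have hsum : ∑ v ∈ X, dg G X v ≤ (k + 1) * (k * s) := by
    have h1 := hS X subset_rfl hX3
    rw [hcard] at h1
    have h2 : ∑ v ∈ X, dg G X v = e2 G X := rfl
    omega
  obtain ⟨Q, hF, hR⟩ := exists_fam G (by omega) (by omega) hal hcard hdeg hsum
  have hq : ∀ i, (Q i).card + 1 ≤ k := by
    intro i
    refine hS.clique_lt G (by omega) (hF.sub i) ?_
    unfold m2
    rw [Finset.sum_eq_zero_iff]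
    intro u hu
    rw [Finset.card_eq_zero, Finset.filter_eq_empty_iff]
    rintro v hv ⟨h1, h2⟩
    exact h2 (hF.clq i u hu v hv (Ne.symm h1))
  have hF0 := hF.toFam0
  let t := k / 13 + 1
  have ht : 0 < t := Nat.succ_pos _
  have ht12 : 12 * t ≤ k := by show 12 * (k / 13 + 1) ≤ k; omega
  have ht13 : k ≤ 13 * t := by show k ≤ 13 * (k / 13 + 1); omega
  have hnum : 2 * (k * s) + 9 * (s * s) < 2 * (t * t) := by
    have h1 : k * k ≤ (13 * t) * (13 * t) := Nat.mul_le_mul ht13 ht13
    have h2 : 200 * s * k ≤ k * k := Nat.mul_le_mul_right _ hsk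
    have h3 : (200 * s) * (200 * s) ≤ k * k := Nat.mul_le_mul hsk hsk
    have h4 : 0 < k * k := by positivity
    nlinarith
  let z : Fin s := ⟨0, by omega⟩
  let h1 : V → Fin s := fun v => if hv : ∃ i, v ∈ Q i then hv.choose else z
  have huniq : ∀ v i j, v ∈ Q i → v ∈ Q j → i = j := by
    intro v i j hi hj
    by_contra hne
    exact Finset.disjoint_left.1 (hF.disj i j hne) hi hj
  have hh1 : ∀ i, ∀ v ∈ Q i, h1 v = i := by
    intro i v hv
    have hex : ∃ i, v ∈ Q i := ⟨i, hv⟩
    simp only [h1, dif_pos hex]
    exact huniq v _ _ hex.choose_spec hv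
  have hcr : ∀ h : V → Fin s, (∀ i, ∀ v ∈ Q i, h v = i) → cr G h (UQ Q) < 2 * (t * t) := by
    intro h hh
    exact lt_of_le_of_lt (cross_Q G hF0 h hh hcard hdeg hsum hq hR) hnum
  have hnear : ∀ w ∈ X, ∃ j, ((Q j).filter (fun u => u ≠ w ∧ ¬ G.Adj w u)).card < t ∧
      ∀ i, w ∈ Q i → j = i := by
    intro w hw
    by_cases hwQ : ∃ i, w ∈ Q i
    · obtain ⟨i, hi⟩ := hwQ
      refine ⟨i, ?_, fun j hj => huniq w i j hi hj⟩
      have : (Q i).filter (fun u => u ≠ w ∧ ¬ G.Adj w u) = ∅ := by
        rw [Finset.filter_eq_empty_iff]
        rintro u hu ⟨h2, h3⟩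
        exact h3 (hF.clq i w hi u hu (Ne.symm h2))
      rw [this]
      exact ht
    · push Not at hwQ
      obtain ⟨j, -, hj⟩ := TR G (W := {w}) hF0 h1 hh1 hal (by simpa using hw)
        (by
          intro x hx y hy hxy
          rw [Finset.mem_coe, mem_singleton] at hx hy
          exact absurd (hx.trans hy.symm) hxy)
        Finset.univ
        (by
          intro j _
          rw [Finset.disjoint_singleton_left]
          exact hwQ j)
        (by rw [Finset.card_singleton, Finset.card_univ, Fintype.card_fin]; omega)
        ht (hcr h1 hh1)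
      refine ⟨j, ?_, fun i hi => absurd hi (hwQ i)⟩
      refine lt_of_le_of_lt (Finset.card_le_card ?_) hj
      intro u hu
      rw [mem_filter] at hu ⊢
      refine ⟨hu.1, ?_⟩
      intro w' hw'
      rw [mem_singleton] at hw'
      rw [hw']
      exact hu.2.2
  let h : V → Fin s := fun v => if hv : v ∈ X then (hnear v hv).choose else z
  have hh : ∀ i, ∀ v ∈ Q i, h v = i := by
    intro i v hv
    have hvX := hF.sub i hv
    simp only [h, dif_pos hvX]
    exact (hnear v hvX).choose_spec.2 i hv
  have hS' : Setup G k t X Q h := by
    refine ⟨hF, hh, ?_, hdeg, hS, hal, hpair, hcr h hh, ht, hq⟩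
    intro v hv
    simp only [h, dif_pos hv]
    exact (hnear v hv).choose_spec.1
  exact hS'.absurd_of (by omega) hk hsk ht12 hcard hR

/-- the main non-existence theorem -/
theorem noG (s : ℕ) : 1 ≤ s → ∀ k, 200 * s ≤ k → ∀ (X : Finset V), Sk G k X → Al G s X →
    X.card < k * s := by
  classical
  induction s using Nat.strong_induction_on with
  | _ s ih =>
    intro hs1 k hsk X0 hS0 hal0
    by_contra hcon
    push Not at hcon
    obtain ⟨X, hXX, hcard⟩ := Finset.exists_subset_card_eq hcon
    have hS : Sk G k X := Sk.mono G hS0 hXX
    have hal : Al G s X := fun I hI hind => hal0 I (hI.trans hXX) hind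
    rcases Nat.eq_or_lt_of_le hs1 with h1 | h2
    · -- `s = 1`
      subst h1
      have h2 : X.card < k := by
        refine hS.clique_lt G (by omega) subset_rfl ?_
        unfold m2
        rw [Finset.sum_eq_zero_iff]
        intro u hu
        rw [Finset.card_eq_zero, Finset.filter_eq_empty_iff]
        rintro v hv ⟨h3, h4⟩
        have h5 := hal {u, v} (by
          intro x hx
          rw [mem_insert, mem_singleton] at hx
          rcases hx with rfl | rfl
          · exact hu
          · exact hv) (by
          intro x hx y hy hxy
          rw [Finset.mem_coe, mem_insert, mem_singleton] at hx hy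
          rcases hx with rfl | rfl <;> rcases hy with rfl | rfl
          · exact absurd rfl hxy
          · exact h4
          · exact fun h => h4 h.symm
          · exact absurd rfl hxy)
        rw [Finset.card_pair (Ne.symm h3)] at h5
        omega
      omega
    · -- `s ≥ 2`
      have hdeg : ∀ v ∈ X, k ≤ dg G X v := by
        intro v hv
        by_contra hlt
        push Not at hlt
        have hal' := Al_sdiff G (r := s - 1) (W := {v}) hal (by simpa using hv) (by
          intro x hx y hy hxy
          rw [Finset.mem_coe, mem_singleton] at hx hy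
          exact absurd (hx.trans hy.symm) hxy) (by rw [Finset.card_singleton]; omega)
        set N := X.filter (fun u => ∃ w ∈ ({v} : Finset V), w = u ∨ G.Adj w u) with hN
        have hNX : N ⊆ X := Finset.filter_subset _ _
        have h3 := ih (s - 1) (by omega) (by omega) k (by omega) (X \ N)
          (Sk.mono G hS Finset.sdiff_subset) hal'
        have h4 := Finset.card_sdiff_add_card_eq_card hNX
        have h5 : N.card ≤ dg G X v + 1 := by
          have : N ⊆ insert v (X.filter (G.Adj v)) := by
            intro u hu
            rw [hN, mem_filter] at hu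
            obtain ⟨h6, w, hw, h7⟩ := hu
            rw [mem_singleton] at hw
            subst hw
            rw [mem_insert, mem_filter]
            rcases h7 with h7 | h7
            · exact Or.inl h7.symm
            · exact Or.inr ⟨h6, h7⟩
          exact (Finset.card_le_card this).trans (Finset.card_insert_le _ _)
        obtain ⟨r, rfl⟩ : ∃ r, s = r + 1 := ⟨s - 1, by omega⟩
        simp only [Nat.add_sub_cancel] at h3
        have h6 : k * (r + 1) = k * r + k := by ring
        omega
      have hpair : ∀ x ∈ X, ∀ y ∈ X, x ≠ y → ¬ G.Adj x y →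
          2 * k ≤ (X.filter (fun u => u = x ∨ u = y ∨ G.Adj x u ∨ G.Adj y u)).card := by
        intro x hx y hy hxy hna
        by_contra hlt
        push Not at hlt
        have hal' := Al_sdiff G (r := s - 2) (W := {x, y}) hal (by
          intro v hv
          rw [mem_insert, mem_singleton] at hv
          rcases hv with rfl | rfl
          · exact hx
          · exact hy) (by
          intro p hp q hq hpq
          rw [Finset.mem_coe, mem_insert, mem_singleton] at hp hq
          rcases hp with rfl | rfl <;> rcases hq with rfl | rfl
          · exact absurd rfl hpq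
          · exact hna
          · exact fun h => hna h.symm
          · exact absurd rfl hpq) (by rw [Finset.card_pair hxy]; omega)
        set N := X.filter (fun u => ∃ w ∈ ({x, y} : Finset V), w = u ∨ G.Adj w u) with hN
        have hNX : N ⊆ X := Finset.filter_subset _ _
        have hNc : N.card ≤
            (X.filter (fun u => u = x ∨ u = y ∨ G.Adj x u ∨ G.Adj y u)).card := by
          refine Finset.card_le_card ?_
          intro u hu
          rw [hN, mem_filter] at hu
          obtain ⟨h6, w, hw, h7⟩ := hu
          rw [mem_insert, mem_singleton] at hw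
          rw [mem_filter]
          refine ⟨h6, ?_⟩
          rcases hw with rfl | rfl
          · rcases h7 with h7 | h7
            · exact Or.inl h7.symm
            · exact Or.inr (Or.inr (Or.inl h7))
          · rcases h7 with h7 | h7
            · exact Or.inr (Or.inl h7.symm)
            · exact Or.inr (Or.inr (Or.inr h7))
        have h4 := Finset.card_sdiff_add_card_eq_card hNX
        rcases Nat.eq_or_lt_of_le h2 with h5 | h5
        · -- `s = 2`
          have hs2 : s = 2 := by omega
          subst hs2
          have h6 : X \ N = ∅ := by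
            by_contra hne
            obtain ⟨u, hu⟩ := Finset.nonempty_iff_ne_empty.2 hne
            have h7 := hal' {u} (by simpa using hu) (by
              intro p hp q hq hpq
              rw [Finset.mem_coe, mem_singleton] at hp hq
              exact absurd (hp.trans hq.symm) hpq)
            rw [Finset.card_singleton] at h7
            omega
          rw [h6, Finset.card_empty] at h4
          omega
        · have h3 := ih (s - 2) (by omega) (by omega) k (by omega) (X \ N)
            (Sk.mono G hS Finset.sdiff_subset) hal'
          obtain ⟨r, rfl⟩ : ∃ r, s = r + 2 := ⟨s - 2, by omega⟩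
          simp only [Nat.add_sub_cancel] at h3
          have h6 : k * (r + 2) = k * r + 2 * k := by ring
          omega
      exact exists_setup G h2 hsk hS hal hcard hdeg hpair

end Pool.Agent.TwoDens
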