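import Pool.Agent.TwoDens.Cross

open Finset

namespace Pool.Agent.TwoDens

/-- minimum degree from the bound for `a` -/
theorem deg_of_T {a k t : ℕ} {V : Type} [DecidableEq V] (G : SimpleGraph V) [DecidableRel G.Adj]
    (hT : ∀ X : Finset V, Sk G k X → Al G a X → X.card + 1 ≤ k * a)
    {Y : Finset V} (hS : Sk G k Y) (hal : Al G (a + 1) Y) (hY : Y.card + t = k * (a + 1)) :
    ∀ v ∈ Y, k ≤ dg G Y v + t := by
  intro v hv
  let Z := Y.filter (fun u => u ≠ v ∧ ¬ G.Adj v u)
  have hZ : Z ⊆ Y := Finset.filter_subset _ _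
  have h1 : Z.card + 1 ≤ k * a := by
    refine hT Z (hS.mono G hZ) ?_
    intro J hJ hind
    have hvJ : v ∉ J := fun h => (mem_filter.1 (hJ h)).2.1 rfl
    have h2 := hal (insert v J) (Finset.insert_subset hv (hJ.trans hZ)) (by
      intro x hx y hy hxy
      rw [Finset.mem_coe, mem_insert] at hx hy
      rcases hx with rfl | hx <;> rcases hy with rfl | hy
      · exact absurd rfl hxy
      · exact (mem_filter.1 (hJ hy)).2.2
      · exact fun h => (mem_filter.1 (hJ hx)).2.2 h.symm
      · exact hind hx hy hxy)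
    rw [Finset.card_insert_of_notMem hvJ] at h2
    omega
  have h3 : Y.card = Z.card + (dg G Y v + 1) := by
    have h4 : Y = Z ∪ insert v (Y.filter (G.Adj v)) := by
      ext u
      simp only [Z, mem_union, mem_filter, mem_insert]
      constructor
      · intro hu
        by_cases h5 : u = v
        · exact Or.inr (Or.inl h5)
        · by_cases h6 : G.Adj v u
          · exact Or.inr (Or.inr ⟨hu, h6⟩)
          · exact Or.inl ⟨hu, h5, h6⟩
      · rintro (⟨hu, _⟩ | rfl | ⟨hu, _⟩)
        · exact hu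
        · exact hv
        · exact hu
    have h5 : Disjoint Z (insert v (Y.filter (G.Adj v))) := by
      rw [Finset.disjoint_left]
      intro u hu hu'
      rw [mem_filter] at hu
      rw [mem_insert, mem_filter] at hu'
      rcases hu' with h | h
      · exact hu.2.1 h
      · exact hu.2.2 h.2
    have h6 : v ∉ Y.filter (G.Adj v) := fun h => G.loopless.irrefl v (mem_filter.1 h).2
    conv_lhs => rw [h4]
    rw [Finset.card_union_of_disjoint h5, Finset.card_insert_of_notMem h6]
    rfl
  have h4 : k * (a + 1) = k * a + k := by ring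
  omega

/-- the groups have total size `|Y|` -/
theorem sum_grp {V : Type} [DecidableEq V] {Y I : Finset V} {h : V → V}
    (hI : ∀ v ∈ Y, h v ∈ I) : ∑ j ∈ I, (grp Y h j).card = Y.card :=
  (Finset.card_eq_sum_card_fiberwise hI).symm

theorem exists_missing {k : ℕ} {V : Type} [DecidableEq V] (G : SimpleGraph V) [DecidableRel G.Adj]
    {Y B : Finset V} (hk : 3 ≤ k) (hS : Sk G k Y) (hB : B ⊆ Y) (hc : k ≤ B.card) :
    ∃ x ∈ B, ∃ y ∈ B, x ≠ y ∧ ¬ G.Adj x y := by
  by_contra hcon
  push Not at hcon
  have h1 : m2 G B = 0 := by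
    unfold m2
    rw [Finset.sum_eq_zero_iff]
    intro u hu
    rw [Finset.card_eq_zero, Finset.filter_eq_empty_iff]
    rintro v hv ⟨h1, h2⟩
    exact h2 (hcon u hu v hv (Ne.symm h1))
  have := hS.clique_lt G hk hB h1
  omega

/-- Main theorem for multiples of `a`: sparse graphs (`m_2 < (k+1)/2`) with independence number at
most `a` have fewer than `k a` vertices, for `k` large. -/
theorem T_thm : ∀ a : ℕ, 1 ≤ a → ∃ K, ∀ k, K ≤ k → ∀ {V : Type} [DecidableEq V]
    (G : SimpleGraph V) [DecidableRel G.Adj] (X : Finset V), Sk G k X → Al G a X →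
    X.card + 1 ≤ k * a := by
  intro a ha
  induction a, ha using Nat.le_induction with
  | base =>
    refine ⟨3, ?_⟩
    intro k hk V _ G _ X hS hal
    have h1 : m2 G X = 0 := by
      unfold m2
      rw [Finset.sum_eq_zero_iff]
      intro u hu
      rw [Finset.card_eq_zero, Finset.filter_eq_empty_iff]
      rintro v hv ⟨h1, h2⟩
      have h3 := hal {u, v} (by
        intro z hz
        rw [mem_insert, mem_singleton] at hz
        rcases hz with rfl | rfl
        · exact hu
        · exact hv) (by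
        intro p hp q hq hpq
        simp only [coe_insert, coe_singleton, Set.mem_insert_iff, Set.mem_singleton_iff] at hp hq
        rcases hp with rfl | rfl <;> rcases hq with rfl | rfl
        · exact absurd rfl hpq
        · exact h2
        · exact fun h => h2 h.symm
        · exact absurd rfl hpq)
      rw [Finset.card_pair (Ne.symm h1)] at h3
      omega
    have := hS.clique_lt G hk subset_rfl h1
    omega
  | succ a ha ih =>
    obtain ⟨K1, hK1⟩ := ih
    obtain ⟨K2, hK2⟩ := struct_thm (a + 1) 0 (2 * (a + 1) + 2) (by omega)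
    refine ⟨K1 + K2 + 4 * (a + 1) * (a + 1) + 3, ?_⟩
    intro k hk V _ G _ X hS hal
    by_contra hcon
    push Not at hcon
    obtain ⟨Y, hYX, hYc⟩ := Finset.exists_subset_card_eq (s := X) (n := k * (a + 1)) (by omega)
    have hSY : Sk G k Y := hS.mono G hYX
    have halY : Al G (a + 1) Y := fun J hJ hind => hal J (hJ.trans hYX) hind
    have hdeg := deg_of_T G (t := 0) (hK1 k (by omega) G) hSY halY (by omega)
    obtain ⟨I, h, Λ, hIc, hI, hΛ, hP1, hP2⟩ := hK2 k (by omega) G Y hSY halY (by omega) hdeg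
    have hP1' : ∑ x ∈ Y, ms G Y h x ≤ 2 * Λ := hP1
    have hΛk : 2 * Λ < k := by
      by_contra hc
      have : 3 * Λ ≤ (2 * (a + 1) + 2) * Λ := Nat.mul_le_mul_right _ (by omega)
      omega
    have hle : ∀ j ∈ I, (grp Y h j).card ≤ k := fun j _ =>
      grp_le G (by omega) hSY h hP1' hΛk j
    have heq : ∀ j ∈ I, (grp Y h j).card = k := by
      have h1 : ∑ j ∈ I, (grp Y h j).card = ∑ j ∈ I, k := by
        rw [sum_grp hI, Finset.sum_const, smul_eq_mul, hIc, hYc, mul_comm]
      exact (Finset.sum_eq_sum_iff_of_le hle).1 h1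
    -- missing pairs
    have hmis : ∀ j ∈ I, ∃ x ∈ grp Y h j, ∃ y ∈ grp Y h j, x ≠ y ∧ ¬ G.Adj x y := fun j hj =>
      exists_missing G (by omega) hSY (Finset.filter_subset _ _) (heq j hj).ge
    choose! p hp q hq hpq hna using hmis
    let S : Finset V := I.biUnion (fun j => {p j, q j})
    have hSc : S.card ≤ 2 * (a + 1) := by
      have : S.card ≤ I.card * 2 :=
        Finset.card_biUnion_le_card_mul _ _ _ fun j _ => Finset.card_le_two
      omega
    have hSY' : S ⊆ Y := by
      intro z hz
      obtain ⟨j, hj, hz⟩ := mem_biUnion.1 hz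
      rw [mem_insert, mem_singleton] at hz
      rcases hz with rfl | rfl
      · exact (mem_filter.1 (hp j hj)).1
      · exact (mem_filter.1 (hq j hj)).1
    have hhS : ∀ j ∈ I, ∀ x ∈ ({p j, q j} : Finset V), h x = j := by
      intro j hj x hx
      rw [mem_insert, mem_singleton] at hx
      rcases hx with rfl | rfl
      · exact (mem_filter.1 (hp j hj)).2
      · exact (mem_filter.1 (hq j hj)).2
    obtain ⟨j0, hj0⟩ : I.Nonempty := Finset.card_pos.1 (by omega)
    let r : V → V := fun _ => j0
    have himg : (I.image r).card = 1 := by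
      have : I.image r = {j0} := by
        ext z
        rw [mem_image, mem_singleton]
        constructor
        · rintro ⟨_, _, h⟩; exact h.symm
        · rintro rfl; exact ⟨z, hj0, rfl⟩
      rw [this, Finset.card_singleton]
    have hup := cross_le G (I := I) hSY h r hI (by
      intro j hj
      rw [heq j hj]; omega)
    rw [himg] at hup
    have hsq : ∑ j ∈ I, (grp Y h j).card * (grp Y h j).card = (a + 1) * (k * k) := by
      rw [Finset.sum_congr rfl (fun j hj => by rw [heq j hj]), Finset.sum_const, smul_eq_mul, hIc]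
    have hload : ∀ j ∈ I, k ≤ ∑ x ∈ ({p j, q j} : Finset V),
        ((Y \ S).filter (fun y => r (h y) = r (h x) ∧ h y ≠ h x ∧ G.Adj x y)).card
          + Λ + 2 * (a + 1) := by
      intro j hj
      obtain ⟨j', hj', hjj', hmiss⟩ := hP2 (p j) (mem_filter.1 (hp j hj)).1 (q j)
        (mem_filter.1 (hq j hj)).1 (hpq j hj) (hna j hj)
        (by rw [(mem_filter.1 (hp j hj)).2, (mem_filter.1 (hq j hj)).2])
      rw [(mem_filter.1 (hp j hj)).2] at hjj'
      rw [Finset.sum_pair (hpq j hj)]
      have h1 : grp Y h j' ⊆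
          (((Y \ S).filter (fun y => r (h y) = r (h (p j)) ∧ h y ≠ h (p j) ∧ G.Adj (p j) y) ∪
          (Y \ S).filter (fun y => r (h y) = r (h (q j)) ∧ h y ≠ h (q j) ∧ G.Adj (q j) y)) ∪
          (Y.filter (fun u => h u = j' ∧ ¬ G.Adj (p j) u ∧ ¬ G.Adj (q j) u))) ∪ S := by
        intro u hu
        obtain ⟨huY, huj⟩ := mem_filter.1 hu
        simp only [mem_union, mem_filter, mem_sdiff]
        by_cases h2 : u ∈ S
        · exact Or.inr h2
        · by_cases h3 : G.Adj (p j) u
          · refine Or.inl (Or.inl (Or.inl ⟨⟨huY, h2⟩, rfl, ?_, h3⟩))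
            rw [huj, (mem_filter.1 (hp j hj)).2]; exact hjj'
          · by_cases h4 : G.Adj (q j) u
            · refine Or.inl (Or.inl (Or.inr ⟨⟨huY, h2⟩, rfl, ?_, h4⟩))
              rw [huj, (mem_filter.1 (hq j hj)).2]; exact hjj'
            · exact Or.inl (Or.inr ⟨huY, huj, h3, h4⟩)
      have h2 := (Finset.card_le_card h1).trans (Finset.card_union_le _ _)
      rw [heq j' hj'] at h2
      have h3 := Finset.card_union_le
        ((Y \ S).filter (fun y => r (h y) = r (h (p j)) ∧ h y ≠ h (p j) ∧ G.Adj (p j) y) ∪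
          (Y \ S).filter (fun y => r (h y) = r (h (q j)) ∧ h y ≠ h (q j) ∧ G.Adj (q j) y))
        (Y.filter (fun u => h u = j' ∧ ¬ G.Adj (p j) u ∧ ¬ G.Adj (q j) u))
      have h4 := Finset.card_union_le
        ((Y \ S).filter (fun y => r (h y) = r (h (p j)) ∧ h y ≠ h (p j) ∧ G.Adj (p j) y))
        ((Y \ S).filter (fun y => r (h y) = r (h (q j)) ∧ h y ≠ h (q j) ∧ G.Adj (q j) y))
      omega
    have hlow := double_count (Y := Y) (S := S) hSY'
      (fun x y => r (h y) = r (h x) ∧ h y ≠ h x ∧ G.Adj x y)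
      (fun x y hxy => ⟨hxy.1.symm, hxy.2.1.symm, hxy.2.2.symm⟩)
    have hsumS : ∑ x ∈ S, ((Y \ S).filter
        (fun y => r (h y) = r (h x) ∧ h y ≠ h x ∧ G.Adj x y)).card =
        ∑ j ∈ I, ∑ x ∈ ({p j, q j} : Finset V), ((Y \ S).filter
        (fun y => r (h y) = r (h x) ∧ h y ≠ h x ∧ G.Adj x y)).card := by
      refine Finset.sum_biUnion ?_
      intro i hi j hj hij
      rw [Function.onFun, Finset.disjoint_left]
      intro z h1 h2
      exact hij ((hhS i hi z h1).symm.trans (hhS j hj z h2))
    rw [hsumS] at hlow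
    have hsum2 : (a + 1) * k ≤ (∑ j ∈ I, ∑ x ∈ ({p j, q j} : Finset V), ((Y \ S).filter
        (fun y => r (h y) = r (h x) ∧ h y ≠ h x ∧ G.Adj x y)).card)
        + (a + 1) * (Λ + 2 * (a + 1)) := by
      have h1 := Finset.sum_le_sum hload
      simp only [add_assoc] at h1
      rw [Finset.sum_add_distrib (g := fun _ => Λ + 2 * (a + 1))] at h1
      simp only [Finset.sum_const, smul_eq_mul, hIc] at h1
      exact h1
    have hlow' : 2 * ((∑ j ∈ I, ∑ x ∈ ({p j, q j} : Finset V), ((Y \ S).filter
        (fun y => r (h y) = r (h x) ∧ h y ≠ h x ∧ G.Adj x y)).card)) ≤ crossR G Y h r := hlow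
    rw [hsq, hYc] at hup
    nlinarith

end Pool.Agent.TwoDens
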