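import Pool.Agent.TwoDens.MainA

open Finset

namespace Pool.Agent.TwoDens

variable {V : Type} [DecidableEq V] (G : SimpleGraph V) [DecidableRel G.Adj]

/-- merging lemma -/
theorem merge (I : Finset V) (E : Finset (V × V)) :
    ∃ r : V → V, (∀ e ∈ E, r e.1 = r e.2) ∧ I.card ≤ (I.image r).card + E.card := by
  induction E using Finset.induction_on with
  | empty => exact ⟨id, by simp, by simp⟩
  | insert e E he ih =>
    obtain ⟨r0, h1, h2⟩ := ih
    refine ⟨fun v => if r0 v = r0 e.1 then r0 e.2 else r0 v, ?_, ?_⟩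
    · intro f hf
      rw [mem_insert] at hf
      rcases hf with rfl | hf
      · simp only [if_true]
        by_cases h : r0 f.2 = r0 f.1
        · simp [h]
        · simp [h]
      · simp only [h1 f hf]
    · have h3 : (I.image r0).erase (r0 e.1) ⊆
          I.image (fun v => if r0 v = r0 e.1 then r0 e.2 else r0 v) := by
        intro c hc
        rw [mem_erase, mem_image] at hc
        obtain ⟨hc1, v, hv, rfl⟩ := hc
        rw [mem_image]
        exact ⟨v, hv, by simp [hc1]⟩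
      have h4 := Finset.card_le_card h3
      have h5 : (I.image r0).card - 1 ≤ ((I.image r0).erase (r0 e.1)).card :=
        Finset.pred_card_le_card_erase
      rw [Finset.card_insert_of_notMem he]
      omega

/-- degree of `v` into group `j` -/
def dj (Y : Finset V) (h : V → V) (v j : V) : ℕ := (Y.filter (fun u => h u = j ∧ G.Adj v u)).card

/-- degree of `v` into the groups of `T` -/
def dT (Y : Finset V) (h : V → V) (v : V) (T : Finset V) : ℕ :=
  (Y.filter (fun u => h u ∈ T ∧ G.Adj v u)).card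

theorem dT_single (Y : Finset V) (h : V → V) (v j : V) : dT G Y h v {j, j} = dj G Y h v j := by
  unfold dT dj
  simp

theorem dT_pair (Y : Finset V) (h : V → V) (v : V) {i j : V} (hij : i ≠ j) :
    dT G Y h v {i, j} = dj G Y h v i + dj G Y h v j := by
  unfold dT dj
  rw [← Finset.card_union_of_disjoint]
  · congr 1
    ext u
    simp only [mem_filter, mem_insert, mem_singleton, mem_union]
    tauto
  · rw [Finset.disjoint_left]
    intro u h1 h2
    exact hij ((mem_filter.1 h1).2.1.symm.trans (mem_filter.1 h2).2.1)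

theorem pairdeg {Y : Finset V} {h : V → V} {x y τ : V} {Λ : ℕ}
    (hP : (Y.filter (fun u => h u = τ ∧ ¬ G.Adj x u ∧ ¬ G.Adj y u)).card ≤ Λ) :
    (grp Y h τ).card ≤ dj G Y h x τ + dj G Y h y τ + Λ := by
  have h1 : grp Y h τ ⊆ (Y.filter (fun u => h u = τ ∧ G.Adj x u) ∪
      Y.filter (fun u => h u = τ ∧ G.Adj y u)) ∪
      Y.filter (fun u => h u = τ ∧ ¬ G.Adj x u ∧ ¬ G.Adj y u) := by
    intro u hu
    obtain ⟨hu1, hu2⟩ := mem_filter.1 hu
    simp only [mem_union, mem_filter]
    by_cases h3 : G.Adj x u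
    · exact Or.inl (Or.inl ⟨hu1, hu2, h3⟩)
    · by_cases h4 : G.Adj y u
      · exact Or.inl (Or.inr ⟨hu1, hu2, h4⟩)
      · exact Or.inr ⟨hu1, hu2, h3, h4⟩
  have h2 := (Finset.card_le_card h1).trans (Finset.card_union_le _ _)
  have h3 := Finset.card_union_le (Y.filter (fun u => h u = τ ∧ G.Adj x u))
      (Y.filter (fun u => h u = τ ∧ G.Adj y u))
  unfold dj
  omega

/-- two different missing pairs in a set with more than two ordered missing pairs -/
theorem two_missing {B : Finset V} (hm : 2 < m2 G B) :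
    ∃ x ∈ B, ∃ y ∈ B, ∃ z ∈ B, ∃ w ∈ B, x ≠ y ∧ ¬ G.Adj x y ∧ z ≠ w ∧ ¬ G.Adj z w ∧
      ¬ (z = x ∧ w = y) ∧ ¬ (z = y ∧ w = x) := by
  have h1 : m2 G B = ((B ×ˢ B).filter (fun p => p.2 ≠ p.1 ∧ ¬ G.Adj p.1 p.2)).card := by
    unfold m2
    simp only [Finset.card_filter]
    rw [Finset.sum_product]
  have h2 : ∃ x ∈ B, ∃ y ∈ B, x ≠ y ∧ ¬ G.Adj x y := by
    have : ((B ×ˢ B).filter (fun p => p.2 ≠ p.1 ∧ ¬ G.Adj p.1 p.2)).Nonempty := by
      rw [← Finset.card_pos]; omega
    obtain ⟨p, hp⟩ := this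
    rw [mem_filter, mem_product] at hp
    exact ⟨p.1, hp.1.1, p.2, hp.1.2, Ne.symm hp.2.1, hp.2.2⟩
  obtain ⟨x, hx, y, hy, hxy, hna⟩ := h2
  refine ⟨x, hx, y, hy, ?_⟩
  by_contra hcon
  push Not at hcon
  have h3 : (B ×ˢ B).filter (fun p => p.2 ≠ p.1 ∧ ¬ G.Adj p.1 p.2) ⊆ {(x, y), (y, x)} := by
    intro p hp
    rw [mem_filter, mem_product] at hp
    rw [mem_insert, mem_singleton]
    by_contra h4
    push Not at h4
    have h5 := hcon p.1 hp.1.1 p.2 hp.1.2 hxy hna (Ne.symm hp.2.1) hp.2.2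
      (fun h6 h7 => h4.1 (Prod.ext h6 h7))
    exact h4.2 (Prod.ext h5.1 h5.2)
  have h4 := Finset.card_le_card h3
  have h5 : ({(x, y), (y, x)} : Finset (V × V)).card ≤ 2 := Finset.card_le_two
  omega

/-- load data of a full group -/
theorem group_data {Y I : Finset V} {h : V → V} {k t Λ : ℕ} {j : V}
    (hg : ∀ i ∈ I, k ≤ (grp Y h i).card + t)
    (hP2 : ∀ x ∈ Y, ∀ y ∈ Y, x ≠ y → ¬ G.Adj x y → h x = h y → ∃ i ∈ I, i ≠ h x ∧
      (Y.filter (fun u => h u = i ∧ ¬ G.Adj x u ∧ ¬ G.Adj y u)).card ≤ Λ)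
    (hm : 2 < m2 G (grp Y h j)) :
    ∃ (S : Finset V) (τ σ x : V), S ⊆ grp Y h j ∧ S.card ≤ 4 ∧ τ ∈ I ∧ σ ∈ I ∧ τ ≠ j ∧ σ ≠ j ∧
      x ∈ grp Y h j ∧
      ((τ ≠ σ ∧ 4 * k ≤ 2 * (∑ v ∈ S, dT G Y h v {τ, σ}) + (4 * t + 4 * Λ)) ∨
       (τ = σ ∧ 3 * k ≤ 2 * (∑ v ∈ S, dT G Y h v {τ, σ}) + (2 * dj G Y h x τ - k)
          + (4 * t + 4 * Λ))) := by
  obtain ⟨x, hx, y, hy, z, hz, w, hw, hxy, hna, hzw, hna', hne1, hne2⟩ := two_missing G hm
  have hx' := mem_filter.1 hx
  have hy' := mem_filter.1 hy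
  have hz' := mem_filter.1 hz
  have hw' := mem_filter.1 hw
  obtain ⟨τ, hτ, hτj, hPτ⟩ := hP2 x hx'.1 y hy'.1 hxy hna (by rw [hx'.2, hy'.2])
  obtain ⟨σ, hσ, hσj, hPσ⟩ := hP2 z hz'.1 w hw'.1 hzw hna' (by rw [hz'.2, hw'.2])
  rw [hx'.2] at hτj
  rw [hz'.2] at hσj
  have h1 := pairdeg G hPτ
  have h2 := pairdeg G hPσ
  have h3 := hg τ hτ
  have h4 := hg σ hσ
  by_cases hts : τ = σ
  · subst hts
    -- shared vertex lemma
    have shared : ∀ p q s : V, p ∈ grp Y h j → q ∈ grp Y h j → s ∈ grp Y h j → p ≠ q → p ≠ s →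
        q ≠ s → (grp Y h τ).card ≤ dj G Y h p τ + dj G Y h q τ + Λ →
        (grp Y h τ).card ≤ dj G Y h p τ + dj G Y h s τ + Λ →
        ∃ (S : Finset V) (τ' σ x : V), S ⊆ grp Y h j ∧ S.card ≤ 4 ∧ τ' ∈ I ∧ σ ∈ I ∧ τ' ≠ j ∧
        σ ≠ j ∧ x ∈ grp Y h j ∧
        ((τ' ≠ σ ∧ 4 * k ≤ 2 * (∑ v ∈ S, dT G Y h v {τ', σ}) + (4 * t + 4 * Λ)) ∨
         (τ' = σ ∧ 3 * k ≤ 2 * (∑ v ∈ S, dT G Y h v {τ', σ}) + (2 * dj G Y h x τ' - k)
            + (4 * t + 4 * Λ))) := by
      intro p q s hp hq hs hpq hps hqs e1 e2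
      refine ⟨{p, q, s}, τ, τ, p, ?_, ?_, hτ, hτ, hτj, hτj, hp, Or.inr ⟨rfl, ?_⟩⟩
      · intro u hu
        simp only [mem_insert, mem_singleton] at hu
        rcases hu with rfl | rfl | rfl <;> assumption
      · exact Finset.card_le_three.trans (by omega)
      · have h5 : p ∉ ({q, s} : Finset V) := by simp [hpq, hps]
        rw [Finset.sum_insert h5, Finset.sum_pair hqs, dT_single, dT_single, dT_single]
        omega
    by_cases c1 : z = x
    · refine shared x y w hx hy hw hxy (c1 ▸ hzw) (fun h => hne1 ⟨c1, h.symm⟩) h1 (c1 ▸ h2)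
    · by_cases c2 : w = x
      · refine shared x y z hx hy hz hxy (c2 ▸ hzw.symm) (fun h => hne2 ⟨h.symm, c2⟩) h1 ?_
        rw [c2] at h2; omega
      · by_cases c3 : z = y
        · refine shared y x w hy hx hw hxy.symm (c3 ▸ hzw) (fun h => hne2 ⟨c3, h.symm⟩) ?_
            (c3 ▸ h2)
          omega
        · by_cases c4 : w = y
          · refine shared y x z hy hx hz hxy.symm (c4 ▸ hzw.symm) (fun h => c1 h.symm) ?_ ?_
            · omega
            · rw [c4] at h2; omega
          · refine ⟨{x, y} ∪ {z, w}, τ, τ, x, ?_, ?_, hτ, hτ, hτj, hτj, hx, Or.inr ⟨rfl, ?_⟩⟩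
            · intro u hu
              simp only [mem_union, mem_insert, mem_singleton] at hu
              rcases hu with (rfl | rfl) | (rfl | rfl) <;> assumption
            · have e1 : ({x, y} : Finset V).card ≤ 2 := Finset.card_le_two
              have e2 : ({z, w} : Finset V).card ≤ 2 := Finset.card_le_two
              have e3 := Finset.card_union_le ({x, y} : Finset V) {z, w}
              omega
            · have hd : Disjoint ({x, y} : Finset V) {z, w} := by
                rw [Finset.disjoint_left]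
                intro u hu hu'
                simp only [mem_insert, mem_singleton] at hu hu'
                rcases hu with rfl | rfl <;> rcases hu' with rfl | rfl
                · exact c1 rfl
                · exact c2 rfl
                · exact c3 rfl
                · exact c4 rfl
              rw [Finset.sum_union hd, Finset.sum_pair hxy, Finset.sum_pair hzw, dT_single,
                dT_single, dT_single, dT_single]
              omega
  · refine ⟨{x, y} ∪ {z, w}, τ, σ, x, ?_, ?_, hτ, hσ, hτj, hσj, hx, Or.inl ⟨hts, ?_⟩⟩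
    · intro u hu
      simp only [mem_union, mem_insert, mem_singleton] at hu
      rcases hu with (rfl | rfl) | (rfl | rfl) <;> assumption
    · have e1 : ({x, y} : Finset V).card ≤ 2 := Finset.card_le_two
      have e2 : ({z, w} : Finset V).card ≤ 2 := Finset.card_le_two
      have e3 := Finset.card_union_le ({x, y} : Finset V) {z, w}
      omega
    · have e1 : ∑ v ∈ ({x, y} ∪ {z, w} : Finset V), dT G Y h v {τ, σ} =
          ∑ v ∈ ({x, y} ∪ {z, w} : Finset V), dj G Y h v τ +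
          ∑ v ∈ ({x, y} ∪ {z, w} : Finset V), dj G Y h v σ := by
        rw [← Finset.sum_add_distrib]
        exact Finset.sum_congr rfl fun v _ => dT_pair G Y h v hts
      have e2 : dj G Y h x τ + dj G Y h y τ ≤ ∑ v ∈ ({x, y} ∪ {z, w} : Finset V), dj G Y h v τ := by
        rw [← Finset.sum_pair hxy (f := fun v => dj G Y h v τ)]
        exact Finset.sum_le_sum_of_subset Finset.subset_union_left
      have e3 : dj G Y h z σ + dj G Y h w σ ≤ ∑ v ∈ ({x, y} ∪ {z, w} : Finset V), dj G Y h v σ := by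
        rw [← Finset.sum_pair hzw (f := fun v => dj G Y h v σ)]
        exact Finset.sum_le_sum_of_subset Finset.subset_union_right
      omega

end Pool.Agent.TwoDens
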