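import Pool.Agent.TwoDens.MainB

open Finset

namespace Pool.Agent.TwoDens

variable {V : Type} [DecidableEq V] (G : SimpleGraph V) [DecidableRel G.Adj]

theorem e2_union_ge {A B : Finset V} (hAB : Disjoint A B) :
    e2 G A + 2 * ∑ v ∈ B, (A.filter (G.Adj v)).card ≤ e2 G (A ∪ B) := by
  unfold e2
  rw [Finset.sum_union hAB]
  have h1 : ∀ x ∈ A, (A.filter (G.Adj x)).card + (B.filter (G.Adj x)).card ≤
      ((A ∪ B).filter (G.Adj x)).card := by
    intro x _
    rw [← Finset.card_union_of_disjoint]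
    · refine Finset.card_le_card ?_
      rw [Finset.filter_union]
    · exact Finset.disjoint_filter_filter hAB
  have h2 : ∀ x ∈ B, (A.filter (G.Adj x)).card ≤ ((A ∪ B).filter (G.Adj x)).card := by
    intro x _
    exact Finset.card_le_card (Finset.filter_subset_filter _ Finset.subset_union_left)
  have h3 : ∑ x ∈ A, (B.filter (G.Adj x)).card = ∑ x ∈ B, (A.filter (G.Adj x)).card := by
    simp only [Finset.card_filter]
    rw [Finset.sum_comm]
    refine Finset.sum_congr rfl fun x _ => Finset.sum_congr rfl fun y _ => ?_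
    simp only [G.adj_comm]
  have h4 := Finset.sum_le_sum h1
  have h5 := Finset.sum_le_sum h2
  rw [Finset.sum_add_distrib, h3] at h4
  omega

theorem overload_one {k : ℕ} {Y : Finset V} {h : V → V} (hS : Sk G k Y)
    {i : V} (hle : (grp Y h i).card ≤ k) (hge : 3 ≤ (grp Y h i).card)
    (J : Finset V) (x : V → V) (hx : ∀ j ∈ J, x j ∈ grp Y h j ∧ i ≠ j)
    (hbig : ∀ j ∈ J, k ≤ 2 * dj G Y h (x j) i) :
    ∑ j ∈ J, (2 * dj G Y h (x j) i - k) ≤
      k * (k - (grp Y h i).card) + J.card + m2 G (grp Y h i) := by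
  have hinj : Set.InjOn x (J : Set V) := by
    intro p hp q hq hpq
    have h1 := (mem_filter.1 (hx p hp).1).2
    have h2 := (mem_filter.1 (hx q hq).1).2
    rw [← h1, ← h2, hpq]
  have hdisj : Disjoint (grp Y h i) (J.image x) := by
    rw [Finset.disjoint_left]
    intro u hu hu'
    obtain ⟨j, hj, rfl⟩ := mem_image.1 hu'
    have h1 := (mem_filter.1 (hx j hj).1).2
    have h2 := (mem_filter.1 hu).2
    exact (hx j hj).2 (h2.symm.trans h1)
  have h1 := e2_union_ge G hdisj
  have h2 : ∑ v ∈ J.image x, ((grp Y h i).filter (G.Adj v)).card = ∑ j ∈ J, dj G Y h (x j) i := by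
    rw [Finset.sum_image hinj]
    refine Finset.sum_congr rfl fun j _ => ?_
    unfold grp dj
    rw [Finset.filter_filter]
  have h3 : (grp Y h i ∪ J.image x).card = (grp Y h i).card + J.card := by
    rw [Finset.card_union_of_disjoint hdisj, Finset.card_image_of_injOn hinj]
  have h4 := hS (grp Y h i ∪ J.image x) (by
    refine Finset.union_subset (Finset.filter_subset _ _) ?_
    intro u hu
    obtain ⟨j, hj, rfl⟩ := mem_image.1 hu
    exact (mem_filter.1 (hx j hj).1).1) (by omega)
  rw [h3] at h4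
  rw [h2] at h1
  have h5 := e2_add_m2 G (grp Y h i)
  have h6 : ∑ j ∈ J, (2 * dj G Y h (x j) i - k) + J.card * k =
      2 * ∑ j ∈ J, dj G Y h (x j) i := by
    rw [Finset.mul_sum, ← smul_eq_mul, ← Finset.sum_const, ← Finset.sum_add_distrib]
    refine Finset.sum_congr rfl fun j hj => ?_
    have := hbig j hj
    omega
  obtain ⟨d, hd⟩ := Nat.exists_eq_add_of_le hle
  have h7 : k - (grp Y h i).card = d := by omega
  rw [h7]
  set g := (grp Y h i).card
  set M := m2 G (grp Y h i)
  set E := e2 G (grp Y h i)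
  set A := ∑ j ∈ J, (2 * dj G Y h (x j) i - k)
  set D := ∑ j ∈ J, dj G Y h (x j) i
  have h8 : g * d ≤ k * d := Nat.mul_le_mul_right _ hle
  have h9 : (k + 1) * (g + J.card) = g * g + g * d + g + k * J.card + J.card := by
    rw [hd]; ring
  rw [h9] at h4
  have h10 : J.card * k = k * J.card := mul_comm _ _
  omega

theorem overload {k t Λ a : ℕ} {Y I : Finset V} {h : V → V} (hS : Sk G k Y)
    (hI : ∀ v ∈ Y, h v ∈ I) (hIc : I.card = a) (hYc : Y.card + t = k * a)
    (hle : ∀ i ∈ I, (grp Y h i).card ≤ k) (hge : ∀ i ∈ I, 3 ≤ (grp Y h i).card)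
    (hP1 : ∑ x ∈ Y, ms G Y h x ≤ 2 * Λ)
    (F : Finset V) (hF : F ⊆ I) (x τ : V → V) (hx : ∀ j ∈ F, x j ∈ grp Y h j ∧ τ j ∈ I ∧ τ j ≠ j) :
    ∑ j ∈ F, (2 * dj G Y h (x j) (τ j) - k) ≤ k * t + a * (a + 2 * Λ) := by
  have h1 : ∑ j ∈ F, (2 * dj G Y h (x j) (τ j) - k) =
      ∑ i ∈ I, ∑ j ∈ F with τ j = i, (2 * dj G Y h (x j) (τ j) - k) :=
    (Finset.sum_fiberwise_of_maps_to (fun j hj => (hx j hj).2.1) _).symm
  have h2 : ∀ i ∈ I, ∑ j ∈ F with τ j = i, (2 * dj G Y h (x j) (τ j) - k) ≤
      k * (k - (grp Y h i).card) + (a + 2 * Λ) := by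
    intro i hi
    have h3 : ∑ j ∈ F with τ j = i, (2 * dj G Y h (x j) (τ j) - k) =
        ∑ j ∈ (F.filter (fun j => τ j = i)).filter (fun j => k ≤ 2 * dj G Y h (x j) i),
          (2 * dj G Y h (x j) i - k) := by
      rw [Finset.sum_filter (s := F.filter (fun j => τ j = i))]
      refine Finset.sum_congr rfl fun j hj => ?_
      rw [(mem_filter.1 hj).2]
      split_ifs with h4
      · rfl
      · omega
    rw [h3]
    have h4 := overload_one G hS (hle i hi) (hge i hi)
      ((F.filter (fun j => τ j = i)).filter (fun j => k ≤ 2 * dj G Y h (x j) i)) x (by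
        intro j hj
        rw [mem_filter, mem_filter] at hj
        have := hx j hj.1.1
        exact ⟨this.1, by rw [← hj.1.2]; exact this.2.2⟩) (by
        intro j hj
        exact (mem_filter.1 hj).2)
    refine h4.trans ?_
    have h5 : ((F.filter (fun j => τ j = i)).filter
        (fun j => k ≤ 2 * dj G Y h (x j) i)).card ≤ a := by
      rw [← hIc]
      exact Finset.card_le_card (((Finset.filter_subset _ _).trans (Finset.filter_subset _ _)).trans
        hF)
    have h6 := (m2_grp_le G Y h i).trans hP1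
    omega
  rw [h1]
  refine (Finset.sum_le_sum h2).trans ?_
  rw [Finset.sum_add_distrib, Finset.sum_const, smul_eq_mul, hIc, ← Finset.mul_sum]
  have h7 : ∑ i ∈ I, (k - (grp Y h i).card) = t := by
    have h8 : ∑ i ∈ I, ((k - (grp Y h i).card) + (grp Y h i).card) = ∑ i ∈ I, k :=
      Finset.sum_congr rfl fun i hi => by have := hle i hi; omega
    rw [Finset.sum_add_distrib, sum_grp hI, Finset.sum_const, smul_eq_mul, hIc, mul_comm a k] at h8
    omega
  rw [h7]

end Pool.Agent.TwoDens
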