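import Pool.Agent.TwoDens.MainB2

open Finset

namespace Pool.Agent.TwoDens

theorem B_low (a t : ℕ) (ht : 1 ≤ t) (hat : 4 * t ≤ a) : ∃ K, ∀ k, K ≤ k →
    ∀ {V : Type} [DecidableEq V] (G : SimpleGraph V) [DecidableRel G.Adj] (Y : Finset V),
    Sk G k Y → Al G a Y → Y.card + t = k * a → ∃ Z ⊆ Y, Z.card = k ∧ m2 G Z ≤ 2 := by
  obtain ⟨K1, hK1⟩ := T_thm (a - 1) (by omega)
  obtain ⟨K2, hK2⟩ := struct_thm a t (2 * (2 + 6 * a)) (by omega)
  refine ⟨K1 + K2 + 2 * (33 * (a * a) + 4 * (t * a)) + t + 3, ?_⟩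
  intro k hk V _ G _ Y hS hal hYc
  have haa : 0 < a * a := Nat.mul_pos (by omega) (by omega)
  by_contra hcon
  push Not at hcon
  have ha1 : a - 1 + 1 = a := by omega
  have hdeg := deg_of_T G (t := t) (hK1 k (by omega) G) hS (by rw [ha1]; exact hal)
    (by rw [ha1]; exact hYc)
  obtain ⟨I, h, Λ, hIc, hI, hΛ, hP1, hP2⟩ := hK2 k (by omega) G Y hS hal hYc hdeg
  have hP1' : ∑ x ∈ Y, ms G Y h x ≤ 2 * Λ := hP1
  have hΛ' : 2 * (2 * Λ + 6 * (a * Λ)) ≤ k := by
    have : 2 * (2 + 6 * a) * Λ = 2 * (2 * Λ + 6 * (a * Λ)) := by ring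
    omega
  have hΛk : 2 * Λ < k := by
    by_contra hc
    have h1 : Λ ≤ a * Λ := Nat.le_mul_of_pos_left _ (by omega)
    omega
  have hle : ∀ j ∈ I, (grp Y h j).card ≤ k := fun j _ =>
    grp_le G (by omega) hS h hP1' hΛk j
  have hdef : ∑ i ∈ I, (k - (grp Y h i).card) = t := by
    have h8 : ∑ i ∈ I, ((k - (grp Y h i).card) + (grp Y h i).card) = ∑ i ∈ I, k :=
      Finset.sum_congr rfl fun i hi => by have := hle i hi; omega
    rw [Finset.sum_add_distrib, sum_grp hI, Finset.sum_const, smul_eq_mul, hIc, mul_comm a k] at h8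
    omega
  have hgt : ∀ i ∈ I, k ≤ (grp Y h i).card + t := by
    intro i hi
    have h1 : k - (grp Y h i).card ≤ ∑ i ∈ I, (k - (grp Y h i).card) :=
      Finset.single_le_sum (f := fun i => k - (grp Y h i).card) (fun _ _ => Nat.zero_le _) hi
    omega
  have hge : ∀ i ∈ I, 3 ≤ (grp Y h i).card := by
    intro i hi
    have := hgt i hi
    omega
  -- full groups
  let Full := I.filter (fun j => (grp Y h j).card = k)
  have hFullI : Full ⊆ I := Finset.filter_subset _ _
  have hFullc : a ≤ Full.card + t := by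
    have h1 : (I.filter (fun j => ¬ (grp Y h j).card = k)).card ≤ t := by
      rw [← hdef, Finset.card_filter]
      refine Finset.sum_le_sum ?_
      intro i hi
      have := hle i hi
      split_ifs with h2 <;> omega
    have h2 := Finset.card_filter_add_card_filter_not (s := I) (fun j => (grp Y h j).card = k)
    simp only [Full]
    omega
  have hFullle : Full.card ≤ a := by rw [← hIc]; exact Finset.card_le_card hFullI
  have hdata : ∀ j ∈ Full, ∃ (S : Finset V) (τ σ x : V), S ⊆ grp Y h j ∧ S.card ≤ 4 ∧ τ ∈ I ∧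
      σ ∈ I ∧ τ ≠ j ∧ σ ≠ j ∧ x ∈ grp Y h j ∧
      ((τ ≠ σ ∧ 4 * k ≤ 2 * (∑ v ∈ S, dT G Y h v {τ, σ}) + (4 * t + 4 * Λ)) ∨
       (τ = σ ∧ 3 * k ≤ 2 * (∑ v ∈ S, dT G Y h v {τ, σ}) + (2 * dj G Y h x τ - k)
          + (4 * t + 4 * Λ))) := by
    intro j hj
    refine group_data G hgt hP2 ?_
    exact hcon (grp Y h j) (Finset.filter_subset _ _) (mem_filter.1 hj).2
  choose! S τ σ x hSg hS4 hτI hσI hτj hσj hxg hload using hdata
  -- merging
  let F1 := Full.filter (fun j => τ j = σ j)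
  let F2 := Full.filter (fun j => ¬ τ j = σ j)
  have hF12 : F1.card + F2.card = Full.card := Finset.card_filter_add_card_filter_not _
  let E : Finset (V × V) := (F1.image (fun j => (j, τ j)) ∪ F2.image (fun j => (j, τ j))) ∪
    F2.image (fun j => (j, σ j))
  have hEc : E.card ≤ F1.card + 2 * F2.card := by
    have h1 := Finset.card_union_le (F1.image (fun j => (j, τ j)) ∪ F2.image (fun j => (j, τ j)))
      (F2.image (fun j => (j, σ j)))
    have h2 := Finset.card_union_le (F1.image (fun j => (j, τ j))) (F2.image (fun j => (j, τ j)))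
    have h3 : (F1.image (fun j => (j, τ j))).card ≤ F1.card := Finset.card_image_le
    have h4 : (F2.image (fun j => (j, τ j))).card ≤ F2.card := Finset.card_image_le
    have h5 : (F2.image (fun j => (j, σ j))).card ≤ F2.card := Finset.card_image_le
    simp only [E]
    omega
  obtain ⟨r, hrE, hrc⟩ := merge I E
  have hrτ : ∀ j ∈ Full, r j = r (τ j) := by
    intro j hj
    by_cases h1 : τ j = σ j
    · exact hrE (j, τ j) (mem_union_left _ (mem_union_left _
        (mem_image_of_mem _ (mem_filter.2 ⟨hj, h1⟩))))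
    · exact hrE (j, τ j) (mem_union_left _ (mem_union_right _
        (mem_image_of_mem _ (mem_filter.2 ⟨hj, h1⟩))))
  have hrσ : ∀ j ∈ Full, r j = r (σ j) := by
    intro j hj
    by_cases h1 : τ j = σ j
    · rw [← h1]; exact hrτ j hj
    · exact hrE (j, σ j) (mem_union_right _ (mem_image_of_mem _ (mem_filter.2 ⟨hj, h1⟩)))
  have hc1 : 1 ≤ (I.image r).card := by
    rw [Nat.one_le_iff_ne_zero, Ne, Finset.card_eq_zero, Finset.image_eq_empty]
    intro h1
    rw [h1] at hIc
    simp at hIc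
    omega
  have hup := cross_le G (I := I) hS h r hI hge
  -- squares
  have hsq : k * Y.card ≤ (∑ j ∈ I, (grp Y h j).card * (grp Y h j).card) + k * t := by
    have h1 : ∑ j ∈ I, k * (grp Y h j).card ≤ ∑ j ∈ I, ((grp Y h j).card * (grp Y h j).card +
        k * (k - (grp Y h j).card)) := by
      refine Finset.sum_le_sum ?_
      intro j hj
      obtain ⟨d, hd⟩ := Nat.exists_eq_add_of_le (hle j hj)
      have h2 : k - (grp Y h j).card = d := by omega
      rw [h2]
      have h3 : (grp Y h j).card * d ≤ k * d := Nat.mul_le_mul_right _ (hle j hj)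
      calc k * (grp Y h j).card = (grp Y h j).card * k := mul_comm _ _
        _ = (grp Y h j).card * ((grp Y h j).card + d) := by rw [← hd]
        _ = (grp Y h j).card * (grp Y h j).card + (grp Y h j).card * d := by ring
        _ ≤ _ := Nat.add_le_add_left h3 _
    rw [← Finset.mul_sum, sum_grp hI, Finset.sum_add_distrib, ← Finset.mul_sum, hdef] at h1
    exact h1
  -- the set of special vertices
  let SS : Finset V := Full.biUnion S
  have hSSc : SS.card ≤ 4 * a := by
    have : SS.card ≤ Full.card * 4 := Finset.card_biUnion_le_card_mul _ _ _ hS4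
    omega
  have hSSY : SS ⊆ Y := by
    intro z hz
    obtain ⟨j, hj, hz⟩ := mem_biUnion.1 hz
    exact (mem_filter.1 (hSg j hj hz)).1
  have hlow := double_count (Y := Y) (S := SS) hSSY
    (fun x y => r (h y) = r (h x) ∧ h y ≠ h x ∧ G.Adj x y)
    (fun x y hxy => ⟨hxy.1.symm, hxy.2.1.symm, hxy.2.2.symm⟩)
  set f : V → ℕ := fun x => ((Y \ SS).filter
        (fun y => r (h y) = r (h x) ∧ h y ≠ h x ∧ G.Adj x y)).card with hf
  have hsumS : ∑ x ∈ SS, f x = ∑ j ∈ Full, ∑ x ∈ S j, f x := by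
    refine Finset.sum_biUnion ?_
    intro i hi j hj hij
    rw [Function.onFun, Finset.disjoint_left]
    intro z h1 h2
    exact hij ((mem_filter.1 (hSg i hi h1)).2.symm.trans (mem_filter.1 (hSg j hj h2)).2)
  have hlow' : 2 * ∑ j ∈ Full, ∑ x ∈ S j, f x ≤ crossR G Y h r := by
    rw [← hsumS]; exact hlow
  have hdT : ∀ j ∈ Full, ∑ v ∈ S j, dT G Y h v {τ j, σ j} ≤ ∑ v ∈ S j, f v + 16 * a := by
    intro j hj
    have h1 : ∀ v ∈ S j, dT G Y h v {τ j, σ j} ≤ f v + 4 * a := by
      intro v hv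
      have hvj : h v = j := (mem_filter.1 (hSg j hj hv)).2
      have h2 : Y.filter (fun u => h u ∈ ({τ j, σ j} : Finset V) ∧ G.Adj v u) ⊆
          (Y \ SS).filter (fun y => r (h y) = r (h v) ∧ h y ≠ h v ∧ G.Adj v y) ∪ SS := by
        intro u hu
        obtain ⟨huY, hu1, hu2⟩ := mem_filter.1 hu
        rw [mem_insert, mem_singleton] at hu1
        rw [mem_union, mem_filter, mem_sdiff]
        by_cases h3 : u ∈ SS
        · exact Or.inr h3
        · refine Or.inl ⟨⟨huY, h3⟩, ?_, ?_, hu2⟩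
          · rw [hvj]
            rcases hu1 with h4 | h4
            · rw [h4]; exact (hrτ j hj).symm
            · rw [h4]; exact (hrσ j hj).symm
          · rw [hvj]
            rcases hu1 with h4 | h4
            · rw [h4]; exact hτj j hj
            · rw [h4]; exact hσj j hj
      have h3 := (Finset.card_le_card h2).trans (Finset.card_union_le _ _)
      unfold dT
      simp only [hf]
      omega
    refine (Finset.sum_le_sum h1).trans ?_
    rw [Finset.sum_add_distrib, Finset.sum_const, smul_eq_mul]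
    have h4 : (S j).card * (4 * a) ≤ 4 * (4 * a) := Nat.mul_le_mul_right _ (hS4 j hj)
    omega
  -- overload
  have hover := overload G hS hI hIc hYc hle hge hP1' F1
    ((Finset.filter_subset _ _).trans hFullI) x τ (by
      intro j hj
      have hj' := (mem_filter.1 hj).1
      exact ⟨hxg j hj', hτI j hj', hτj j hj'⟩)
  -- total loads
  have hL1 : F1.card * (3 * k) ≤ 2 * ∑ j ∈ F1, ∑ v ∈ S j, f v +
      ∑ j ∈ F1, (2 * dj G Y h (x j) (τ j) - k) + F1.card * (32 * a + (4 * t + 4 * Λ)) := by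
    have h1 : ∑ j ∈ F1, 3 * k ≤ ∑ j ∈ F1, (2 * (∑ v ∈ S j, f v) +
        (2 * dj G Y h (x j) (τ j) - k) + (32 * a + (4 * t + 4 * Λ))) := by
      refine Finset.sum_le_sum ?_
      intro j hj
      obtain ⟨hj1, hj2⟩ := mem_filter.1 hj
      have h2 := hdT j hj1
      rcases hload j hj1 with ⟨h3, _⟩ | ⟨_, h3⟩
      · exact absurd hj2 h3
      · omega
    rw [Finset.sum_const, smul_eq_mul, Finset.sum_add_distrib, Finset.sum_add_distrib,
      Finset.sum_const, smul_eq_mul, ← Finset.mul_sum] at h1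
    exact h1
  have hL2 : F2.card * (4 * k) ≤ 2 * ∑ j ∈ F2, ∑ v ∈ S j, f v +
      F2.card * (32 * a + (4 * t + 4 * Λ)) := by
    have h1 : ∑ j ∈ F2, 4 * k ≤ ∑ j ∈ F2, (2 * (∑ v ∈ S j, f v) +
        (32 * a + (4 * t + 4 * Λ))) := by
      refine Finset.sum_le_sum ?_
      intro j hj
      obtain ⟨hj1, hj2⟩ := mem_filter.1 hj
      have h2 := hdT j hj1
      rcases hload j hj1 with ⟨_, h3⟩ | ⟨h3, _⟩
      · omega
      · exact absurd h3 hj2
    rw [Finset.sum_const, smul_eq_mul, Finset.sum_add_distrib,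
      Finset.sum_const, smul_eq_mul, ← Finset.mul_sum] at h1
    exact h1
  have hsplit : ∑ j ∈ F1, ∑ v ∈ S j, f v + ∑ j ∈ F2, ∑ v ∈ S j, f v =
      ∑ j ∈ Full, ∑ v ∈ S j, f v := Finset.sum_filter_add_sum_filter_not _ _ _
  have hF1a : F1.card * (32 * a + (4 * t + 4 * Λ)) + F2.card * (32 * a + (4 * t + 4 * Λ)) ≤
      32 * (a * a) + 4 * (t * a) + 4 * (a * Λ) := by
    calc F1.card * (32 * a + (4 * t + 4 * Λ)) + F2.card * (32 * a + (4 * t + 4 * Λ))
        = (F1.card + F2.card) * (32 * a + (4 * t + 4 * Λ)) := by ring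
      _ ≤ a * (32 * a + (4 * t + 4 * Λ)) := Nat.mul_le_mul_right _ (by omega)
      _ = _ := by ring
  set F1c := F1.card
  set F2c := F2.card
  set c := (I.image r).card
  set A1 := ∑ j ∈ F1, ∑ v ∈ S j, f v
  set A2 := ∑ j ∈ F2, ∑ v ∈ S j, f v
  set X := crossR G Y h r
  set Ξ := ∑ j ∈ F1, (2 * dj G Y h (x j) (τ j) - k)
  set Q := ∑ j ∈ I, (grp Y h j).card * (grp Y h j).card
  have e1 : (k + 2) * Y.card = k * Y.card + 2 * Y.card := by ring
  have e2' : a * (a + 2 * Λ) = a * a + 2 * (a * Λ) := by ring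
  have e3 : c * (2 * k + 1) = 2 * (k * c) + c := by ring
  have e4 : F1c * (3 * k) = 3 * (k * F1c) := by ring
  have e5 : F2c * (4 * k) = 4 * (k * F2c) := by ring
  -- main numeric inequality
  have hmain : k * (3 * F1c + 4 * F2c + 2 * c) < k * (2 * a + 2 * t + 1) := by
    have e6 : k * (3 * F1c + 4 * F2c + 2 * c) = 3 * (k * F1c) + 4 * (k * F2c) + 2 * (k * c) := by
      ring
    have e7 : k * (2 * a + 2 * t + 1) = 2 * (k * a) + 2 * (k * t) + k := by ring
    rw [e6, e7]
    omega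
  have hlt := Nat.lt_of_mul_lt_mul_left hmain
  omega

end Pool.Agent.TwoDens
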