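import Pool.Agent.TwoDens.DDF
import Pool.Agent.TwoDens.Cyc3

/-!
# The range `m = k s - t`, `s = r - 1`, close to the divisible case
-/

open Finset

namespace Pool.Agent.TwoDens.Near

open Pool.Agent.TwoDens Pool.Agent.TwoDens.DD

theorem upper_cliq (k s m : ℕ) (hk : 3 ≤ k) (hm : m ≤ k * s) :
    minTwoDensity m (s + 1) ≤ ((k : ℝ) + 1) / 2 := by
  refine minTwoDensity_le (by positivity) (cliq s k) ?_ ?_ ?_
  · simpa [mul_comm] using hm
  · intro I hI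
    have := cliq_indep I hI
    omega
  · intro Y hY
    have h1 := cliq_sparse Y hY
    have h2 : (e2 (cliq s k) Y : ℝ) + 2 * k ≤ (k + 1) * Y.card := by exact_mod_cast h1
    linarith

theorem upper_cyc (k s m : ℕ) (hk : 3 ≤ k) (hr : k < s) (hm : m ≤ k * s) :
    minTwoDensity m (s + 1) ≤
      ((k : ℝ) + 1) / 2 - ((s : ℝ) - k) / ((s : ℝ) * k - 2) := by
  have hks : (k : ℝ) + 1 ≤ s := by exact_mod_cast hr
  have hk' : (3 : ℝ) ≤ k := by exact_mod_cast hk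
  have : NeZero s := ⟨by omega⟩
  have hpos : (0 : ℝ) < (s : ℝ) * k - 2 := by nlinarith
  have hfrac1 : ((s : ℝ) - k) / ((s : ℝ) * k - 2) ≤ 1 := by
    rw [div_le_one hpos]
    nlinarith
  refine minTwoDensity_le (by linarith) (cycG s k) ?_ ?_ ?_
  · rw [Fintype.card_prod, ZMod.card, Fintype.card_fin, mul_comm]
    exact hm
  · intro I hI
    have := cyc_indep (by omega) I hI
    omega
  · intro Y hY
    exact cyc_sparse hk hr.le Y hY

/-- upper bound for all `m ≤ k s` -/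
theorem upper (k s m : ℕ) (hk : 3 ≤ k) (hm : m ≤ k * s) :
    minTwoDensity m (s + 1) ≤
      ((k : ℝ) + 1) / 2 - max 0 ((s : ℝ) - k) / ((k : ℝ) * s - 2) := by
  rcases Nat.lt_or_ge k s with h | h
  · have h1 : (k : ℝ) ≤ s := by exact_mod_cast h.le
    rw [max_eq_right (by linarith), mul_comm (k : ℝ) s]
    exact upper_cyc k s m hk h hm
  · have h1 : (s : ℝ) ≤ k := by exact_mod_cast h
    rw [max_eq_left (by linarith), zero_div, sub_zero]
    exact upper_cliq k s m hk hm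

/-- the upper bound around `(k + 1) / 2 - 1 / k` -/
theorem upper' (k s m : ℕ) (hk : 3 ≤ k) (hs : 2 ≤ s) (hm : m ≤ k * s) :
    minTwoDensity m (s + 1) ≤
      ((k : ℝ) + 1) / 2 - 1 / k + ((k : ℝ) ^ 2 - 2) / (k * ((k : ℝ) * s - 2)) := by
  have hk' : (3 : ℝ) ≤ k := by exact_mod_cast hk
  have hs' : (2 : ℝ) ≤ s := by exact_mod_cast hs
  have hpos : (0 : ℝ) < (k : ℝ) * s - 2 := by nlinarith
  have hk0 : (0 : ℝ) < k := by linarith
  refine (upper k s m hk hm).trans ?_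
  have h1 : ((s : ℝ) - k) / ((k : ℝ) * s - 2) =
      1 / k - ((k : ℝ) ^ 2 - 2) / (k * ((k : ℝ) * s - 2)) := by
    have h0 : (k : ℝ) * s - 2 ≠ 0 := hpos.ne'
    rw [eq_sub_iff_add_eq, div_add_div _ _ h0 (mul_ne_zero hk0.ne' h0),
      div_eq_div_iff (mul_ne_zero h0 (mul_ne_zero hk0.ne' h0)) hk0.ne']
    ring
  have h2 : ((s : ℝ) - k) / ((k : ℝ) * s - 2) ≤ max 0 ((s : ℝ) - k) / ((k : ℝ) * s - 2) :=
    div_le_div_of_nonneg_right (le_max_right _ _) hpos.le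
  rw [h1] at h2
  linarith

/-- the lower bound around `(k + 1) / 2 - 1 / k`, from the inequality `T_k` -/
theorem lower' (k s t : ℕ) (hk : 3 ≤ k) (ht : t + 3 ≤ k * s)
    (hLB : min (((k : ℝ) + 1) / 2)
      (((4 * k - 2) * ((k * s - t : ℕ) : ℝ) - (3 * k ^ 2 - 3 * k + 2) * s - 2) /
        (2 * (((k * s - t : ℕ) : ℝ) - 2))) ≤ minTwoDensity (k * s - t) (s + 1)) :
    ((k : ℝ) + 1) / 2 - 1 / k - (3 * (k : ℝ) ^ 2 - 3 * k + 2) * t / (2 * k * ((k : ℝ) * s - t - 2)) ≤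
      minTwoDensity (k * s - t) (s + 1) := by
  have hk' : (3 : ℝ) ≤ k := by exact_mod_cast hk
  have hk0 : (0 : ℝ) < k := by linarith
  have ht0 : (0 : ℝ) ≤ t := Nat.cast_nonneg t
  have hts : (t : ℝ) + 3 ≤ k * s := by exact_mod_cast ht
  have hpos : (0 : ℝ) < (k : ℝ) * s - t - 2 := by linarith
  have hcast : ((k * s - t : ℕ) : ℝ) = (k : ℝ) * s - t := by
    rw [Nat.cast_sub (by omega), Nat.cast_mul]
  have hc : 0 ≤ (3 * (k : ℝ) ^ 2 - 3 * k + 2) * t / (2 * k * ((k : ℝ) * s - t - 2)) := by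
    apply div_nonneg
    · apply mul_nonneg _ ht0
      nlinarith
    · positivity
  refine le_trans (le_min ?_ ?_) hLB
  · have : (0 : ℝ) ≤ 1 / k := by positivity
    linarith
  · rw [hcast]
    have h2 : ((4 * (k : ℝ) - 2) * ((k : ℝ) * s - t) - (3 * k ^ 2 - 3 * k + 2) * s - 2) /
        (2 * (((k : ℝ) * s - t) - 2)) =
        ((k : ℝ) + 1) / 2 - 1 / k - (3 * (k : ℝ) ^ 2 - 3 * k + 2) * t /
          (2 * k * ((k : ℝ) * s - t - 2)) + ((k : ℝ) ^ 2 - 2) / (k * ((k : ℝ) * s - t - 2)) := by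
      have h3 : ((k : ℝ) * s - t) - 2 ≠ 0 := hpos.ne'
      field_simp
      ring
    rw [h2]
    have h4 : 0 ≤ ((k : ℝ) ^ 2 - 2) / (k * ((k : ℝ) * s - t - 2)) := by
      apply div_nonneg
      · nlinarith
      · positivity
    linarith

/-- Near the divisible case: with the bound `T_k` one gets, for all `k ≥ 3`, `s ≥ 2` and
`0 ≤ t ≤ k s - 3`, the value of `M(k s - t, s + 1)` up to `O_k((t + 1) / s)`. -/
theorem near_of (k s t : ℕ) (hk : 3 ≤ k) (hs : 2 ≤ s) (ht : t + 3 ≤ k * s)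
    (hLB : min (((k : ℝ) + 1) / 2)
      (((4 * k - 2) * ((k * s - t : ℕ) : ℝ) - (3 * k ^ 2 - 3 * k + 2) * s - 2) /
        (2 * (((k * s - t : ℕ) : ℝ) - 2))) ≤ minTwoDensity (k * s - t) (s + 1)) :
    ((k : ℝ) + 1) / 2 - 1 / k - (3 * (k : ℝ) ^ 2 - 3 * k + 2) * t / (2 * k * ((k : ℝ) * s - t - 2)) ≤
      minTwoDensity (k * s - t) (s + 1) ∧
    minTwoDensity (k * s - t) (s + 1) ≤
      ((k : ℝ) + 1) / 2 - 1 / k + ((k : ℝ) ^ 2 - 2) / (k * ((k : ℝ) * s - 2)) :=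
  ⟨lower' k s t hk ht hLB, upper' k s _ hk hs (Nat.sub_le _ _)⟩

end Pool.Agent.TwoDens.Near
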