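import Pool.Agent.TwoDens.RK

open Finset

namespace Pool.Agent.TwoDens.RK

open Pool.Agent.TwoDens

variable {V : Type*} [DecidableEq V] {G : SimpleGraph V} [DecidableRel G.Adj]

theorem rem_le (X : Finset V) (v : V) : (rem G X v).card ≤ X.card :=
  Finset.card_le_card (Finset.filter_subset _ _)

/-- a minimal counterexample is cubic and all its `rem` are tight -/
theorem cubic {X : Finset V} (htf : ∀ x y z, G.Adj x y → G.Adj y z → ¬ G.Adj x z)
    (ih : ∀ Y : Finset V, Y.card < X.card → ∀ a, Al G a Y → 10 * Y.card ≤ e2 G Y + 20 * a)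
    {a : ℕ} (hal : Al G a X) (hc : e2 G X + 20 * a < 10 * X.card) :
    ∀ v ∈ X, (nb G X v).card = 3 ∧ Tight (rem G X v) (a - 1) G := by
  have h6 : ∀ v ∈ X, Z G X v + 6 ≤ 5 * (nb G X v).card := by
    intro v hv
    obtain ⟨ha, hal'⟩ := al_rem hal hv
    have h1 := card_rem (G := G) hv
    have h2 := e2_rem htf hv
    have h3 := ih (rem G X v) (by omega) (a - 1) hal'
    omega
  have hs := sum_Z (G := G) X
  have hz : ∑ v ∈ X, (((nb G X v).card : ℤ) - 2) * ((nb G X v).card - 3) +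
      ∑ v ∈ X, (5 * ((nb G X v).card : ℤ) - 6 - Z G X v) = 0 := by
    rw [← Finset.sum_add_distrib]
    have h7 : ∀ v ∈ X, (((nb G X v).card : ℤ) - 2) * ((nb G X v).card - 3) +
        (5 * ((nb G X v).card : ℤ) - 6 - Z G X v) =
        ((nb G X v).card : ℤ) * (nb G X v).card - Z G X v := by
      intro v _; ring
    rw [Finset.sum_congr rfl h7, Finset.sum_sub_distrib, sub_eq_zero]
    have : ((∑ v ∈ X, Z G X v : ℕ) : ℤ) = ((∑ v ∈ X, (nb G X v).card * (nb G X v).card : ℕ) : ℤ) := by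
      rw [hs]
    push_cast at this
    exact this.symm
  have hn1 : ∀ v ∈ X, 0 ≤ (((nb G X v).card : ℤ) - 2) * ((nb G X v).card - 3) := by
    intro v _
    rcases Nat.lt_or_ge (nb G X v).card 3 with h | h
    · have h8 : ((nb G X v).card : ℤ) ≤ 2 := by omega
      exact mul_nonneg_of_nonpos_of_nonpos (by linarith) (by linarith)
    · have h8 : (3 : ℤ) ≤ (nb G X v).card := by exact_mod_cast h
      exact mul_nonneg (by linarith) (by linarith)
  have hn2 : ∀ v ∈ X, 0 ≤ 5 * ((nb G X v).card : ℤ) - 6 - Z G X v := by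
    intro v hv
    have := h6 v hv
    omega
  have hs1 := Finset.sum_nonneg hn1
  have hs2 := Finset.sum_nonneg hn2
  have he1 : ∀ v ∈ X, (((nb G X v).card : ℤ) - 2) * ((nb G X v).card - 3) = 0 :=
    (Finset.sum_eq_zero_iff_of_nonneg hn1).1 (by linarith)
  have he2 : ∀ v ∈ X, 5 * ((nb G X v).card : ℤ) - 6 - Z G X v = 0 :=
    (Finset.sum_eq_zero_iff_of_nonneg hn2).1 (by linarith)
  have hd : ∀ v ∈ X, (nb G X v).card = 2 ∨ (nb G X v).card = 3 := by
    intro v hv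
    rcases mul_eq_zero.1 (he1 v hv) with h | h
    · left; omega
    · right; omega
  have hZ : ∀ v ∈ X, Z G X v + 6 = 5 * (nb G X v).card := by
    intro v hv
    have := he2 v hv
    omega
  have hT : ∀ v ∈ X, Tight (rem G X v) (a - 1) G := by
    intro v hv
    obtain ⟨ha, hal'⟩ := al_rem hal hv
    have h1 := card_rem (G := G) hv
    have h2 := e2_rem htf hv
    have h3 := hZ v hv
    exact ⟨hal', by omega⟩
  intro v hv
  refine ⟨?_, hT v hv⟩
  by_contra hne
  have hv2 : (nb G X v).card = 2 := by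
    rcases hd v hv with h | h
    · exact h
    · exact absurd h hne
  -- neighbours of a degree 2 vertex have degree 2
  have key : ∀ w ∈ X, (nb G X w).card = 2 → ∀ p ∈ nb G X w, (nb G X p).card = 2 := by
    intro w hw hw2 p hp
    have h1 := hZ w hw
    obtain ⟨p1, p2, hp12, hnb⟩ := Finset.card_eq_two.1 hw2
    have h2 : Z G X w = (nb G X p1).card + (nb G X p2).card := by
      unfold Z; rw [hnb, Finset.sum_pair hp12]
    have h3 : p1 ∈ nb G X w := by rw [hnb]; simp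
    have h4 : p2 ∈ nb G X w := by rw [hnb]; simp
    have h5 := hd p1 (mem_nb.1 h3).1
    have h6 := hd p2 (mem_nb.1 h4).1
    rw [hnb, mem_insert, mem_singleton] at hp
    rcases hp with rfl | rfl <;> omega
  obtain ⟨p, q, hpq, hnb⟩ := Finset.card_eq_two.1 hv2
  have hp : p ∈ nb G X v := by rw [hnb]; simp
  have hp2 := key v hv hv2 p hp
  have hvp : v ∈ nb G X p := mem_nb.2 ⟨hv, (mem_nb.1 hp).2.symm⟩
  obtain ⟨p2, hp2m, hp2v⟩ : ∃ p2 ∈ nb G X p, p2 ≠ v := by
    obtain ⟨x, y, hxy, hxy2⟩ := Finset.card_eq_two.1 hp2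
    by_cases h : x = v
    · exact ⟨y, by rw [hxy2]; simp, fun h' => hxy (h.trans h'.symm)⟩
    · exact ⟨x, by rw [hxy2]; simp, h⟩
  have hp2d := key p (mem_nb.1 hp).1 hp2 p2 hp2m
  have hrem : p2 ∈ rem G X v := mem_rem.2 ⟨(mem_nb.1 hp2m).1, hp2v,
    htf v p p2 (mem_nb.1 hp).2 (mem_nb.1 hp2m).2⟩
  have h1 := tight_deg htf ih (rem_le X v) (hT v hv) hrem
  have h2 : nb G (rem G X v) p2 ⊆ (nb G X p2).erase p := by
    intro y hy
    rw [mem_nb, mem_rem] at hy
    rw [mem_erase, mem_nb]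
    refine ⟨?_, hy.1.1, hy.2⟩
    rintro rfl
    exact hy.1.2.2 (mem_nb.1 hp).2
  have h3 := Finset.card_le_card h2
  have h4 : p ∈ nb G X p2 := mem_nb.2 ⟨(mem_nb.1 hp).1, (mem_nb.1 hp2m).2.symm⟩
  rw [Finset.card_erase_of_mem h4, hp2d] at h3
  omega

/-- the standing assumptions on a minimal counterexample -/
structure Hyp (G : SimpleGraph V) [DecidableRel G.Adj] (X : Finset V) (a : ℕ) : Prop where
  htf : ∀ x y z, G.Adj x y → G.Adj y z → ¬ G.Adj x z
  ih : ∀ Y : Finset V, Y.card < X.card → ∀ a, Al G a Y → 10 * Y.card ≤ e2 G Y + 20 * a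
  hal : Al G a X
  hc : e2 G X + 20 * a < 10 * X.card
  h3 : ∀ v ∈ X, (nb G X v).card = 3
  hT : ∀ v ∈ X, Tight (rem G X v) (a - 1) G

section
variable {X : Finset V} {a : ℕ} (H : Hyp G X a)
include H

theorem nbY {v w : V} (hw : w ∈ rem G X v) :
    nb G (rem G X v) w = (nb G X w).filter (fun y => ¬ G.Adj v y) := by
  ext y
  rw [mem_filter, mem_nb, mem_nb, mem_rem]
  rw [mem_rem] at hw
  constructor
  · rintro ⟨⟨h1, h2, h3⟩, h4⟩
    exact ⟨⟨h1, h4⟩, h3⟩
  · rintro ⟨⟨h1, h2⟩, h3⟩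
    refine ⟨⟨h1, ?_, h3⟩, h2⟩
    rintro rfl
    exact hw.2.2 h2.symm

theorem rem_deg {v w : V} (hv : v ∈ X) (hw : w ∈ rem G X v) :
    2 ≤ (nb G (rem G X v) w).card :=
  tight_deg H.htf H.ih (rem_le X v) (H.hT v hv) hw

/-- no 4-cycles -/
theorem c4 {v w x y : V} (hv : v ∈ X) (hw : w ∈ X) (hx : x ∈ X) (hy : y ∈ X) (hvw : v ≠ w)
    (h1 : G.Adj v x) (h2 : G.Adj x w) (h3 : G.Adj v y) (h4 : G.Adj y w) : x = y := by
  by_contra hxy
  have hw' : w ∈ rem G X v := mem_rem.2 ⟨hw, hvw.symm, H.htf v x w h1 h2⟩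
  have h5 := rem_deg H hv hw'
  rw [nbY H hw'] at h5
  have h6 : (nb G X w).filter (fun y => ¬ G.Adj v y) ⊆ ((nb G X w).erase x).erase y := by
    intro z hz
    rw [mem_filter] at hz
    rw [mem_erase, mem_erase]
    refine ⟨?_, ?_, hz.1⟩
    · rintro rfl; exact hz.2 h3
    · rintro rfl; exact hz.2 h1
  have h7 := Finset.card_le_card h6
  have hx' : x ∈ nb G X w := mem_nb.2 ⟨hx, h2.symm⟩
  have hy' : y ∈ (nb G X w).erase x := mem_erase.2 ⟨Ne.symm hxy, mem_nb.2 ⟨hy, h4.symm⟩⟩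
  rw [Finset.card_erase_of_mem hy', Finset.card_erase_of_mem hx', H.h3 w hw] at h7
  omega

/-- the degree in `rem v` of a vertex at distance two -/
theorem deg_two {v u w : V} (hv : v ∈ X) (hu : u ∈ X) (hw : w ∈ X) (hvw : v ≠ w)
    (h1 : G.Adj v u) (h2 : G.Adj u w) : w ∈ rem G X v ∧
    nb G (rem G X v) w = (nb G X w).erase u ∧ (nb G (rem G X v) w).card = 2 := by
  have hw' : w ∈ rem G X v := mem_rem.2 ⟨hw, hvw.symm, H.htf v u w h1 h2⟩
  have h3 : nb G (rem G X v) w = (nb G X w).erase u := by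
    rw [nbY H hw']
    ext y
    rw [mem_filter, mem_erase, mem_nb]
    constructor
    · rintro ⟨⟨h4, h5⟩, h6⟩
      refine ⟨?_, h4, h5⟩
      rintro rfl; exact h6 h1
    · rintro ⟨h4, h5, h6⟩
      refine ⟨⟨h5, h6⟩, ?_⟩
      intro h7
      exact h4 (c4 H hv hw h5 hu hvw h7 h6.symm h1 h2)
  refine ⟨hw', h3, ?_⟩
  rw [h3, Finset.card_erase_of_mem (mem_nb.2 ⟨hu, h2.symm⟩), H.h3 w hw]

/-- every 2-path lies in a pentagon -/
theorem pent {v u w : V} (hv : v ∈ X) (hu : u ∈ X) (hw : w ∈ X) (hvw : v ≠ w)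
    (h1 : G.Adj v u) (h2 : G.Adj u w) : ∃ p ∈ X, ∃ q ∈ X, G.Adj w p ∧ G.Adj p q ∧ G.Adj q v ∧
      p ≠ u ∧ q ≠ u := by
  obtain ⟨hw', hnb, hc⟩ := deg_two H hv hu hw hvw h1 h2
  have h3 := (tight_Z H.htf H.ih (rem_le X v) (H.hT v hv)
    hw').1
  have h4 : ∃ p ∈ nb G (rem G X v) w, (nb G (rem G X v) p).card ≤ 2 := by
    by_contra hcon
    push Not at hcon
    have h5 : (nb G (rem G X v) w).card * 3 ≤ Z G (rem G X v) w := by
      unfold Z
      rw [← smul_eq_mul]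
      exact Finset.card_nsmul_le_sum _ _ _ fun p hp => hcon p hp
    omega
  obtain ⟨p, hp, hp2⟩ := h4
  obtain ⟨hpY, hwp⟩ := mem_nb.1 hp
  have hpX := (mem_rem.1 hpY).1
  have hex : ∃ q ∈ nb G X p, G.Adj v q := by
    by_contra hcon
    push Not at hcon
    have h5 : nb G (rem G X v) p = nb G X p := by
      rw [nbY H hpY]
      exact Finset.filter_true_of_mem hcon
    rw [h5, H.h3 p hpX] at hp2
    omega
  obtain ⟨q, hq, hvq⟩ := hex
  obtain ⟨hqX, hpq⟩ := mem_nb.1 hq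
  refine ⟨p, hpX, q, hqX, hwp, hpq, hvq.symm, ?_, ?_⟩
  · rintro rfl
    exact (mem_rem.1 hpY).2.2 h1
  · rintro rfl
    exact H.htf w p q hwp hpq h2.symm

/-- the matching property of the second neighbourhood -/
theorem matching {v g w p q g' z : V} (hv : v ∈ X) (hg : g ∈ X) (hw : w ∈ X) (hp : p ∈ X)
    (hq : q ∈ X) (hg' : g' ∈ X) (hz : z ∈ X) (hvw : v ≠ w) (h1 : G.Adj v g) (h2 : G.Adj g w)
    (h3 : G.Adj w p) (h4 : G.Adj w q) (hpq : p ≠ q) (hpg : p ≠ g) (hqg : q ≠ g)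
    (hvp : v ≠ p) (h5 : G.Adj v g') (h6 : G.Adj g' p)
    (hq' : ∀ y ∈ X, G.Adj v y → ¬ G.Adj y q) (h7 : G.Adj p z) (hzw : z ≠ w) (hvz : v ≠ z)
    (h8 : ¬ G.Adj v z) : ∀ y ∈ X, G.Adj v y → ¬ G.Adj y z := by
  intro y hy hvy hyz
  obtain ⟨hw', hnb, hc⟩ := deg_two H hv hg hw hvw h1 h2
  obtain ⟨hp', hnbp, hcp⟩ := deg_two H hv hg' hp hvp h5 h6
  obtain ⟨hz', hnbz, hcz⟩ := deg_two H hv hy hz hvz hvy hyz
  have hqY : q ∈ rem G X v := by
    rw [mem_rem]
    refine ⟨hq, ?_, ?_⟩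
    · rintro rfl
      exact (mem_rem.1 hw').2.2 h4.symm
    · intro h9
      exact hqg (c4 H hv hw hq hg hvw h9 h4.symm h1 h2)
  have hcq : (nb G (rem G X v) q).card = 3 := by
    have h9 : nb G (rem G X v) q = nb G X q := by
      rw [nbY H hqY]
      refine Finset.filter_true_of_mem ?_
      intro y' hy' h10
      exact hq' y' (mem_nb.1 hy').1 h10 (mem_nb.1 hy').2.symm
    rw [h9, H.h3 q hq]
  have hnbw : nb G (rem G X v) w = {p, q} := by
    symm
    refine Finset.eq_of_subset_of_card_le ?_ ?_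
    · intro t ht
      rw [mem_insert, mem_singleton] at ht
      rcases ht with rfl | rfl
      · exact mem_nb.2 ⟨hp', h3⟩
      · exact mem_nb.2 ⟨hqY, h4⟩
    · rw [hc, Finset.card_pair hpq]
  have hZ : Z G (rem G X v) w = 5 := by
    unfold Z
    rw [hnbw, Finset.sum_pair hpq, hcp, hcq]
  have hle : (rem G X v).card ≤ X.card := Finset.card_le_card (Finset.filter_subset _ _)
  have hT' := (tight_Z H.htf H.ih hle (H.hT v hv) hw').2 (by rw [hZ, hc])
  have hzz : z ∈ rem G (rem G X v) w := mem_rem.2 ⟨hz', hzw, H.htf w p z h3 h7⟩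
  have h9 := tight_deg H.htf H.ih ((rem_le (rem G X v) w).trans hle)
    hT' hzz
  have h10 : nb G (rem G (rem G X v) w) z ⊆ (nb G (rem G X v) z).erase p := by
    intro t ht
    rw [mem_nb, mem_rem] at ht
    rw [mem_erase, mem_nb]
    refine ⟨?_, ht.1.1, ht.2⟩
    rintro rfl
    exact ht.1.2.2 h3
  have h11 := Finset.card_le_card h10
  rw [Finset.card_erase_of_mem (mem_nb.2 ⟨hp', h7.symm⟩), hcz] at h11
  omega

/-- the counting inequality for four independent vertices -/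
theorem count4 {S : Finset V} (hS : S ⊆ X) (hind : G.IsIndepSet (S : Set V)) (h4 : S.card = 4) :
    81 ≤ e2 G (X.filter (fun y => y ∈ S ∨ ∃ s ∈ S, G.Adj s y)) +
      4 * (X.filter (fun y => y ∈ S ∨ ∃ s ∈ S, G.Adj s y)).card := by
  set R := X.filter (fun y => y ∈ S ∨ ∃ s ∈ S, G.Adj s y) with hR
  have hRX : R ⊆ X := Finset.filter_subset _ _
  have hSR : S ⊆ R := fun s hs => mem_filter.2 ⟨hS hs, Or.inl hs⟩
  have key : ∀ J ⊆ X \ R, G.IsIndepSet (J : Set V) → J.card + 4 ≤ a := by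
    intro J hJ hJi
    have hdis : Disjoint J S := by
      rw [Finset.disjoint_left]
      intro t ht hts
      exact (mem_sdiff.1 (hJ ht)).2 (hSR hts)
    have hno : ∀ j ∈ J, ∀ s ∈ S, ¬ G.Adj s j := by
      intro j hj s hs h
      exact (mem_sdiff.1 (hJ hj)).2 (mem_filter.2 ⟨(mem_sdiff.1 (hJ hj)).1, Or.inr ⟨s, hs, h⟩⟩)
    have h5 := H.hal (J ∪ S) (Finset.union_subset (hJ.trans Finset.sdiff_subset) hS) (by
      intro x hx y hy hxy
      rw [Finset.mem_coe, mem_union] at hx hy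
      rcases hx with hx | hx <;> rcases hy with hy | hy
      · exact hJi hx hy hxy
      · exact fun h => hno x hx y hy h.symm
      · exact fun h => hno y hy x hx h
      · exact hind hx hy hxy)
    rw [Finset.card_union_of_disjoint hdis, h4] at h5
    exact h5
  have ha : 4 ≤ a := by
    have := key ∅ (Finset.empty_subset _) (by simp [SimpleGraph.IsIndepSet])
    simpa using this
  have hal' : Al G (a - 4) (X \ R) := by
    intro J hJ hJi
    have := key J hJ hJi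
    omega
  have hRc : 4 ≤ R.card := by rw [← h4]; exact Finset.card_le_card hSR
  have hRle : R.card ≤ X.card := Finset.card_le_card hRX
  have hsd : (X \ R).card = X.card - R.card := Finset.card_sdiff_of_subset hRX
  have h5 := H.ih (X \ R) (by omega) (a - 4) hal'
  have h6 := e2_sdiff (G := G) hRX
  have h7 : ∑ v ∈ R, (nb G X v).card = R.card * 3 := by
    rw [Finset.sum_congr rfl (fun v hv => H.h3 v (hRX hv)), Finset.sum_const, smul_eq_mul]
  rw [h7] at h6
  have h8 := H.hc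
  omega

end

end Pool.Agent.TwoDens.RK
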