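import Pool.Agent.TwoDens.RK2

open Finset

namespace Pool.Agent.TwoDens.RK

open Pool.Agent.TwoDens

variable {V : Type*} [DecidableEq V] {G : SimpleGraph V} [DecidableRel G.Adj]

/-- the configuration around an edge `f 0, f 1` -/
structure Cfg (G : SimpleGraph V) (X : Finset V) (f : Fin 12 → V) : Prop where
  mem : ∀ i, f i ∈ X
  inj : Function.Injective f
  Nu : ∀ t ∈ X, G.Adj (f 0) t → t = f 1 ∨ t = f 2 ∨ t = f 3
  Nv : ∀ t ∈ X, G.Adj (f 1) t → t = f 0 ∨ t = f 4 ∨ t = f 5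
  Na : ∀ t ∈ X, G.Adj (f 2) t → t = f 0 ∨ t = f 6 ∨ t = f 8
  Nb : ∀ t ∈ X, G.Adj (f 3) t → t = f 0 ∨ t = f 7 ∨ t = f 9
  Nc : ∀ t ∈ X, G.Adj (f 4) t → t = f 1 ∨ t = f 6 ∨ t = f 10
  Nd : ∀ t ∈ X, G.Adj (f 5) t → t = f 1 ∨ t = f 7 ∨ t = f 11
  e01 : G.Adj (f 0) (f 1)
  e02 : G.Adj (f 0) (f 2)
  e03 : G.Adj (f 0) (f 3)
  e14 : G.Adj (f 1) (f 4)
  e15 : G.Adj (f 1) (f 5)
  e26 : G.Adj (f 2) (f 6)
  e28 : G.Adj (f 2) (f 8)
  e37 : G.Adj (f 3) (f 7)
  e39 : G.Adj (f 3) (f 9)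
  e46 : G.Adj (f 4) (f 6)
  e4a : G.Adj (f 4) (f 10)
  e57 : G.Adj (f 5) (f 7)
  e5b : G.Adj (f 5) (f 11)

def σ1 : Fin 12 → Fin 12 := ![0, 1, 3, 2, 5, 4, 7, 6, 9, 8, 11, 10]
def σ2 : Fin 12 → Fin 12 := ![1, 0, 4, 5, 2, 3, 6, 7, 10, 11, 8, 9]

theorem σ1_inj : Function.Injective σ1 := by unfold Function.Injective; decide
theorem σ2_inj : Function.Injective σ2 := by unfold Function.Injective; decide

theorem Cfg.s1 {X : Finset V} {f : Fin 12 → V} (C : Cfg G X f) : Cfg G X (f ∘ σ1) where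
  mem i := C.mem _
  inj := C.inj.comp σ1_inj
  Nu t ht h := by rcases C.Nu t ht h with h | h | h
                  · exact Or.inl h
                  · exact Or.inr (Or.inr h)
                  · exact Or.inr (Or.inl h)
  Nv t ht h := by rcases C.Nv t ht h with h | h | h
                  · exact Or.inl h
                  · exact Or.inr (Or.inr h)
                  · exact Or.inr (Or.inl h)
  Na t ht h := C.Nb t ht h
  Nb t ht h := C.Na t ht h
  Nc t ht h := C.Nd t ht h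
  Nd t ht h := C.Nc t ht h
  e01 := C.e01
  e02 := C.e03
  e03 := C.e02
  e14 := C.e15
  e15 := C.e14
  e26 := C.e37
  e28 := C.e39
  e37 := C.e26
  e39 := C.e28
  e46 := C.e57
  e4a := C.e5b
  e57 := C.e46
  e5b := C.e4a

theorem Cfg.s2 {X : Finset V} {f : Fin 12 → V} (C : Cfg G X f) : Cfg G X (f ∘ σ2) where
  mem i := C.mem _
  inj := C.inj.comp σ2_inj
  Nu t ht h := C.Nv t ht h
  Nv t ht h := C.Nu t ht h
  Na t ht h := C.Nc t ht h
  Nb t ht h := C.Nd t ht h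
  Nc t ht h := C.Na t ht h
  Nd t ht h := C.Nb t ht h
  e01 := C.e01.symm
  e02 := C.e14
  e03 := C.e15
  e14 := C.e02
  e15 := C.e03
  e26 := C.e46
  e28 := C.e4a
  e37 := C.e57
  e39 := C.e5b
  e46 := C.e26
  e4a := C.e28
  e57 := C.e37
  e5b := C.e39

section
variable {X : Finset V} {a : ℕ} (H : Hyp G X a) {f : Fin 12 → V} (C : Cfg G X f)
include H C

theorem ne_of {i j : Fin 12} (h : i ≠ j) : f i ≠ f j := C.inj.ne h

/-- no common neighbour of `f 0` and `f 10` -/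
theorem no_common1 : ∀ t ∈ X, G.Adj (f 0) t → ¬ G.Adj t (f 10) := by
  intro t ht h1 h2
  rcases C.Nu t ht h1 with rfl | rfl | rfl
  · exact H.htf _ _ _ C.e14 C.e4a h2
  · rcases C.Na _ (C.mem 10) h2 with h | h | h <;> exact C.inj.ne (by decide) h
  · rcases C.Nb _ (C.mem 10) h2 with h | h | h <;> exact C.inj.ne (by decide) h

/-- neighbours of `f 6` among the twelve -/
theorem xfree : ∀ i, G.Adj (f 6) (f i) → i = 2 ∨ i = 4 := by
  have C2 := C.s2
  have hm1 : ∀ i : Fin 12, G.Adj (f 6) (f i) → i ≠ 4 → i ≠ 0 → ¬ G.Adj (f 0) (f i) →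
      ∀ y ∈ X, G.Adj (f 0) y → ¬ G.Adj y (f i) := by
    intro i h1 h2 h3 h4
    exact matching H (C.mem 0) (C.mem 1) (C.mem 4) (C.mem 6) (C.mem 10) (C.mem 2) (C.mem i)
      (C.inj.ne (by decide)) C.e01 C.e14 C.e46 C.e4a (C.inj.ne (by decide)) (C.inj.ne (by decide))
      (C.inj.ne (by decide)) (C.inj.ne (by decide)) C.e02 C.e26 (no_common1 H C) h1
      (C.inj.ne h2) (C.inj.ne h3.symm) h4
  have hm2 : ∀ i : Fin 12, G.Adj (f 6) (f i) → i ≠ 2 → i ≠ 1 → ¬ G.Adj (f 1) (f i) →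
      ∀ y ∈ X, G.Adj (f 1) y → ¬ G.Adj y (f i) := by
    intro i h1 h2 h3 h4
    exact matching H (C.mem 1) (C.mem 0) (C.mem 2) (C.mem 6) (C.mem 8) (C.mem 4) (C.mem i)
      (C.inj.ne (by decide)) C.e01.symm C.e02 C.e26 C.e28 (C.inj.ne (by decide))
      (C.inj.ne (by decide)) (C.inj.ne (by decide)) (C.inj.ne (by decide)) C.e14 C.e46
      (no_common1 H C2) h1 (C.inj.ne h2) (C.inj.ne h3.symm) h4
  intro i hi
  fin_cases i
  · exact absurd hi.symm (H.htf _ _ _ C.e02 C.e26)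
  · exact absurd hi.symm (H.htf _ _ _ C.e14 C.e46)
  · exact Or.inl rfl
  · exfalso
    rcases C.Nb _ (C.mem 6) hi.symm with h | h | h <;> exact C.inj.ne (by decide) h
  · exact Or.inr rfl
  · exfalso
    rcases C.Nd _ (C.mem 6) hi.symm with h | h | h <;> exact C.inj.ne (by decide) h
  · exact absurd hi (G.loopless.irrefl _)
  · exact absurd C.e37 (hm1 7 hi (by decide) (by decide) (H.htf _ _ _ C.e03 C.e37) _ (C.mem 3) C.e03)
  · exact absurd hi.symm (H.htf _ _ _ C.e28.symm C.e26)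
  · exact absurd C.e39 (hm1 9 hi (by decide) (by decide) (H.htf _ _ _ C.e03 C.e39) _ (C.mem 3) C.e03)
  · exact absurd hi.symm (H.htf _ _ _ C.e4a.symm C.e46)
  · exact absurd C.e5b (hm2 11 hi (by decide) (by decide) (H.htf _ _ _ C.e15 C.e5b) _ (C.mem 5)
      C.e15)

theorem yfree : ∀ i, G.Adj (f 7) (f i) → i = 3 ∨ i = 5 := by
  intro i hi
  have h := xfree H C.s1 (σ1 i) (by
    have : (f ∘ σ1) (σ1 i) = f i := by
      show f (σ1 (σ1 i)) = f i
      congr 1
      revert i; intro i _; fin_cases i <;> rfl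
    rw [this]; exact hi)
  revert h
  clear hi
  revert i
  unfold σ1
  decide

/-- the edge between `f 8` and `f 9` -/
theorem e89 : G.Adj (f 8) (f 9) := by
  obtain ⟨p, hp, q, hq, h1, h2, h3, h4, h5⟩ := pent H (C.mem 8) (C.mem 2) (C.mem 0)
    (C.inj.ne (by decide)) C.e28.symm C.e02.symm
  rcases C.Nu p hp h1 with rfl | rfl | rfl
  · exfalso
    rcases C.Nv q hq h2 with rfl | rfl | rfl
    · exact H.htf _ _ _ C.e02 C.e28 h3
    · rcases C.Nc _ (C.mem 8) h3 with h | h | h <;> exact C.inj.ne (by decide) h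
    · rcases C.Nd _ (C.mem 8) h3 with h | h | h <;> exact C.inj.ne (by decide) h
  · exact absurd rfl h4
  · rcases C.Nb q hq h2 with rfl | rfl | rfl
    · exact absurd h3 (H.htf _ _ _ C.e02 C.e28)
    · exfalso
      have := yfree H C 8 h3
      revert this; decide
    · exact h3.symm

/-- neighbours of `f 8` among the twelve -/
theorem pfree : ∀ i, G.Adj (f 8) (f i) → i = 2 ∨ i = 9 ∨ i = 10 ∨ i = 11 := by
  intro i hi
  fin_cases i
  · exact absurd hi.symm (H.htf _ _ _ C.e02 C.e28)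
  · exfalso
    rcases C.Nv _ (C.mem 8) hi.symm with h | h | h <;> exact C.inj.ne (by decide) h
  · exact Or.inl rfl
  · exfalso
    rcases C.Nb _ (C.mem 8) hi.symm with h | h | h <;> exact C.inj.ne (by decide) h
  · exfalso
    rcases C.Nc _ (C.mem 8) hi.symm with h | h | h <;> exact C.inj.ne (by decide) h
  · exfalso
    rcases C.Nd _ (C.mem 8) hi.symm with h | h | h <;> exact C.inj.ne (by decide) h
  · exact absurd hi (H.htf _ _ _ C.e28.symm C.e26)
  · exfalso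
    have := yfree H C 8 hi.symm
    revert this; decide
  · exact absurd hi (G.loopless.irrefl _)
  · exact Or.inr (Or.inl rfl)
  · exact Or.inr (Or.inr (Or.inl rfl))
  · exact Or.inr (Or.inr (Or.inr rfl))

end

end Pool.Agent.TwoDens.RK
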