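import Pool.Agent.TwoDens.Core

open Finset

namespace Pool.Agent.TwoDens

/-- splitting the number of edges into edges inside blocks and cross edges -/
theorem e2_block {V W : Type*} [DecidableEq V] [DecidableEq W] [Fintype W]
    (G : SimpleGraph V) [DecidableRel G.Adj] (b : V → W) (S : Finset V)
    (hS : ∀ x y, G.Adj x y → b x ≠ b y → x ∈ S ∨ y ∈ S) (F : Finset V) :
    e2 G F + F.card ≤
      ∑ o : W, (F.filter (fun y => b y = o)).card * (F.filter (fun y => b y = o)).card +
      2 * ∑ x ∈ F.filter (fun x => x ∈ S), (F.filter (fun y => b y ≠ b x ∧ G.Adj x y)).card := by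
  have h1 : ∀ x ∈ F, (F.filter (G.Adj x)).card + 1 ≤ (F.filter (fun y => b y = b x)).card +
      (F.filter (fun y => b y ≠ b x ∧ G.Adj x y)).card := by
    intro x hx
    have h2 : insert x (F.filter (G.Adj x)) ⊆ F.filter (fun y => b y = b x) ∪
        F.filter (fun y => b y ≠ b x ∧ G.Adj x y) := by
      intro y hy
      rw [mem_insert, mem_filter] at hy
      rw [mem_union, mem_filter, mem_filter]
      rcases hy with rfl | ⟨hy1, hy2⟩
      · exact Or.inl ⟨hx, rfl⟩
      · by_cases h : b y = b x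
        · exact Or.inl ⟨hy1, h⟩
        · exact Or.inr ⟨hy1, h, hy2⟩
    have h3 := (Finset.card_le_card h2).trans (Finset.card_union_le _ _)
    rwa [Finset.card_insert_of_notMem (fun h => G.loopless.irrefl x (mem_filter.1 h).2)] at h3
  have h2 : e2 G F + F.card ≤ ∑ x ∈ F, (F.filter (fun y => b y = b x)).card +
      ∑ x ∈ F, (F.filter (fun y => b y ≠ b x ∧ G.Adj x y)).card := by
    unfold e2
    rw [Finset.card_eq_sum_ones F, ← Finset.sum_add_distrib, ← Finset.sum_add_distrib]
    exact Finset.sum_le_sum h1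
  have h3 : ∑ x ∈ F, (F.filter (fun y => b y = b x)).card =
      ∑ o : W, (F.filter (fun y => b y = o)).card * (F.filter (fun y => b y = o)).card := by
    rw [← Finset.sum_fiberwise_of_maps_to (s := F) (t := Finset.univ) (g := b)
      (fun _ _ => Finset.mem_univ _)]
    refine Finset.sum_congr rfl fun o _ => ?_
    rw [Finset.sum_congr rfl (fun x hx => by rw [(mem_filter.1 hx).2]), Finset.sum_const,
      smul_eq_mul]
  have h4 : ∑ x ∈ F, (F.filter (fun y => b y ≠ b x ∧ G.Adj x y)).card ≤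
      2 * ∑ x ∈ F.filter (fun x => x ∈ S), (F.filter (fun y => b y ≠ b x ∧ G.Adj x y)).card := by
    have h5 : ∑ x ∈ F, (F.filter (fun y => b y ≠ b x ∧ G.Adj x y)).card =
        ∑ x ∈ F.filter (fun x => x ∈ S), (F.filter (fun y => b y ≠ b x ∧ G.Adj x y)).card +
        ∑ x ∈ F.filter (fun x => ¬ x ∈ S), (F.filter (fun y => b y ≠ b x ∧ G.Adj x y)).card :=
      (Finset.sum_filter_add_sum_filter_not _ _ _).symm
    have h6 : ∑ x ∈ F.filter (fun x => ¬ x ∈ S), (F.filter (fun y => b y ≠ b x ∧ G.Adj x y)).card ≤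
        ∑ x ∈ F.filter (fun x => x ∈ S), (F.filter (fun y => b y ≠ b x ∧ G.Adj x y)).card := by
      have h7 : ∀ x ∈ F.filter (fun x => ¬ x ∈ S),
          (F.filter (fun y => b y ≠ b x ∧ G.Adj x y)).card ≤
          ((F.filter (fun x => x ∈ S)).filter (fun y => b x ≠ b y ∧ G.Adj y x)).card := by
        intro x hx
        refine Finset.card_le_card ?_
        intro y hy
        obtain ⟨hyF, hy1, hy2⟩ := mem_filter.1 hy
        rw [mem_filter, mem_filter]
        refine ⟨⟨hyF, ?_⟩, hy1.symm, hy2.symm⟩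
        rcases hS x y hy2 hy1.symm with h | h
        · exact absurd h (mem_filter.1 hx).2
        · exact h
      refine (Finset.sum_le_sum h7).trans ?_
      simp only [Finset.card_filter (fun y => _ ≠ b y ∧ G.Adj y _)]
      rw [Finset.sum_comm]
      refine Finset.sum_le_sum fun y _ => ?_
      rw [← Finset.card_filter]
      exact Finset.card_le_card (Finset.filter_subset_filter _ (Finset.filter_subset _ _))
    omega
  omega

/-- vertices of the star construction: `p` blocks of size `k` and one block of size `k - 1` -/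
abbrev SV (p k : ℕ) := (Fin p × Fin k) ⊕ Fin (k - 1)

/-- adjacency of the star construction -/
def sAdj (p k : ℕ) : SV p k → SV p k → Prop
  | Sum.inl x, Sum.inl y => (x.1 = y.1 ∧ x.2 ≠ y.2 ∧ ¬ (x.2.val = 0 ∧ y.2.val = 1) ∧
      ¬ (x.2.val = 1 ∧ y.2.val = 0)) ∨ (x.1 ≠ y.1 ∧ x.2.val = 0 ∧ y.2.val = 0)
  | Sum.inl x, Sum.inr c => (x.2.val = 0 ∧ 2 * c.val < k - 1) ∨
      (x.2.val = 1 ∧ ¬ 2 * c.val < k - 1)
  | Sum.inr c, Sum.inl x => (x.2.val = 0 ∧ 2 * c.val < k - 1) ∨
      (x.2.val = 1 ∧ ¬ 2 * c.val < k - 1)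
  | Sum.inr c, Sum.inr d => c ≠ d

theorem sAdj_symm (p k : ℕ) (x y : SV p k) (h : sAdj p k x y) : sAdj p k y x := by
  rcases x with x | c <;> rcases y with y | d
  · rcases h with ⟨h1, h2, h3, h4⟩ | ⟨h1, h2, h3⟩
    · exact Or.inl ⟨h1.symm, h2.symm, fun h => h4 ⟨h.2, h.1⟩, fun h => h3 ⟨h.2, h.1⟩⟩
    · exact Or.inr ⟨h1.symm, h3, h2⟩
  · exact h
  · exact h
  · exact Ne.symm h

/-- the star construction -/
def starG (p k : ℕ) : SimpleGraph (SV p k) where
  Adj := sAdj p k
  symm := ⟨fun x y h => sAdj_symm p k x y h⟩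
  loopless := ⟨fun x h => by
    rcases x with x | c
    · rcases h with ⟨_, h2, _⟩ | ⟨h1, _⟩
      · exact h2 rfl
      · exact h1 rfl
    · exact h rfl⟩

instance (p k : ℕ) : DecidableRel (starG p k).Adj := fun x y => by
  rcases x with x | c <;> rcases y with y | d <;> unfold starG sAdj <;> exact inferInstance

/-- block of a vertex -/
def sb (p k : ℕ) : SV p k → Option (Fin p)
  | Sum.inl x => some x.1
  | Sum.inr _ => none

theorem star_same {p k : ℕ} (x y : SV p k) (hxy : x ≠ y) (hb : sb p k x = sb p k y)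
    (hna : ¬ (starG p k).Adj x y) :
    ∃ i : Fin p, ∃ a a' : Fin k, a.val = 0 ∧ a'.val = 1 ∧
      ((x = Sum.inl (i, a) ∧ y = Sum.inl (i, a')) ∨ (x = Sum.inl (i, a') ∧ y = Sum.inl (i, a))) := by
  rcases x with ⟨i, a⟩ | c <;> rcases y with ⟨j, a'⟩ | d
  · simp only [sb, Option.some.injEq] at hb
    subst hb
    have h1 : a ≠ a' := fun h => hxy (by rw [h])
    have h2 : (a.val = 0 ∧ a'.val = 1) ∨ (a.val = 1 ∧ a'.val = 0) := by
      by_contra h
      push Not at h
      refine hna (Or.inl ⟨rfl, h1, ?_, ?_⟩)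
      · rintro ⟨h3, h4⟩; exact h.1 h3 h4
      · rintro ⟨h3, h4⟩; exact h.2 h3 h4
    rcases h2 with ⟨h3, h4⟩ | ⟨h3, h4⟩
    · exact ⟨i, a, a', h3, h4, Or.inl ⟨rfl, rfl⟩⟩
    · exact ⟨i, a', a, h4, h3, Or.inr ⟨rfl, rfl⟩⟩
  · simp [sb] at hb
  · simp [sb] at hb
  · exfalso
    apply hna
    intro h
    exact hxy (by rw [h])

theorem star_indep {p k : ℕ} (I : Finset (SV p k))
    (hI : (starG p k).IsIndepSet (I : Set (SV p k))) : I.card ≤ p + 1 := by
  classical
  have hcard : (Finset.univ : Finset (Option (Fin p))).card = p + 1 := by simp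
  by_cases hc : ∃ i : Fin p, ∃ a a' : Fin k, a.val = 0 ∧ a'.val = 1 ∧ Sum.inl (i, a) ∈ I ∧
      Sum.inl (i, a') ∈ I
  · obtain ⟨i, a, a', ha, ha', h1, h2⟩ := hc
    rw [← hcard]
    refine Finset.card_le_card_of_injOn
      (fun x => if x = Sum.inl (i, a') then none else sb p k x) (fun _ _ => Finset.mem_univ _) ?_
    have key : ∀ x ∈ I, ∀ y ∈ I, x ≠ y → sb p k x = sb p k y →
        x = Sum.inl (i, a') ∨ y = Sum.inl (i, a') := by
      intro x hx y hy hxy hb
      obtain ⟨j, c, c', hc, hc', h3⟩ := star_same x y hxy hb (hI hx hy hxy)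
      have hj : j = i := by
        by_contra hji
        have hmem : Sum.inl (j, c) ∈ I := by
          rcases h3 with ⟨h4, _⟩ | ⟨_, h4⟩
          · rw [← h4]; exact hx
          · rw [← h4]; exact hy
        refine hI (Finset.mem_coe.2 hmem) (Finset.mem_coe.2 h1) ?_ (Or.inr ⟨hji, hc, ha⟩)
        intro h5
        simp only [Sum.inl.injEq, Prod.mk.injEq] at h5
        exact hji h5.1
      subst hj
      have hcc : c' = a' := Fin.ext (by rw [hc', ha'])
      subst hcc
      rcases h3 with ⟨_, h4⟩ | ⟨h4, _⟩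
      · exact Or.inr h4
      · exact Or.inl h4
    have key2 : ∀ y ∈ I, sb p k y ≠ none := by
      intro y hy hn
      rcases y with y | c
      · simp [sb] at hn
      · by_cases h3 : 2 * c.val < k - 1
        · exact hI (Finset.mem_coe.2 h1) (Finset.mem_coe.2 hy) (by simp) (Or.inl ⟨ha, h3⟩)
        · exact hI (Finset.mem_coe.2 h2) (Finset.mem_coe.2 hy) (by simp) (Or.inr ⟨ha', h3⟩)
    intro x hx y hy hxy
    by_contra hne
    simp only at hxy
    split_ifs at hxy with h3 h4 h4
    · exact hne (by rw [h3, h4])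
    · exact key2 y hy hxy.symm
    · exact key2 x hx hxy
    · rcases key x hx y hy hne hxy with h5 | h5
      · exact h3 h5
      · exact h4 h5
  · rw [← hcard]
    refine Finset.card_le_card_of_injOn (sb p k) (fun _ _ => Finset.mem_univ _) ?_
    intro x hx y hy hxy
    by_contra hne
    obtain ⟨j, c, c', hc1, hc', h3⟩ := star_same x y hne hxy (hI hx hy hne)
    apply hc
    refine ⟨j, c, c', hc1, hc', ?_⟩
    rcases h3 with ⟨h4, h5⟩ | ⟨h4, h5⟩
    · exact ⟨by rw [← h4]; exact hx, by rw [← h5]; exact hy⟩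
    · exact ⟨by rw [← h5]; exact hy, by rw [← h4]; exact hx⟩

end Pool.Agent.TwoDens
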