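import Pool.Agent.TwoDens.Star

open Finset

namespace Pool.Agent.TwoDens

/-- the low part of the last block -/
def isLo (p k : ℕ) : SV p k → Prop
  | Sum.inl _ => False
  | Sum.inr c => 2 * c.val < k - 1

instance (p k : ℕ) : DecidablePred (isLo p k) := fun x => by
  rcases x with x | c <;> unfold isLo <;> exact inferInstance

/-- size of `F` in the last block -/
def cN {p k : ℕ} (F : Finset (SV p k)) : ℕ := (F.filter (fun y => sb p k y = none)).card

/-- size of `F` in block `i` -/
def aN {p k : ℕ} (F : Finset (SV p k)) (i : Fin p) : ℕ :=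
  (F.filter (fun y => sb p k y = some i)).card

def cLo {p k : ℕ} (F : Finset (SV p k)) : ℕ :=
  (F.filter (fun y => sb p k y = none ∧ isLo p k y)).card

def cHi {p k : ℕ} (F : Finset (SV p k)) : ℕ :=
  (F.filter (fun y => sb p k y = none ∧ ¬ isLo p k y)).card

theorem cLo_add_cHi {p k : ℕ} (F : Finset (SV p k)) : cLo F + cHi F = cN F := by
  unfold cLo cHi cN
  rw [← Finset.filter_filter, ← Finset.filter_filter]
  exact Finset.card_filter_add_card_filter_not _

theorem card_eq_sum {p k : ℕ} (F : Finset (SV p k)) : F.card = cN F + ∑ i, aN F i := by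
  rw [Finset.card_eq_sum_card_fiberwise (f := sb p k) (s := F) (t := Finset.univ)
    (fun _ _ => Finset.mem_univ _), Fintype.sum_option]
  rfl

theorem cN_le {p k : ℕ} (F : Finset (SV p k)) : cN F ≤ k - 1 := by
  have h1 : F.filter (fun y => sb p k y = none) ⊆
      (Finset.univ : Finset (Fin (k - 1))).image Sum.inr := by
    intro y hy
    rcases y with y | c
    · have := (mem_filter.1 hy).2
      simp [sb] at this
    · exact mem_image_of_mem _ (Finset.mem_univ _)
  have := (Finset.card_le_card h1).trans Finset.card_image_le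
  simpa [cN] using this

theorem aN_le {p k : ℕ} (F : Finset (SV p k)) (i : Fin p) : aN F i ≤ k := by
  have h1 : F.filter (fun y => sb p k y = some i) ⊆
      (Finset.univ : Finset (Fin k)).image (fun a => Sum.inl (i, a)) := by
    intro y hy
    rcases y with ⟨j, a⟩ | c
    · have := (mem_filter.1 hy).2
      simp only [sb, Option.some.injEq] at this
      rw [this]
      exact mem_image_of_mem _ (Finset.mem_univ _)
    · have := (mem_filter.1 hy).2
      simp [sb] at this
  have := (Finset.card_le_card h1).trans Finset.card_image_le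
  simpa [aN] using this

theorem two_cLo_le {p k : ℕ} (F : Finset (SV p k)) : 2 * cLo F ≤ k := by
  have h1 : F.filter (fun y => sb p k y = none ∧ isLo p k y) ⊆
      ((Finset.univ : Finset (Fin (k - 1))).filter (fun c => 2 * c.val < k - 1)).image Sum.inr := by
    intro y hy
    rcases y with y | c
    · have := (mem_filter.1 hy).2.1
      simp [sb] at this
    · exact mem_image_of_mem _ (mem_filter.2 ⟨Finset.mem_univ _, (mem_filter.1 hy).2.2⟩)
  have h2 := (Finset.card_le_card h1).trans Finset.card_image_le
  have h3 : ((Finset.univ : Finset (Fin (k - 1))).filter (fun c => 2 * c.val < k - 1)).card ≤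
      (Finset.range (k / 2)).card := by
    refine Finset.card_le_card_of_injOn (fun c => c.val) ?_ (fun _ _ _ _ h => Fin.ext h)
    intro c hc
    have := (mem_filter.1 (Finset.mem_coe.1 hc)).2
    rw [Finset.mem_coe, Finset.mem_range]
    show c.val < k / 2
    omega
  rw [Finset.card_range] at h3
  unfold cLo
  omega

theorem two_cHi_le {p k : ℕ} (F : Finset (SV p k)) : 2 * cHi F ≤ k := by
  have h1 : F.filter (fun y => sb p k y = none ∧ ¬ isLo p k y) ⊆
      ((Finset.univ : Finset (Fin (k - 1))).filter
        (fun c => ¬ 2 * c.val < k - 1)).image Sum.inr := by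
    intro y hy
    rcases y with y | c
    · have := (mem_filter.1 hy).2.1
      simp [sb] at this
    · exact mem_image_of_mem _ (mem_filter.2 ⟨Finset.mem_univ _, (mem_filter.1 hy).2.2⟩)
  have h2 := (Finset.card_le_card h1).trans Finset.card_image_le
  have h3 : ((Finset.univ : Finset (Fin (k - 1))).filter (fun c => ¬ 2 * c.val < k - 1)).card ≤
      (Finset.range (k / 2)).card := by
    refine Finset.card_le_card_of_injOn (fun c => k - 2 - c.val) ?_ ?_
    · intro c hc
      have := (mem_filter.1 (Finset.mem_coe.1 hc)).2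
      have h4 := c.isLt
      rw [Finset.mem_coe, Finset.mem_range]
      show k - 2 - c.val < k / 2
      omega
    · intro c _ d _ h
      have h4 := c.isLt
      have h5 := d.isLt
      simp only at h
      exact Fin.ext (by omega)
  rw [Finset.card_range] at h3
  unfold cHi
  omega

/-- weights of the special vertices -/
def wt {p k : ℕ} (F : Finset (SV p k)) : SV p k → ℕ
  | Sum.inl x => if x.2.val = 0 then cLo F + p else if x.2.val = 1 then cHi F else 0
  | Sum.inr _ => 0

/-- the special vertices -/
def spec (p k : ℕ) : Finset (SV p k) :=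
  ((Finset.univ : Finset (Fin p × Fin k)).filter (fun x => x.2.val ≤ 1)).image Sum.inl

theorem cross_spec {p k : ℕ} (x y : SV p k) (h : (starG p k).Adj x y)
    (hb : sb p k x ≠ sb p k y) : x ∈ spec p k ∨ y ∈ spec p k := by
  unfold spec
  rcases x with x | c <;> rcases y with y | d
  · rcases h with ⟨h1, _⟩ | ⟨_, h2, _⟩
    · exact absurd (by simp [sb, h1]) hb
    · exact Or.inl (mem_image_of_mem _ (mem_filter.2 ⟨mem_univ _, by omega⟩))
  · refine Or.inl (mem_image_of_mem _ (mem_filter.2 ⟨mem_univ _, ?_⟩))
    rcases h with ⟨h1, _⟩ | ⟨h1, _⟩ <;> omega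
  · refine Or.inr (mem_image_of_mem _ (mem_filter.2 ⟨mem_univ _, ?_⟩))
    rcases h with ⟨h1, _⟩ | ⟨h1, _⟩ <;> omega
  · exact absurd rfl hb

theorem cross_wt {p k : ℕ} (F : Finset (SV p k)) (x : SV p k) (hx : x ∈ spec p k) :
    (F.filter (fun y => sb p k y ≠ sb p k x ∧ (starG p k).Adj x y)).card ≤ wt F x := by
  unfold spec at hx
  obtain ⟨⟨i, a⟩, hia, rfl⟩ := mem_image.1 hx
  have ha : a.val ≤ 1 := (mem_filter.1 hia).2
  unfold wt
  by_cases h0 : a.val = 0
  · simp only [h0, if_true]
    have h1 : F.filter (fun y => sb p k y ≠ sb p k (Sum.inl (i, a)) ∧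
        (starG p k).Adj (Sum.inl (i, a)) y) ⊆
        F.filter (fun y => sb p k y = none ∧ isLo p k y) ∪
        (Finset.univ : Finset (Fin p)).image (fun j => Sum.inl (j, a)) := by
      intro y hy
      obtain ⟨hyF, hy1, hy2⟩ := mem_filter.1 hy
      rw [mem_union]
      rcases y with ⟨j, b⟩ | c
      · right
        rcases hy2 with ⟨h2, _⟩ | ⟨_, _, h3⟩
        · exact absurd (by simp only [sb]; simp only at h2; rw [h2]) hy1
        · have : b = a := Fin.ext (by simp only at h3; omega)
          rw [this]
          exact mem_image_of_mem _ (mem_univ j)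
      · left
        rw [mem_filter]
        refine ⟨hyF, rfl, ?_⟩
        rcases hy2 with ⟨_, h2⟩ | ⟨h2, _⟩
        · exact h2
        · simp only at h2; omega
    have h2 := (Finset.card_le_card h1).trans (Finset.card_union_le _ _)
    have h3 : ((Finset.univ : Finset (Fin p)).image
        (fun j => (Sum.inl (j, a) : SV p k))).card ≤ p :=
      Finset.card_image_le.trans (by simp)
    unfold cLo
    omega
  · have h1' : a.val = 1 := by omega
    simp only [h1', if_true]
    rw [if_neg (by omega)]
    refine Finset.card_le_card ?_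
    intro y hy
    obtain ⟨hyF, hy1, hy2⟩ := mem_filter.1 hy
    rcases y with ⟨j, b⟩ | c
    · rcases hy2 with ⟨h2, _⟩ | ⟨_, h2, _⟩
      · exact absurd (by simp only [sb]; simp only at h2; rw [h2]) hy1
      · simp only at h2; omega
    · rw [mem_filter]
      refine ⟨hyF, rfl, ?_⟩
      rcases hy2 with ⟨h2, _⟩ | ⟨_, h2⟩
      · simp only at h2; omega
      · exact h2

/-- total weight of block `i` -/
def nN {p k : ℕ} (F : Finset (SV p k)) (i : Fin p) : ℕ :=
  ∑ x ∈ F.filter (fun y => sb p k y = some i), wt F x

theorem star_e2 {p k : ℕ} (F : Finset (SV p k)) :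
    e2 (starG p k) F + F.card ≤ cN F * cN F + ∑ i, aN F i * aN F i + 2 * ∑ i, nN F i := by
  have h1 := e2_block (starG p k) (sb p k) (spec p k) cross_spec F
  rw [Fintype.sum_option] at h1
  have h2 : ∑ x ∈ F.filter (fun x => x ∈ spec p k),
      (F.filter (fun y => sb p k y ≠ sb p k x ∧ (starG p k).Adj x y)).card ≤ ∑ i, nN F i := by
    calc ∑ x ∈ F.filter (fun x => x ∈ spec p k),
        (F.filter (fun y => sb p k y ≠ sb p k x ∧ (starG p k).Adj x y)).card
        ≤ ∑ x ∈ F.filter (fun x => x ∈ spec p k), wt F x :=
          Finset.sum_le_sum fun x hx => cross_wt F x (mem_filter.1 hx).2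
      _ ≤ ∑ x ∈ F, wt F x := Finset.sum_le_sum_of_subset (Finset.filter_subset _ _)
      _ = ∑ o : Option (Fin p), ∑ x ∈ F.filter (fun y => sb p k y = o), wt F x :=
          (Finset.sum_fiberwise_of_maps_to (fun _ _ => Finset.mem_univ _) _).symm
      _ = ∑ x ∈ F.filter (fun y => sb p k y = none), wt F x + ∑ i, nN F i := by
          rw [Fintype.sum_option]; rfl
      _ = ∑ i, nN F i := by
          rw [Finset.sum_eq_zero, zero_add]
          intro x hx
          rcases x with x | c
          · have := (mem_filter.1 hx).2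
            simp [sb] at this
          · rfl
  have h3 : cN F * cN F + ∑ i, aN F i * aN F i =
      (F.filter (fun y => sb p k y = none)).card * (F.filter (fun y => sb p k y = none)).card +
      ∑ i : Fin p, (F.filter (fun y => sb p k y = some i)).card *
        (F.filter (fun y => sb p k y = some i)).card := rfl
  omega

theorem wt_le {p k : ℕ} (F : Finset (SV p k)) (x : SV p k) : 2 * wt F x ≤ k + 2 * p := by
  have h1 := two_cLo_le F
  have h2 := two_cHi_le F
  rcases x with x | c
  · simp only [wt]
    split_ifs <;> omega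
  · simp only [wt]; omega

theorem nN_le {p k : ℕ} (F : Finset (SV p k)) (i : Fin p) : nN F i ≤ cN F + p := by
  have h1 : nN F i ≤ ∑ a : Fin k, wt F (Sum.inl (i, a)) := by
    unfold nN
    rw [← Finset.sum_image (s := Finset.univ) (g := fun a : Fin k => (Sum.inl (i, a) : SV p k))
      (f := wt F)]
    · refine Finset.sum_le_sum_of_subset ?_
      intro y hy
      rcases y with ⟨j, a⟩ | c
      · have := (mem_filter.1 hy).2
        simp only [sb, Option.some.injEq] at this
        rw [this]
        exact mem_image_of_mem _ (Finset.mem_univ _)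
      · have := (mem_filter.1 hy).2
        simp [sb] at this
    · intro a _ b _ hab
      simpa using hab
  have h2 : ∑ a : Fin k, wt F (Sum.inl (i, a)) ≤
      ∑ a : Fin k, ((if a.val = 0 then cLo F + p else 0) + (if a.val = 1 then cHi F else 0)) := by
    refine Finset.sum_le_sum fun a _ => ?_
    simp only [wt]
    split_ifs <;> omega
  have h3 : ∀ (c d : ℕ), ∑ a : Fin k, (if a.val = c then d else 0) ≤ d := by
    intro c d
    rw [← Finset.sum_filter, Finset.sum_const, smul_eq_mul]
    have : ((Finset.univ : Finset (Fin k)).filter (fun a => a.val = c)).card ≤ 1 := by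
      rw [Finset.card_le_one]
      intro x hx y hy
      have h4 := (mem_filter.1 hx).2
      have h5 := (mem_filter.1 hy).2
      exact Fin.ext (by omega)
    calc _ ≤ 1 * d := Nat.mul_le_mul_right _ this
      _ = d := one_mul _
  rw [Finset.sum_add_distrib] at h2
  have h4 := h3 0 (cLo F + p)
  have h5 := h3 1 (cHi F)
  have h6 := cLo_add_cHi F
  omega

theorem nN_le_one {p k : ℕ} (F : Finset (SV p k)) (i : Fin p) (h : aN F i ≤ 1) :
    2 * nN F i ≤ k + 2 * p := by
  unfold nN
  rcases Nat.le_one_iff_eq_zero_or_eq_one.1 h with h0 | h1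
  · rw [Finset.card_eq_zero.1 h0]
    simp
  · obtain ⟨x, hx⟩ := Finset.card_eq_one.1 h1
    rw [hx, Finset.sum_singleton]
    exact wt_le F x

theorem nN_zero {p k : ℕ} (F : Finset (SV p k)) (i : Fin p) (h : aN F i = 0) : nN F i = 0 := by
  unfold nN
  rw [Finset.card_eq_zero.1 h]
  simp

end Pool.Agent.TwoDens
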