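import Pool.Agent.TwoDens.Core

open Finset

namespace Pool.Agent.TwoDens

variable {V : Type*} [DecidableEq V] (G : SimpleGraph V) [DecidableRel G.Adj]

/-- degree inside `X` -/
def dg (X : Finset V) (v : V) : ℕ := (X.filter (G.Adj v)).card

/-- Existence of an independent set of `a` vertices of small degree that dominates `X`. -/
theorem exists_I {a D : ℕ} {X : Finset V} (hal : Al G a X)
    (hnum : (a - 1) * (D + 1) + (X.filter (fun v => D < dg G X v)).card < X.card) :
    ∃ I ⊆ X, G.IsIndepSet (I : Set V) ∧ I.card = a ∧ (∀ i ∈ I, dg G X i ≤ D) ∧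
      ∀ v ∈ X, ∃ i ∈ I, i = v ∨ G.Adj i v := by
  classical
  set L := X.filter (fun v => dg G X v ≤ D) with hL
  have hne : (L.powerset.filter (fun I : Finset V => G.IsIndepSet (I : Set V))).Nonempty :=
    ⟨∅, by simp [SimpleGraph.IsIndepSet]⟩
  obtain ⟨I, hI, hmax⟩ := Finset.exists_max_image _ Finset.card hne
  rw [mem_filter, mem_powerset] at hI
  obtain ⟨hIL, hind⟩ := hI
  have hLX : L ⊆ X := Finset.filter_subset _ _
  have hIX : I ⊆ X := hIL.trans hLX
  have hdom : ∀ v ∈ L, ∃ i ∈ I, i = v ∨ G.Adj i v := by
    intro v hv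
    by_contra hcon
    push Not at hcon
    have hvI : v ∉ I := fun h => (hcon v h).1 rfl
    have hins : G.IsIndepSet ((insert v I : Finset V) : Set V) := by
      intro x hx y hy hxy
      rw [Finset.mem_coe, mem_insert] at hx hy
      rcases hx with rfl | hx <;> rcases hy with rfl | hy
      · exact absurd rfl hxy
      · exact fun h => (hcon y hy).2 h.symm
      · exact fun h => (hcon x hx).2 h
      · exact hind hx hy hxy
    have := hmax (insert v I) (by
      rw [mem_filter, mem_powerset]
      exact ⟨Finset.insert_subset hv hIL, hins⟩)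
    rw [Finset.card_insert_of_notMem hvI] at this
    omega
  have hcov : L ⊆ I.biUnion (fun i => insert i (X.filter (G.Adj i))) := by
    intro v hv
    obtain ⟨i, hi, h⟩ := hdom v hv
    rw [mem_biUnion]
    refine ⟨i, hi, ?_⟩
    rw [mem_insert, mem_filter]
    rcases h with rfl | h
    · exact Or.inl rfl
    · exact Or.inr ⟨hLX hv, h⟩
  have hdeg : ∀ i ∈ I, dg G X i ≤ D := fun i hi => (mem_filter.1 (hIL hi)).2
  have hLc : L.card ≤ I.card * (D + 1) := by
    refine (Finset.card_le_card hcov).trans ?_
    refine Finset.card_biUnion_le_card_mul _ _ _ ?_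
    intro i hi
    refine (Finset.card_insert_le _ _).trans ?_
    have := hdeg i hi
    unfold dg at this
    omega
  have hsplit : L.card + (X.filter (fun v => D < dg G X v)).card = X.card := by
    rw [hL]
    have := Finset.card_filter_add_card_filter_not (s := X) (fun v => dg G X v ≤ D)
    simpa only [not_le] using this
  have hIa : I.card ≤ a := hal I hIX hind
  have hIcard : I.card = a := by
    by_contra hne'
    have h1 : I.card ≤ a - 1 := by omega
    have h2 : I.card * (D + 1) ≤ (a - 1) * (D + 1) := Nat.mul_le_mul_right _ h1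
    omega
  refine ⟨I, hIX, hind, hIcard, hdeg, ?_⟩
  intro v hv
  by_contra hcon
  push Not at hcon
  have hvI : v ∉ I := fun h => (hcon v h).1 rfl
  have hins : G.IsIndepSet ((insert v I : Finset V) : Set V) := by
    intro x hx y hy hxy
    rw [Finset.mem_coe, mem_insert] at hx hy
    rcases hx with rfl | hx <;> rcases hy with rfl | hy
    · exact absurd rfl hxy
    · exact fun h => (hcon y hy).2 h.symm
    · exact fun h => (hcon x hx).2 h
    · exact hind hx hy hxy
  have := hal (insert v I) (Finset.insert_subset hv hIX) hins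
  rw [Finset.card_insert_of_notMem hvI] at this
  omega

/-- The covering lemma. -/
theorem covering {a δ : ℕ} {X I : Finset V} (hal : Al G a X) (U : V → Finset V)
    (hUX : ∀ i ∈ I, U i ⊆ X)
    (hdisj : ∀ i ∈ I, ∀ j ∈ I, i ≠ j → Disjoint (U i) (U j))
    (hout : ∀ i ∈ I, ∀ j ∈ I, i ≠ j → ∀ z ∈ U i, ((U j).filter (G.Adj z)).card ≤ δ)
    {W J : Finset V} (hWX : W ⊆ X) (hW : G.IsIndepSet (W : Set V)) (hJ : J ⊆ I)
    (hcard : a + 1 ≤ W.card + J.card) :
    ∃ i ∈ J, ((U i).filter (fun u => u ∉ W ∧ ∀ w ∈ W, ¬ G.Adj w u)).card ≤ J.card * δ := by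
  classical
  by_contra hcon
  push Not at hcon
  have key : ∀ J' : Finset V, J' ⊆ J → ∃ Z : Finset V, Z.card = J'.card ∧
      (∀ z ∈ Z, ∃ i ∈ J', z ∈ U i) ∧ Disjoint W Z ∧ G.IsIndepSet ((W ∪ Z : Finset V) : Set V) := by
    intro J'
    induction J' using Finset.induction_on with
    | empty =>
      intro _
      exact ⟨∅, by simp, by simp, by simp, by simpa using hW⟩
    | insert i J'' hi ih =>
      intro hsub
      have hiJ : i ∈ J := hsub (mem_insert_self _ _)
      have hJ''J : J'' ⊆ J := (Finset.subset_insert _ _).trans hsub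
      obtain ⟨Z, hZc, hZU, hWZ, hWZi⟩ := ih hJ''J
      have hlt : J''.card < J.card := by
        refine Finset.card_lt_card ⟨hJ''J, fun h => hi (h hiJ)⟩
      have hbad : (Z.biUnion (fun z => (U i).filter (G.Adj z))).card ≤ J''.card * δ := by
        rw [← hZc]
        refine Finset.card_biUnion_le_card_mul _ _ _ ?_
        intro z hz
        obtain ⟨i', hi', hzU⟩ := hZU z hz
        have hne : i' ≠ i := fun h => hi (h ▸ hi')
        exact hout i' (hJ (hJ''J hi')) i (hJ hiJ) hne z hzU
      have hbig := hcon i hiJ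
      have hlt2 : (Z.biUnion (fun z => (U i).filter (G.Adj z))).card <
          ((U i).filter (fun u => u ∉ W ∧ ∀ w ∈ W, ¬ G.Adj w u)).card :=
        lt_of_le_of_lt (hbad.trans (Nat.mul_le_mul_right _ hlt.le)) hbig
      obtain ⟨u, hu, hub⟩ := Finset.exists_mem_notMem_of_card_lt_card hlt2
      rw [mem_filter] at hu
      obtain ⟨huU, huW, huadj⟩ := hu
      have huZadj : ∀ z ∈ Z, ¬ G.Adj z u := by
        intro z hz h
        apply hub
        rw [mem_biUnion]
        exact ⟨z, hz, mem_filter.2 ⟨huU, h⟩⟩
      have huZ : u ∉ Z := by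
        intro hz
        obtain ⟨i', hi', hzU⟩ := hZU u hz
        have hne : i' ≠ i := fun h => hi (h ▸ hi')
        exact Finset.disjoint_left.1 (hdisj i' (hJ (hJ''J hi')) i (hJ hiJ) hne) hzU huU
      refine ⟨insert u Z, ?_, ?_, ?_, ?_⟩
      · rw [Finset.card_insert_of_notMem huZ, Finset.card_insert_of_notMem hi, hZc]
      · intro z hz
        rw [mem_insert] at hz
        rcases hz with rfl | hz
        · exact ⟨i, mem_insert_self _ _, huU⟩
        · obtain ⟨i', hi', h⟩ := hZU z hz
          exact ⟨i', mem_insert_of_mem hi', h⟩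
      · rw [Finset.disjoint_insert_right]
        exact ⟨huW, hWZ⟩
      · have hun : W ∪ insert u Z = insert u (W ∪ Z) := by
          ext x; simp only [mem_union, mem_insert]; tauto
        rw [hun]
        intro x hx y hy hxy
        rw [Finset.mem_coe, mem_insert] at hx hy
        rcases hx with rfl | hx <;> rcases hy with rfl | hy
        · exact absurd rfl hxy
        · rw [mem_union] at hy
          rcases hy with hy | hy
          · exact fun h => huadj y hy h.symm
          · exact fun h => huZadj y hy h.symm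
        · rw [mem_union] at hx
          rcases hx with hx | hx
          · exact fun h => huadj x hx h
          · exact fun h => huZadj x hx h
        · exact hWZi hx hy hxy
  obtain ⟨Z, hZc, hZU, hWZ, hWZi⟩ := key J subset_rfl
  have h1 : W ∪ Z ⊆ X := by
    refine Finset.union_subset hWX ?_
    intro z hz
    obtain ⟨i, hi, h⟩ := hZU z hz
    exact hUX i (hJ hi) h
  have h2 := hal _ h1 hWZi
  rw [Finset.card_union_of_disjoint hWZ, hZc] at h2
  omega

end Pool.Agent.TwoDens
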