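import Pool.Agent.TwoDens.Struct2

open Finset

namespace Pool.Agent.TwoDens

/-- The structure theorem: `X` splits into `a` groups that are almost cliques (at most `Λ` missing
pairs, `Λ ≤ k / N`), and every missing pair inside a group dominates another group up to `Λ`
vertices. -/
theorem struct_thm (a t N : ℕ) (ha : 2 ≤ a) : ∃ K, ∀ k, K ≤ k →
    ∀ {V : Type} [DecidableEq V] (G : SimpleGraph V) [DecidableRel G.Adj] (X : Finset V),
    Sk G k X → Al G a X → X.card + t = k * a → (∀ v ∈ X, k ≤ dg G X v + t) →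
    ∃ (I : Finset V) (h : V → V) (Λ : ℕ), I.card = a ∧ (∀ v ∈ X, h v ∈ I) ∧ N * Λ ≤ k ∧
      (∑ x ∈ X, (X.filter (fun y => h y = h x ∧ y ≠ x ∧ ¬ G.Adj x y)).card ≤ 2 * Λ) ∧
      (∀ x ∈ X, ∀ y ∈ X, x ≠ y → ¬ G.Adj x y → h x = h y →
        ∃ j ∈ I, j ≠ h x ∧
          (X.filter (fun u => h u = j ∧ ¬ G.Adj x u ∧ ¬ G.Adj y u)).card ≤ Λ) := by
  set O0 := a * (2 * a * (t + 1) + 1) + t with hO0
  set N' := 2 * N * (O0 + 1) * a + 1 with hN'
  set H0 := (t + 1) * a * N' with hH0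
  set B := N * ((O0 + 1) * (a * (O0 + H0 + 1) + H0 + O0)) with hB
  refine ⟨3 + 2 * ((a - 1) * (2 * a * (t + 1) + 1) + t) + 2 * B, ?_⟩
  intro k hk V _ G _ X hS hal hcard hdeg
  have hN'pos : 0 < N' := by omega
  set γ := k / N' with hγ
  have h1 : k ≤ (γ + 1) * N' := by
    have := Nat.lt_div_mul_add (a := k) hN'pos
    rw [hγ, add_mul, one_mul]
    omega
  obtain ⟨I, h, hI, -, hh, hP1, hP2⟩ := struct_core G (a := a) (t := t) (k := k) (N' := N')
    (γ := γ) ha (by omega) hS hal hcard hdeg (by omega) h1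
  rw [← hO0, ← hH0] at hP1
  simp only [← hO0, ← hH0] at hP2
  refine ⟨I, h, (O0 + 1) * (a * (γ + O0 + H0 + 1) + H0 + O0), hI, hh, ?_, hP1, hP2⟩
  have h2 : N * ((O0 + 1) * (a * (γ + O0 + H0 + 1) + H0 + O0)) = N * (O0 + 1) * a * γ + B := by
    rw [hB]; ring
  have h3 : γ * N' ≤ k := Nat.div_mul_le_self k N'
  have h4 : 2 * (N * (O0 + 1) * a * γ) ≤ k := by
    have h5 : γ * N' = γ * (2 * N * (O0 + 1) * a + 1) := by rw [← hN']
    have h6 : γ * (2 * N * (O0 + 1) * a + 1) = 2 * (N * (O0 + 1) * a * γ) + γ := by ring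
    have h7 : 0 ≤ γ := Nat.zero_le _
    linarith
  rw [h2]
  omega

end Pool.Agent.TwoDens
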