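import Pool.Agent.TwoDens.Bridge
import Pool.Agent.TwoDens.Cyc3
import Pool.Agent.TwoDens.RK4

open Finset

namespace Pool.Agent.TwoDens.TripleExactOld

open Pool.Agent.TwoDens

/-- `M(3(r-1), r) = (5r-6)/(3r-5)` for all `r ≥ 4`. -/
theorem result (r : ℕ) (hr : 4 ≤ r) :
    minTwoDensity (3 * (r - 1)) r = (5 * (r : ℝ) - 6) / (3 * (r : ℝ) - 5) := by
  obtain ⟨s, rfl⟩ : ∃ s, r = s + 1 := ⟨r - 1, by omega⟩
  have hs1 : s + 1 - 1 = s := by omega
  rw [hs1]
  have hs : 3 ≤ s := by omega
  have hsR : (3 : ℝ) ≤ s := by exact_mod_cast hs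
  have : NeZero s := ⟨by omega⟩
  have hval : (5 * ((s + 1 : ℕ) : ℝ) - 6) / (3 * ((s + 1 : ℕ) : ℝ) - 5) =
      (5 * (s : ℝ) - 1) / (3 * s - 2) := by
    push_cast
    congr 1 <;> ring
  rw [hval]
  have hpos : (0 : ℝ) < 3 * (s : ℝ) - 2 := by linarith
  have hval2 : (((3 : ℕ) : ℝ) + 1) / 2 - ((s : ℝ) - (3 : ℕ)) / ((s : ℝ) * (3 : ℕ) - 2) =
      (5 * (s : ℝ) - 1) / (3 * s - 2) := by
    push_cast
    have h1 : (s : ℝ) * 3 - 2 ≠ 0 := by linarith
    have h2 : 3 * (s : ℝ) - 2 ≠ 0 := by linarith
    field_simp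
    ring
  apply le_antisymm
  · refine minTwoDensity_le (div_nonneg (by linarith) hpos.le) (cycG s 3) ?_ ?_ ?_
    · rw [Fintype.card_prod, ZMod.card, Fintype.card_fin, mul_comm]
    · intro I hI
      have := cyc_indep (by omega) I hI
      omega
    · intro Y hY
      have := cyc_sparse (s := s) (k := 3) le_rfl hs Y hY
      rw [hval2] at this
      exact this
  · refine le_minTwoDensity (by omega) ?_
    intro G _ hα
    by_cases htf : ∀ x y z, G.Adj x y → G.Adj y z → ¬ G.Adj x z
    · refine ⟨Finset.univ, ?_, ?_⟩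
      · rw [Finset.card_univ, Fintype.card_fin]
        omega
      · have hal : Al G s Finset.univ := by
          intro I _ hI
          have := hα I hI
          omega
        have h1 := RK.main htf _ Finset.univ rfl s hal
        rw [Finset.card_univ, Fintype.card_fin] at h1 ⊢
        have h2 : 10 * s ≤ e2 G Finset.univ := by omega
        have h3 : 10 * (s : ℝ) ≤ e2 G Finset.univ := by exact_mod_cast h2
        have h4 : 2 + 2 * ((5 * (s : ℝ) - 1) / (3 * s - 2)) * (((3 * s : ℕ) : ℝ) - 2) = 10 * s := by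
          have h5 : 3 * (s : ℝ) - 2 ≠ 0 := by linarith
          have h6 : (5 * (s : ℝ) - 1) / (3 * s - 2) * (3 * s - 2) = 5 * s - 1 :=
            div_mul_cancel₀ _ h5
          push_cast
          rw [mul_assoc, h6]
          ring
        rw [h4]
        exact h3
    · push Not at htf
      obtain ⟨x, y, z, hxy, hyz, hxz⟩ := htf
      have h1 : x ≠ y := hxy.ne
      have h2 : y ≠ z := hyz.ne
      have h3 : x ≠ z := hxz.ne
      have hc : ({x, y, z} : Finset (Fin (3 * s))).card = 3 := by
        rw [Finset.card_insert_of_notMem, Finset.card_pair h2]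
        simp [h1, h3]
      refine ⟨{x, y, z}, hc.ge, ?_⟩
      have hm : m2 G {x, y, z} = 0 := by
        unfold m2
        rw [Finset.sum_eq_zero_iff]
        intro p hp
        rw [Finset.card_eq_zero, Finset.filter_eq_empty_iff]
        rintro q hq ⟨h4, h5⟩
        simp only [mem_insert, mem_singleton] at hp hq
        rcases hp with rfl | rfl | rfl <;> rcases hq with rfl | rfl | rfl
        · exact h4 rfl
        · exact h5 hxy
        · exact h5 hxz
        · exact h5 hxy.symm
        · exact h4 rfl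
        · exact h5 hyz
        · exact h5 hxz.symm
        · exact h5 hyz.symm
        · exact h4 rfl
      have he := e2_add_m2 G {x, y, z}
      rw [hm, hc] at he
      have he' : e2 G {x, y, z} = 6 := by omega
      rw [he', hc]
      have h5 : (5 * (s : ℝ) - 1) / (3 * s - 2) ≤ 2 := by
        rw [div_le_iff₀ hpos]
        linarith
      push_cast
      linarith

end Pool.Agent.TwoDens.TripleExactOld
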